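import Pool.Agent.Helper98.MH.Basic

/-!
Heavy problem MP_b8862a_ag, theorem on a dominating middle eigenvalue, parts (i), (ii), (iii): if the
subalgebra `KK` of the elements living on the kernel of `h` has dimension at most one, then twice the
dimension of the kernel of `h` is at most three times the square of the dimension `s ≥ 2` of the positive part.

(i) `T = ∑ z zᴴ` over an orthonormal basis of `L` is scalar; the trace of `P T` (`P` the projection onto the
positive part) with an adapted basis gives `casimir_ineq`. (ii) `rank_zero_le`: the kernel of `h` embeds into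
`Hom (Lup, V₊)`. (iii) `finrank_ze`: the elements of degree zero embed into `End V₊` up to `KK`.
-/

open Matrix

namespace MH
variable {n : Type*} [Fintype n] [DecidableEq n]

/-- the Hilbert–Schmidt form -/
noncomputable def hs (x y : Matrix n n ℂ) : ℂ := (xᴴ * y).trace

/-- its square norm -/
noncomputable def nrm (x : Matrix n n ℂ) : ℝ := (hs x x).re

omit [DecidableEq n] in
theorem hs_eq (x y : Matrix n n ℂ) : hs x y = ∑ i, ∑ j, star (x i j) * y i j := by
  unfold hs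
  rw [Matrix.trace]
  simp only [Matrix.diag_apply, Matrix.mul_apply, Matrix.conjTranspose_apply]
  rw [Finset.sum_comm]

omit [DecidableEq n] in
theorem nrm_eq (x : Matrix n n ℂ) : nrm x = ∑ i, ∑ j, ‖x i j‖ ^ 2 := by
  unfold nrm
  rw [hs_eq, Complex.re_sum]
  refine Finset.sum_congr rfl fun i _ => ?_
  rw [Complex.re_sum]
  refine Finset.sum_congr rfl fun j _ => ?_
  rw [Complex.star_def, ← Complex.normSq_eq_conj_mul_self, Complex.ofReal_re, Complex.normSq_eq_norm_sq]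

omit [DecidableEq n] in
theorem hs_self (x : Matrix n n ℂ) : hs x x = (nrm x : ℂ) := by
  rw [hs_eq, nrm_eq, Complex.ofReal_sum]
  refine Finset.sum_congr rfl fun i _ => ?_
  rw [Complex.ofReal_sum]
  refine Finset.sum_congr rfl fun j _ => ?_
  rw [Complex.star_def, ← Complex.normSq_eq_conj_mul_self, Complex.normSq_eq_norm_sq]

omit [DecidableEq n] in
theorem nrm_nonneg (x : Matrix n n ℂ) : 0 ≤ nrm x := by
  rw [nrm_eq]
  positivity

omit [DecidableEq n] in
theorem nrm_eq_zero {x : Matrix n n ℂ} (h : nrm x = 0) : x = 0 := by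
  rw [nrm_eq, Finset.sum_eq_zero_iff_of_nonneg (fun i _ => by positivity)] at h
  ext i j
  have h1 := h i (Finset.mem_univ i)
  rw [Finset.sum_eq_zero_iff_of_nonneg (fun i _ => by positivity)] at h1
  have h2 := h1 j (Finset.mem_univ j)
  simpa using h2

omit [DecidableEq n] in
theorem hs_conj (x y : Matrix n n ℂ) : star (hs x y) = hs y x := by
  unfold hs
  rw [← Matrix.trace_conjTranspose, Matrix.conjTranspose_mul, Matrix.conjTranspose_conjTranspose]

/-- an orthonormal basis of the subspace `S` -/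
structure ONB {ι : Type*} [Fintype ι] [DecidableEq ι] (S : Submodule ℂ (Matrix n n ℂ))
    (z : ι → Matrix n n ℂ) : Prop where
  orth : ∀ a b, hs (z a) (z b) = if a = b then 1 else 0
  mem : ∀ a, z a ∈ S
  exp : ∀ x ∈ S, x = ∑ a, hs (z a) x • z a

/-- matrices as vectors -/
private noncomputable def vec21 : Matrix n n ℂ ≃ₗ[ℂ] EuclideanSpace ℂ (n × n) where
  toFun x := WithLp.toLp 2 fun p => x p.1 p.2
  invFun v := Matrix.of fun i j => v (i, j)
  map_add' x y := by ext p; rfl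
  map_smul' c x := by ext p; rfl
  left_inv x := by ext i j; rfl
  right_inv v := by ext p; rfl

omit [DecidableEq n] in
private theorem inner_vec21 (x y : Matrix n n ℂ) : inner ℂ (vec21 x) (vec21 y) = hs x y := by
  rw [hs_eq, PiLp.inner_apply, Fintype.sum_prod_type]
  refine Finset.sum_congr rfl fun i _ => Finset.sum_congr rfl fun j _ => ?_
  simp [vec21, mul_comm]

omit [DecidableEq n] in
theorem exists_onb (S : Submodule ℂ (Matrix n n ℂ)) :
    ∃ z : Fin (Module.finrank ℂ S) → Matrix n n ℂ, ONB S z := by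
  let S' : Submodule ℂ (EuclideanSpace ℂ (n × n)) := S.map (vec21 (n := n)).toLinearMap
  have hf : Module.finrank ℂ S' = Module.finrank ℂ S := LinearEquiv.finrank_map_eq vec21 S
  let e := (stdOrthonormalBasis ℂ S').reindex (finCongr hf)
  have hz : ∀ a, vec21 (vec21.symm (e a : EuclideanSpace ℂ (n × n))) = (e a : EuclideanSpace ℂ (n × n)) :=
    fun a => LinearEquiv.apply_symm_apply _ _
  refine ⟨fun a => vec21.symm (e a : EuclideanSpace ℂ (n × n)), ?_, ?_, ?_⟩
  · intro a b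
    rw [← inner_vec21, hz, hz, ← Submodule.coe_inner, e.inner_eq_ite]
  · intro a
    obtain ⟨x, hx, hx'⟩ := Submodule.mem_map.1 (e a).2
    have : vec21.symm (e a : EuclideanSpace ℂ (n × n)) = x := by
      rw [← hx']
      exact LinearEquiv.symm_apply_apply _ _
    rw [this]
    exact hx
  · intro x hx
    have hx' : vec21 x ∈ S' := Submodule.mem_map_of_mem hx
    have h1 := e.sum_repr' ⟨vec21 x, hx'⟩
    have h2 := congrArg (fun y : S' => vec21.symm (y : EuclideanSpace ℂ (n × n))) h1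
    simp only [LinearEquiv.symm_apply_apply] at h2
    refine h2.symm.trans ?_
    rw [Submodule.coe_sum, map_sum]
    refine Finset.sum_congr rfl fun a _ => ?_
    rw [Submodule.coe_smul, map_smul, Submodule.coe_inner]
    congr 1
    rw [← inner_vec21, hz]


/-! ### the Casimir element -/

section casimir

variable {ι : Type*} [Fintype ι] [DecidableEq ι] {L : Submodule ℂ (Matrix n n ℂ)}

omit [DecidableEq n] in
theorem hs_add_right (x y y' : Matrix n n ℂ) : hs x (y + y') = hs x y + hs x y' := by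
  unfold hs
  rw [mul_add, Matrix.trace_add]

omit [DecidableEq n] in
theorem hs_smul_right (c : ℂ) (x y : Matrix n n ℂ) : hs x (c • y) = c * hs x y := by
  unfold hs
  rw [mul_smul_comm, Matrix.trace_smul, smul_eq_mul]

omit [DecidableEq n] in
theorem hs_sum_right {κ : Type*} (s : Finset κ) (x : Matrix n n ℂ) (y : κ → Matrix n n ℂ) :
    hs x (∑ a ∈ s, y a) = ∑ a ∈ s, hs x (y a) := by
  unfold hs
  rw [Finset.mul_sum, Matrix.trace_sum]

omit [DecidableEq n] [DecidableEq ι] in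
theorem ONB.of_span [DecidableEq ι] {z : ι → Matrix n n ℂ} (orth : ∀ a b, hs (z a) (z b) = if a = b then 1 else 0)
    (mem : ∀ a, z a ∈ L) (sp : ∀ x ∈ L, ∃ c : ι → ℂ, x = ∑ a, c a • z a) : ONB L z := by
  refine ⟨orth, mem, fun x hx => ?_⟩
  obtain ⟨c, hc⟩ := sp x hx
  have h1 : ∀ a, hs (z a) x = c a := by
    intro a
    rw [hc, hs_sum_right]
    simp_rw [hs_smul_right, orth]
    simp
  simp_rw [h1]
  exact hc

omit [DecidableEq n] in
theorem ONB.casimir {z : ι → Matrix n n ℂ} (hz : ONB L z)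
    (br : ∀ x ∈ L, ∀ y ∈ L, x * y - y * x ∈ L) (st : ∀ x ∈ L, xᴴ ∈ L) {y : Matrix n n ℂ} (hy : y ∈ L) :
    (∑ a, z a * (z a)ᴴ) * y = y * ∑ a, z a * (z a)ᴴ := by
  have h1 : ∀ a, y * z a - z a * y = ∑ b, hs (z b) (y * z a - z a * y) • z b :=
    fun a => hz.exp _ (br y hy _ (hz.mem a))
  have h2 : ∀ a, yᴴ * z a - z a * yᴴ = ∑ b, hs (z b) (yᴴ * z a - z a * yᴴ) • z b :=
    fun a => hz.exp _ (br _ (st y hy) _ (hz.mem a))
  have h3 : ∀ a b, star (hs (z b) (yᴴ * z a - z a * yᴴ)) = hs (z a) (y * z b - z b * y) := by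
    intro a b
    rw [hs_conj]
    unfold hs
    rw [Matrix.conjTranspose_sub, Matrix.conjTranspose_mul, Matrix.conjTranspose_mul,
      Matrix.conjTranspose_conjTranspose, sub_mul, mul_sub, Matrix.trace_sub, Matrix.trace_sub,
      mul_assoc, mul_assoc y, Matrix.trace_mul_comm y, mul_assoc]
  have h4 : ∀ a, (z a)ᴴ * y - y * (z a)ᴴ = ∑ b, hs (z a) (y * z b - z b * y) • (z b)ᴴ := by
    intro a
    have h5 := congrArg Matrix.conjTranspose (h2 a)
    rw [Matrix.conjTranspose_sub, Matrix.conjTranspose_mul, Matrix.conjTranspose_mul,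
      Matrix.conjTranspose_conjTranspose, Matrix.conjTranspose_sum] at h5
    rw [h5]
    refine Finset.sum_congr rfl fun b _ => ?_
    rw [Matrix.conjTranspose_smul, h3]
  have h6 : y * (∑ a, z a * (z a)ᴴ) - (∑ a, z a * (z a)ᴴ) * y =
      ∑ a, ((y * z a - z a * y) * (z a)ᴴ - z a * ((z a)ᴴ * y - y * (z a)ᴴ)) := by
    rw [Finset.mul_sum, Finset.sum_mul, ← Finset.sum_sub_distrib]
    refine Finset.sum_congr rfl fun a _ => ?_
    noncomm_ring
  have h7 : ∑ a, ((y * z a - z a * y) * (z a)ᴴ - z a * ((z a)ᴴ * y - y * (z a)ᴴ)) = 0 := by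
    rw [Finset.sum_sub_distrib, sub_eq_zero]
    have e1 : ∑ a, (y * z a - z a * y) * (z a)ᴴ =
        ∑ a, ∑ b, hs (z b) (y * z a - z a * y) • (z b * (z a)ᴴ) := by
      refine Finset.sum_congr rfl fun a _ => ?_
      conv_lhs => rw [h1 a]
      rw [Finset.sum_mul]
      refine Finset.sum_congr rfl fun b _ => ?_
      rw [smul_mul_assoc]
    have e2 : ∑ a, z a * ((z a)ᴴ * y - y * (z a)ᴴ) =
        ∑ a, ∑ b, hs (z a) (y * z b - z b * y) • (z a * (z b)ᴴ) := by
      refine Finset.sum_congr rfl fun a _ => ?_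
      rw [h4 a, Finset.mul_sum]
      refine Finset.sum_congr rfl fun b _ => ?_
      rw [mul_smul_comm]
    rw [e1, e2, Finset.sum_comm]
  rw [h7] at h6
  exact (sub_eq_zero.1 h6).symm

omit [DecidableEq n] in
/-- the square norm of `P x` for a projection `P` -/
theorem nrm_proj {P : Matrix n n ℂ} (h1 : P * P = P) (h2 : Pᴴ = P) (x : Matrix n n ℂ) :
    (nrm (P * x) : ℂ) = (P * (x * xᴴ)).trace := by
  rw [← hs_self]
  unfold hs
  have e1 : (P * (x * xᴴ)).trace = (P * P * (x * xᴴ)).trace := by rw [h1]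
  rw [Matrix.conjTranspose_mul, h2, Matrix.trace_mul_comm, e1, mul_assoc P P, Matrix.trace_mul_comm P]
  simp only [mul_assoc]

theorem ONB.trace_eq {z : ι → Matrix n n ℂ} (hz : ONB L z)
    (br : ∀ x ∈ L, ∀ y ∈ L, x * y - y * x ∈ L) (st : ∀ x ∈ L, xᴴ ∈ L)
    (irr : ∀ T : Matrix n n ℂ, (∀ x ∈ L, T * x = x * T) → ∃ c : ℂ, T = c • (1 : Matrix n n ℂ))
    {P : Matrix n n ℂ} (h1 : P * P = P) (h2 : Pᴴ = P) {s : ℕ} (h3 : P.trace = s) :
    (Fintype.card n : ℝ) * ∑ a, nrm (P * z a) = Fintype.card ι * s := by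
  obtain ⟨c, hc⟩ := irr _ fun y hy => hz.casimir br st hy
  have e1 : c * Fintype.card n = Fintype.card ι := by
    have h4 := congrArg Matrix.trace hc
    rw [Matrix.trace_sum, Matrix.trace_smul, Matrix.trace_one, smul_eq_mul] at h4
    rw [← h4]
    have h5 : ∀ a, (z a * (z a)ᴴ).trace = 1 := by
      intro a
      rw [Matrix.trace_mul_comm]
      have := hz.orth a a
      rw [if_pos rfl] at this
      exact this
    simp_rw [h5]
    simp
  have e2 : c * s = ((∑ a, nrm (P * z a) : ℝ) : ℂ) := by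
    rw [Complex.ofReal_sum]
    simp_rw [nrm_proj h1 h2]
    rw [← Matrix.trace_sum, ← Finset.mul_sum, hc, mul_smul_comm, mul_one, Matrix.trace_smul, h3, smul_eq_mul]
  have e3 : ((((Fintype.card n : ℝ) * ∑ a, nrm (P * z a) : ℝ)) : ℂ) = ((Fintype.card ι * s : ℝ) : ℂ) := by
    rw [Complex.ofReal_mul, ← e2, Complex.ofReal_mul]
    simp only [Complex.ofReal_natCast]
    rw [← e1]
    ring
  exact_mod_cast e3

end casimir

/-! ### norms and projections -/

section norms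

omit [DecidableEq n] in
theorem nrm_star (x : Matrix n n ℂ) : nrm xᴴ = nrm x := by
  unfold nrm hs
  rw [Matrix.conjTranspose_conjTranspose, Matrix.trace_mul_comm]

omit [DecidableEq n] in
theorem nrm_neg (x : Matrix n n ℂ) : nrm (-x) = nrm x := by
  unfold nrm hs
  rw [Matrix.conjTranspose_neg, neg_mul_neg]

omit [DecidableEq n] in
theorem nrm_smul (c : ℂ) (x : Matrix n n ℂ) : nrm (c • x) = ‖c‖ ^ 2 * nrm x := by
  rw [nrm_eq, nrm_eq, Finset.mul_sum]
  refine Finset.sum_congr rfl fun i _ => ?_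
  rw [Finset.mul_sum]
  refine Finset.sum_congr rfl fun j _ => ?_
  rw [Matrix.smul_apply, smul_eq_mul, norm_mul, mul_pow]

theorem nrm_left {P Z Q : Matrix n n ℂ} (hP : P * P = P) (hP' : Pᴴ = P) (hZ : Z * Z = Z) (hZ' : Zᴴ = Z)
    (hQ : Q * Q = Q) (hQ' : Qᴴ = Q) (h1 : P + Z + Q = 1) (x : Matrix n n ℂ) :
    nrm x = nrm (P * x) + nrm (Z * x) + nrm (Q * x) := by
  have h2 : ((nrm x : ℝ) : ℂ) = ((nrm (P * x) + nrm (Z * x) + nrm (Q * x) : ℝ) : ℂ) := by
    rw [Complex.ofReal_add, Complex.ofReal_add, nrm_proj hP hP', nrm_proj hZ hZ', nrm_proj hQ hQ',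
      ← Matrix.trace_add, ← Matrix.trace_add, ← add_mul, ← add_mul, h1, one_mul, ← nrm_star, ← hs_self]
    unfold hs
    rw [Matrix.conjTranspose_conjTranspose]
  exact_mod_cast h2

theorem nrm_right {P Z Q : Matrix n n ℂ} (hP : P * P = P) (hP' : Pᴴ = P) (hZ : Z * Z = Z) (hZ' : Zᴴ = Z)
    (hQ : Q * Q = Q) (hQ' : Qᴴ = Q) (h1 : P + Z + Q = 1) (x : Matrix n n ℂ) :
    nrm x = nrm (x * P) + nrm (x * Z) + nrm (x * Q) := by
  have h2 := nrm_left hP hP' hZ hZ' hQ hQ' h1 xᴴ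
  rw [nrm_star] at h2
  rw [h2, ← nrm_star (x * P), ← nrm_star (x * Z), ← nrm_star (x * Q), Matrix.conjTranspose_mul,
    Matrix.conjTranspose_mul, Matrix.conjTranspose_mul, hP', hZ', hQ']

end norms

/-! ### the three projections -/

/-- the projection onto the negative part -/
noncomputable def Qn (E : ℝ → Matrix n n ℂ) (Λ : Finset ℝ) : Matrix n n ℂ :=
  ∑ μ ∈ Λ.filter (fun μ => μ < 0), E μ

variable {h : Matrix n n ℂ} {E : ℝ → Matrix n n ℂ} {Λ : Finset ℝ}
  {τ : Matrix n n ℂ →ₗ[ℂ] Matrix n n ℂ} {L : Submodule ℂ (Matrix n n ℂ)}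

theorem Spec.sum_mul_sum (S : Spec h E Λ) (A : Finset ℝ) : (∑ μ ∈ A, E μ) * ∑ μ ∈ A, E μ = ∑ μ ∈ A, E μ := by
  rw [Finset.sum_mul]
  refine Finset.sum_congr rfl fun μ hμ => ?_
  rw [Finset.mul_sum, Finset.sum_eq_single μ]
  · rw [S.mul, if_pos rfl]
  · intro ν _ hν
    rw [S.mul, if_neg (Ne.symm hν)]
  · intro h'
    exact absurd hμ h'

theorem Spec.sum_star (S : Spec h E Λ) (A : Finset ℝ) : (∑ μ ∈ A, E μ)ᴴ = ∑ μ ∈ A, E μ := by
  rw [Matrix.conjTranspose_sum]
  exact Finset.sum_congr rfl fun μ _ => S.star μ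

theorem Spec.one_eq (S : Spec h E Λ) : Pp E Λ + E 0 + Qn E Λ = 1 := by
  unfold Pp Qn
  rw [← S.sum]
  have h1 : ∑ μ ∈ Λ, E μ = ∑ μ ∈ Λ.filter (fun μ => 0 < μ), E μ + ∑ μ ∈ Λ.filter (fun μ => ¬ 0 < μ), E μ :=
    (Finset.sum_filter_add_sum_filter_not Λ (fun μ => 0 < μ) E).symm
  have h2 : ∑ μ ∈ Λ.filter (fun μ => ¬ 0 < μ), E μ = E 0 + ∑ μ ∈ Λ.filter (fun μ => μ < 0), E μ := by
    rw [Finset.sum_filter, Finset.sum_filter]
    by_cases h0 : (0 : ℝ) ∈ Λ
    · rw [← Finset.add_sum_erase Λ _ h0, ← Finset.add_sum_erase Λ _ h0]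
      simp only [lt_irrefl, not_false_eq_true, if_true, if_false, zero_add]
      congr 1
      refine Finset.sum_congr rfl fun μ hμ => ?_
      have h3 := Finset.ne_of_mem_erase hμ
      by_cases h4 : 0 < μ
      · rw [if_neg (not_not.2 h4), if_neg (not_lt.2 h4.le)]
      · rw [if_pos h4, if_pos (lt_of_le_of_ne (not_lt.1 h4) h3)]
    · rw [S.supp 0 h0, zero_add]
      refine Finset.sum_congr rfl fun μ hμ => ?_
      have h3 : μ ≠ 0 := fun h5 => h0 (h5 ▸ hμ)
      by_cases h4 : 0 < μ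
      · rw [if_neg (not_not.2 h4), if_neg (not_lt.2 h4.le)]
      · rw [if_pos h4, if_pos (lt_of_le_of_ne (not_lt.1 h4) h3)]
  rw [h1, h2, add_assoc]

theorem Dat.tauP (D : Dat τ L h E Λ) : τ (Pp E Λ) = Qn E Λ := by
  have S := D.spec
  have h1 : τ (Pp E Λ) = ∑ μ ∈ Λ.filter (fun μ => 0 < μ), E (-μ) := by
    unfold Pp
    rw [map_sum]
    exact Finset.sum_congr rfl fun μ _ => D.tauE μ
  have h2 : ∀ ν ∈ Λ, τ (Pp E Λ) * E ν = if ν < 0 then E ν else 0 := by
    intro ν _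
    rw [h1, Finset.sum_mul]
    by_cases hν : ν < 0
    · rw [if_pos hν]
      by_cases hm : -ν ∈ Λ
      · rw [Finset.sum_eq_single (-ν)]
        · rw [neg_neg, S.mul, if_pos rfl]
        · intro μ _ hμ
          rw [S.mul, if_neg]
          intro h3
          exact hμ (by linarith)
        · intro h3
          exact absurd (Finset.mem_filter.2 ⟨hm, by linarith⟩) h3
      · have h3 : E ν = 0 := by
          have h4 := D.tauE (-ν)
          rw [S.supp _ hm, map_zero, neg_neg] at h4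
          exact h4.symm
        rw [h3]
        simp
    · rw [if_neg hν]
      refine Finset.sum_eq_zero fun μ hμ => ?_
      rw [S.mul, if_neg]
      intro h3
      have h4 := (Finset.mem_filter.1 hμ).2
      exact hν (by linarith)
  have h3 : τ (Pp E Λ) = τ (Pp E Λ) * ∑ ν ∈ Λ, E ν := by rw [S.sum, mul_one]
  rw [h3, Finset.mul_sum, Finset.sum_congr rfl h2]
  unfold Qn
  rw [Finset.sum_filter]

theorem Dat.tauQ (D : Dat τ L h E Λ) : τ (Qn E Λ) = Pp E Λ := by
  rw [← D.tauP, D.inv.inv]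

theorem Dat.tauZ (D : Dat τ L h E Λ) : τ (E 0) = E 0 := by
  rw [D.tauE, neg_zero]

theorem Dat.nrm_tau (D : Dat τ L h E Λ) (x : Matrix n n ℂ) : nrm (τ x) = nrm x := by
  unfold nrm hs
  rw [← D.inv.star, ← D.inv.mul, D.inv.tr, Matrix.trace_mul_comm]

/-- the blocks of `x` outside the relation `R` vanish -/
def Bl (E : ℝ → Matrix n n ℂ) (R : ℝ → ℝ → Prop) (x : Matrix n n ℂ) : Prop :=
  ∀ μ ν, ¬ R μ ν → E μ * x * E ν = 0

omit [DecidableEq n] in
theorem Bl.sum_zero {R : ℝ → ℝ → Prop} {x : Matrix n n ℂ} (hx : Bl E R x) {A B : Finset ℝ}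
    (h1 : ∀ μ ∈ A, ∀ ν ∈ B, ¬ R μ ν) : (∑ μ ∈ A, E μ) * x * (∑ ν ∈ B, E ν) = 0 := by
  rw [Finset.sum_mul, Finset.sum_mul]
  refine Finset.sum_eq_zero fun μ hμ => ?_
  rw [Finset.mul_sum]
  exact Finset.sum_eq_zero fun ν hν => hx μ ν (h1 μ hμ ν hν)

theorem Spec.hs_block (S : Spec h E Λ) (x y : Matrix n n ℂ) (μ ν : ℝ) :
    hs x (E μ * y * E ν) = hs (E μ * x * E ν) y := by
  unfold hs
  rw [Matrix.conjTranspose_mul, Matrix.conjTranspose_mul, S.star, S.star, mul_assoc, mul_assoc,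
    Matrix.trace_mul_comm (E ν)]
  simp only [mul_assoc]

theorem Spec.hs_zero (S : Spec h E Λ) {x y : Matrix n n ℂ} {R R' : ℝ → ℝ → Prop} (hx : Bl E R x)
    (hy : Bl E R' y) (hR : ∀ μ ν, ¬ (R μ ν ∧ R' μ ν)) : hs x y = 0 := by
  have h1 := S.blocks y
  have h2 : hs x y = ∑ μ ∈ Λ, ∑ ν ∈ Λ, hs x (E μ * y * E ν) := by
    conv_lhs => rw [h1]
    rw [hs_sum_right]
    refine Finset.sum_congr rfl fun μ _ => ?_
    rw [hs_sum_right]
  rw [h2]
  refine Finset.sum_eq_zero fun μ _ => Finset.sum_eq_zero fun ν _ => ?_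
  by_cases h3 : R μ ν
  · rw [hy μ ν fun h4 => hR μ ν ⟨h3, h4⟩]
    unfold hs
    simp
  · rw [S.hs_block, hx μ ν h3]
    unfold hs
    simp

/-- the elements of `L` with blocks in `R` -/
def LR (L : Submodule ℂ (Matrix n n ℂ)) (E : ℝ → Matrix n n ℂ) (R : ℝ → ℝ → Prop) :
    Submodule ℂ (Matrix n n ℂ) where
  carrier := {x | x ∈ L ∧ Bl E R x}
  add_mem' := by
    rintro a b ⟨ha, ha'⟩ ⟨hb, hb'⟩
    refine ⟨L.add_mem ha hb, fun μ ν h => ?_⟩
    rw [mul_add, add_mul, ha' μ ν h, hb' μ ν h, add_zero]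
  zero_mem' := ⟨L.zero_mem, fun μ ν _ => by simp⟩
  smul_mem' := by
    rintro c a ⟨ha, ha'⟩
    refine ⟨L.smul_mem c ha, fun μ ν h => ?_⟩
    rw [mul_smul_comm, smul_mul_assoc, ha' μ ν h, smul_zero]

/-- raising elements -/
abbrev Lup (L : Submodule ℂ (Matrix n n ℂ)) (E : ℝ → Matrix n n ℂ) := LR L E (fun μ ν => ν < μ)
/-- elements of degree zero -/
abbrev Lze (L : Submodule ℂ (Matrix n n ℂ)) (E : ℝ → Matrix n n ℂ) := LR L E (fun μ ν => μ = ν)
/-- lowering elements -/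
abbrev Ldo (L : Submodule ℂ (Matrix n n ℂ)) (E : ℝ → Matrix n n ℂ) := LR L E (fun μ ν => μ < ν)

theorem Dat.split (D : Dat τ L h E Λ) {x : Matrix n n ℂ} (hx : x ∈ L) :
    ∃ u ∈ Lup L E, ∃ z ∈ Lze L E, ∃ d ∈ Ldo L E, x = u + z + d := by
  classical
  have S := D.spec
  set Δ := (Λ ×ˢ Λ).image (fun p => p.1 - p.2) with hΔ
  have gen : ∀ (p : ℝ → Prop) [DecidablePred p], (∑ ν ∈ Δ.filter p, cmp E Λ ν x) ∈ LR L E (fun μ ν => p (μ - ν)) := by
    intro p _
    refine ⟨L.sum_mem fun ν _ => D.cmp_mem hx ν, fun μ ν hn => ?_⟩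
    rw [Finset.mul_sum, Finset.sum_mul]
    refine Finset.sum_eq_zero fun κ hκ => ?_
    rw [S.block_cmp, if_neg]
    intro h1
    have h2 := (Finset.mem_filter.1 hκ).2
    rw [← h1] at h2
    exact hn h2
  have mono : ∀ {R R' : ℝ → ℝ → Prop}, (∀ μ ν, R μ ν → R' μ ν) → ∀ y ∈ LR L E R, y ∈ LR L E R' := by
    intro R R' h1 y hy
    exact ⟨hy.1, fun μ ν h2 => hy.2 μ ν fun h3 => h2 (h1 μ ν h3)⟩
  refine ⟨∑ ν ∈ Δ.filter (fun ν => 0 < ν), cmp E Λ ν x, mono (fun μ ν h1 => by linarith) _ (gen (fun ν => 0 < ν)),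
    ∑ ν ∈ Δ.filter (fun ν => ν = 0), cmp E Λ ν x, mono (fun μ ν h1 => by linarith) _ (gen (fun ν => ν = 0)),
    ∑ ν ∈ Δ.filter (fun ν => ν < 0), cmp E Λ ν x, mono (fun μ ν h1 => by linarith) _ (gen (fun ν => ν < 0)), ?_⟩
  conv_lhs => rw [S.sum_cmp x]
  rw [Finset.sum_filter, Finset.sum_filter, Finset.sum_filter, ← Finset.sum_add_distrib, ← Finset.sum_add_distrib]
  refine Finset.sum_congr rfl fun ν _ => ?_
  rcases lt_trichotomy ν 0 with h1 | h1 | h1
  · rw [if_neg (not_lt.2 h1.le), if_neg h1.ne, if_pos h1, zero_add, zero_add]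
  · rw [if_neg (by rw [h1]; exact lt_irrefl _), if_pos h1, if_neg (by rw [h1]; exact lt_irrefl _), zero_add,
      add_zero]
  · rw [if_pos h1, if_neg h1.ne', if_neg (not_lt.2 h1.le), add_zero, add_zero]

theorem Spec.star_Bl (S : Spec h E Λ) {R R' : ℝ → ℝ → Prop} (hR : ∀ μ ν, R μ ν → R' ν μ) {x : Matrix n n ℂ}
    (hx : Bl E R x) : Bl E R' xᴴ := by
  intro μ ν h1
  have h2 := hx ν μ fun h3 => h1 (hR ν μ h3)
  have h3 := congrArg Matrix.conjTranspose h2
  rw [Matrix.conjTranspose_mul, Matrix.conjTranspose_mul, S.star, S.star, Matrix.conjTranspose_zero,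
    ← mul_assoc] at h3
  exact h3

theorem Dat.star_up (D : Dat τ L h E Λ) {x : Matrix n n ℂ} (hx : x ∈ Lup L E) : xᴴ ∈ Ldo L E :=
  ⟨D.st _ hx.1, D.spec.star_Bl (fun _ _ h => h) hx.2⟩

theorem Dat.star_do (D : Dat τ L h E Λ) {x : Matrix n n ℂ} (hx : x ∈ Ldo L E) : xᴴ ∈ Lup L E :=
  ⟨D.st _ hx.1, D.spec.star_Bl (fun _ _ h => h) hx.2⟩

/-- the main inequality for raising elements -/
theorem Dat.nrm_up (D : Dat τ L h E Λ) {x : Matrix n n ℂ} (hx : x ∈ Lup L E) :
    nrm x ≤ 2 * (nrm (Pp E Λ * x) + nrm (Pp E Λ * xᴴ)) := by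
  have S := D.spec
  set P := Pp E Λ with hP
  set Q := Qn E Λ with hQ
  have hPP : P * P = P := S.sum_mul_sum _
  have hPs : Pᴴ = P := S.sum_star _
  have hQQ : Q * Q = Q := S.sum_mul_sum _
  have hQs : Qᴴ = Q := S.sum_star _
  have hZZ : E 0 * E 0 = E 0 := by rw [S.mul, if_pos rfl]
  have hZs : (E 0)ᴴ = E 0 := S.star 0
  have h1 : P + E 0 + Q = 1 := S.one_eq
  have L1 := nrm_left hPP hPs hZZ hZs hQQ hQs h1
  have R1 := nrm_right hPP hPs hZZ hZs hQQ hQs h1
  have e0 : E 0 = ∑ μ ∈ ({0} : Finset ℝ), E μ := by rw [Finset.sum_singleton]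
  have z1 : E 0 * x * P = 0 := by
    rw [e0, hP]
    unfold Pp
    refine hx.2.sum_zero fun μ hμ ν hν => ?_
    have := (Finset.mem_filter.1 hν).2
    rw [Finset.mem_singleton.1 hμ]
    exact not_lt.2 this.le
  have z2 : E 0 * x * E 0 = 0 := hx.2 0 0 (lt_irrefl _)
  have z3 : Q * x * P = 0 := by
    rw [hQ, hP]
    unfold Pp Qn
    refine hx.2.sum_zero fun μ hμ ν hν => ?_
    have h2 := (Finset.mem_filter.1 hν).2
    have h3 := (Finset.mem_filter.1 hμ).2
    exact not_lt.2 (h3.trans h2).le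
  have z4 : Q * x * E 0 = 0 := by
    rw [hQ, e0]
    unfold Qn
    refine hx.2.sum_zero fun μ hμ ν hν => ?_
    have h3 := (Finset.mem_filter.1 hμ).2
    rw [Finset.mem_singleton.1 hν]
    exact not_lt.2 h3.le
  have a1 := L1 x
  have a2 := R1 (P * x)
  have a3 := R1 (E 0 * x)
  have a4 := R1 (Q * x)
  rw [z1, z2] at a3
  rw [z3, z4] at a4
  have n0 : nrm (0 : Matrix n n ℂ) = 0 := by
    unfold nrm hs
    simp
  rw [n0] at a3 a4
  have a5 : nrm (P * xᴴ) = nrm (P * x * P) := by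
    have b1 : nrm (P * xᴴ) = nrm (x * P) := by
      rw [← nrm_star, Matrix.conjTranspose_mul, Matrix.conjTranspose_conjTranspose, hPs]
    have b2 : x * P = P * x * P := by
      have b3 : x * P = (P + E 0 + Q) * (x * P) := by rw [h1, one_mul]
      rw [b3, add_mul, add_mul, ← mul_assoc, ← mul_assoc, ← mul_assoc, z1, z3, add_zero, add_zero]
    rw [b1]
    exact congrArg nrm b2
  have t1 : nrm (Q * x * Q) = nrm (P * x * P) := by
    rw [← D.nrm_tau (P * x * P), D.inv.mul, D.inv.mul, D.sk x hx.1, D.tauP, ← hQ, neg_mul, mul_neg, nrm_neg,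
      mul_assoc]
  have t2 : nrm (E 0 * x * Q) = nrm (P * x * E 0) := by
    rw [← D.nrm_tau (P * x * E 0), D.inv.mul, D.inv.mul, D.sk x hx.1, D.tauP, D.tauZ, ← hQ, neg_mul, mul_neg,
      nrm_neg, mul_assoc]
  have p1 := nrm_nonneg (P * x * Q)
  rw [t1] at a4
  rw [t2] at a3
  have p2 := nrm_nonneg (P * x * P)
  linarith

/-! ### the inequality from the Casimir element -/

theorem trace_eq_rank {P : Matrix n n ℂ} (hP : P * P = P) : P.trace = (P.rank : ℂ) := by
  have h1 : IsIdempotentElem (Matrix.toLin' P) := by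
    unfold IsIdempotentElem
    rw [Module.End.mul_eq_comp, ← Matrix.toLin'_mul, hP]
  rw [← Matrix.trace_toLin'_eq]
  rw [(LinearMap.IsIdempotentElem.isProj_range _ h1).trace]
  rfl

theorem Spec.h_ze (D : Dat τ L h E Λ) : h ∈ Lze L E := by
  refine ⟨D.mem, fun μ ν h1 => ?_⟩
  rw [D.spec.mul_h, smul_mul_assoc, D.spec.mul, if_neg h1, smul_zero]

theorem Dat.rank_Q (D : Dat τ L h E Λ) : (Qn E Λ).trace = (Pp E Λ).trace := by
  rw [← D.tauP, D.inv.tr]

theorem Dat.card_eq (D : Dat τ L h E Λ) : Fintype.card n = (E 0).rank + 2 * (Pp E Λ).rank := by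
  have S := D.spec
  have h1 := congrArg Matrix.trace S.one_eq
  rw [Matrix.trace_add, Matrix.trace_add, D.rank_Q, trace_eq_rank (P := Pp E Λ) (S.sum_mul_sum _),
    trace_eq_rank (P := E 0) (by rw [S.mul, if_pos rfl]), Matrix.trace_one] at h1
  have h2 : (((Pp E Λ).rank + (E 0).rank + (Pp E Λ).rank : ℕ) : ℂ) = (Fintype.card n : ℕ) := by
    push_cast
    exact h1
  have h3 := Nat.cast_injective h2
  omega

/-- elements of degree zero with `P x = 0` live on the kernel of `h` -/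
theorem Dat.mem_KK_of (D : Dat τ L h E Λ) {x : Matrix n n ℂ} (hx : x ∈ Lze L E) (h0 : Pp E Λ * x = 0) :
    x ∈ KK L E := by
  have S := D.spec
  refine ⟨hx.1, ?_⟩
  have e0 : E 0 = ∑ μ ∈ ({0} : Finset ℝ), E μ := by rw [Finset.sum_singleton]
  have h1 : x * Qn E Λ = 0 := by
    have h2 := congrArg τ h0
    rw [D.inv.mul, D.sk x hx.1, D.tauP, map_zero, neg_mul, neg_eq_zero] at h2
    exact h2
  have z1 : E 0 * x * Pp E Λ = 0 := by
    rw [e0]
    unfold Pp
    refine hx.2.sum_zero fun μ hμ ν hν => ?_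
    have := (Finset.mem_filter.1 hν).2
    rw [Finset.mem_singleton.1 hμ]
    exact this.ne
  have z3 : Qn E Λ * x * Pp E Λ = 0 := by
    unfold Pp Qn
    refine hx.2.sum_zero fun μ hμ ν hν => ?_
    have h2 := (Finset.mem_filter.1 hν).2
    have h3 := (Finset.mem_filter.1 hμ).2
    exact (h3.trans h2).ne
  have z4 : Qn E Λ * x * E 0 = 0 := by
    rw [e0]
    unfold Qn
    refine hx.2.sum_zero fun μ hμ ν hν => ?_
    have h3 := (Finset.mem_filter.1 hμ).2
    rw [Finset.mem_singleton.1 hν]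
    exact h3.ne
  have h5 : x = (Pp E Λ + E 0 + Qn E Λ) * x * (Pp E Λ + E 0 + Qn E Λ) := by
    rw [S.one_eq, one_mul, mul_one]
  have h6 : (Pp E Λ + E 0 + Qn E Λ) * x = E 0 * x + Qn E Λ * x := by
    rw [add_mul, add_mul, h0, zero_add]
  have h7 : (E 0 * x + Qn E Λ * x) * (Pp E Λ + E 0 + Qn E Λ) = E 0 * x * E 0 := by
    have h8 : (E 0 * x + Qn E Λ * x) * Qn E Λ = 0 := by
      rw [add_mul, mul_assoc, mul_assoc, h1, mul_zero, mul_zero, add_zero]
    rw [mul_add, mul_add, h8, add_zero, add_mul, add_mul, z1, z3, z4, add_zero, zero_add, add_zero]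
  rw [← h7, ← h6]
  exact h5.symm

theorem Dat.casimir_ineq (D : Dat τ L h E Λ) (hh : h ≠ 0) : ∃ (d : ℕ) (B : ℝ),
    d + 1 ≤ Module.finrank ℂ (Lze L E) ∧ 0 ≤ B ∧ (B = 0 → d ≤ Module.finrank ℂ (KK L E)) ∧
    ((E 0).rank + 2 * (Pp E Λ).rank : ℝ) * (Module.finrank ℂ (Lup L E) + 1 + 2 * B) ≤
      2 * (Pp E Λ).rank * (2 * Module.finrank ℂ (Lup L E) + d + 1) := by
  classical
  have S := D.spec
  -- the part of degree zero orthogonal to h
  let Lw : Submodule ℂ (Matrix n n ℂ) :=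
    { carrier := {w | w ∈ Lze L E ∧ hs h w = 0}
      add_mem' := fun {a b} ha hb => ⟨(Lze L E).add_mem ha.1 hb.1, by rw [hs_add_right, ha.2, hb.2, add_zero]⟩
      zero_mem' := ⟨(Lze L E).zero_mem, by unfold hs; simp⟩
      smul_mem' := fun c a ha => ⟨(Lze L E).smul_mem c ha.1, by rw [hs_smul_right, ha.2, mul_zero]⟩ }
  obtain ⟨x, hx⟩ := exists_onb (Lup L E)
  obtain ⟨w, hw⟩ := exists_onb Lw
  have hpos : 0 < nrm h := lt_of_le_of_ne (nrm_nonneg h) fun h1 => hh (nrm_eq_zero h1.symm)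
  set r : ℝ := (Real.sqrt (nrm h))⁻¹ with hr
  have hr2 : r ^ 2 * nrm h = 1 := by
    rw [hr, inv_pow, Real.sq_sqrt hpos.le, inv_mul_cancel₀ hpos.ne']
  set h₁ : Matrix n n ℂ := (r : ℂ) • h with hh₁
  have hze : h ∈ Lze L E := Spec.h_ze D
  have hn1 : nrm h₁ = 1 := by
    rw [hh₁, nrm_smul, Complex.norm_real, Real.norm_eq_abs, sq_abs, hr2]
  have hlt : Module.finrank ℂ Lw + 1 ≤ Module.finrank ℂ (Lze L E) := by
    refine Submodule.finrank_lt_finrank_of_lt (lt_of_le_of_ne (fun w hw => hw.1) ?_)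
    intro h1
    have h2 : h ∈ Lw := by rw [h1]; exact hze
    have h3 := h2.2
    rw [hs_self] at h3
    exact hpos.ne' (by exact_mod_cast h3)
  -- the adapted basis
  set z : (Fin (Module.finrank ℂ (Lup L E)) ⊕ (Unit ⊕ Fin (Module.finrank ℂ Lw))) ⊕
      Fin (Module.finrank ℂ (Lup L E)) → Matrix n n ℂ :=
    Sum.elim (Sum.elim x (Sum.elim (fun _ => h₁) w)) (fun i => (x i)ᴴ) with hzdef
  have o1 : ∀ {a b : Matrix n n ℂ}, a ∈ Lup L E → b ∈ Lze L E → hs a b = 0 := fun ha hb =>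
    S.hs_zero ha.2 hb.2 fun μ ν h1 => by have := h1.1; have := h1.2; linarith
  have o2 : ∀ {a b : Matrix n n ℂ}, a ∈ Lup L E → b ∈ Ldo L E → hs a b = 0 := fun ha hb =>
    S.hs_zero ha.2 hb.2 fun μ ν h1 => by have := h1.1; have := h1.2; linarith
  have o3 : ∀ {a b : Matrix n n ℂ}, a ∈ Lze L E → b ∈ Ldo L E → hs a b = 0 := fun ha hb =>
    S.hs_zero ha.2 hb.2 fun μ ν h1 => by have := h1.1; have := h1.2; linarith
  have sym : ∀ {a b : Matrix n n ℂ}, hs a b = 0 → hs b a = 0 := fun h1 => by rw [← hs_conj, h1, star_zero]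
  have h₁z : h₁ ∈ Lze L E := (Lze L E).smul_mem _ hze
  have wz : ∀ k, w k ∈ Lze L E := fun k => (hw.mem k).1
  have xd : ∀ i, (x i)ᴴ ∈ Ldo L E := fun i => D.star_up (hx.mem i)
  have hw1 : ∀ k, hs h₁ (w k) = 0 := by
    intro k
    apply sym
    rw [hh₁, hs_smul_right, sym (hw.mem k).2, mul_zero]
  have hzL : ONB L z := by
    refine ONB.of_span ?_ ?_ ?_
    · rintro ((i | (u | k)) | i) ((j | (u' | l)) | j)
      · simp only [hzdef, Sum.elim_inl, Sum.inl.injEq]
        exact hx.orth i j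
      · simpa [hzdef] using o1 (hx.mem i) h₁z
      · simpa [hzdef] using o1 (hx.mem i) (wz l)
      · simpa [hzdef] using o2 (hx.mem i) (xd j)
      · simpa [hzdef] using sym (o1 (hx.mem j) h₁z)
      · simp only [hzdef, Sum.elim_inl, Sum.elim_inr, if_true]
        rw [hs_self, hn1]
        simp
      · simpa [hzdef] using hw1 l
      · simpa [hzdef] using o3 h₁z (xd j)
      · simpa [hzdef] using sym (o1 (hx.mem j) (wz k))
      · simpa [hzdef] using sym (hw1 k)
      · simp only [hzdef, Sum.elim_inl, Sum.elim_inr, Sum.inl.injEq, Sum.inr.injEq]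
        exact hw.orth k l
      · simpa [hzdef] using o3 (wz k) (xd j)
      · simpa [hzdef] using sym (o2 (hx.mem j) (xd i))
      · simpa [hzdef] using sym (o3 h₁z (xd i))
      · simpa [hzdef] using sym (o3 (wz l) (xd i))
      · simp only [hzdef, Sum.elim_inr, Sum.inr.injEq]
        have h1 := hx.orth j i
        unfold hs at h1 ⊢
        rw [Matrix.conjTranspose_conjTranspose, Matrix.trace_mul_comm, h1]
        simp only [eq_comm]
    · rintro ((i | (u | k)) | i)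
      · exact (hx.mem i).1
      · exact h₁z.1
      · exact (wz k).1
      · exact (xd i).1
    · intro y hy
      obtain ⟨a, ha, b, hb, c, hc, e⟩ := D.split hy
      set t : ℂ := hs h₁ b with ht
      have hb' : b - t • h₁ ∈ Lw := by
        refine ⟨(Lze L E).sub_mem hb ((Lze L E).smul_mem _ h₁z), ?_⟩
        have e1 : hs h₁ (b - t • h₁) = 0 := by
          rw [sub_eq_add_neg, ← neg_smul, hs_add_right, hs_smul_right, hs_self, hn1, ← ht]
          simp
        have e2 : hs h₁ (b - t • h₁) = (r : ℂ) * hs h (b - t • h₁) := by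
          rw [← hs_conj, hh₁, hs_smul_right, ← hs_conj (b - t • ((r : ℂ) • h)) h]
          simp
        have hr0 : (r : ℂ) ≠ 0 := by
          intro h1
          have h2 : r = 0 := by exact_mod_cast h1
          rw [h2] at hr2
          simp at hr2
        rw [e2] at e1
        exact (mul_eq_zero.1 e1).resolve_left hr0
      refine ⟨Sum.elim (Sum.elim (fun i => hs (x i) a) (Sum.elim (fun _ => t) (fun k => hs (w k) (b - t • h₁))))
        (fun i => star (hs (x i) cᴴ)), ?_⟩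
      have e1 := hx.exp a ha
      have e2 := hw.exp _ hb'
      have e3 := congrArg Matrix.conjTranspose (hx.exp _ (D.star_do hc))
      rw [Matrix.conjTranspose_conjTranspose, Matrix.conjTranspose_sum] at e3
      simp_rw [Matrix.conjTranspose_smul] at e3
      rw [Fintype.sum_sum_type, Fintype.sum_sum_type, Fintype.sum_sum_type]
      simp only [hzdef, Sum.elim_inl, Sum.elim_inr, Finset.univ_unique, Finset.sum_singleton]
      rw [← e1, ← e2, ← e3, e]
      abel
  have hPP : Pp E Λ * Pp E Λ = Pp E Λ := S.sum_mul_sum _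
  have hPs : (Pp E Λ)ᴴ = Pp E Λ := S.sum_star _
  have hT := hzL.trace_eq D.br D.st D.irr hPP hPs (trace_eq_rank hPP)
  have hcard : (Fintype.card ((Fin (Module.finrank ℂ (Lup L E)) ⊕ (Unit ⊕ Fin (Module.finrank ℂ Lw))) ⊕
      Fin (Module.finrank ℂ (Lup L E))) : ℝ) = 2 * Module.finrank ℂ (Lup L E) + Module.finrank ℂ Lw + 1 := by
    simp only [Fintype.card_sum, Fintype.card_fin, Fintype.card_unit]
    push_cast
    ring
  rw [hcard, D.card_eq] at hT
  set B : ℝ := ∑ k, nrm (Pp E Λ * w k) with hB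
  have hB0 : 0 ≤ B := Finset.sum_nonneg fun k _ => nrm_nonneg _
  have hsum : ∑ a, nrm (Pp E Λ * z a) = ∑ i, (nrm (Pp E Λ * x i) + nrm (Pp E Λ * (x i)ᴴ)) +
      (nrm (Pp E Λ * h₁) + B) := by
    rw [Fintype.sum_sum_type, Fintype.sum_sum_type, Fintype.sum_sum_type]
    simp only [hzdef, Sum.elim_inl, Sum.elim_inr, Finset.univ_unique, Finset.sum_singleton]
    rw [Finset.sum_add_distrib]
    ring
  have hx1 : ∀ i, 1 ≤ 2 * (nrm (Pp E Λ * x i) + nrm (Pp E Λ * (x i)ᴴ)) := by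
    intro i
    have h1 := D.nrm_up (hx.mem i)
    have h2 : nrm (x i) = 1 := by
      have h3 := hx.orth i i
      rw [if_pos rfl, hs_self] at h3
      exact_mod_cast h3
    rw [h2] at h1
    exact h1
  have hxs : (Module.finrank ℂ (Lup L E) : ℝ) ≤ 2 * ∑ i, (nrm (Pp E Λ * x i) + nrm (Pp E Λ * (x i)ᴴ)) := by
    rw [Finset.mul_sum]
    have h1 := Finset.sum_le_sum fun i (_ : i ∈ Finset.univ) => hx1 i
    simpa using h1
  have hhh : 1 ≤ 2 * nrm (Pp E Λ * h₁) := by
    have hQQ : Qn E Λ * Qn E Λ = Qn E Λ := S.sum_mul_sum _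
    have hQs : (Qn E Λ)ᴴ = Qn E Λ := S.sum_star _
    have hZZ : E 0 * E 0 = E 0 := by rw [S.mul, if_pos rfl]
    have hZs : (E 0)ᴴ = E 0 := S.star 0
    have l1 := nrm_left hPP hPs hZZ hZs hQQ hQs S.one_eq h₁
    have l2 : nrm (E 0 * h₁) = 0 := by
      rw [hh₁, mul_smul_comm, S.mul_h]
      unfold nrm hs
      simp
    have l3 : nrm (Qn E Λ * h₁) = nrm (Pp E Λ * h₁) := by
      have l4 : nrm (Qn E Λ * h) = nrm (Pp E Λ * h) := by
        rw [← D.nrm_tau (Pp E Λ * h), D.inv.mul, D.tau_h, D.tauP, neg_mul, nrm_neg, ← nrm_star (h * Qn E Λ),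
          Matrix.conjTranspose_mul, hQs, S.hh]
      rw [hh₁, mul_smul_comm, mul_smul_comm, nrm_smul, nrm_smul, l4]
    rw [l2, l3, hn1] at l1
    linarith
  refine ⟨Module.finrank ℂ Lw, B, hlt, hB0, ?_, ?_⟩
  · intro h0
    refine Submodule.finrank_mono ?_
    intro y hy
    rw [hw.exp y hy]
    refine (KK L E).sum_mem fun k _ => (KK L E).smul_mem _ ?_
    have h1 : nrm (Pp E Λ * w k) = 0 :=
      (Finset.sum_eq_zero_iff_of_nonneg fun k _ => nrm_nonneg (Pp E Λ * w k)).1 h0 k (Finset.mem_univ k)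
    exact D.mem_KK_of (wz k) (nrm_eq_zero h1)
  · rw [hsum] at hT
    push_cast at hT
    have h1 : ((E 0).rank + 2 * (Pp E Λ).rank : ℝ) * (Module.finrank ℂ (Lup L E) + 1 + 2 * B) ≤
        ((E 0).rank + 2 * (Pp E Λ).rank : ℝ) * (2 * (∑ i, (nrm (Pp E Λ * x i) + nrm (Pp E Λ * (x i)ᴴ)) +
          (nrm (Pp E Λ * h₁) + B))) := by
      refine mul_le_mul_of_nonneg_left ?_ (by positivity)
      linarith
    linarith

/-! ### the two embeddings -/

/-- degree zero: the kernel of the restriction to the positive part -/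
theorem Dat.finrank_ze (D : Dat τ L h E Λ) :
    Module.finrank ℂ (Lze L E) ≤ (Pp E Λ).rank ^ 2 + Module.finrank ℂ (KK L E) := by
  classical
  have S := D.spec
  set P := Pp E Λ with hP
  have hPP : P * P = P := S.sum_mul_sum _
  have hQQ : Qn E Λ * Qn E Λ = Qn E Λ := S.sum_mul_sum _
  have e0 : E 0 = ∑ μ ∈ ({0} : Finset ℝ), E μ := by rw [Finset.sum_singleton]
  set R : Submodule ℂ (n → ℂ) := LinearMap.range P.mulVecLin with hR
  have hfix : ∀ v ∈ R, P *ᵥ v = v := by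
    rintro v ⟨u, rfl⟩
    rw [Matrix.mulVecLin_apply, Matrix.mulVec_mulVec, hPP]
  have blk : ∀ x ∈ Lze L E, x * P = P * x * P ∧ P * x = P * x * P := by
    intro x hx
    have z1 : E 0 * x * P = 0 := by
      rw [e0, hP]
      unfold Pp
      refine hx.2.sum_zero fun μ hμ ν hν => ?_
      have := (Finset.mem_filter.1 hν).2
      rw [Finset.mem_singleton.1 hμ]
      exact this.ne
    have z2 : P * x * E 0 = 0 := by
      rw [e0, hP]
      unfold Pp
      refine hx.2.sum_zero fun μ hμ ν hν => ?_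
      have := (Finset.mem_filter.1 hμ).2
      rw [Finset.mem_singleton.1 hν]
      exact this.ne'
    have z3 : Qn E Λ * x * P = 0 := by
      rw [hP]
      unfold Pp Qn
      refine hx.2.sum_zero fun μ hμ ν hν => ?_
      have h2 := (Finset.mem_filter.1 hν).2
      have h3 := (Finset.mem_filter.1 hμ).2
      exact (h3.trans h2).ne
    have z4 : P * x * Qn E Λ = 0 := by
      rw [hP]
      unfold Pp Qn
      refine hx.2.sum_zero fun μ hμ ν hν => ?_
      have h2 := (Finset.mem_filter.1 hν).2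
      have h3 := (Finset.mem_filter.1 hμ).2
      exact (h2.trans h3).ne'
    constructor
    · have h1 : x * P = (P + E 0 + Qn E Λ) * (x * P) := by rw [hP, S.one_eq, one_mul]
      rw [h1, add_mul, add_mul, ← mul_assoc, ← mul_assoc, ← mul_assoc, z1, z3, add_zero, add_zero]
    · have h1 : P * x = P * x * (P + E 0 + Qn E Λ) := by rw [hP, S.one_eq, mul_one]
      conv_lhs => rw [h1]
      rw [mul_add, mul_add, z2, z4, add_zero, add_zero]
  let S1 : Submodule ℂ (Matrix n n ℂ) :=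
    { carrier := {y | P * y = y ∧ y * P = y}
      add_mem' := fun {a b} ha hb => ⟨by rw [mul_add, ha.1, hb.1], by rw [add_mul, ha.2, hb.2]⟩
      zero_mem' := ⟨mul_zero _, zero_mul _⟩
      smul_mem' := fun c a ha => ⟨by rw [mul_smul_comm, ha.1], by rw [smul_mul_assoc, ha.2]⟩ }
  have hS1 : Module.finrank ℂ S1 ≤ P.rank ^ 2 := by
    let Φ : S1 →ₗ[ℂ] (R →ₗ[ℂ] R) :=
      { toFun := fun x =>
          { toFun := fun v => ⟨(x : Matrix n n ℂ) *ᵥ v, by
              have h1 := x.2.1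
              have h2 : (x : Matrix n n ℂ) *ᵥ v = P *ᵥ ((x : Matrix n n ℂ) *ᵥ v) := by
                rw [Matrix.mulVec_mulVec, h1]
              rw [h2]
              exact ⟨_, rfl⟩⟩
            map_add' := fun v w => Subtype.ext (Matrix.mulVec_add _ _ _)
            map_smul' := fun c v => Subtype.ext (Matrix.mulVec_smul _ _ _) }
        map_add' := fun x y => LinearMap.ext fun v => Subtype.ext (Matrix.add_mulVec _ _ _)
        map_smul' := fun c x => LinearMap.ext fun v => Subtype.ext (Matrix.smul_mulVec _ _ _) }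
    have hinj : Function.Injective Φ := by
      rw [injective_iff_map_eq_zero]
      intro x hx
      apply Subtype.ext
      apply Matrix.ext_of_mulVec_single
      intro i
      have h6 := LinearMap.congr_fun hx ⟨P *ᵥ Pi.single i 1, ⟨_, rfl⟩⟩
      have h7 : (x : Matrix n n ℂ) *ᵥ (P *ᵥ Pi.single i 1) = 0 := congrArg Subtype.val h6
      rw [Matrix.mulVec_mulVec, x.2.2] at h7
      rw [h7]
      exact (Matrix.zero_mulVec _).symm
    have h1 := LinearMap.finrank_le_finrank_of_injective hinj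
    rw [Module.finrank_linearMap] at h1
    rw [sq]
    exact h1
  let f : Lze L E →ₗ[ℂ] Matrix n n ℂ := (LinearMap.mulLeft ℂ P).comp (Lze L E).subtype
  have hf : ∀ x : Lze L E, f x = P * (x : Matrix n n ℂ) := fun x => rfl
  have h1 := f.finrank_range_add_finrank_ker
  have h2 : Module.finrank ℂ (LinearMap.range f) ≤ P.rank ^ 2 := by
    refine le_trans (Submodule.finrank_mono ?_) hS1
    rintro y ⟨x, rfl⟩
    rw [hf]
    refine ⟨by rw [← mul_assoc, hPP], ?_⟩
    rw [(blk x x.2).2, mul_assoc, hPP]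
  have h3 : Module.finrank ℂ (LinearMap.ker f) ≤ Module.finrank ℂ (KK L E) := by
    have h4 : Module.finrank ℂ ((LinearMap.ker f).map (Lze L E).subtype) = Module.finrank ℂ (LinearMap.ker f) :=
      LinearEquiv.finrank_eq (Submodule.equivMapOfInjective _ (Submodule.subtype_injective _) _).symm
    rw [← h4]
    refine Submodule.finrank_mono ?_
    rintro y ⟨x, hx, rfl⟩
    rw [SetLike.mem_coe, LinearMap.mem_ker, hf] at hx
    exact D.mem_KK_of x.2 hx
  omega

/-- no vector of the kernel of `h` is killed by all raising elements -/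
theorem Dat.killed (D : Dat τ L h E Λ) (hP0 : Pp E Λ ≠ 0) {v : n → ℂ} (hv : E 0 *ᵥ v = v)
    (hk : ∀ x ∈ Lup L E, x *ᵥ v = 0) : v = 0 := by
  classical
  have S := D.spec
  set P := Pp E Λ with hP
  have hPP : P * P = P := S.sum_mul_sum _
  have e0 : E 0 = ∑ μ ∈ ({0} : Finset ℝ), E μ := by rw [Finset.sum_singleton]
  -- the smallest subspace containing v, stable under the elements of degree ≤ 0
  let Wset : Set (Submodule ℂ (n → ℂ)) := {W | v ∈ W ∧ ∀ y ∈ LR L E (fun μ ν => μ ≤ ν), ∀ w ∈ W, y *ᵥ w ∈ W}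
  set W : Submodule ℂ (n → ℂ) := sInf Wset with hWdef
  have hvW : v ∈ W := (Submodule.mem_sInf).2 fun U hU => hU.1
  have hst : ∀ y ∈ LR L E (fun μ ν => μ ≤ ν), ∀ w ∈ W, y *ᵥ w ∈ W := by
    intro y hy w hw
    refine (Submodule.mem_sInf).2 fun U hU => ?_
    exact hU.2 y hy w ((Submodule.mem_sInf).1 hw U hU)
  have hsplit : ∀ y ∈ L, ∃ a ∈ Lup L E, ∃ b ∈ LR L E (fun μ ν => μ ≤ ν), y = a + b := by
    intro y hy
    obtain ⟨a, ha, b, hb, c, hc, e⟩ := D.split hy
    refine ⟨a, ha, b + c, (LR L E _).add_mem ⟨hb.1, fun μ ν h1 => hb.2 μ ν fun h2 => h1 (le_of_eq h2)⟩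
      ⟨hc.1, fun μ ν h1 => hc.2 μ ν fun h2 => h1 (le_of_lt h2)⟩, ?_⟩
    rw [e]
    abel
  let W' : Submodule ℂ (n → ℂ) :=
    { carrier := {w | w ∈ W ∧ ∀ x ∈ Lup L E, x *ᵥ w ∈ W}
      add_mem' := fun {a b} ha hb => ⟨W.add_mem ha.1 hb.1, fun x hx => by
        rw [Matrix.mulVec_add]; exact W.add_mem (ha.2 x hx) (hb.2 x hx)⟩
      zero_mem' := ⟨W.zero_mem, fun x _ => by rw [Matrix.mulVec_zero]; exact W.zero_mem⟩
      smul_mem' := fun c a ha => ⟨W.smul_mem c ha.1, fun x hx => by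
        rw [Matrix.mulVec_smul]; exact W.smul_mem c (ha.2 x hx)⟩ }
  have hW' : W ≤ W' := by
    refine sInf_le ⟨⟨hvW, fun x hx => by rw [hk x hx]; exact W.zero_mem⟩, ?_⟩
    rintro y hy w ⟨hw, hw'⟩
    refine ⟨hst y hy w hw, fun x hx => ?_⟩
    obtain ⟨a, ha, b, hb, e⟩ := hsplit _ (D.br x hx.1 y hy.1)
    have e1 : x *ᵥ (y *ᵥ w) = y *ᵥ (x *ᵥ w) + (a *ᵥ w + b *ᵥ w) := by
      rw [← Matrix.add_mulVec, ← e, Matrix.sub_mulVec, Matrix.mulVec_mulVec, Matrix.mulVec_mulVec]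
      abel
    rw [e1]
    exact W.add_mem (hst y hy _ (hw' x hx)) (W.add_mem (hw' a ha) (hst b hb w hw))
  have hWs : ∀ x ∈ L, ∀ w ∈ W, x *ᵥ w ∈ W := by
    intro x hx w hw
    obtain ⟨a, ha, b, hb, e⟩ := hsplit x hx
    rw [e, Matrix.add_mulVec]
    exact W.add_mem ((hW' hw).2 a ha) (hst b hb w hw)
  have hWk : W ≤ LinearMap.ker P.mulVecLin := by
    refine sInf_le ⟨?_, ?_⟩
    · rw [LinearMap.mem_ker, Matrix.mulVecLin_apply, ← hv, Matrix.mulVec_mulVec]
      have : P * E 0 = 0 := by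
        rw [hP]
        unfold Pp
        rw [Finset.sum_mul]
        refine Finset.sum_eq_zero fun μ hμ => ?_
        rw [S.mul, if_neg (Finset.mem_filter.1 hμ).2.ne']
      rw [this, Matrix.zero_mulVec]
    · intro y hy w hw
      rw [LinearMap.mem_ker, Matrix.mulVecLin_apply] at hw ⊢
      have z2 : P * y * E 0 = 0 := by
        rw [e0, hP]
        unfold Pp
        refine hy.2.sum_zero fun μ hμ ν hν => ?_
        have := (Finset.mem_filter.1 hμ).2
        rw [Finset.mem_singleton.1 hν]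
        exact not_le.2 this
      have z4 : P * y * Qn E Λ = 0 := by
        rw [hP]
        unfold Pp Qn
        refine hy.2.sum_zero fun μ hμ ν hν => ?_
        have h2 := (Finset.mem_filter.1 hν).2
        have h3 := (Finset.mem_filter.1 hμ).2
        exact not_le.2 (h2.trans h3)
      have h1 : P * y = P * y * P := by
        have h2 : P * y = P * y * (P + E 0 + Qn E Λ) := by rw [hP, S.one_eq, mul_one]
        conv_lhs => rw [h2]
        rw [mul_add, mul_add, z2, z4, add_zero, add_zero]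
      rw [Matrix.mulVec_mulVec, h1, ← Matrix.mulVec_mulVec, hw, Matrix.mulVec_zero]
  rcases D.stable W hWs with h1 | h1
  · rw [h1] at hvW
    exact (Submodule.mem_bot ℂ).1 hvW
  · exfalso
    apply hP0
    apply Matrix.ext_of_mulVec_single
    intro i
    have h2 : Pi.single i (1 : ℂ) ∈ W := by rw [h1]; exact Submodule.mem_top
    have h3 := hWk h2
    rw [LinearMap.mem_ker, Matrix.mulVecLin_apply] at h3
    rw [h3, Matrix.zero_mulVec]

theorem Dat.rank_zero_le (D : Dat τ L h E Λ) (hP0 : Pp E Λ ≠ 0) :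
    (E 0).rank ≤ Module.finrank ℂ (Lup L E) * (Pp E Λ).rank := by
  classical
  have S := D.spec
  set P := Pp E Λ with hP
  have hPP : P * P = P := S.sum_mul_sum _
  have e0 : E 0 = ∑ μ ∈ ({0} : Finset ℝ), E μ := by rw [Finset.sum_singleton]
  have hZZ : E 0 * E 0 = E 0 := by rw [S.mul, if_pos rfl]
  set R : Submodule ℂ (n → ℂ) := LinearMap.range P.mulVecLin with hR
  set R0 : Submodule ℂ (n → ℂ) := LinearMap.range (E 0).mulVecLin with hR0
  have hfix : ∀ v ∈ R0, E 0 *ᵥ v = v := by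
    rintro v ⟨u, rfl⟩
    rw [Matrix.mulVecLin_apply, Matrix.mulVec_mulVec, hZZ]
  have hmem : ∀ x ∈ Lup L E, ∀ v ∈ R0, x *ᵥ v ∈ R := by
    intro x hx v hv
    have z2 : E 0 * x * E 0 = 0 := hx.2 0 0 (lt_irrefl _)
    have z4 : Qn E Λ * x * E 0 = 0 := by
      rw [e0]
      unfold Qn
      refine hx.2.sum_zero fun μ hμ ν hν => ?_
      have h3 := (Finset.mem_filter.1 hμ).2
      rw [Finset.mem_singleton.1 hν]
      exact not_lt.2 h3.le
    have h1 : x * E 0 = P * (x * E 0) := by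
      have h2 : x * E 0 = (P + E 0 + Qn E Λ) * (x * E 0) := by rw [hP, S.one_eq, one_mul]
      rw [h2, add_mul, add_mul, ← mul_assoc (E 0), z2, ← mul_assoc (Qn E Λ), z4, add_zero, add_zero, ← mul_assoc P P,
        hPP]
    rw [← hfix v hv, Matrix.mulVec_mulVec, h1, ← Matrix.mulVec_mulVec]
    exact ⟨_, rfl⟩
  let Φ : R0 →ₗ[ℂ] (Lup L E →ₗ[ℂ] R) :=
    { toFun := fun v =>
        { toFun := fun x => ⟨(x : Matrix n n ℂ) *ᵥ v, hmem x x.2 v v.2⟩
          map_add' := fun x y => Subtype.ext (Matrix.add_mulVec _ _ _)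
          map_smul' := fun c x => Subtype.ext (Matrix.smul_mulVec _ _ _) }
      map_add' := fun v w => LinearMap.ext fun x => Subtype.ext (Matrix.mulVec_add _ _ _)
      map_smul' := fun c v => LinearMap.ext fun x => Subtype.ext (Matrix.mulVec_smul _ _ _) }
  have hinj : Function.Injective Φ := by
    rw [injective_iff_map_eq_zero]
    intro v hv
    apply Subtype.ext
    refine D.killed hP0 (hfix v v.2) fun x hx => ?_
    have h1 := LinearMap.congr_fun hv ⟨x, hx⟩
    exact congrArg Subtype.val h1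
  have h1 := LinearMap.finrank_le_finrank_of_injective hinj
  rw [Module.finrank_linearMap] at h1
  exact h1

/-- the numerical part -/
theorem num_bound {s b k N d : ℕ} {B : ℝ} (hk : k ≤ 1) (hs : 2 ≤ s) (h5 : d + 1 ≤ s ^ 2 + k) (h2 : 0 ≤ B)
    (h3 : B = 0 → d ≤ k) (h4 : ((b : ℝ) + 2 * s) * (N + 1 + 2 * B) ≤ 2 * s * (2 * N + d + 1))
    (h6 : b ≤ N * s) : 2 * b ≤ 3 * s ^ 2 := by
  have h7 : d ≤ s ^ 2 := by omega
  by_contra hcon
  have h8 : 3 * s ^ 2 + 1 ≤ 2 * b := by omega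
  have h9 : (b + 2 * s) * (N + 1) ≤ 2 * s * (2 * N + s ^ 2 + 1) := by
    have e1 : ((b : ℝ) + 2 * s) * (N + 1) ≤ 2 * s * (2 * N + (s : ℝ) ^ 2 + 1) := by
      have e2 : ((b : ℝ) + 2 * s) * (N + 1) ≤ ((b : ℝ) + 2 * s) * (N + 1 + 2 * B) :=
        mul_le_mul_of_nonneg_left (by linarith) (by positivity)
      have e3 : (d : ℝ) ≤ (s : ℝ) ^ 2 := by exact_mod_cast h7
      have e4 : 2 * (s : ℝ) * (2 * N + d + 1) ≤ 2 * s * (2 * N + (s : ℝ) ^ 2 + 1) :=
        mul_le_mul_of_nonneg_left (by linarith) (by positivity)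
      linarith
    exact_mod_cast e1
  -- over the integers
  have hz : ∃ s' b' N' : ℤ, s' = s ∧ b' = b ∧ N' = N := ⟨s, b, N, rfl, rfl, rfl⟩
  obtain ⟨s', b', N', rs, rb, rN⟩ := hz
  have g1 : 3 * s' ^ 2 + 1 ≤ 2 * b' := by rw [rs, rb]; exact_mod_cast h8
  have g2 : (b' + 2 * s') * (N' + 1) ≤ 2 * s' * (2 * N' + s' ^ 2 + 1) := by
    rw [rs, rb, rN]; exact_mod_cast h9
  have g3 : b' ≤ N' * s' := by rw [rs, rb, rN]; exact_mod_cast h6
  have g4 : 2 ≤ s' := by rw [rs]; exact_mod_cast hs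
  have g5 : 2 * s' ≤ b' := by nlinarith
  have g6 : b' * b' ≤ s' * b' + 2 * s' ^ 4 := by
    have e1 : b' * (b' - 2 * s') ≤ N' * s' * (b' - 2 * s') :=
      mul_le_mul_of_nonneg_right g3 (by linarith)
    have e2 : s' * ((b' + 2 * s') * (N' + 1)) ≤ s' * (2 * s' * (2 * N' + s' ^ 2 + 1)) :=
      mul_le_mul_of_nonneg_left g2 (by linarith)
    nlinarith
  have g7 : s' ≤ 4 := by
    by_contra h10
    have h11 : 5 ≤ s' := by omega
    have e1 : (3 * s' ^ 2 + 1) * (3 * s' ^ 2 + 1 - 2 * s') ≤ 2 * b' * (2 * b' - 2 * s') := by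
      apply mul_le_mul g1 (by linarith) _ (by linarith)
      nlinarith
    have e2 : (3 * s' ^ 2 + 1) * (3 * s' ^ 2 + 1 - 2 * s') ≤ 8 * s' ^ 4 := by nlinarith
    have e3 : s' ^ 2 * (s' ^ 2 - 6 * s' + 6) ≤ 2 * s' - 1 := by nlinarith
    have e4 : 1 ≤ s' ^ 2 - 6 * s' + 6 := by nlinarith
    nlinarith
  have g8 : s' = 2 ∨ s' = 3 ∨ s' = 4 := by omega
  rcases g8 with h10 | h10 | h10
  · rw [h10] at g1 g6
    have e1 : 7 ≤ b' := by omega
    nlinarith
  · rw [h10] at g1 g2 g3 g6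
    have e1 : b' = 14 := by nlinarith
    have e2 : N' = 5 := by
      rw [e1] at g2 g3
      omega
    have e3 : s = 3 := by omega
    have e4 : b = 14 := by omega
    have e5 : N = 5 := by omega
    rw [e3, e4, e5] at h4
    rw [e3] at h7
    have e6 : (d : ℝ) ≤ 9 := by exact_mod_cast h7
    have e7 : B = 0 := by
      push_cast at h4
      linarith
    have e8 := h3 e7
    rw [e7] at h4
    push_cast at h4
    have e9 : (9 : ℝ) ≤ d := by linarith
    have e10 : 9 ≤ d := by exact_mod_cast e9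
    omega
  · rw [h10] at g1 g6
    have e1 : 25 ≤ b' := by omega
    nlinarith

/-- The bound for the rank of the kernel of `h`. -/
theorem Dat.bound (D : Dat τ L h E Λ) (hK : Module.finrank ℂ (KK L E) ≤ 1) (hs : 2 ≤ (Pp E Λ).rank) :
    2 * (E 0).rank ≤ 3 * (Pp E Λ).rank ^ 2 := by
  have hP0 : Pp E Λ ≠ 0 := by
    intro h1
    rw [h1, Matrix.rank_zero] at hs
    omega
  have hh : h ≠ 0 := by
    rintro rfl
    have h1 : ∀ μ : ℝ, μ ≠ 0 → E μ = 0 := by
      intro μ hμ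
      have h2 := D.spec.h_mul μ
      rw [zero_mul] at h2
      rcases smul_eq_zero.1 h2.symm with h3 | h3
      · exact absurd (by exact_mod_cast h3) hμ
      · exact h3
    apply hP0
    unfold Pp
    exact Finset.sum_eq_zero fun μ hμ => h1 μ (Finset.mem_filter.1 hμ).2.ne'
  obtain ⟨d, B, h1, h2, h3, h4⟩ := D.casimir_ineq hh
  exact num_bound hK hs (h1.trans D.finrank_ze) h2 h3 h4 (D.rank_zero_le hP0)

end MH
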