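import Pool.Agent.Helper21.MH.HodgeL
import Pool.Agent.Helper21.MH.Bound

/-!
The Hodge-Riemann form: after a change of basis the Lie algebra of `HodgeL` is self-adjoint (`Dat`).
-/

set_option linter.unusedSectionVars false

open Matrix

namespace MH

variable {n : Type*} [Fintype n] [DecidableEq n]
variable {m : ℤ} {Q : Matrix n n ℚ} {S : Finset ℤ} {P : ℤ → Matrix n n ℂ}

open scoped ComplexOrder MatrixOrder in
theorem posDef_decomp {M : Matrix n n ℂ} (hM : M.PosDef) : ∃ B : Matrix n n ℂ, M = Bᴴ * B := by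
  obtain ⟨B, hB⟩ := CStarAlgebra.nonneg_iff_eq_star_mul_self.mp hM.posSemidef.nonneg
  exact ⟨B, hB⟩

/-- the Weil operator: the sign `(-1) ^ (p - m)` on the piece `P p` -/
noncomputable def Cs (m : ℤ) (S : Finset ℤ) (P : ℤ → Matrix n n ℂ) : Matrix n n ℂ :=
  ∑ p ∈ S, ((-1 : ℂ) ^ (p - m)) • P p

theorem sgn_mul (k : ℤ) : (-1 : ℂ) ^ k * (-1) ^ k = 1 := by
  rw [← mul_zpow, neg_mul_neg, one_mul, _root_.one_zpow]

theorem sgn_neg (k : ℤ) : (-1 : ℂ) ^ (-k) = (-1) ^ k := by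
  rw [_root_.zpow_neg]
  exact inv_eq_of_mul_eq_one_left (sgn_mul k)

namespace IsHS

variable (H : IsHS m Q S P)
include H

theorem Cs_mul : Cs m S P * Cs m S P = 1 := by
  refine H.ext_right fun q _ => ?_
  unfold Cs
  rw [mul_assoc, H.sum_mul_P (fun p => (-1 : ℂ) ^ (p - m)), mul_smul_comm, H.sum_mul_P (fun p => (-1 : ℂ) ^ (p - m)),
    smul_smul, sgn_mul, one_smul, one_mul]

theorem Cs_eq : Cs m S P = ((-1 : ℂ) ^ m) • ∑ p ∈ S, ((-1 : ℂ) ^ p) • P p := by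
  unfold Cs
  rw [Finset.smul_sum]
  refine Finset.sum_congr rfl fun p _ => ?_
  rw [smul_smul, sub_eq_add_neg, zpow_add₀ (by norm_num), sgn_neg, mul_comm]

theorem Cs_Q : (Cs m S P)ᵀ * toC Q = toC Q * Cs m S P := by
  unfold Cs
  rw [H.sum_transpose_mul_Q (fun p => (-1 : ℂ) ^ (p - m))]
  congr 1
  refine Finset.sum_congr rfl fun p _ => ?_
  congr 1
  rw [← sgn_neg (p - m)]
  congr 1
  ring

theorem Cs_conj : (Cs m S P).map (starRingEnd ℂ) = Cs m S P := by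
  unfold Cs
  rw [H.sum_conj (fun p => (-1 : ℂ) ^ (p - m))]
  refine Finset.sum_congr rfl fun p _ => ?_
  congr 1
  rw [map_zpow₀, map_neg, map_one, ← sgn_neg (p - m)]
  congr 1
  ring

theorem Q_symm : (toC Q)ᵀ = toC Q := by
  rw [← toC_transpose, H.symm]

theorem Q_herm : (toC Q)ᴴ = toC Q := by
  have h1 : (toC Q)ᴴ = ((toC Q)ᵀ).map (starRingEnd ℂ) := rfl
  rw [h1, H.Q_symm, toC_conj]

theorem M_symm : (toC Q * Cs m S P)ᵀ = toC Q * Cs m S P := by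
  rw [Matrix.transpose_mul, H.Q_symm, H.Cs_Q]

theorem M_herm : (toC Q * Cs m S P)ᴴ = toC Q * Cs m S P := by
  have h1 : (toC Q * Cs m S P)ᴴ = ((toC Q * Cs m S P)ᵀ).map (starRingEnd ℂ) := rfl
  rw [h1, H.M_symm, Matrix.map_mul, toC_conj, H.Cs_conj]

theorem P_herm_Q (p : ℤ) : (P p)ᴴ * toC Q = toC Q * P p := by
  have h1 : (P p)ᴴ = (P (2 * m - p))ᵀ := by
    rw [← H.conj p]
    rfl
  rw [h1, H.transpose_mul_Q, sub_sub_cancel]

open scoped ComplexOrder in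
theorem M_pos : (toC Q * Cs m S P).PosDef := by
  refine Matrix.PosDef.of_dotProduct_mulVec_pos H.M_herm fun x hx => ?_
  have key : star x ⬝ᵥ ((toC Q * Cs m S P) *ᵥ x) =
      ∑ p ∈ S, ((-1 : ℂ) ^ (p - m)) * ((P p *ᵥ x) ⬝ᵥ (toC Q *ᵥ star (P p *ᵥ x))) := by
    unfold Cs
    rw [Finset.mul_sum, Matrix.sum_mulVec, dotProduct_sum]
    refine Finset.sum_congr rfl fun p _ => ?_
    have e1 : toC Q * ((-1 : ℂ) ^ (p - m)) • P p = ((-1 : ℂ) ^ (p - m)) • ((P p)ᴴ * (toC Q * P p)) := by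
      rw [mul_smul_comm]
      congr 1
      rw [← mul_assoc, H.P_herm_Q, mul_assoc, H.mul, if_pos rfl]
    rw [e1, Matrix.smul_mulVec, dotProduct_smul, smul_eq_mul]
    congr 1
    rw [← Matrix.mulVec_mulVec, ← Matrix.mulVec_mulVec, Matrix.dotProduct_mulVec, Matrix.vecMul_conjTranspose, star_star,
      dotProduct_comm, Matrix.dotProduct_mulVec, ← Matrix.mulVec_transpose, H.Q_symm]
  have hre : ∀ p, (((-1 : ℂ) ^ (p - m)) * ((P p *ᵥ x) ⬝ᵥ (toC Q *ᵥ star (P p *ᵥ x)))).re =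
      (-1 : ℝ) ^ (p - m) * ((P p *ᵥ x) ⬝ᵥ (toC Q *ᵥ star (P p *ᵥ x))).re := by
    intro p
    have e1 : ((-1 : ℂ) ^ (p - m)) = (((-1 : ℝ) ^ (p - m) : ℝ) : ℂ) := by push_cast; rfl
    rw [e1, Complex.re_ofReal_mul]
  have hfix : ∀ p, P p *ᵥ (P p *ᵥ x) = P p *ᵥ x := by
    intro p
    rw [Matrix.mulVec_mulVec, H.mul, if_pos rfl]
  have hnn : ∀ p ∈ S, 0 ≤ (-1 : ℝ) ^ (p - m) * ((P p *ᵥ x) ⬝ᵥ (toC Q *ᵥ star (P p *ᵥ x))).re := by
    intro p _
    by_cases h0 : P p *ᵥ x = 0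
    · rw [h0]
      simp
    · exact (H.pos p _ (hfix p) h0).le
  have hex : ∃ p ∈ S, P p *ᵥ x ≠ 0 := by
    by_contra hcon
    push Not at hcon
    apply hx
    have h1 : x = (∑ p ∈ S, P p) *ᵥ x := by rw [H.sum, Matrix.one_mulVec]
    rw [h1, Matrix.sum_mulVec]
    exact Finset.sum_eq_zero hcon
  obtain ⟨p0, hp0, hne⟩ := hex
  have hpos : 0 < (star x ⬝ᵥ ((toC Q * Cs m S P) *ᵥ x)).re := by
    rw [key, Complex.re_sum]
    simp_rw [hre]
    exact Finset.sum_pos' hnn ⟨p0, hp0, H.pos p0 _ (hfix p0) hne⟩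
  have him : (star x ⬝ᵥ ((toC Q * Cs m S P) *ᵥ x)).im = 0 :=
    Matrix.IsHermitian.im_star_dotProduct_mulVec_self (𝕜 := ℂ) H.M_herm x
  rw [Complex.lt_def]
  exact ⟨hpos, him.symm⟩

open scoped ComplexOrder in
/-- the data of the change of basis -/
theorem exists_basis : ∃ B Bi Qi : Matrix n n ℂ, B * Bi = 1 ∧ Bi * B = 1 ∧ toC Q * Qi = 1 ∧ Qi * toC Q = 1 ∧
    toC Q * Cs m S P = Bᴴ * B := by
  obtain ⟨B, hB⟩ := posDef_decomp H.M_pos
  have h1 : IsUnit (toC Q * Cs m S P) := Matrix.PosDef.isUnit H.M_pos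
  have h2 : IsUnit (toC Q * Cs m S P).det := (Matrix.isUnit_iff_isUnit_det _).1 h1
  have h3 : IsUnit (toC Q).det := by
    rw [Matrix.det_mul] at h2
    exact isUnit_of_mul_isUnit_left h2
  have h4 : IsUnit B.det := by
    rw [hB, Matrix.det_mul] at h2
    exact isUnit_of_mul_isUnit_right h2
  exact ⟨B, B⁻¹, (toC Q)⁻¹, Matrix.mul_nonsing_inv _ h4, Matrix.nonsing_inv_mul _ h4, Matrix.mul_nonsing_inv _ h3,
    Matrix.nonsing_inv_mul _ h3, hB⟩

end IsHS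

/-! ### the change of basis -/

/-- conjugation by `B` -/
def cj (B Bi X : Matrix n n ℂ) : Matrix n n ℂ := B * X * Bi

theorem cj_mul {B Bi : Matrix n n ℂ} (h : Bi * B = 1) (X Y : Matrix n n ℂ) :
    cj B Bi X * cj B Bi Y = cj B Bi (X * Y) := by
  unfold cj
  calc B * X * Bi * (B * Y * Bi) = B * X * (Bi * B) * Y * Bi := by simp only [mul_assoc]
    _ = B * (X * Y) * Bi := by rw [h, mul_one, ← mul_assoc B X Y]

theorem cj_add (B Bi X Y : Matrix n n ℂ) : cj B Bi (X + Y) = cj B Bi X + cj B Bi Y := by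
  unfold cj
  rw [mul_add, add_mul]

theorem cj_sub (B Bi X Y : Matrix n n ℂ) : cj B Bi (X - Y) = cj B Bi X - cj B Bi Y := by
  unfold cj
  rw [mul_sub, sub_mul]

theorem cj_neg (B Bi X : Matrix n n ℂ) : cj B Bi (-X) = -cj B Bi X := by
  unfold cj
  rw [mul_neg, neg_mul]

theorem cj_smul (B Bi : Matrix n n ℂ) (c : ℂ) (X : Matrix n n ℂ) : cj B Bi (c • X) = c • cj B Bi X := by
  unfold cj
  rw [mul_smul_comm, smul_mul_assoc]

theorem cj_zero (B Bi : Matrix n n ℂ) : cj B Bi 0 = 0 := by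
  unfold cj
  simp

theorem cj_sum {ι : Type*} (s : Finset ι) (B Bi : Matrix n n ℂ) (X : ι → Matrix n n ℂ) :
    cj B Bi (∑ k ∈ s, X k) = ∑ k ∈ s, cj B Bi (X k) := by
  unfold cj
  rw [Finset.mul_sum, Finset.sum_mul]

theorem cj_one {B Bi : Matrix n n ℂ} (h : B * Bi = 1) : cj B Bi 1 = 1 := by
  unfold cj
  rw [mul_one, h]

theorem cj_cj {B Bi : Matrix n n ℂ} (h : B * Bi = 1) (X : Matrix n n ℂ) : cj B Bi (cj Bi B X) = X := by
  unfold cj
  calc B * (Bi * X * B) * Bi = (B * Bi) * X * (B * Bi) := by simp only [mul_assoc]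
    _ = X := by rw [h, one_mul, mul_one]

/-- the adjoint for the form `Q` in the new basis -/
noncomputable def tau (B Bi Q' Qi : Matrix n n ℂ) : Matrix n n ℂ →ₗ[ℂ] Matrix n n ℂ where
  toFun x := cj B Bi (Qi * (cj Bi B x)ᵀ * Q')
  map_add' x y := by
    rw [cj_add, Matrix.transpose_add, mul_add, add_mul, cj_add]
  map_smul' c x := by
    rw [cj_smul, Matrix.transpose_smul, mul_smul_comm, smul_mul_assoc, cj_smul]
    rfl

theorem tau_apply (B Bi Q' Qi x : Matrix n n ℂ) : tau B Bi Q' Qi x = cj B Bi (Qi * (cj Bi B x)ᵀ * Q') := rfl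

/-- the spectral projections in the new basis -/
noncomputable def EE (m : ℤ) (S : Finset ℤ) (P : ℤ → Matrix n n ℂ) (B Bi : Matrix n n ℂ) (μ : ℝ) : Matrix n n ℂ :=
  ∑ p ∈ S.filter (fun p => ((p - m : ℤ) : ℝ) = μ), cj B Bi (P p)

theorem EE_int (H : IsHS m Q S P) (B Bi : Matrix n n ℂ) (p : ℤ) : EE m S P B Bi ((p - m : ℤ) : ℝ) = cj B Bi (P p) := by
  unfold EE
  by_cases hp : p ∈ S
  · rw [Finset.sum_eq_single p]
    · intro q hq hqp
      exfalso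
      apply hqp
      have h1 : ((q - m : ℤ) : ℝ) = ((p - m : ℤ) : ℝ) := (Finset.mem_filter.1 hq).2
      have h2 : q - m = p - m := by exact_mod_cast h1
      omega
    · intro h
      exact (h (Finset.mem_filter.2 ⟨hp, rfl⟩)).elim
  · rw [H.supp p hp, cj_zero]
    refine Finset.sum_eq_zero fun q hq => ?_
    have h1 : ((q - m : ℤ) : ℝ) = ((p - m : ℤ) : ℝ) := (Finset.mem_filter.1 hq).2
    have h2 : q - m = p - m := by exact_mod_cast h1
    have h3 : q = p := by omega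
    rw [h3, H.supp p hp, cj_zero]

theorem EE_other (B Bi : Matrix n n ℂ) {μ : ℝ} (h : ∀ p ∈ S, ((p - m : ℤ) : ℝ) ≠ μ) : EE m S P B Bi μ = 0 := by
  unfold EE
  rw [Finset.filter_false_of_mem h, Finset.sum_empty]

/-- the eigenvalues -/
noncomputable def LamS (m : ℤ) (S : Finset ℤ) : Finset ℝ := S.image (fun p => ((p - m : ℤ) : ℝ))

theorem cast_inj (m : ℤ) {S : Finset ℤ} : ∀ p ∈ S, ∀ q ∈ S, ((p - m : ℤ) : ℝ) = ((q - m : ℤ) : ℝ) → p = q := by
  intro p _ q _ h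
  have h2 : p - m = q - m := by exact_mod_cast h
  omega

theorem dat_spec (H : IsHS m Q S P) {B Bi : Matrix n n ℂ} (h1 : B * Bi = 1) (h2 : Bi * B = 1)
    (hM : toC Q * Cs m S P = Bᴴ * B) :
    Spec (cj B Bi (∑ p ∈ S, ((p - m : ℤ) : ℂ) • P p)) (EE m S P B Bi) (LamS m S) := by
  have hstar : ∀ p, (cj B Bi (P p))ᴴ = cj B Bi (P p) := by
    intro p
    -- B^H B P = P^H B^H B
    have e1 : Bᴴ * B * P p = (P p)ᴴ * (Bᴴ * B) := by
      rw [← hM, ← mul_assoc, H.P_herm_Q, mul_assoc, mul_assoc]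
      congr 1
      unfold Cs
      rw [H.sum_mul_P (fun p => (-1 : ℂ) ^ (p - m)), H.P_mul_sum (fun p => (-1 : ℂ) ^ (p - m))]
    have e2 : Biᴴ * Bᴴ = 1 := by rw [← Matrix.conjTranspose_mul, h1, Matrix.conjTranspose_one]
    unfold cj
    rw [Matrix.conjTranspose_mul, Matrix.conjTranspose_mul]
    calc Biᴴ * ((P p)ᴴ * Bᴴ) = Biᴴ * ((P p)ᴴ * (Bᴴ * B)) * Bi := by
          rw [mul_assoc Biᴴ, mul_assoc (P p)ᴴ, mul_assoc Bᴴ, h1, mul_one]
      _ = Biᴴ * (Bᴴ * B * P p) * Bi := by rw [e1]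
      _ = (Biᴴ * Bᴴ) * B * P p * Bi := by simp only [mul_assoc]
      _ = B * P p * Bi := by rw [e2, one_mul]
  refine ⟨?_, ?_, ?_, ?_, ?_⟩
  · intro μ
    unfold EE
    rw [Matrix.conjTranspose_sum]
    exact Finset.sum_congr rfl fun p _ => hstar p
  · intro μ ν
    by_cases hμ : ∃ p ∈ S, ((p - m : ℤ) : ℝ) = μ
    · obtain ⟨p, _, rfl⟩ := hμ
      by_cases hν : ∃ q ∈ S, ((q - m : ℤ) : ℝ) = ν
      · obtain ⟨q, _, rfl⟩ := hν
        rw [EE_int H, EE_int H, cj_mul h2, H.mul]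
        by_cases hpq : p = q
        · rw [if_pos hpq, if_pos (by rw [hpq])]
        · rw [if_neg hpq, if_neg, cj_zero]
          intro h
          have h3 : p - m = q - m := by exact_mod_cast h
          exact hpq (by omega)
      · push Not at hν
        rw [EE_other B Bi hν, mul_zero]
        split_ifs with h
        · rw [h, EE_other B Bi hν]
        · rfl
    · push Not at hμ
      rw [EE_other B Bi hμ, zero_mul]
      simp
  · intro μ hμ
    apply EE_other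
    intro p hp h
    exact hμ (Finset.mem_image.2 ⟨p, hp, h⟩)
  · unfold LamS
    rw [Finset.sum_image (cast_inj m)]
    simp_rw [EE_int H]
    rw [← cj_sum, H.sum, cj_one h1]
  · unfold LamS
    rw [Finset.sum_image (cast_inj m), cj_sum]
    refine Finset.sum_congr rfl fun p _ => ?_
    rw [EE_int H, cj_smul]
    congr 1

theorem dat_inv (H : IsHS m Q S P) {B Bi Qi : Matrix n n ℂ} (h1 : B * Bi = 1) (h2 : Bi * B = 1)
    (h3 : toC Q * Qi = 1) (h4 : Qi * toC Q = 1) (hM : toC Q * Cs m S P = Bᴴ * B) :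
    Inv (tau B Bi (toC Q) Qi) := by
  have hQit : Qiᵀ = Qi := by
    have e1 : Qiᵀ * toC Q = 1 := by
      have := congrArg Matrix.transpose h3
      rw [Matrix.transpose_mul, H.Q_symm, Matrix.transpose_one] at this
      exact this
    calc Qiᵀ = Qiᵀ * (toC Q * Qi) := by rw [h3, mul_one]
      _ = Qi := by rw [← mul_assoc, e1, one_mul]
  have hQih : Qiᴴ = Qi := by
    have e1 : Qiᴴ * toC Q = 1 := by
      have := congrArg Matrix.conjTranspose h3
      rw [Matrix.conjTranspose_mul, H.Q_herm, Matrix.conjTranspose_one] at this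
      exact this
    calc Qiᴴ = Qiᴴ * (toC Q * Qi) := by rw [h3, mul_one]
      _ = Qi := by rw [← mul_assoc, e1, one_mul]
  refine ⟨?_, ?_, ?_, ?_⟩
  · intro x y
    rw [tau_apply, tau_apply, tau_apply, cj_mul h2, ← cj_mul h1, Matrix.transpose_mul]
    congr 1
    calc Qi * ((cj Bi B y)ᵀ * (cj Bi B x)ᵀ) * toC Q
        = Qi * (cj Bi B y)ᵀ * (toC Q * Qi) * (cj Bi B x)ᵀ * toC Q := by rw [h3, mul_one, ← mul_assoc Qi]
      _ = Qi * (cj Bi B y)ᵀ * toC Q * (Qi * (cj Bi B x)ᵀ * toC Q) := by simp only [mul_assoc]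
  · intro x
    rw [tau_apply, tau_apply, cj_cj h2, Matrix.transpose_mul, Matrix.transpose_mul, Matrix.transpose_transpose, hQit,
      H.Q_symm]
    have e1 : Qi * (toC Q * (cj Bi B x * Qi)) * toC Q = cj Bi B x := by
      calc Qi * (toC Q * (cj Bi B x * Qi)) * toC Q = (Qi * toC Q) * cj Bi B x * (Qi * toC Q) := by
            simp only [mul_assoc]
        _ = cj Bi B x := by rw [h4, one_mul, mul_one]
    rw [e1, cj_cj h1]
  · intro x
    -- the inverse of M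
    have hMi1 : (Bᴴ * B) * (Bi * Biᴴ) = 1 := by
      calc (Bᴴ * B) * (Bi * Biᴴ) = Bᴴ * (B * Bi) * Biᴴ := by simp only [mul_assoc]
        _ = 1 := by rw [h1, mul_one, ← Matrix.conjTranspose_mul, h2, Matrix.conjTranspose_one]
    have hMi2 : (Bi * Biᴴ) * (Bᴴ * B) = 1 := by
      calc (Bi * Biᴴ) * (Bᴴ * B) = Bi * (Biᴴ * Bᴴ) * B := by simp only [mul_assoc]
        _ = 1 := by rw [← Matrix.conjTranspose_mul, h1, Matrix.conjTranspose_one, mul_one, h2]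
    have a1 : Qi * (Bᴴ * B) = Cs m S P := by rw [← hM, ← mul_assoc, h4, one_mul]
    have a2 : (Bi * Biᴴ) * toC Q = Cs m S P := by
      have e1 : (Bi * Biᴴ) * (toC Q * Cs m S P) = 1 := by rw [hM, hMi2]
      calc (Bi * Biᴴ) * toC Q = (Bi * Biᴴ) * toC Q * (Cs m S P * Cs m S P) := by rw [H.Cs_mul, mul_one]
        _ = ((Bi * Biᴴ) * (toC Q * Cs m S P)) * Cs m S P := by simp only [mul_assoc]
        _ = Cs m S P := by rw [e1, one_mul]
    have a3 : (Bᴴ * B)ᵀ = Bᴴ * B := by rw [← hM, H.M_symm]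
    have a4 : (Bi * Biᴴ)ᵀ = Bi * Biᴴ := by
      have e1 : (Bi * Biᴴ)ᵀ * (Bᴴ * B) = 1 := by
        have := congrArg Matrix.transpose hMi1
        rw [Matrix.transpose_mul, a3, Matrix.transpose_one] at this
        exact this
      calc (Bi * Biᴴ)ᵀ = (Bi * Biᴴ)ᵀ * ((Bᴴ * B) * (Bi * Biᴴ)) := by rw [hMi1, mul_one]
        _ = Bi * Biᴴ := by rw [← mul_assoc, e1, one_mul]
    -- conjugate transposes of conjugated matrices
    have b1 : ∀ X, (cj B Bi X)ᴴ = cj B Bi ((Bi * Biᴴ) * Xᴴ * (Bᴴ * B)) := by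
      intro X
      unfold cj
      rw [Matrix.conjTranspose_mul, Matrix.conjTranspose_mul]
      calc Biᴴ * (Xᴴ * Bᴴ) = (B * Bi) * Biᴴ * (Xᴴ * Bᴴ) * (B * Bi) := by rw [h1, one_mul, mul_one]
        _ = B * ((Bi * Biᴴ) * Xᴴ * (Bᴴ * B)) * Bi := by simp only [mul_assoc]
    have b2 : ∀ y, cj Bi B yᴴ = (Bi * Biᴴ) * (cj Bi B y)ᴴ * (Bᴴ * B) := by
      intro y
      have e1 := b1 (cj Bi B y)
      rw [cj_cj h1] at e1
      rw [e1, cj_cj h2]
    rw [tau_apply, tau_apply, b1, b2]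
    congr 1
    clear b1 b2 hMi1 hMi2
    generalize Bᴴ * B = Mm at a1 a3 ⊢
    generalize Bi * Biᴴ = Mi at a2 a4 ⊢
    rw [Matrix.transpose_mul, Matrix.transpose_mul, a3, a4, Matrix.conjTranspose_mul, Matrix.conjTranspose_mul, H.Q_herm,
      hQih]
    have e2 : ((cj Bi B x)ᴴ)ᵀ = ((cj Bi B x)ᵀ)ᴴ := rfl
    rw [e2]
    calc Qi * (Mm * (((cj Bi B x)ᵀ)ᴴ * Mi)) * toC Q
        = (Qi * Mm) * ((cj Bi B x)ᵀ)ᴴ * (Mi * toC Q) := by simp only [mul_assoc]
      _ = (Mi * toC Q) * ((cj Bi B x)ᵀ)ᴴ * (Qi * Mm) := by rw [a1, a2]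
      _ = Mi * (toC Q * (((cj Bi B x)ᵀ)ᴴ * Qi)) * Mm := by simp only [mul_assoc]
  · intro x
    rw [tau_apply]
    unfold cj
    rw [Matrix.trace_mul_comm, ← mul_assoc, h2, one_mul, mul_assoc, Matrix.trace_mul_comm, mul_assoc, h3, mul_one,
      Matrix.trace_transpose, Matrix.trace_mul_comm, ← mul_assoc, h1, one_mul]

/-- the Lie algebra in the new basis -/
noncomputable def LB (Q : Matrix n n ℚ) (S : Finset ℤ) (P : ℤ → Matrix n n ℂ) (B Bi : Matrix n n ℂ) :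
    Submodule ℂ (Matrix n n ℂ) where
  carrier := {x | cj Bi B x ∈ LH Q S P}
  add_mem' := by
    intro x y hx hy
    change cj Bi B (x + y) ∈ LH Q S P
    rw [cj_add]
    exact (LH Q S P).add_mem hx hy
  zero_mem' := by
    change cj Bi B 0 ∈ LH Q S P
    rw [cj_zero]
    exact (LH Q S P).zero_mem
  smul_mem' := by
    intro c x hx
    change cj Bi B (c • x) ∈ LH Q S P
    rw [cj_smul]
    exact (LH Q S P).smul_mem c hx

theorem mem_LB {B Bi x : Matrix n n ℂ} : x ∈ LB Q S P B Bi ↔ cj Bi B x ∈ LH Q S P := Iff.rfl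

theorem dat_of (H : IsHS m Q S P)
    (hEnd : ∀ A : Matrix n n ℚ, (∀ p, toC A * P p = P p * toC A) → ∃ c : ℚ, A = c • (1 : Matrix n n ℚ))
    {B Bi Qi : Matrix n n ℂ} (h1 : B * Bi = 1) (h2 : Bi * B = 1)
    (h3 : toC Q * Qi = 1) (h4 : Qi * toC Q = 1) (hM : toC Q * Cs m S P = Bᴴ * B) :
    Dat (tau B Bi (toC Q) Qi) (LB Q S P B Bi) (cj B Bi (∑ p ∈ S, ((p - m : ℤ) : ℂ) • P p)) (EE m S P B Bi)
      (LamS m S) := by
  refine ⟨dat_inv H h1 h2 h3 h4 hM, dat_spec H h1 h2 hM, ?_, ?_, ?_, ?_, ?_⟩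
  · intro x hx
    have e1 : (cj Bi B x)ᵀ * toC Q = -(toC Q * cj Bi B x) := eq_neg_of_add_eq_zero_left (mem_LB.1 hx).1
    rw [tau_apply, mul_assoc, e1, mul_neg, ← mul_assoc, h4, one_mul, cj_neg, cj_cj h1]
  · intro x hx y hy
    rw [mem_LB, cj_sub, ← cj_mul h1, ← cj_mul h1]
    exact LH_br (mem_LB.1 hx) (mem_LB.1 hy)
  · intro x hx
    rw [mem_LB] at hx ⊢
    have hMi2 : (Bi * Biᴴ) * (Bᴴ * B) = 1 := by
      calc (Bi * Biᴴ) * (Bᴴ * B) = Bi * (Biᴴ * Bᴴ) * B := by simp only [mul_assoc]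
        _ = 1 := by rw [← Matrix.conjTranspose_mul, h1, Matrix.conjTranspose_one, mul_one, h2]
    have a2 : (Bi * Biᴴ) * toC Q = Cs m S P := by
      have e1 : (Bi * Biᴴ) * (toC Q * Cs m S P) = 1 := by rw [hM, hMi2]
      calc (Bi * Biᴴ) * toC Q = (Bi * Biᴴ) * toC Q * (Cs m S P * Cs m S P) := by rw [H.Cs_mul, mul_one]
        _ = ((Bi * Biᴴ) * (toC Q * Cs m S P)) * Cs m S P := by simp only [mul_assoc]
        _ = Cs m S P := by rw [e1, one_mul]
    set X := cj Bi B x with hX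
    have e1 : cj Bi B xᴴ = (Bi * Biᴴ) * Xᴴ * (Bᴴ * B) := by
      have e2 : x = cj B Bi X := (cj_cj h1 x).symm
      conv_lhs => rw [e2]
      unfold cj
      rw [Matrix.conjTranspose_mul, Matrix.conjTranspose_mul]
      simp only [mul_assoc]
    have hXc : X.map (starRingEnd ℂ) ∈ LH Q S P := LH_conj hx
    have hXt : Xᴴ = (X.map (starRingEnd ℂ))ᵀ := rfl
    have hW := H.LH_weil hXc
    have e5 := hXc.1
    generalize X.map (starRingEnd ℂ) = Y at hXt hW e5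
    have e3 : Yᵀ * toC Q = -(toC Q * Y) := eq_neg_of_add_eq_zero_left e5
    have e4 : cj Bi B xᴴ = -(Cs m S P * Y * Cs m S P) := by
      rw [e1, ← hM, hXt]
      calc (Bi * Biᴴ) * Yᵀ * (toC Q * Cs m S P) = (Bi * Biᴴ) * (Yᵀ * toC Q) * Cs m S P := by
            simp only [mul_assoc]
        _ = -(((Bi * Biᴴ) * toC Q) * Y * Cs m S P) := by
            rw [e3, mul_neg, neg_mul]
            simp only [mul_assoc]
        _ = _ := by rw [a2]
    rw [e4, H.Cs_eq]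
    have e6 : -(((-1 : ℂ) ^ m) • (∑ p ∈ S, ((-1 : ℂ) ^ p) • P p) * Y *
        ((-1 : ℂ) ^ m) • (∑ p ∈ S, ((-1 : ℂ) ^ p) • P p)) =
        (-((-1 : ℂ) ^ m * (-1) ^ m)) • ((∑ p ∈ S, ((-1 : ℂ) ^ p) • P p) * Y * (∑ p ∈ S, ((-1 : ℂ) ^ p) • P p)) := by
      rw [smul_mul_assoc, smul_mul_assoc, mul_smul_comm, smul_smul, neg_smul]
    rw [e6]
    exact (LH Q S P).smul_mem _ hW
  · intro T hT
    have h5 : ∀ x ∈ LH Q S P, cj Bi B T * x = x * cj Bi B T := by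
      intro x hx
      have h6 := hT (cj B Bi x) (by rw [mem_LB, cj_cj h2]; exact hx)
      have h7 := congrArg (cj Bi B) h6
      rw [← cj_mul h1, ← cj_mul h1, cj_cj h2] at h7
      exact h7
    obtain ⟨c, hc⟩ := H.LH_irr hEnd h5
    refine ⟨c, ?_⟩
    have h8 := congrArg (cj B Bi) hc
    rw [cj_cj h1, cj_smul, cj_one h1] at h8
    exact h8
  · rw [mem_LB, cj_cj h2]
    exact H.h0_mem

end MH
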