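import Pool.Agent.Helper21.MH.Aut
import Pool.Agent.Helper21.MH.HodgeD

/-!
Galois conjugates: the Lie algebra is stable under the automorphisms of the complex numbers; matrices which
commute with all conjugates of the logarithm of the Hodge cocharacter are scalars.
-/

set_option linter.unusedSectionVars false

open Matrix

namespace MH

variable {n : Type*} [Fintype n] [DecidableEq n]

theorem toC_aut (σ : ℂ ≃+* ℂ) (A : Matrix n n ℚ) : (toC A).map σ = toC A := by
  ext i j
  simp only [toC, Matrix.map_apply, eq_ratCast, map_ratCast]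

theorem dL_aut {a b : ℕ} {t : (Fin a ⊕ Fin b → n) → ℚ} (σ : ℂ ≃+* ℂ) {X : Matrix n n ℂ}
    (h : dL a b (tC t) X = 0) : dL a b (tC t) (X.map σ) = 0 := by
  rw [dL_apply] at h ⊢
  funext i
  have h1 := dact_map (σ : ℂ →+* ℂ) (lslot a b X) (tC t) i
  rw [h, Pi.zero_apply, map_zero] at h1
  rw [Pi.zero_apply, ← h1]
  have e1 : (fun j => (σ : ℂ →+* ℂ) (tC t j)) = tC t := funext fun j => by simp [tC]
  rw [e1]
  congr 1
  funext k
  rcases k with k | k
  · rfl
  · simp only [lslot, Sum.elim_inr]
    ext x y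
    simp

variable {m : ℤ} {Q : Matrix n n ℚ} {S : Finset ℤ} {P : ℤ → Matrix n n ℂ}

theorem LH_aut (σ : ℂ ≃+* ℂ) {X : Matrix n n ℂ} (hX : X ∈ LH Q S P) : X.map σ ∈ LH Q S P := by
  obtain ⟨h1, h2⟩ := hX
  refine ⟨?_, fun a b t ht => dL_aut σ (h2 a b t ht)⟩
  have h3 := congrArg (fun Y : Matrix n n ℂ => Y.map (σ : ℂ →+* ℂ)) h1
  have e1 : (toC Q).map (σ : ℂ →+* ℂ) = toC Q := toC_aut σ Q
  rw [Matrix.map_add _ (map_add _), Matrix.map_mul, Matrix.map_mul, e1, Matrix.map_zero _ (map_zero _)] at h3
  exact h3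

/-- Galois descent: the commutant of the conjugates of `h₀` is spanned by rational matrices. -/
theorem descent {h₀ : Matrix n n ℂ}
    (hEnd : ∀ A : Matrix n n ℚ, toC A * h₀ = h₀ * toC A → ∃ c : ℚ, A = c • (1 : Matrix n n ℚ))
    {T : Matrix n n ℂ} (hT : ∀ σ : ℂ ≃+* ℂ, T * h₀.map σ = h₀.map σ * T) :
    ∃ c : ℂ, T = c • (1 : Matrix n n ℂ) := by
  classical
  rcases isEmpty_or_nonempty n with hn | ⟨⟨i0⟩⟩
  · exact ⟨0, by ext i; exact hn.elim i⟩
  -- normalised matrices are zero
  have key : ∀ k : ℕ, ∀ T : Matrix n n ℂ, (∀ σ : ℂ ≃+* ℂ, T * h₀.map σ = h₀.map σ * T) → T i0 i0 = 0 →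
      (Finset.univ.filter (fun z : n × n => T z.1 z.2 ≠ 0)).card = k → T = 0 := by
    intro k
    induction k using Nat.strong_induction_on with
    | _ k ih =>
      intro T hT h0 hk
      by_contra hne
      have h1 : ∃ i j, T i j ≠ 0 := by
        by_contra h
        push Not at h
        exact hne (by ext i j; exact h i j)
      obtain ⟨i, j, hij⟩ := h1
      set T₁ := (T i j)⁻¹ • T with hT₁
      have hT₁c : ∀ σ : ℂ ≃+* ℂ, T₁ * h₀.map σ = h₀.map σ * T₁ := by
        intro σ
        rw [hT₁, smul_mul_assoc, mul_smul_comm, hT]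
      have hfix : ∀ σ : ℂ ≃+* ℂ, T₁ - T₁.map σ = 0 := by
        intro σ
        refine ih (Finset.univ.filter (fun z : n × n => (T₁ - T₁.map σ) z.1 z.2 ≠ 0)).card ?_ _ ?_ ?_ rfl
        · rw [← hk]
          apply Finset.card_lt_card
          rw [Finset.ssubset_iff_of_subset]
          · refine ⟨(i, j), ?_, ?_⟩
            · simpa using hij
            · simp [hT₁, hij]
          · intro z hz
            rw [Finset.mem_filter] at hz ⊢
            refine ⟨Finset.mem_univ _, fun h => hz.2 ?_⟩
            simp [hT₁, h]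
        · intro ρ
          have h2 : (T₁.map σ) * h₀.map ρ = h₀.map ρ * T₁.map σ := by
            have h3 := hT₁c (ρ.trans σ.symm)
            have h4 := congrArg (fun Y : Matrix n n ℂ => Y.map (σ : ℂ →+* ℂ)) h3
            rw [Matrix.map_mul, Matrix.map_mul, Matrix.map_map] at h4
            have h5 : ((σ : ℂ →+* ℂ) : ℂ → ℂ) ∘ (ρ.trans σ.symm) = ρ := by
              funext z
              simp
            rw [h5] at h4
            exact h4
          rw [sub_mul, mul_sub, hT₁c, h2]
        · simp [hT₁, h0]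
      -- rational
      have hrat : ∀ a b, ∃ q : ℚ, (q : ℂ) = T₁ a b := by
        intro a b
        by_contra h
        push Not at h
        obtain ⟨σ, hσ⟩ := exists_aut_ne h
        apply hσ
        have h2 := congrFun (congrFun (hfix σ) a) b
        rw [Matrix.sub_apply, Matrix.map_apply, Matrix.zero_apply, sub_eq_zero] at h2
        exact h2.symm
      choose A hA using hrat
      have hTA : T₁ = toC (Matrix.of A) := by
        ext a b
        simp [toC, hA]
      have h2 := hT₁c (RingEquiv.refl ℂ)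
      have h3 : h₀.map (RingEquiv.refl ℂ) = h₀ := by
        ext a b
        rfl
      rw [h3, hTA] at h2
      obtain ⟨c, hc⟩ := hEnd _ h2
      have h4 : T₁ i0 i0 = 0 := by simp [hT₁, h0]
      have h5 : c = 0 := by
        rw [hTA, hc] at h4
        simpa [toC] using h4
      have h6 : T₁ i j = 1 := by simp [hT₁, hij]
      rw [hTA, hc, h5] at h6
      simp [toC] at h6
  refine ⟨T i0 i0, ?_⟩
  rw [← sub_eq_zero]
  refine key _ _ ?_ ?_ rfl
  · intro σ
    rw [sub_mul, mul_sub, hT, smul_mul_assoc, mul_smul_comm, one_mul, mul_one]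
  · simp

end MH
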