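import Pool.Agent.Helper21.MH.So
import Pool.Agent.Helper21.MH.HodgeD
import Pool.Agent.Helper98.MH.Main

/-!
The Mumford-Tate group contains the special orthogonal group of the polarisation.
-/

set_option linter.unusedSectionVars false
set_option linter.unusedVariables false
set_option linter.unusedSimpArgs false

open Matrix

namespace MH

variable {n : Type*} [Fintype n] [DecidableEq n]

/-! ### the Mumford-Tate group -/

/-- The Mumford-Tate group: the invertible complex matrices that fix all Hodge tensors. -/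
def MT (S : Finset ℤ) (P : ℤ → Matrix n n ℂ) : Subgroup (GL n ℂ) where
  carrier := {g | ∀ a b t, IsHodgeTensor S P a b t →
    actF (slot a b (g : Matrix n n ℂ) ((g⁻¹ : GL n ℂ) : Matrix n n ℂ)) (tC t) = tC t}
  mul_mem' := by
    intro g h hg hh a b t ht
    have e1 : slot a b ((g * h : GL n ℂ) : Matrix n n ℂ) (((g * h)⁻¹ : GL n ℂ) : Matrix n n ℂ) =
        fun k => slot a b (g : Matrix n n ℂ) ((g⁻¹ : GL n ℂ) : Matrix n n ℂ) k *
          slot a b (h : Matrix n n ℂ) ((h⁻¹ : GL n ℂ) : Matrix n n ℂ) k := by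
      funext k
      rcases k with k | k
      · rfl
      · simp only [slot, Sum.elim_inr, _root_.mul_inv_rev, Units.val_mul, Matrix.transpose_mul]
    rw [e1, ← actF_mul, hh a b t ht, hg a b t ht]
  one_mem' := by
    intro a b t _
    have e1 : slot a b ((1 : GL n ℂ) : Matrix n n ℂ) (((1 : GL n ℂ)⁻¹ : GL n ℂ) : Matrix n n ℂ) = fun _ => 1 := by
      funext k
      rcases k with k | k
      · rfl
      · simp [slot]
    rw [e1, actF_one]
  inv_mem' := by
    intro g hg a b t ht
    have e1 : (fun k => slot a b ((g⁻¹ : GL n ℂ) : Matrix n n ℂ) (((g⁻¹)⁻¹ : GL n ℂ) : Matrix n n ℂ) k *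
          slot a b (g : Matrix n n ℂ) ((g⁻¹ : GL n ℂ) : Matrix n n ℂ) k) = fun _ => 1 := by
      funext k
      rcases k with k | k
      · simp only [slot, Sum.elim_inl]
        rw [← Units.val_mul, inv_mul_cancel, Units.val_one]
      · simp only [slot, Sum.elim_inr, inv_inv]
        rw [← Matrix.transpose_mul, ← Units.val_mul, inv_mul_cancel, Units.val_one, Matrix.transpose_one]
    conv_lhs => rw [← hg a b t ht]
    rw [actF_mul, e1, actF_one]

variable {m : ℤ} {Q : Matrix n n ℚ} {S : Finset ℤ} {P : ℤ → Matrix n n ℂ}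

theorem rank_cj {B Bi : Matrix n n ℂ} (h1 : B * Bi = 1) (h2 : Bi * B = 1) {X : Matrix n n ℂ} (hX : X * X = X) :
    (cj B Bi X).rank = X.rank := by
  have e1 : (cj B Bi X).trace = X.trace := by
    unfold cj
    rw [Matrix.trace_mul_comm, ← mul_assoc, h2, one_mul]
  rw [trace_eq_rank hX, trace_eq_rank (by rw [cj_mul h2, hX])] at e1
  exact_mod_cast e1

/-- the submonoid of the matrices that fix all Hodge tensors -/
def MTm (S : Finset ℤ) (P : ℤ → Matrix n n ℂ) : Submonoid (Matrix n n ℂ) where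
  carrier := {g | ∃ g' : Matrix n n ℂ, g * g' = 1 ∧ ∀ a b t, IsHodgeTensor S P a b t →
    actF (slot a b g g') (tC t) = tC t}
  mul_mem' := by
    rintro g h ⟨g', hg, hg'⟩ ⟨h', hh, hh'⟩
    refine ⟨h' * g', ?_, fun a b t ht => ?_⟩
    · calc g * h * (h' * g') = g * (h * h') * g' := by simp only [mul_assoc]
        _ = 1 := by rw [hh, mul_one, hg]
    · have e1 : slot a b (g * h) (h' * g') = fun k => slot a b g g' k * slot a b h h' k := by
        funext k
        rcases k with k | k
        · rfl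
        · simp only [slot, Sum.elim_inr, Matrix.transpose_mul]
      rw [e1, ← actF_mul, hh' a b t ht, hg' a b t ht]
  one_mem' := by
    refine ⟨1, mul_one 1, fun a b t _ => ?_⟩
    have e1 : slot a b (1 : Matrix n n ℂ) 1 = fun _ => 1 := by
      funext k
      rcases k with k | k
      · rfl
      · simp [slot]
    rw [e1, actF_one]

theorem mem_MT_of {g : GL n ℂ} (hg : (g : Matrix n n ℂ) ∈ MTm S P) : g ∈ MT S P := by
  obtain ⟨g', h1, h2⟩ := hg
  have h3 : g' = ((g⁻¹ : GL n ℂ) : Matrix n n ℂ) := by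
    calc g' = ((g⁻¹ : GL n ℂ) : Matrix n n ℂ) * ((g : Matrix n n ℂ) * g') := by
          rw [← mul_assoc, ← Units.val_mul, inv_mul_cancel, Units.val_one, one_mul]
      _ = _ := by rw [h1, mul_one]
  intro a b t ht
  rw [← h3]
  exact h2 a b t ht

/-- the torus elements of hyperbolic pairs fix all Hodge tensors -/
theorem hyp_mem (hL : ∀ X : Matrix n n ℂ, Xᵀ * toC Q + toC Q * X = 0 → X ∈ LH Q S P) (hs : (toC Q)ᵀ = toC Q)
    {e f : n → ℂ} {z : ℂ} (h1 : e ⬝ᵥ (toC Q *ᵥ e) = 0) (h2 : f ⬝ᵥ (toC Q *ᵥ f) = 0)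
    (h3 : e ⬝ᵥ (toC Q *ᵥ f) = 1) (hz : z ≠ 0) : hyp (toC Q) e f z ∈ MTm S P := by
  classical
  set Pe := vecMulVec e (toC Q *ᵥ f) with hPe
  set Pf := vecMulVec f (toC Q *ᵥ e) with hPf
  have h4 : f ⬝ᵥ (toC Q *ᵥ e) = 1 := by rw [dot_symm hs, h3]
  have ee : Pe * Pe = Pe := by rw [hPe, vmv_mul, dotProduct_comm, h3, one_smul]
  have ff : Pf * Pf = Pf := by rw [hPf, vmv_mul, dotProduct_comm, h4, one_smul]
  have ef : Pe * Pf = 0 := by rw [hPe, hPf, vmv_mul, dotProduct_comm, h2, zero_smul]
  have fe : Pf * Pe = 0 := by rw [hPe, hPf, vmv_mul, dotProduct_comm, h1, zero_smul]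
  let R : ℤ → Matrix n n ℂ := fun p => if p = 1 then Pe else if p = -1 then Pf else if p = 0 then 1 - Pe - Pf else 0
  have R1 : R 1 = Pe := rfl
  have Rm : R (-1) = Pf := rfl
  have R0 : R 0 = 1 - Pe - Pf := rfl
  have Ro : ∀ p, p ≠ 1 → p ≠ -1 → p ≠ 0 → R p = 0 := by
    intro p a b c
    simp only [R, if_neg a, if_neg b, if_neg c]
  have hR : Idm ({1, -1, 0} : Finset ℤ) R := by
    refine ⟨?_, ?_⟩
    · intro p q
      by_cases p1 : p = 1
      · subst p1
        by_cases q1 : q = 1
        · subst q1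
          rw [R1, ee, if_pos rfl]
        · rw [if_neg (Ne.symm q1), R1]
          by_cases q2 : q = -1
          · subst q2
            rw [Rm, ef]
          · by_cases q3 : q = 0
            · subst q3
              rw [R0, mul_sub, mul_sub, mul_one, ee, ef, sub_self, sub_zero]
            · rw [Ro q q1 q2 q3, mul_zero]
      · by_cases p2 : p = -1
        · subst p2
          rw [Rm]
          by_cases q1 : q = 1
          · subst q1
            rw [R1, fe, if_neg (by norm_num)]
          · by_cases q2 : q = -1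
            · subst q2
              rw [Rm, ff, if_pos rfl]
            · rw [if_neg (Ne.symm q2)]
              by_cases q3 : q = 0
              · subst q3
                rw [R0, mul_sub, mul_sub, mul_one, fe, ff, sub_zero, sub_self]
              · rw [Ro q q1 q2 q3, mul_zero]
        · by_cases p3 : p = 0
          · subst p3
            rw [R0]
            by_cases q1 : q = 1
            · subst q1
              rw [R1, sub_mul, sub_mul, one_mul, ee, fe, if_neg (by norm_num), sub_self, sub_zero]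
            · by_cases q2 : q = -1
              · subst q2
                rw [Rm, sub_mul, sub_mul, one_mul, ef, ff, if_neg (by norm_num), sub_zero, sub_self]
              · by_cases q3 : q = 0
                · subst q3
                  rw [R0, if_pos rfl, sub_mul, sub_mul, one_mul, mul_sub, mul_sub, mul_sub, mul_sub, mul_one, mul_one,
                    ee, ef, fe, ff]
                  abel
                · rw [Ro q q1 q2 q3, mul_zero, if_neg (Ne.symm q3)]
          · rw [Ro p p1 p2 p3, zero_mul]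
            split_ifs <;> rfl
    · rw [Finset.sum_insert (by decide), Finset.sum_insert (by decide), Finset.sum_singleton, R1, Rm, R0]
      abel
  have hX : (Pe - Pf)ᵀ * toC Q + toC Q * (Pe - Pf) = 0 := by
    have e1 : ∀ u v : n → ℂ, (vecMulVec u (toC Q *ᵥ v))ᵀ * toC Q = toC Q * vecMulVec v (toC Q *ᵥ u) := by
      intro u v
      rw [Matrix.transpose_vecMulVec, Matrix.vecMulVec_mul, Matrix.mul_vecMulVec, ← Matrix.mulVec_transpose, hs]
    rw [Matrix.transpose_sub, sub_mul, hPe, hPf, e1, e1, mul_sub]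
    abel
  have hXL := hL _ hX
  have hz' : z⁻¹ ≠ 0 := inv_ne_zero hz
  have hsum : ∀ c : ℤ → ℂ, ∑ p ∈ ({1, -1, 0} : Finset ℤ), c p • R p = c 1 • Pe + (c (-1) • Pf + c 0 • (1 - Pe - Pf)) := by
    intro c
    rw [Finset.sum_insert (by decide), Finset.sum_insert (by decide), Finset.sum_singleton, R1, Rm, R0]
  have hhyp : ∀ z : ℂ, ∑ p ∈ ({1, -1, 0} : Finset ℤ), z ^ p • R p = hyp (toC Q) e f z := by
    intro z
    rw [hsum (fun p => z ^ p)]
    unfold hyp
    rw [← hPe, ← hPf, _root_.zpow_one, _root_.zpow_neg_one, _root_.zpow_zero, sub_smul, sub_smul, one_smul, one_smul,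
      one_smul]
    abel
  refine ⟨hyp (toC Q) e f z⁻¹, ?_, fun a b t ht => ?_⟩
  · unfold hyp
    rw [← hPe, ← hPf, inv_inv]
    have e2 : (z - 1) + (z⁻¹ - 1) + (z - 1) * (z⁻¹ - 1) = 0 := by
      field_simp
      ring
    have e3 : (1 + (z - 1) • Pe + (z⁻¹ - 1) • Pf) * (1 + (z⁻¹ - 1) • Pe + (z - 1) • Pf) =
        1 + ((z - 1) + (z⁻¹ - 1) + (z - 1) * (z⁻¹ - 1)) • Pe +
          ((z - 1) + (z⁻¹ - 1) + (z - 1) * (z⁻¹ - 1)) • Pf := by
      simp only [add_mul, mul_add, one_mul, mul_one, smul_mul_smul_comm, ee, ff, ef, fe, smul_zero, add_zero,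
        zero_add, add_smul, mul_comm (z⁻¹ - 1) (z - 1)]
      abel
    rw [e3, e2, zero_smul, zero_smul, add_zero, add_zero]
  · have h5 := hXL.2 a b t ht
    have h6 : Pe - Pf = ∑ p ∈ ({1, -1, 0} : Finset ℤ), (p : ℂ) • R p := by
      rw [hsum (fun p => (p : ℂ))]
      push_cast
      rw [one_smul, zero_smul, add_zero, neg_one_smul, sub_eq_add_neg]
    rw [h6] at h5
    have h7 := (hR.inv_iff a b (tC t)).2 h5 z hz
    rw [hhyp, hhyp] at h7
    exact h7

theorem pairs_mem {Q' : Matrix n n ℂ} {M : Submonoid (Matrix n n ℂ)}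
    (hM : ∀ u v : n → ℂ, u ⬝ᵥ (Q' *ᵥ u) ≠ 0 → v ⬝ᵥ (Q' *ᵥ v) ≠ 0 → refl Q' u * refl Q' v ∈ M) :
    ∀ l : List (n → ℂ), (∀ u ∈ l, u ⬝ᵥ (Q' *ᵥ u) ≠ 0) → Even l.length → (l.map (refl Q')).prod ∈ M
  | [], _, _ => by simpa using M.one_mem
  | [u], _, h => by simp at h
  | u :: v :: l, h, he => by
    rw [List.map_cons, List.map_cons, List.prod_cons, List.prod_cons, ← mul_assoc]
    refine M.mul_mem (hM u v (h u (by simp)) (h v (by simp))) (pairs_mem hM l (fun w hw => h w (by simp [hw])) ?_)
    simpa [parity_simps] using he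

/-- The special orthogonal group of the polarisation lies in the Mumford-Tate group if its Lie algebra kills
all Hodge tensors. -/
theorem so_le_MT_of (H : IsHS m Q S P) (hL : ∀ X : Matrix n n ℂ, Xᵀ * toC Q + toC Q * X = 0 → X ∈ LH Q S P)
    {g : GL n ℂ} (h1 : (g : Matrix n n ℂ)ᵀ * toC Q * (g : Matrix n n ℂ) = toC Q)
    (h2 : (g : Matrix n n ℂ).det = 1) : g ∈ MT S P := by
  have hd : (toC Q).det ≠ 0 := by
    obtain ⟨B, Bi, Qi, _, _, h3, _, _⟩ := H.exists_basis
    intro h0
    have := congrArg Matrix.det h3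
    rw [Matrix.det_mul, h0, zero_mul, Matrix.det_one] at this
    exact zero_ne_one this
  obtain ⟨l, hl, hgl⟩ := refl_gen H.Q_symm hd h1
  apply mem_MT_of
  rw [hgl]
  refine pairs_mem (fun u v ha hb => pair_mem H.Q_symm hd
    (fun e f z a1 a2 a3 a4 => hyp_mem hL H.Q_symm a1 a2 a3 a4) ha hb) l hl ?_
  -- the parity
  have hdet : ∀ l : List (n → ℂ), (∀ u ∈ l, u ⬝ᵥ (toC Q *ᵥ u) ≠ 0) →
      (l.map (refl (toC Q))).prod.det = (-1) ^ l.length := by
    intro l
    induction l with
    | nil => intro _; simp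
    | cons u l ih =>
      intro h
      rw [List.map_cons, List.prod_cons, Matrix.det_mul, refl_det (h u (by simp)),
        ih (fun w hw => h w (by simp [hw])), List.length_cons, pow_succ]
      ring
  have h3 := hdet l hl
  rw [← hgl, h2] at h3
  by_contra hodd
  rw [Nat.not_even_iff_odd] at hodd
  rw [hodd.neg_one_pow] at h3
  norm_num at h3

end MH
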