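import Pool.Agent.Helper21.MH.Main2
import Pool.Agent.Helper21.MH.Hodge
import Pool.Agent.Helper21.MH.Gal

/-!
Polarised rational Hodge structures of even weight with a dominating middle Hodge number: the Mumford-Tate
group contains the special orthogonal group of the polarisation.
-/

set_option linter.unusedSectionVars false

open Matrix

namespace MH

variable {n : Type*} [Fintype n] [DecidableEq n]

section hodge

variable {m : ℤ} {Q : Matrix n n ℚ} {S : Finset ℤ} {P : ℤ → Matrix n n ℂ}

theorem rank_aut (σ : ℂ ≃+* ℂ) {X : Matrix n n ℂ} (hX : X * X = X) : (X.map σ).rank = X.rank := by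
  have h1 : X.map σ * X.map σ = X.map σ := by
    have := congrArg (fun Y : Matrix n n ℂ => Y.map (σ : ℂ →+* ℂ)) hX
    rw [Matrix.map_mul] at this
    exact this
  have h2 : (X.map σ).trace = X.trace := by
    have h3 : (X.map σ).trace = σ X.trace := by
      simp [Matrix.trace, map_sum]
    rw [h3, trace_eq_rank hX, map_natCast]
  rw [trace_eq_rank h1, trace_eq_rank hX] at h2
  exact_mod_cast h2

/-- the spectral decomposition of a conjugate -/
theorem sd_aut (H : IsHS m Q S P) {B Bi : Matrix n n ℂ} (h1 : B * Bi = 1) (h2 : Bi * B = 1) (σ : ℂ ≃+* ℂ) :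
    SD (cj B Bi ((∑ p ∈ S, ((p - m : ℤ) : ℂ) • P p).map σ)) (EE m S (fun p => (P p).map σ) B Bi) (LamS m S) := by
  have hmul : ∀ p q, (P p).map σ * (P q).map σ = if p = q then (P p).map σ else 0 := by
    intro p q
    have := congrArg (fun Y : Matrix n n ℂ => Y.map (σ : ℂ →+* ℂ)) (H.mul p q)
    rw [Matrix.map_mul] at this
    by_cases hpq : p = q
    · rw [if_pos hpq]
      rw [if_pos hpq] at this
      exact this
    · rw [if_neg hpq]
      rw [if_neg hpq, Matrix.map_zero _ (map_zero _)] at this
      exact this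
  have hsupp : ∀ p, p ∉ S → (P p).map σ = 0 := by
    intro p hp
    rw [H.supp p hp]
    ext i j
    simp
  have hint : ∀ p : ℤ, EE m S (fun p => (P p).map σ) B Bi ((p - m : ℤ) : ℝ) = cj B Bi ((P p).map σ) := by
    intro p
    unfold EE
    by_cases hp : p ∈ S
    · rw [Finset.sum_eq_single p]
      · intro q hq hqp
        exfalso
        apply hqp
        have h1 : ((q - m : ℤ) : ℝ) = ((p - m : ℤ) : ℝ) := (Finset.mem_filter.1 hq).2
        have h2 : q - m = p - m := by exact_mod_cast h1
        omega
      · intro h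
        exact (h (Finset.mem_filter.2 ⟨hp, rfl⟩)).elim
    · rw [hsupp p hp, cj_zero]
      refine Finset.sum_eq_zero fun q hq => ?_
      have h1 : ((q - m : ℤ) : ℝ) = ((p - m : ℤ) : ℝ) := (Finset.mem_filter.1 hq).2
      have h2 : q - m = p - m := by exact_mod_cast h1
      have h3 : q = p := by omega
      rw [h3]
      change cj B Bi ((P p).map σ) = 0
      rw [hsupp p hp, cj_zero]
  refine ⟨?_, ?_, ?_⟩
  · intro μ ν
    by_cases hμ : ∃ p ∈ S, ((p - m : ℤ) : ℝ) = μ
    · obtain ⟨p, _, rfl⟩ := hμ
      by_cases hν : ∃ q ∈ S, ((q - m : ℤ) : ℝ) = ν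
      · obtain ⟨q, _, rfl⟩ := hν
        rw [hint, hint, cj_mul h2, hmul]
        by_cases hpq : p = q
        · rw [if_pos hpq, if_pos (by rw [hpq])]
        · rw [if_neg hpq, if_neg, cj_zero]
          intro h
          have h3 : p - m = q - m := by exact_mod_cast h
          exact hpq (by omega)
      · push Not at hν
        rw [EE_other B Bi hν, mul_zero]
        split_ifs with h
        · rw [h, EE_other B Bi hν]
        · rfl
    · push Not at hμ
      rw [EE_other B Bi hμ, zero_mul]
      simp
  · unfold LamS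
    rw [Finset.sum_image (cast_inj m)]
    simp_rw [hint]
    rw [← cj_sum]
    have h3 : ∑ p ∈ S, (P p).map σ = 1 := by
      have := congrArg (fun Y : Matrix n n ℂ => Y.map (σ : ℂ →+* ℂ)) H.sum
      rw [Matrix.map_one _ (map_zero _) (map_one _)] at this
      rw [← this]
      ext i j
      simp [Matrix.sum_apply]
    rw [h3, cj_one h1]
  · unfold LamS
    rw [Finset.sum_image (cast_inj m)]
    simp_rw [hint]
    have h3 : (∑ p ∈ S, ((p - m : ℤ) : ℂ) • P p).map σ = ∑ p ∈ S, ((p - m : ℤ) : ℂ) • (P p).map σ := by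
      ext i j
      simp [Matrix.sum_apply]
    rw [h3, cj_sum]
    refine Finset.sum_congr rfl fun p _ => ?_
    rw [cj_smul]
    push_cast
    rfl

/-- what commutes with the logarithm of the cocharacter commutes with the projections -/
theorem comm_of_comm (H : IsHS m Q S P) {A : Matrix n n ℂ}
    (h3 : A * (∑ p ∈ S, ((p - m : ℤ) : ℂ) • P p) = (∑ p ∈ S, ((p - m : ℤ) : ℂ) • P p) * A) (p : ℤ) :
    A * P p = P p * A := by
  have hoff : ∀ p q, p ≠ q → P p * A * P q = 0 := by
    intro p q hpq
    have e1 : P p * (A * ∑ p ∈ S, ((p - m : ℤ) : ℂ) • P p) * P q = ((q - m : ℤ) : ℂ) • (P p * A * P q) := by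
      rw [← mul_assoc, mul_assoc (P p * A), H.sum_mul_P (fun p => ((p - m : ℤ) : ℂ)), mul_smul_comm]
    have e2 : P p * ((∑ p ∈ S, ((p - m : ℤ) : ℂ) • P p) * A) * P q = ((p - m : ℤ) : ℂ) • (P p * A * P q) := by
      rw [← mul_assoc, H.P_mul_sum (fun p => ((p - m : ℤ) : ℂ)), smul_mul_assoc, smul_mul_assoc]
    rw [h3, e2] at e1
    have e3 : (((p - m : ℤ) : ℂ) - ((q - m : ℤ) : ℂ)) • (P p * A * P q) = 0 := by
      rw [sub_smul, e1, sub_self]
    rcases smul_eq_zero.1 e3 with e4 | e4
    · exfalso
      apply hpq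
      have e5 : (((p - q : ℤ)) : ℂ) = 0 := by
        rw [← e4]
        push_cast
        ring
      have e6 : p - q = 0 := by exact_mod_cast e5
      omega
    · exact e4
  have l1 : A * P p = P p * A * P p := by
    have e1 : A * P p = (∑ q ∈ S, P q) * (A * P p) := by rw [H.sum, one_mul]
    rw [e1, Finset.sum_mul]
    by_cases hp : p ∈ S
    · rw [Finset.sum_eq_single p]
      · rw [mul_assoc]
      · intro q _ hq
        rw [← mul_assoc, hoff q p hq]
      · intro h
        exact absurd hp h
    · rw [H.supp p hp]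
      simp
  have l2 : P p * A = P p * A * P p := by
    have e1 : P p * A = P p * A * ∑ q ∈ S, P q := by rw [H.sum, mul_one]
    conv_lhs => rw [e1]
    rw [Finset.mul_sum]
    by_cases hp : p ∈ S
    · rw [Finset.sum_eq_single p]
      · intro q _ hq
        rw [hoff p q (Ne.symm hq)]
      · intro h
        exact absurd hp h
    · rw [H.supp p hp]
      simp
  exact l1.trans l2.symm

/-- all matrices that are skew for the polarisation kill all Hodge tensors -/
theorem so_kills2 (H : IsHS m Q S P)
    (hEnd : ∀ A : Matrix n n ℚ, (∀ p, toC A * P p = P p * toC A) → ∃ c : ℚ, A = c • (1 : Matrix n n ℚ))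
    (hs : 2 ≤ ∑ p ∈ S.filter (fun p => m < p), (P p).rank)
    (hb : 3 * (∑ p ∈ S.filter (fun p => m < p), (P p).rank) ^ 2 < 2 * (P m).rank)
    {X : Matrix n n ℂ} (hX : Xᵀ * toC Q + toC Q * X = 0) : X ∈ LH Q S P := by
  classical
  obtain ⟨B, Bi, Qi, h1, h2, h3, h4, hM⟩ := H.exists_basis
  have D := dat_of H hEnd h1 h2 h3 h4 hM
  have hPP : ∀ p, P p * P p = P p := fun p => by rw [H.mul, if_pos rfl]
  have r1 : ∀ p : ℤ, (EE m S P B Bi ((p - m : ℤ) : ℝ)).rank = (P p).rank := fun p => by
    rw [EE_int H, rank_cj h1 h2 (hPP p)]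
  have r0 : (EE m S P B Bi 0).rank = (P m).rank := by
    have := r1 m
    rwa [sub_self, Int.cast_zero] at this
  have rP : (Pp (EE m S P B Bi) (LamS m S)).rank = ∑ p ∈ S.filter (fun p => m < p), (P p).rank := by
    have e1 : Pp (EE m S P B Bi) (LamS m S) * Pp (EE m S P B Bi) (LamS m S) = Pp (EE m S P B Bi) (LamS m S) :=
      D.spec.sum_mul_sum _
    have e2 := trace_eq_rank e1
    have e3 : Pp (EE m S P B Bi) (LamS m S) = ∑ p ∈ S.filter (fun p => m < p), cj B Bi (P p) := by
      unfold Pp LamS
      rw [Finset.sum_filter, Finset.sum_image (cast_inj m), Finset.sum_filter]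
      refine Finset.sum_congr rfl fun p _ => ?_
      rw [EE_int H]
      have e4 : (0 : ℝ) < ((p - m : ℤ) : ℝ) ↔ m < p := by
        rw [← Int.cast_zero, Int.cast_lt]
        omega
      simp only [e4]
    rw [e3, Matrix.trace_sum] at e2
    have e5 : ∀ p, (cj B Bi (P p)).trace = ((P p).rank : ℂ) := by
      intro p
      rw [trace_eq_rank (by rw [cj_mul h2, hPP]), rank_cj h1 h2 (hPP p)]
    simp_rw [e5] at e2
    rw [e3]
    exact_mod_cast e2.symm
  have hx : tau B Bi (toC Q) Qi (cj B Bi X) = -cj B Bi X := by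
    rw [tau_apply, cj_cj h2, mul_assoc, eq_neg_of_add_eq_zero_left hX, mul_neg, ← mul_assoc, h4, one_mul, cj_neg]
  have hmem : cj B Bi X ∈ LB Q S P B Bi := by
    refine D.main_gal ?_ ?_ ?_ hx
    · rw [rP]
      exact hs
    · rw [rP, r0]
      exact hb
    · intro T hT
      have hdes := descent (h₀ := ∑ p ∈ S, ((p - m : ℤ) : ℂ) • P p) (T := cj Bi B T) (by
        intro A hA
        refine hEnd A ?_
        exact comm_of_comm H hA) (by
        intro σ
        have h5 := hT (cj B Bi ((∑ p ∈ S, ((p - m : ℤ) : ℂ) • P p).map σ))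
          (by
            rw [mem_LB, cj_cj h2]
            exact LH_aut σ H.h0_mem)
          (EE m S (fun p => (P p).map σ) B Bi) (sd_aut H h1 h2 σ) (by
            intro μ
            by_cases hμ : ∃ p ∈ S, ((p - m : ℤ) : ℝ) = μ
            · obtain ⟨p, hp, rfl⟩ := hμ
              have e1 : EE m S (fun p => (P p).map σ) B Bi ((p - m : ℤ) : ℝ) = cj B Bi ((P p).map σ) := by
                unfold EE
                rw [Finset.sum_eq_single p]
                · intro q hq hqp
                  exfalso
                  apply hqp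
                  have h1 : ((q - m : ℤ) : ℝ) = ((p - m : ℤ) : ℝ) := (Finset.mem_filter.1 hq).2
                  have h2 : q - m = p - m := by exact_mod_cast h1
                  omega
                · intro h
                  exact (h (Finset.mem_filter.2 ⟨hp, rfl⟩)).elim
              have e2 : (P p).map σ * (P p).map σ = (P p).map σ := by
                have := congrArg (fun Y : Matrix n n ℂ => Y.map (σ : ℂ →+* ℂ)) (hPP p)
                rw [Matrix.map_mul] at this
                exact this
              rw [e1, r1, rank_cj h1 h2 e2, rank_aut σ (hPP p)]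
            · push Not at hμ
              rw [EE_other B Bi hμ, EE_other B Bi hμ])
        have h6 := congrArg (cj Bi B) h5
        rw [← cj_mul h1, ← cj_mul h1, cj_cj h2] at h6
        exact h6)
      obtain ⟨c, hc⟩ := hdes
      refine ⟨c, ?_⟩
      have h8 := congrArg (cj B Bi) hc
      rw [cj_cj h1, cj_smul, cj_one h1] at h8
      exact h8
  rw [mem_LB, cj_cj h2] at hmem
  exact hmem

/-- The special orthogonal group of the polarisation lies in the Mumford-Tate group. -/
theorem so_le_MT (H : IsHS m Q S P)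
    (hEnd : ∀ A : Matrix n n ℚ, (∀ p, toC A * P p = P p * toC A) → ∃ c : ℚ, A = c • (1 : Matrix n n ℚ))
    (hs : 2 ≤ ∑ p ∈ S.filter (fun p => m < p), (P p).rank)
    (hb : 3 * (∑ p ∈ S.filter (fun p => m < p), (P p).rank) ^ 2 < 2 * (P m).rank)
    {g : GL n ℂ} (h1 : (g : Matrix n n ℂ)ᵀ * toC Q * (g : Matrix n n ℂ) = toC Q)
    (h2 : (g : Matrix n n ℂ).det = 1) : g ∈ MT S P :=
  so_le_MT_of H (fun _ hX => so_kills2 H hEnd hs hb hX) h1 h2

end hodge

end MH
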