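import Pool.Agent.Helper21.MH.Mul2

/-!
The sharp bound in all levels: the two embeddings.
-/

open Matrix

namespace MH
variable {n : Type*} [Fintype n] [DecidableEq n]
variable {h : Matrix n n ℂ} {E : ℝ → Matrix n n ℂ} {Λ : Finset ℝ}
  {τ : Matrix n n ℂ →ₗ[ℂ] Matrix n n ℂ} {L J : Submodule ℂ (Matrix n n ℂ)}

/-- the matrices on the range of a projection -/
def onP (P : Matrix n n ℂ) : Submodule ℂ (Matrix n n ℂ) where
  carrier := {y | P * y = y ∧ y * P = y}
  add_mem' := fun {a b} ha hb => ⟨by rw [mul_add, ha.1, hb.1], by rw [add_mul, ha.2, hb.2]⟩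
  zero_mem' := ⟨mul_zero _, zero_mul _⟩
  smul_mem' := fun c a ha => ⟨by rw [mul_smul_comm, ha.1], by rw [smul_mul_assoc, ha.2]⟩

theorem finrank_onP {P : Matrix n n ℂ} (hPP : P * P = P) : Module.finrank ℂ (onP P) ≤ P.rank ^ 2 := by
  set R : Submodule ℂ (n → ℂ) := LinearMap.range P.mulVecLin with hR
  let Φ : onP P →ₗ[ℂ] (R →ₗ[ℂ] R) :=
    { toFun := fun x =>
        { toFun := fun v => ⟨(x : Matrix n n ℂ) *ᵥ v, by
            have h1 := x.2.1
            have h2 : (x : Matrix n n ℂ) *ᵥ v = P *ᵥ ((x : Matrix n n ℂ) *ᵥ v) := by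
              rw [Matrix.mulVec_mulVec, h1]
            rw [h2]
            exact ⟨_, rfl⟩⟩
          map_add' := fun v w => Subtype.ext (Matrix.mulVec_add _ _ _)
          map_smul' := fun c v => Subtype.ext (Matrix.mulVec_smul _ _ _) }
      map_add' := fun x y => LinearMap.ext fun v => Subtype.ext (Matrix.add_mulVec _ _ _)
      map_smul' := fun c x => LinearMap.ext fun v => Subtype.ext (Matrix.smul_mulVec _ _ _) }
  have hinj : Function.Injective Φ := by
    rw [injective_iff_map_eq_zero]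
    intro x hx
    apply Subtype.ext
    apply Matrix.ext_of_mulVec_single
    intro i
    have h6 := LinearMap.congr_fun hx ⟨P *ᵥ Pi.single i 1, ⟨_, rfl⟩⟩
    have h7 : (x : Matrix n n ℂ) *ᵥ (P *ᵥ Pi.single i 1) = 0 := congrArg Subtype.val h6
    rw [Matrix.mulVec_mulVec, x.2.2] at h7
    rw [h7]
    exact (Matrix.zero_mulVec _).symm
  have h1 := LinearMap.finrank_le_finrank_of_injective hinj
  rw [Module.finrank_linearMap] at h1
  rw [sq]
  exact h1

namespace Dat

/-- degree zero embeds into the sum of the endomorphisms of the positive eigenspaces, up to `KK` -/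
theorem finrank_ze3 (D : Dat τ L h E Λ) (J : Submodule ℂ (Matrix n n ℂ)) :
    Module.finrank ℂ (J ⊓ Ld L h 0 : Submodule ℂ (Matrix n n ℂ)) ≤
      ∑ μ ∈ Λ.filter (fun μ => 0 < μ), (E μ).rank ^ 2 + Module.finrank ℂ (KK L E) := by
  classical
  have S := D.spec
  have hmem : ∀ y ∈ J ⊓ Ld L h 0, ∀ μ, E μ * y ∈ onP (E μ) := by
    intro y hy μ
    have hEE : E μ * E μ = E μ := by rw [S.mul, if_pos rfl]
    refine ⟨by rw [← mul_assoc, hEE], ?_⟩
    rw [D.Ld0_comm hy.2 μ, mul_assoc, hEE]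
  let f : (J ⊓ Ld L h 0 : Submodule ℂ (Matrix n n ℂ)) →ₗ[ℂ]
      ((μ : {μ // μ ∈ Λ.filter (fun μ => 0 < μ)}) → onP (E μ)) :=
    { toFun := fun y μ => ⟨E μ * (y : Matrix n n ℂ), hmem y y.2 μ⟩
      map_add' := fun x y => funext fun μ => Subtype.ext (mul_add _ _ _)
      map_smul' := fun c x => funext fun μ => Subtype.ext (mul_smul_comm _ _ _) }
  have h1 := f.finrank_range_add_finrank_ker
  have h2 : Module.finrank ℂ (LinearMap.range f) ≤ ∑ μ ∈ Λ.filter (fun μ => 0 < μ), (E μ).rank ^ 2 := by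
    refine (Submodule.finrank_le _).trans ?_
    rw [Module.finrank_pi_fintype, ← Finset.sum_coe_sort (Λ.filter (fun μ => 0 < μ))]
    refine Finset.sum_le_sum fun μ _ => ?_
    exact finrank_onP (by rw [S.mul, if_pos rfl])
  have h3 : Module.finrank ℂ (LinearMap.ker f) ≤ Module.finrank ℂ (KK L E) := by
    have h4 : Module.finrank ℂ ((LinearMap.ker f).map (J ⊓ Ld L h 0).subtype) = Module.finrank ℂ (LinearMap.ker f) :=
      LinearEquiv.finrank_eq (Submodule.equivMapOfInjective _ (Submodule.subtype_injective _) _).symm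
    rw [← h4]
    refine Submodule.finrank_mono ?_
    rintro y ⟨x, hx, rfl⟩
    rw [SetLike.mem_coe, LinearMap.mem_ker] at hx
    refine D.mem_KK_of (D.Ld0_ze x.2.2) ?_
    unfold Pp
    rw [Finset.sum_mul]
    refine Finset.sum_eq_zero fun μ hμ => ?_
    exact congrArg Subtype.val (congrFun hx ⟨μ, hμ⟩)
  omega

theorem Ld_le_up (D : Dat τ L h E Λ) {μ : ℝ} (hμ : 0 < μ) : Ld L h μ ≤ Lup L E := by
  intro x hx
  refine ⟨hx.1, fun a b h1 => D.Ld_block hx ?_⟩
  rintro rfl
  exact h1 (by linarith)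

/-- the kernel of `h` embeds into the sum of the `Hom (L_μ, V_μ)` -/
theorem rank_zero_le3 (D : Dat τ L h E Λ) (hP0 : Pp E Λ ≠ 0) :
    (E 0).rank ≤ ∑ μ ∈ Λ.filter (fun μ => 0 < μ), Module.finrank ℂ (Ld L h μ) * (E μ).rank := by
  classical
  have S := D.spec
  have hZZ : E 0 * E 0 = E 0 := by rw [S.mul, if_pos rfl]
  set R0 : Submodule ℂ (n → ℂ) := LinearMap.range (E 0).mulVecLin with hR0
  have hfix : ∀ v ∈ R0, E 0 *ᵥ v = v := by
    rintro v ⟨u, rfl⟩
    rw [Matrix.mulVecLin_apply, Matrix.mulVec_mulVec, hZZ]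
  have hmem : ∀ μ, ∀ x ∈ Ld L h μ, ∀ v ∈ R0, x *ᵥ v ∈ LinearMap.range (E μ).mulVecLin := by
    intro μ x hx v hv
    have h1 := D.Ld_mul_E hx 0
    rw [zero_add] at h1
    rw [← hfix v hv, Matrix.mulVec_mulVec, h1, mul_assoc, ← Matrix.mulVec_mulVec]
    exact ⟨_, rfl⟩
  let Φ : R0 →ₗ[ℂ] ((μ : {μ // μ ∈ Λ.filter (fun μ => 0 < μ)}) → (Ld L h μ →ₗ[ℂ] LinearMap.range (E μ).mulVecLin)) :=
    { toFun := fun v μ =>
        { toFun := fun x => ⟨(x : Matrix n n ℂ) *ᵥ v, hmem μ x x.2 v v.2⟩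
          map_add' := fun x y => Subtype.ext (Matrix.add_mulVec _ _ _)
          map_smul' := fun c x => Subtype.ext (Matrix.smul_mulVec _ _ _) }
      map_add' := fun v w => funext fun μ => LinearMap.ext fun x => Subtype.ext (Matrix.mulVec_add _ _ _)
      map_smul' := fun c v => funext fun μ => LinearMap.ext fun x => Subtype.ext (Matrix.mulVec_smul _ _ _) }
  have hinj : Function.Injective Φ := by
    rw [injective_iff_map_eq_zero]
    intro v hv
    apply Subtype.ext
    refine D.killed hP0 (hfix v v.2) fun x hx => ?_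
    rw [S.sum_cmp x, Matrix.sum_mulVec]
    refine Finset.sum_eq_zero fun ν _ => ?_
    have hd := D.cmp_mem_Ld hx.1 ν
    by_cases h1 : ν ∈ Λ.filter (fun μ => 0 < μ)
    · have h2 := LinearMap.congr_fun (congrFun hv ⟨ν, h1⟩) ⟨cmp E Λ ν x, hd⟩
      exact congrArg Subtype.val h2
    · have h2 : E ν * cmp E Λ ν x * E 0 = 0 := by
        rw [S.block_cmp, if_pos (sub_zero ν)]
        by_cases h3 : ν ∈ Λ
        · exact hx.2 ν 0 fun h4 => h1 (Finset.mem_filter.2 ⟨h3, h4⟩)
        · rw [S.supp ν h3, zero_mul, zero_mul]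
      have h3 := D.Ld_mul_E hd 0
      rw [zero_add, h2] at h3
      rw [← hfix v v.2, Matrix.mulVec_mulVec, h3, Matrix.zero_mulVec]
  have h1 := LinearMap.finrank_le_finrank_of_injective hinj
  rw [Module.finrank_pi_fintype] at h1
  rw [← Finset.sum_coe_sort (Λ.filter (fun μ => 0 < μ))]
  refine h1.trans (Finset.sum_le_sum fun μ _ => ?_)
  rw [Module.finrank_linearMap]
  exact le_refl _

theorem sum_Ld_le (D : Dat τ L h E Λ) :
    ∑ μ ∈ Λ.filter (fun μ => 0 < μ), Module.finrank ℂ (Ld L h μ) ≤ Module.finrank ℂ (Lup L E) := by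
  classical
  have hpos : ∀ μ : {μ // μ ∈ Λ.filter (fun μ => 0 < μ)}, (0 : ℝ) < μ := fun μ => (Finset.mem_filter.1 μ.2).2
  let f : ((μ : {μ // μ ∈ Λ.filter (fun μ => 0 < μ)}) → Ld L h μ) →ₗ[ℂ] Lup L E :=
    { toFun := fun x => ⟨∑ μ, (x μ : Matrix n n ℂ), (Lup L E).sum_mem fun μ _ => D.Ld_le_up (hpos μ) (x μ).2⟩
      map_add' := fun x y => Subtype.ext (by
        simp only [Pi.add_apply, Submodule.coe_add, Finset.sum_add_distrib])
      map_smul' := fun c x => Subtype.ext (by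
        simp only [Pi.smul_apply, Submodule.coe_smul, Finset.smul_sum, RingHom.id_apply]) }
  have hinj : Function.Injective f := by
    rw [injective_iff_map_eq_zero]
    intro x hx
    have h1 : ∑ μ, (x μ : Matrix n n ℂ) = 0 := congrArg Subtype.val hx
    funext μ
    apply Subtype.ext
    have h2 : hs (x μ : Matrix n n ℂ) (∑ ν, (x ν : Matrix n n ℂ)) = hs (x μ : Matrix n n ℂ) (x μ) := by
      rw [hs_sum_right, Finset.sum_eq_single μ]
      · intro ν _ hν
        exact D.hs_Ld (fun h3 => hν (Subtype.ext h3.symm)) (x μ).2 (x ν).2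
      · intro h'
        exact absurd (Finset.mem_univ _) h'
    rw [h1, hs_zero_right, hs_self] at h2
    exact nrm_eq_zero (by exact_mod_cast h2.symm)
  have h1 := LinearMap.finrank_le_finrank_of_injective hinj
  rw [Module.finrank_pi_fintype] at h1
  rw [← Finset.sum_coe_sort (Λ.filter (fun μ => 0 < μ))]
  exact h1

end Dat

end MH
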