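import Pool.Agent.Helper21.MH.Mul3
import Pool.Agent.Helper98.MH.Main
import Pool.Agent.Helper48.MH.Num3
import Pool.Agent.Helper98.MH.Idl3
import Pool.Agent.Helper98.MH.Sml3

/-!
The sharp bound in all levels: if the positive part has dimension `s ≥ 2` and the elements of `L` living on
the kernel of `h` span at most a line, then the kernel of `h` has dimension at most `s ^ 2`.
-/

open Matrix

namespace MH
variable {n : Type*} [Fintype n] [DecidableEq n]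
variable {h : Matrix n n ℂ} {E : ℝ → Matrix n n ℂ} {Λ : Finset ℝ}
  {τ : Matrix n n ℂ →ₗ[ℂ] Matrix n n ℂ} {L J : Submodule ℂ (Matrix n n ℂ)}

namespace Dat

theorem nrm_Ph (D : Dat τ L h E Λ) : 2 * nrm (Pp E Λ * h) = nrm h := by
  have S := D.spec
  have hPP : Pp E Λ * Pp E Λ = Pp E Λ := S.sum_mul_sum _
  have hPs : (Pp E Λ)ᴴ = Pp E Λ := S.sum_star _
  have hQQ : Qn E Λ * Qn E Λ = Qn E Λ := S.sum_mul_sum _
  have hQs : (Qn E Λ)ᴴ = Qn E Λ := S.sum_star _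
  have hZZ : E 0 * E 0 = E 0 := by rw [S.mul, if_pos rfl]
  have l1 := nrm_left hPP hPs hZZ (S.star 0) hQQ hQs S.one_eq h
  have l2 : nrm (E 0 * h) = 0 := by
    rw [S.mul_h]
    simp [nrm_zero]
  have l4 : nrm (Qn E Λ * h) = nrm (Pp E Λ * h) := by
    rw [← D.nrm_tau (Pp E Λ * h), D.inv.mul, D.tau_h, D.tauP, neg_mul, nrm_neg, ← nrm_star (h * Qn E Λ),
      Matrix.conjTranspose_mul, hQs, S.hh]
  rw [l2, l4] at l1
  linarith

/-- the bound for an ideal with scalar Casimir operator that contains `h`, at least two positive levels -/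
theorem lev3 (D : Dat τ L h E Λ) (hK : Module.finrank ℂ (KK L E) ≤ 1) (hs2 : 2 ≤ (Pp E Λ).rank)
    (hmul : ∀ μ ∈ Λ.filter (fun μ => 0 < μ), (E μ).rank < (Pp E Λ).rank) (hJ : IsI L J) (hh : h ∈ J) {c : ℝ}
    (hc : ∀ (κ : Type) (_ : Fintype κ) (_ : DecidableEq κ) (w : κ → Matrix n n ℂ), ONB J w → ∀ y ∈ J,
      c * nrm y = ∑ b, nrm (ad y (w b))) : (E 0).rank ≤ (Pp E Λ).rank ^ 2 := by
  classical
  have S := D.spec
  have hP0 : Pp E Λ ≠ 0 := by
    intro h1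
    rw [h1, Matrix.rank_zero] at hs2
    omega
  have h0 : h ≠ 0 := D.h_ne98 hP0
  have hpos : 0 < nrm h := lt_of_le_of_ne (nrm_nonneg h) fun h1 => h0 (nrm_eq_zero h1.symm)
  have hPP : Pp E Λ * Pp E Λ = Pp E Λ := S.sum_mul_sum _
  have hPs : (Pp E Λ)ᴴ = Pp E Λ := S.sum_star _
  obtain ⟨N, hN, x, hx⟩ : ∃ N : ℕ, Module.finrank ℂ (Lup L E) = N ∧ ∃ x : Fin N → Matrix n n ℂ, ONB (Lup L E) x :=
    ⟨_, rfl, exists_onb _⟩
  obtain ⟨d', hd', w', hw'⟩ : ∃ N : ℕ, Module.finrank ℂ (L0w J h L) = N ∧ ∃ x : Fin N → Matrix n n ℂ,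
      ONB (L0w J h L) x := ⟨_, rfl, exists_onb _⟩
  obtain ⟨r, hr, hw⟩ := D.onb_zero hh h0 hw'
  obtain ⟨w, hwdef⟩ : ∃ w : Unit ⊕ Fin d' → Matrix n n ℂ, w = Sum.elim (fun _ : Unit => (r : ℂ) • h) w' := ⟨_, rfl⟩
  rw [← hwdef] at hw
  have hz := D.onb_J3 hJ hh hx hw
  have hc' : ∀ y ∈ J, c * nrm y = ∑ i, nrm (ad y (x i)) + ∑ i, nrm (ad y (x i)ᴴ) + ∑ j, nrm (ad y (w j)) := by
    intro y hy
    rw [hc _ inferInstance inferInstance _ hz y hy, Fintype.sum_sum_type, Fintype.sum_sum_type]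
    rfl
  have hc0 : 0 ≤ c := by
    have h1 := hc' h hh
    have h2 : 0 ≤ c * nrm h := by
      rw [h1]
      have a1 : 0 ≤ ∑ i, nrm (ad h (x i)) := Finset.sum_nonneg fun i _ => nrm_nonneg _
      have a2 : 0 ≤ ∑ i, nrm (ad h (x i)ᴴ) := Finset.sum_nonneg fun i _ => nrm_nonneg _
      have a3 : 0 ≤ ∑ j, nrm (ad h (w j)) := Finset.sum_nonneg fun i _ => nrm_nonneg _
      linarith
    exact nonneg_of_mul_nonneg_left h2 hpos
  -- the largest level
  have hne : (Λ.filter (fun μ => 0 < μ)).Nonempty := by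
    rw [Finset.nonempty_iff_ne_empty]
    intro h1
    apply hP0
    unfold Pp
    rw [h1, Finset.sum_empty]
  obtain ⟨a, ha, hmax⟩ := Finset.exists_max_image (Λ.filter (fun μ => 0 < μ)) (fun μ => (E μ).rank) hne
  have hsum := D.rank_Pp
  obtain ⟨s, hsdef⟩ : ∃ s : ℕ, s = (Pp E Λ).rank := ⟨_, rfl⟩
  obtain ⟨F, hFdef⟩ : ∃ F : ℕ, F = (E a).rank := ⟨_, rfl⟩
  obtain ⟨j, hjdef⟩ : ∃ j : ℕ, j = ∑ μ ∈ (Λ.filter (fun μ => 0 < μ)).erase a, (E μ).rank := ⟨_, rfl⟩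
  have hFj : F + j = s := by
    rw [hsdef, hsum, hFdef, hjdef]
    exact Finset.add_sum_erase _ (fun μ => (E μ).rank) ha
  have hFs : F < s := by
    rw [hsdef, hFdef]
    exact hmul a ha
  have hrle : ∀ μ ∈ Λ.filter (fun μ => 0 < μ), (E μ).rank ≤ F := fun μ hμ => by
    rw [hFdef]
    exact hmax μ hμ
  set R := ∑ μ ∈ (Λ.filter (fun μ => 0 < μ)).erase a, E μ with hR
  have hRR : R * R = R := S.sum_mul_sum _
  have hRs : Rᴴ = R := S.sum_star _
  have hRt : R.trace = (j : ℂ) := by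
    rw [hR, Matrix.trace_sum, hjdef]
    push_cast
    refine Finset.sum_congr rfl fun μ _ => ?_
    exact trace_eq_rank (by rw [S.mul, if_pos rfl])
  -- cardinalities
  have hcd : Fintype.card (Unit ⊕ Fin d') = d' + 1 := by
    rw [Fintype.card_sum, Fintype.card_unit, Fintype.card_fin, add_comm]
  have hfin0 : Module.finrank ℂ (J ⊓ Ld L h 0 : Submodule ℂ (Matrix n n ℂ)) = d' + 1 := by
    rw [hw.finrank, hcd]
  have hcard : (Fintype.card ((Fin N ⊕ Fin N) ⊕ (Unit ⊕ Fin d')) : ℝ) = 2 * N + (d' + 1) := by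
    simp only [Fintype.card_sum, Fintype.card_fin, Fintype.card_unit]
    push_cast
    ring
  -- blocks
  have hb1 := fun i => D.up_blocks (hx.mem i)
  have hn1 : ∀ i, nrm (x i) = 1 := hx.nrm_one
  set A : ℝ := ∑ i, nrm (Pp E Λ * x i * Pp E Λ) with hA
  set B : ℝ := ∑ i, nrm (Pp E Λ * x i * E 0) with hB
  set C : ℝ := ∑ i, nrm (Pp E Λ * x i * Qn E Λ) with hC
  have hABC : 2 * A + 2 * B + C = N := by
    have h1 : ∑ i, nrm (x i) = N := by
      simp [hn1]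
    rw [← h1, Finset.sum_congr rfl fun i _ => (hb1 i).1, Finset.sum_add_distrib, Finset.sum_add_distrib,
      ← Finset.mul_sum, ← Finset.mul_sum]
  have hA0 : 0 ≤ A := Finset.sum_nonneg fun i _ => nrm_nonneg _
  have hB0 : 0 ≤ B := Finset.sum_nonneg fun i _ => nrm_nonneg _
  have hC0 : 0 ≤ C := Finset.sum_nonneg fun i _ => nrm_nonneg _
  have hPx : ∑ i, nrm (Pp E Λ * x i) = A + B + C := by
    rw [Finset.sum_congr rfl fun i _ => (hb1 i).2.1, Finset.sum_add_distrib, Finset.sum_add_distrib]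
  have hPxs : ∑ i, nrm (Pp E Λ * (x i)ᴴ) = A := Finset.sum_congr rfl fun i _ => (hb1 i).2.2.1
  set W : ℝ := ∑ j, nrm (Pp E Λ * w j) with hW
  have hPh : nrm (Pp E Λ * ((r : ℂ) • h)) = 1 / 2 := by
    rw [mul_smul_comm, nrm_smul, Complex.norm_real, Real.norm_eq_abs, sq_abs]
    have := D.nrm_Ph
    nlinarith
  have hw0 : w (Sum.inl ()) = (r : ℂ) • h := by rw [hwdef]; rfl
  have hW2 : 1 / 2 ≤ W := by
    rw [← hPh, ← hw0]
    exact Finset.single_le_sum (f := fun j => nrm (Pp E Λ * w j)) (fun j _ => nrm_nonneg _) (Finset.mem_univ _)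
  -- the relations
  have r5 := D.rel3 hJ hh hx hw hc'
  have r6 := D.rel6 hJ hh hx hw hc0 hc'
  have hT := hz.trace_ideal hJ.br D.st D.irr hPP hPs (s := s) (by rw [trace_eq_rank hPP, hsdef])
  have hT2 := hz.trace_ideal hJ.br D.st D.irr hRR hRs (s := j) hRt
  rw [hcard, D.card_eq, Fintype.sum_sum_type, Fintype.sum_sum_type] at hT hT2
  simp only [Sum.elim_inl, Sum.elim_inr] at hT hT2
  rw [hPx, hPxs, ← hW] at hT
  rw [← hsdef] at hT hT2 hs2 ⊢ r6
  rw [hcd, Fintype.card_fin] at r5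
  rw [Fintype.card_fin] at r6
  by_contra hcon
  rw [not_le] at hcon
  refine num_multi (s := s) (F := F) (j := j) (b := (E 0).rank) (N := N) (d := d' + 1) (W := W) (U := 2 * B)
    (I := 2 * A) (c := c) (S := ∑ j, ∑ l, nrm (ad (w j) (w l))) hs2 (by omega) hFj hcon ?_ hW2 ?_ ?_ ?_ ?_ ?_ ?_ ?_
    ?_ ?_
  · push_cast at hT ⊢
    have e1 : A + B + C + A + W = W + N - 2 * B / 2 := by linarith
    rw [e1] at hT
    linarith
  · -- the trace inequality
    have h1 : ∀ j, ∑ l, nrm (ad (w j) (w l)) ≤ 2 * F * nrm (Pp E Λ * w j) -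
        2 * ∑ μ ∈ Λ.filter (fun μ => 0 < μ), ‖(E μ * w j).trace‖ ^ 2 := fun j => D.trace3 hK hJ hw hrle (hw.mem j)
    have h2 := Finset.sum_le_sum fun j (_ : j ∈ Finset.univ) => h1 j
    rw [Finset.sum_sub_distrib, ← Finset.mul_sum, ← Finset.mul_sum, ← hW] at h2
    have h3 : ∑ μ ∈ Λ.filter (fun μ => 0 < μ), ‖(E μ * ((r : ℂ) • h)).trace‖ ^ 2 ≤
        ∑ j, ∑ μ ∈ Λ.filter (fun μ => 0 < μ), ‖(E μ * w j).trace‖ ^ 2 := by
      rw [← hw0]
      exact Finset.single_le_sum (f := fun j => ∑ μ ∈ Λ.filter (fun μ => 0 < μ), ‖(E μ * w j).trace‖ ^ 2)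
        (fun j _ => Finset.sum_nonneg fun μ _ => by positivity) (Finset.mem_univ _)
    have h4 : 1 / 2 ≤ ∑ μ ∈ Λ.filter (fun μ => 0 < μ), ‖(E μ * ((r : ℂ) • h)).trace‖ ^ 2 := by
      rw [← hPh]
      unfold Pp
      rw [S.nrm_sum]
      refine Finset.sum_le_sum fun μ _ => ?_
      have hEE : E μ * E μ = E μ := by rw [S.mul, if_pos rfl]
      have e1 : nrm (E μ) = (E μ).rank := by
        unfold nrm hs
        rw [S.star, hEE, trace_eq_rank hEE, Complex.natCast_re]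
      rw [mul_smul_comm, S.mul_h, nrm_smul, nrm_smul, e1, Matrix.trace_smul, Matrix.trace_smul, trace_eq_rank hEE,
        smul_eq_mul, smul_eq_mul, norm_mul, norm_mul, mul_pow, mul_pow, Complex.norm_natCast]
      have e2 : ((E μ).rank : ℝ) ≤ ((E μ).rank : ℝ) ^ 2 := by
        have : (E μ).rank ≤ (E μ).rank ^ 2 := Nat.le_self_pow (by norm_num) _
        exact_mod_cast this
      apply mul_le_mul_of_nonneg_left _ (by positivity)
      exact mul_le_mul_of_nonneg_left e2 (by positivity)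
    linarith
  · push_cast at r5 ⊢
    exact r5
  · have e1 : ∑ i, 2 * (nrm (Pp E Λ * x i) - nrm (Pp E Λ * (x i)ᴴ)) = 2 * N - 2 * B - 2 * (2 * A) := by
      rw [← Finset.mul_sum, Finset.sum_sub_distrib, hPx, hPxs]
      linarith
    rw [e1] at r6
    exact r6
  · linarith
  · linarith
  · linarith
  · -- the inner blocks
    have h1 : A ≤ ∑ i, nrm (R * x i) + ∑ i, nrm (R * (x i)ᴴ) := by
      rw [← Finset.sum_add_distrib]
      exact Finset.sum_le_sum fun i _ => D.up_R ha (hx.mem i)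
    have h2 : 0 ≤ ∑ j, nrm (R * w j) := Finset.sum_nonneg fun j _ => nrm_nonneg _
    have h3 : (((E 0).rank + 2 * s : ℕ) : ℝ) * A ≤ ((E 0).rank + 2 * s : ℕ) *
        (∑ i, nrm (R * x i) + ∑ i, nrm (R * (x i)ᴴ) + ∑ j, nrm (R * w j)) :=
      mul_le_mul_of_nonneg_left (by linarith) (Nat.cast_nonneg _)
    rw [hT2] at h3
    push_cast at h3 ⊢
    linarith
  · -- the dimension of degree zero
    rw [← hfin0]
    have h1 := D.finrank_ze3 J
    have h2 : ∑ μ ∈ Λ.filter (fun μ => 0 < μ), (E μ).rank ^ 2 ≤ F ^ 2 + j * min j F := by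
      rw [← Finset.add_sum_erase _ _ ha, hFdef]
      apply Nat.add_le_add_left
      rw [← hFdef, hjdef, Finset.sum_mul, ← hjdef]
      refine Finset.sum_le_sum fun μ hμ => ?_
      rw [sq]
      apply Nat.mul_le_mul_left
      refine le_min ?_ (hrle μ (Finset.mem_of_mem_erase hμ))
      rw [hjdef]
      exact Finset.single_le_sum (f := fun μ => (E μ).rank) (fun _ _ => Nat.zero_le _) hμ
    omega
  · -- the dimension of the kernel
    refine (D.rank_zero_le3 hP0).trans ?_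
    calc ∑ μ ∈ Λ.filter (fun μ => 0 < μ), Module.finrank ℂ (Ld L h μ) * (E μ).rank
        ≤ ∑ μ ∈ Λ.filter (fun μ => 0 < μ), Module.finrank ℂ (Ld L h μ) * F :=
          Finset.sum_le_sum fun μ hμ => Nat.mul_le_mul_left _ (hrle μ hμ)
      _ = (∑ μ ∈ Λ.filter (fun μ => 0 < μ), Module.finrank ℂ (Ld L h μ)) * F := by rw [Finset.sum_mul]
      _ ≤ Module.finrank ℂ (Lup L E) * F := Nat.mul_le_mul_right _ D.sum_Ld_le
      _ = F * N := by rw [hN, mul_comm]

/-- **The sharp bound.** -/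
theorem bound3 (D : Dat τ L h E Λ) (hK : Module.finrank ℂ (KK L E) ≤ 1) (hs2 : 2 ≤ (Pp E Λ).rank) :
    (E 0).rank ≤ (Pp E Λ).rank ^ 2 := by
  classical
  rcases D.one_or_mult (by omega) with ⟨m, hm, hlev⟩ | hmul
  · exact D.bound2 hK hs2 hm hlev
  have hP0 : Pp E Λ ≠ 0 := by
    intro h1
    rw [h1, Matrix.rank_zero] at hs2
    omega
  obtain ⟨J, hJ, hy, hmin⟩ := D.exists_J (D.h_ne98 hP0)
  by_cases hh : h ∈ J
  · obtain ⟨z, hz⟩ := exists_onb J
    have hbrJ : ∀ x ∈ J, ∀ y ∈ J, x * y - y * x ∈ J := fun x hx y hy => hJ.br x (hJ.le hx) y hy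
    obtain ⟨c, hc⟩ := D.scal_J hJ hy hmin (cas z) (fun y hy => cas_mem hz hJ.st hbrJ hy)
      (fun x hx y hy => hz.cas_comm (fun u hu => hJ.br x hx u hu) (fun u hu => hJ.br _ (D.st x hx) u hu) y)
      (fun y _ => (cas_star z y).symm) (fun x _ y _ => cas_sa z x y)
    refine D.lev3 hK hs2 (fun μ hμ => hmul μ (Finset.mem_filter.1 hμ).2.ne') hJ hh (c := c.re / 2) ?_
    intro κ i1 i2 w hw y hy
    exact hz.cas_scalar hJ.st hc hw hy
  · exact D.two_ideals3 hJ hy hh hs2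

end Dat

end MH
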