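import Mathlib

/-!
Relative matrix units: an operator `t ⊗ 1 + 1 ⊗ c` with a large kernel has scalar `c`.
-/

set_option linter.unusedSectionVars false

open Matrix

namespace MH

variable {n : Type*} [Fintype n] [DecidableEq n]

theorem num_int {N b s r ρ κ G : ℤ} (g1 : b * r ≤ κ * G + ρ * (N - G)) (g2 : κ + ρ = r) (g3 : N = b + 2 * s)
    (g4 : 3 * s ^ 2 * r < 2 * b) (g5 : 2 ≤ r) (g6 : 1 ≤ s) (g7 : 1 ≤ ρ) (g8 : G + 1 ≤ N) (g9 : b ≤ G) : False := by
  subst g3
  have e0 : κ = r - ρ := by linarith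
  subst e0
  have g1' : b * r ≤ (r - 2 * ρ) * G + ρ * (b + 2 * s) := by linarith
  have hs2 : 1 ≤ s ^ 2 := by nlinarith only [g6]
  have hbpos : 0 < b := by nlinarith only [g4, hs2, g5]
  rcases le_or_gt (2 * ρ) r with hcase | hcase
  · have e2 : (r - 2 * ρ) * G ≤ (r - 2 * ρ) * (b + 2 * s - 1) :=
      mul_le_mul_of_nonneg_left (by linarith) (by linarith)
    have e3 : (b + 2 * s - 2) * ρ ≤ (2 * s - 1) * r := by linarith
    have e4 : (b + 2 * s - 2) * 1 ≤ (b + 2 * s - 2) * ρ := mul_le_mul_of_nonneg_left g7 (by linarith)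
    have e5 : b ≤ (2 * s - 1) * r := by linarith
    have e8 : 0 ≤ 3 * s ^ 2 - 2 * (2 * s - 1) := by nlinarith only [sq_nonneg (3 * s - 2)]
    have e7 : 0 ≤ (3 * s ^ 2 - 2 * (2 * s - 1)) * r := mul_nonneg e8 (by linarith)
    linarith
  · have e2 : (r - 2 * ρ) * G ≤ (r - 2 * ρ) * b := mul_le_mul_of_nonpos_left g9 (by linarith)
    have e3 : ρ * (2 * b) ≤ ρ * (b + 2 * s) := by linarith
    have e4 : 2 * b ≤ b + 2 * s := le_of_mul_le_mul_left e3 (by linarith)
    have e5 : 3 * s ^ 2 * 2 ≤ 3 * s ^ 2 * r := mul_le_mul_of_nonneg_left g5 (by linarith)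
    nlinarith only [e4, e5, g4, hs2, g6]

theorem num_gal {J : Type*} [Fintype J] (g : J → ℕ) (γ : J → ℂ) {N b s : ℕ} (hN : N = b + 2 * s)
    (hb : 3 * s ^ 2 * Fintype.card J < 2 * b) (hr : 2 ≤ Fintype.card J) (hs : 1 ≤ s)
    (hsum : b * Fintype.card J ≤ ∑ j, g j) (hdiff : ∀ i j, γ i ≠ γ j → g i + g j ≤ N) (hle : ∀ j, g j ≤ N) :
    (∀ i j, γ i = γ j) ∨ ∃ i j, g i = N ∧ γ j ≠ γ i := by
  classical
  have hne : (Finset.univ : Finset J).Nonempty := by
    rw [Finset.univ_nonempty_iff, ← Fintype.card_pos_iff]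
    omega
  obtain ⟨i, -, hi⟩ := Finset.exists_max_image Finset.univ g hne
  by_cases hall : ∀ j, γ j = γ i
  · exact Or.inl fun a b => (hall a).trans (hall b).symm
  push Not at hall
  obtain ⟨j, hj⟩ := hall
  by_cases hG : g i = N
  · exact Or.inr ⟨i, j, hG, hj⟩
  exfalso
  have hG' : g i + 1 ≤ N := by
    have := hle i
    omega
  set ρ := (Finset.univ.filter (fun k => γ k ≠ γ i)).card with hρ
  set r := Fintype.card J with hrdef
  have hρ1 : 1 ≤ ρ := Finset.card_pos.2 ⟨j, Finset.mem_filter.2 ⟨Finset.mem_univ _, hj⟩⟩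
  have hρr : (Finset.univ.filter (fun k => γ k = γ i)).card + ρ = r := by
    rw [hρ, hrdef, ← Finset.card_univ]
    exact Finset.card_filter_add_card_filter_not _
  set κ := (Finset.univ.filter (fun k => γ k = γ i)).card with hκ
  have h1 : ∑ k, g k ≤ κ * g i + ρ * (N - g i) := by
    rw [← Finset.sum_filter_add_sum_filter_not Finset.univ (fun k => γ k = γ i)]
    apply Nat.add_le_add
    · rw [hκ, ← smul_eq_mul]
      exact Finset.sum_le_card_nsmul _ _ _ fun k _ => hi k (Finset.mem_univ _)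
    · rw [hρ, ← smul_eq_mul]
      refine Finset.sum_le_card_nsmul _ _ _ fun k hk => ?_
      have h2 := hdiff k i (Finset.mem_filter.1 hk).2
      omega
  have h2 : b ≤ g i := by
    have h3 : ∑ k, g k ≤ r * g i := by
      rw [hrdef, ← Finset.card_univ, ← smul_eq_mul]
      exact Finset.sum_le_card_nsmul _ _ _ fun k _ => hi k (Finset.mem_univ _)
    have h4 : b * r ≤ g i * r := by
      rw [mul_comm (g i)]
      exact hsum.trans h3
    exact Nat.le_of_mul_le_mul_right h4 (by omega)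
  refine num_int (N := N) (b := b) (s := s) (r := r) (ρ := ρ) (κ := κ) (G := g i) ?_ (by exact_mod_cast hρr)
    (by exact_mod_cast hN) (by exact_mod_cast hb) (by exact_mod_cast hr) (by exact_mod_cast hs)
    (by exact_mod_cast hρ1) (by exact_mod_cast hG') (by exact_mod_cast h2)
  have h3 := hsum.trans h1
  have h4 : ((N - g i : ℕ) : ℤ) = N - g i := by rw [Nat.cast_sub (by omega)]
  rw [← h4]
  exact_mod_cast h3


/-- relative matrix units -/
structure MU {ι : Type*} [Fintype ι] [DecidableEq ι] (e : Matrix n n ℂ) (w : ι → Matrix n n ℂ) : Prop where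
  ee : e * e = e
  es : eᴴ = e
  we : ∀ a, w a * e = w a
  ww : ∀ a b, (w a)ᴴ * w b = if a = b then e else 0
  sum : ∑ a, w a * (w a)ᴴ = 1

variable {ι : Type*} [Fintype ι] [DecidableEq ι] {e : Matrix n n ℂ} {w : ι → Matrix n n ℂ}

namespace MU

variable (U : MU e w)
include U

theorem ew (a : ι) : e * (w a)ᴴ = (w a)ᴴ := by
  have h := congrArg conjTranspose (U.we a)
  rwa [conjTranspose_mul, U.es] at h

/-- the range of `e` -/
theorem mem_range {v : n → ℂ} : v ∈ LinearMap.range (Matrix.toLin' e) ↔ e *ᵥ v = v := by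
  constructor
  · rintro ⟨u, rfl⟩
    rw [Matrix.toLin'_apply, Matrix.mulVec_mulVec, U.ee]
  · intro h
    exact ⟨v, by rw [Matrix.toLin'_apply, h]⟩

theorem mul_vec {l c : Matrix n n ℂ} {t : ι → ι → ℂ}
    (hl : ∀ a b, (w a)ᴴ * l * w b = (if a = b then c else 0) + t a b • e) (b : ι) (v : n → ℂ) :
    (w b)ᴴ *ᵥ (l *ᵥ v) = c *ᵥ ((w b)ᴴ *ᵥ v) + ∑ a, t b a • ((w a)ᴴ *ᵥ v) := by
  have h1 : (w b)ᴴ * l = ∑ a, ((w b)ᴴ * l * w a) * (w a)ᴴ := by
    simp_rw [mul_assoc, ← Finset.mul_sum]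
    rw [U.sum, mul_one]
  have h2 : (w b)ᴴ * l = c * (w b)ᴴ + ∑ a, t b a • (w a)ᴴ := by
    rw [h1]
    simp_rw [hl, add_mul, smul_mul_assoc, U.ew]
    rw [Finset.sum_add_distrib]
    congr 1
    rw [Finset.sum_eq_single b]
    · rw [if_pos rfl]
    · intro a _ hab
      rw [if_neg (Ne.symm hab), zero_mul]
    · intro h
      exact absurd (Finset.mem_univ b) h
  rw [Matrix.mulVec_mulVec, h2, Matrix.add_mulVec, Matrix.mulVec_mulVec, Matrix.sum_mulVec]
  congr 1
  exact Finset.sum_congr rfl fun a _ => by rw [Matrix.smul_mulVec]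

theorem mul_comb {l c : Matrix n n ℂ} {t : ι → ι → ℂ}
    (hl : ∀ a b, (w a)ᴴ * l * w b = (if a = b then c else 0) + t a b • e) (b : ι) (v : n → ℂ) :
    l *ᵥ (w b *ᵥ v) = w b *ᵥ (c *ᵥ v) + ∑ a, t a b • (w a *ᵥ v) := by
  have h1 : l * w b = ∑ a, w a * ((w a)ᴴ * l * w b) := by
    simp_rw [← mul_assoc]
    rw [← Finset.sum_mul, ← Finset.sum_mul, U.sum, one_mul]
  have h2 : l * w b = w b * c + ∑ a, t a b • (w a) := by
    rw [h1]
    simp_rw [hl, mul_add, mul_smul_comm, U.we]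
    rw [Finset.sum_add_distrib]
    congr 1
    rw [Finset.sum_eq_single b]
    · rw [if_pos rfl]
    · intro a _ hab
      rw [if_neg hab, mul_zero]
    · intro h
      exact absurd (Finset.mem_univ b) h
  rw [Matrix.mulVec_mulVec, h2, Matrix.add_mulVec, Matrix.mulVec_mulVec, Matrix.sum_mulVec]
  congr 1
  exact Finset.sum_congr rfl fun a _ => by rw [Matrix.smul_mulVec]

theorem eq_zero {v : n → ℂ} (h : ∀ a, (w a)ᴴ *ᵥ v = 0) : v = 0 := by
  have h1 : v = (∑ a, w a * (w a)ᴴ) *ᵥ v := by rw [U.sum, Matrix.one_mulVec]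
  rw [h1, Matrix.sum_mulVec]
  exact Finset.sum_eq_zero fun a _ => by rw [← Matrix.mulVec_mulVec, h, Matrix.mulVec_zero]

theorem ww_vec (a b : ι) {v : n → ℂ} (hv : e *ᵥ v = v) : (w a)ᴴ *ᵥ (w b *ᵥ v) = if a = b then v else 0 := by
  rw [Matrix.mulVec_mulVec, U.ww]
  split_ifs
  · exact hv
  · rw [Matrix.zero_mulVec]

/-- coordinates of a combination -/
theorem comb_vec (x : ι → ℂ) (b : ι) {v : n → ℂ} (hv : e *ᵥ v = v) :
    (w b)ᴴ *ᵥ (∑ a, x a • (w a *ᵥ v)) = x b • v := by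
  rw [Matrix.mulVec_sum, Finset.sum_eq_single b]
  · rw [Matrix.mulVec_smul, U.ww_vec b b hv, if_pos rfl]
  · intro a _ hab
    rw [Matrix.mulVec_smul, U.ww_vec b a hv, if_neg (Ne.symm hab), smul_zero]
  · intro h
    exact absurd (Finset.mem_univ b) h

theorem l_comb {l c : Matrix n n ℂ} {t : ι → ι → ℂ}
    (hl : ∀ a b, (w a)ᴴ * l * w b = (if a = b then c else 0) + t a b • e) (x : ι → ℂ) (v : n → ℂ) :
    l *ᵥ (∑ b, x b • (w b *ᵥ v)) = ∑ b, x b • (w b *ᵥ (c *ᵥ v)) + ∑ a, (Matrix.of t *ᵥ x) a • (w a *ᵥ v) := by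
  rw [Matrix.mulVec_sum]
  simp_rw [Matrix.mulVec_smul, U.mul_comb hl, smul_add]
  rw [Finset.sum_add_distrib]
  congr 1
  simp_rw [Finset.smul_sum, smul_smul]
  rw [Finset.sum_comm]
  refine Finset.sum_congr rfl fun a _ => ?_
  rw [← Finset.sum_smul]
  congr 1
  simp only [Matrix.mulVec, dotProduct, Matrix.of_apply]
  exact Finset.sum_congr rfl fun b _ => mul_comm _ _

end MU

/-- a spectral decomposition with real eigenvalues -/
structure SD (l : Matrix n n ℂ) (F : ℝ → Matrix n n ℂ) (Λ : Finset ℝ) : Prop where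
  mul : ∀ μ ν, F μ * F ν = if μ = ν then F μ else 0
  sum : ∑ μ ∈ Λ, F μ = 1
  eq : l = ∑ μ ∈ Λ, (μ : ℂ) • F μ

namespace SD

variable {l : Matrix n n ℂ} {F : ℝ → Matrix n n ℂ} {Λ : Finset ℝ} (D : SD l F Λ)
include D

theorem supp {μ : ℝ} (h : μ ∉ Λ) : F μ = 0 := by
  have h1 : F μ = F μ * ∑ ν ∈ Λ, F ν := by rw [D.sum, mul_one]
  rw [h1, Finset.mul_sum]
  refine Finset.sum_eq_zero fun ν hν => ?_
  rw [D.mul, if_neg]
  rintro rfl
  exact h hν

theorem l_mul (μ : ℝ) : l * F μ = (μ : ℂ) • F μ := by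
  by_cases h : μ ∈ Λ
  · rw [D.eq, Finset.sum_mul, Finset.sum_eq_single μ]
    · rw [smul_mul_assoc, D.mul, if_pos rfl]
    · intro ν _ hν
      rw [smul_mul_assoc, D.mul, if_neg hν, smul_zero]
    · intro h2
      exact absurd h h2
  · rw [D.supp h, mul_zero, smul_zero]

theorem mul_l (μ : ℝ) : F μ * l = (μ : ℂ) • F μ := by
  by_cases h : μ ∈ Λ
  · rw [D.eq, Finset.mul_sum, Finset.sum_eq_single μ]
    · rw [mul_smul_comm, D.mul, if_pos rfl]
    · intro ν _ hν
      rw [mul_smul_comm, D.mul, if_neg (Ne.symm hν), smul_zero]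
    · intro h2
      exact absurd h h2
  · rw [D.supp h, zero_mul, smul_zero]

theorem iSup_eq : ⨆ μ : ℂ, Module.End.eigenspace (Matrix.toLin' l) μ = ⊤ := by
  rw [eq_top_iff]
  intro v _
  have h1 : v = ∑ μ ∈ Λ, F μ *ᵥ v := by rw [← Matrix.sum_mulVec, D.sum, Matrix.one_mulVec]
  rw [h1]
  refine Submodule.sum_mem _ fun μ _ => Submodule.mem_iSup_of_mem (μ : ℂ) ?_
  rw [Module.End.mem_eigenspace_iff, Matrix.toLin'_apply, Matrix.mulVec_mulVec, D.l_mul, Matrix.smul_mulVec]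

theorem rank_ker : (F 0).rank ≤ Module.finrank ℂ (LinearMap.ker (Matrix.toLin' l)) := by
  have h1 : LinearMap.range (Matrix.toLin' (F 0)) ≤ LinearMap.ker (Matrix.toLin' l) := by
    rintro _ ⟨v, rfl⟩
    rw [LinearMap.mem_ker, Matrix.toLin'_apply, Matrix.toLin'_apply, Matrix.mulVec_mulVec, D.l_mul]
    simp
  exact Submodule.finrank_mono h1

/-- an eigenvector lies in the range of a projection -/
theorem eig {γ : ℂ} {v : n → ℂ} (hv : l *ᵥ v = γ • v) (h0 : v ≠ 0) : ∃ μ : ℝ, (μ : ℂ) = γ ∧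
    ∀ u : n → ℂ, l *ᵥ u = γ • u → F μ *ᵥ u = u := by
  have h1 : ∀ u : n → ℂ, l *ᵥ u = γ • u → ∀ μ : ℝ, (μ : ℂ) ≠ γ → F μ *ᵥ u = 0 := by
    intro u hu μ hμ
    have h2 : F μ *ᵥ (l *ᵥ u) = (μ : ℂ) • (F μ *ᵥ u) := by
      rw [Matrix.mulVec_mulVec, D.mul_l, Matrix.smul_mulVec]
    rw [hu, Matrix.mulVec_smul] at h2
    have h3 : (γ - μ) • (F μ *ᵥ u) = 0 := by rw [sub_smul, h2, sub_self]
    rcases smul_eq_zero.1 h3 with h4 | h4
    · exact absurd (sub_eq_zero.1 h4).symm hμ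
    · exact h4
  have hsum : ∀ u : n → ℂ, u = ∑ μ ∈ Λ, F μ *ᵥ u := fun u => by
    rw [← Matrix.sum_mulVec, D.sum, Matrix.one_mulVec]
  have h2 : ∃ μ ∈ Λ, (μ : ℂ) = γ := by
    by_contra h
    push Not at h
    apply h0
    rw [hsum v]
    exact Finset.sum_eq_zero fun μ hμ => h1 v hv μ (h μ hμ)
  obtain ⟨μ, hμ, rfl⟩ := h2
  refine ⟨μ, rfl, fun u hu => ?_⟩
  conv_rhs => rw [hsum u]
  rw [Finset.sum_eq_single μ]
  · intro ν _ hν
    exact h1 u hu ν (by exact_mod_cast hν)
  · intro h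
    exact absurd hμ h

end SD

section count

variable (U : MU e w) {l c : Matrix n n ℂ} {t : ι → ι → ℂ} {F : ℝ → Matrix n n ℂ} {Λ : Finset ℝ}
include U

/-- the operator `c` on the range of `e` -/
noncomputable def cW (e c : Matrix n n ℂ) (hc : e * c = c) :
    Module.End ℂ (LinearMap.range (Matrix.toLin' e)) :=
  (Matrix.toLin' c).restrict (p := LinearMap.range (Matrix.toLin' e)) (q := LinearMap.range (Matrix.toLin' e))
    (fun v _ => ⟨c *ᵥ v, by rw [Matrix.toLin'_apply, Matrix.toLin'_apply, Matrix.mulVec_mulVec, hc]⟩)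

omit U in
theorem cW_coe (hc : e * c = c) (v : LinearMap.range (Matrix.toLin' e)) :
    ((cW e c hc v : LinearMap.range (Matrix.toLin' e)) : n → ℂ) = c *ᵥ (v : n → ℂ) := rfl

theorem cW_diag [Nonempty ι] (hc : e * c = c)
    (hl : ∀ a b, (w a)ᴴ * l * w b = (if a = b then c else 0) + t a b • e) (D : SD l F Λ) :
    ⨆ μ : ℂ, Module.End.eigenspace (cW e c hc) μ = ⊤ := by
  obtain ⟨η, hη⟩ := Module.End.exists_eigenvalue (Matrix.toLin' (Matrix.of t))
  obtain ⟨x, hx⟩ := hη.exists_hasEigenvector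
  have hx1 : Matrix.of t *ᵥ x = η • x := by
    have := hx.apply_eq_smul
    rwa [Matrix.toLin'_apply] at this
  have hx0 : x ≠ 0 := hx.2
  obtain ⟨a0, ha0⟩ := Function.ne_iff.1 hx0
  let Φ : LinearMap.range (Matrix.toLin' e) →ₗ[ℂ] (n → ℂ) :=
    (∑ a, x a • Matrix.toLin' (w a)) ∘ₗ (LinearMap.range (Matrix.toLin' e)).subtype
  have hΦ : ∀ φ, Φ φ = ∑ a, x a • (w a *ᵥ (φ : n → ℂ)) := by
    intro φ
    simp only [Φ, LinearMap.comp_apply, Submodule.subtype_apply, LinearMap.sum_apply, LinearMap.smul_apply,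
      Matrix.toLin'_apply]
  have hinj : Function.Injective Φ := by
    rw [injective_iff_map_eq_zero]
    intro φ hφ
    apply Subtype.ext
    have h1 := U.comb_vec x a0 (U.mem_range.1 φ.2)
    rw [← hΦ, hφ, Matrix.mulVec_zero] at h1
    exact (smul_eq_zero.1 h1.symm).resolve_left ha0
  have hcomm : ∀ φ, l *ᵥ (Φ φ) = Φ (cW e c hc φ) + η • Φ φ := by
    intro φ
    rw [hΦ, hΦ, U.l_comb hl, hx1, cW_coe]
    congr 1
    rw [Finset.smul_sum]
    exact Finset.sum_congr rfl fun a _ => by rw [Pi.smul_apply, smul_eq_mul, mul_smul]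
  have hst : ∀ v ∈ LinearMap.range Φ, (Matrix.toLin' l) v ∈ LinearMap.range Φ := by
    rintro _ ⟨φ, rfl⟩
    rw [Matrix.toLin'_apply, hcomm, ← map_smul, ← map_add]
    exact ⟨_, rfl⟩
  have h2 := Submodule.inf_iSup_genEigenspace (p := LinearMap.range Φ) (f := Matrix.toLin' l) hst 1
  have h3 : ⨆ μ : ℂ, Module.End.genEigenspace (Matrix.toLin' l) μ 1 = ⊤ := D.iSup_eq
  rw [h3, inf_top_eq] at h2
  have h4 : LinearMap.range Φ ≤ (⨆ μ : ℂ, Module.End.eigenspace (cW e c hc) μ).map Φ := by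
    rw [h2]
    refine iSup_le fun μ v hv => ?_
    obtain ⟨⟨φ, rfl⟩, hv2⟩ := hv
    refine ⟨φ, Submodule.mem_iSup_of_mem (μ - η) ?_, rfl⟩
    have h5 : (Matrix.toLin' l) (Φ φ) = μ • Φ φ := Module.End.mem_eigenspace_iff.1 hv2
    rw [Matrix.toLin'_apply, hcomm] at h5
    rw [Module.End.mem_eigenspace_iff]
    apply hinj
    rw [map_smul, sub_smul, ← h5]
    abel
  rw [eq_top_iff]
  intro φ _
  obtain ⟨φ', h5, h6⟩ := h4 ⟨φ, rfl⟩
  rwa [← hinj h6]

omit U in
/-- a basis of eigenvectors -/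
theorem exists_eigbasis {V : Type*} [AddCommGroup V] [Module ℂ V] [FiniteDimensional ℂ V] (f : Module.End ℂ V)
    (h : ⨆ μ : ℂ, f.eigenspace μ = ⊤) : ∃ (b : Module.Basis (Fin (Module.finrank ℂ V)) ℂ V)
      (γ : Fin (Module.finrank ℂ V) → ℂ), ∀ j, f (b j) = γ j • b j := by
  classical
  have hs : Submodule.span ℂ {v : V | ∃ μ : ℂ, f v = μ • v} = ⊤ := by
    rw [eq_top_iff, ← h]
    exact iSup_le fun μ v hv => Submodule.subset_span ⟨μ, Module.End.mem_eigenspace_iff.1 hv⟩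
  let b₀ := Module.Basis.ofSpan (K := ℂ) (V := V) (s := {v : V | ∃ μ : ℂ, f v = μ • v}) (le_of_eq hs.symm)
  have hsub := Module.Basis.ofSpan_subset (K := ℂ) (V := V) (s := {v : V | ∃ μ : ℂ, f v = μ • v})
    (le_of_eq hs.symm)
  have hfin : Finite _ := Module.Finite.finite_basis b₀
  let _ := Fintype.ofFinite ((linearIndepOn_empty ℂ id).extend
    (Set.empty_subset {v : V | ∃ μ : ℂ, f v = μ • v}))
  have hcard := Module.finrank_eq_card_basis b₀
  let ee := Fintype.equivFinOfCardEq hcard.symm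
  have h1 : ∀ i, ∃ μ : ℂ, f (b₀.reindex ee i) = μ • b₀.reindex ee i := by
    intro i
    rw [Module.Basis.reindex_apply]
    exact hsub ⟨ee.symm i, rfl⟩
  choose γ hγ using h1
  exact ⟨b₀.reindex ee, γ, hγ⟩

/-- the bound for the kernel -/
theorem ker_bound (hc : e * c = c)
    (hl : ∀ a b, (w a)ᴴ * l * w b = (if a = b then c else 0) + t a b • e) {J : Type*} [Fintype J]
    (b : Module.Basis J ℂ (LinearMap.range (Matrix.toLin' e))) (γ : J → ℂ) (hγ : ∀ j, cW e c hc (b j) = γ j • b j) :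
    Module.finrank ℂ (LinearMap.ker (Matrix.toLin' l)) ≤
      ∑ j, Module.finrank ℂ (LinearMap.ker (Matrix.toLin' (Matrix.of t) + γ j • LinearMap.id)) := by
  classical
  let R : ι → (n → ℂ) →ₗ[ℂ] LinearMap.range (Matrix.toLin' e) := fun a =>
    (Matrix.toLin' ((w a)ᴴ)).codRestrict _ (fun v => by
      rw [U.mem_range, Matrix.toLin'_apply, Matrix.mulVec_mulVec, U.ew])
  have hR : ∀ a v, ((R a v : LinearMap.range (Matrix.toLin' e)) : n → ℂ) = (w a)ᴴ *ᵥ v := fun a v => rfl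
  have hRl : ∀ a v, R a (l *ᵥ v) = cW e c hc (R a v) + ∑ a', t a a' • R a' v := by
    intro a v
    apply Subtype.ext
    rw [hR, U.mul_vec hl, Submodule.coe_add, cW_coe, hR]
    congr 1
    rw [AddSubmonoidClass.coe_finsetSum]
    exact Finset.sum_congr rfl fun a' _ => rfl
  have hrepr : ∀ φ j, b.repr (cW e c hc φ) j = γ j * b.repr φ j := by
    intro φ j
    have h1 : (b.coord j) ∘ₗ (cW e c hc) = γ j • b.coord j := by
      apply b.ext
      intro i
      rw [LinearMap.comp_apply, hγ, map_smul, LinearMap.smul_apply, Module.Basis.coord_apply,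
        Module.Basis.repr_self]
      by_cases hij : i = j
      · rw [hij]
      · rw [Finsupp.single_eq_of_ne (Ne.symm hij)]
        simp
    exact LinearMap.congr_fun h1 φ
  let X : J → (n → ℂ) →ₗ[ℂ] (ι → ℂ) := fun j => LinearMap.pi fun a => b.coord j ∘ₗ R a
  have hX : ∀ j v a, X j v a = b.repr (R a v) j := fun j v a => rfl
  have hker : ∀ j, ∀ v ∈ LinearMap.ker (Matrix.toLin' l),
      X j v ∈ LinearMap.ker (Matrix.toLin' (Matrix.of t) + γ j • LinearMap.id) := by
    intro j v hv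
    rw [LinearMap.mem_ker, Matrix.toLin'_apply] at hv
    rw [LinearMap.mem_ker]
    funext a
    have h1 := hRl a v
    rw [hv, map_zero] at h1
    have h2 := congrArg (fun φ => b.repr φ j) h1
    simp only [map_zero, Finsupp.coe_zero, Pi.zero_apply, map_add, Finsupp.coe_add, Pi.add_apply, hrepr,
      map_sum, map_smul, Finsupp.coe_finsetSum, Finset.sum_apply, Finsupp.coe_smul, Pi.smul_apply,
      smul_eq_mul] at h2
    rw [LinearMap.add_apply, LinearMap.smul_apply, LinearMap.id_apply, Pi.add_apply, Matrix.toLin'_apply,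
      Pi.smul_apply, Pi.zero_apply, smul_eq_mul, hX]
    simp only [Matrix.mulVec, dotProduct, Matrix.of_apply, hX]
    rw [add_comm]
    exact h2.symm
  let Ψ : LinearMap.ker (Matrix.toLin' l) →ₗ[ℂ]
      ((j : J) → LinearMap.ker (Matrix.toLin' (Matrix.of t) + γ j • LinearMap.id)) :=
    LinearMap.pi fun j => (X j).restrict (hker j)
  have hinj : Function.Injective Ψ := by
    rw [injective_iff_map_eq_zero]
    intro v hv
    apply Subtype.ext
    apply U.eq_zero
    intro a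
    have h1 : R a (v : n → ℂ) = 0 := by
      apply b.ext_elem
      intro j
      have h2 := congrFun hv j
      have h3 := congrArg Subtype.val h2
      have h4 := congrFun h3 a
      rw [map_zero]
      exact h4
    have h2 := congrArg Subtype.val h1
    exact h2
  have h1 := LinearMap.finrank_le_finrank_of_injective hinj
  rwa [Module.finrank_pi_fintype] at h1

/-- if `t` is the scalar `-γ` and `c` has another eigenvalue, then `l` has an eigenvalue of large multiplicity -/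
theorem scal_case (hl : ∀ a b, (w a)ᴴ * l * w b = (if a = b then c else 0) + t a b • e) (D : SD l F Λ) {γ γ' : ℂ}
    (hne : γ' ≠ γ) (ht : ∀ x, Matrix.of t *ᵥ x = -γ • x) {f : n → ℂ} (hf : e *ᵥ f = f) (hf0 : f ≠ 0)
    (hcf : c *ᵥ f = γ' • f) : ∃ μ : ℝ, μ ≠ 0 ∧ Fintype.card ι ≤ (F μ).rank := by
  rcases isEmpty_or_nonempty ι with hι | ⟨⟨a0⟩⟩
  · refine ⟨1, one_ne_zero, ?_⟩
    rw [Fintype.card_eq_zero]
    exact Nat.zero_le _
  have heig : ∀ x : ι → ℂ, l *ᵥ (∑ b, x b • (w b *ᵥ f)) = (γ' - γ) • ∑ b, x b • (w b *ᵥ f) := by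
    intro x
    rw [U.l_comb hl, ht, hcf, sub_smul, Finset.smul_sum, Finset.smul_sum, sub_eq_add_neg, ← Finset.sum_neg_distrib]
    congr 1
    · exact Finset.sum_congr rfl fun b _ => by rw [Matrix.mulVec_smul, smul_comm]
    · exact Finset.sum_congr rfl fun b _ => by rw [Pi.smul_apply, smul_eq_mul, mul_smul, neg_smul]
  have hx0 : (∑ b, (Pi.single a0 (1 : ℂ) : ι → ℂ) b • (w b *ᵥ f)) ≠ 0 := by
    intro h
    have h1 := U.comb_vec (Pi.single a0 (1 : ℂ)) a0 hf
    rw [h, Matrix.mulVec_zero, Pi.single_eq_same, one_smul] at h1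
    exact hf0 h1.symm
  obtain ⟨μ, hμ, hF⟩ := D.eig (heig _) hx0
  refine ⟨μ, ?_, ?_⟩
  · rintro rfl
    apply hne
    rw [Complex.ofReal_zero] at hμ
    exact (sub_eq_zero.1 hμ.symm)
  · let Φ : (ι → ℂ) →ₗ[ℂ] (n → ℂ) := ∑ b, (LinearMap.proj b).smulRight (w b *ᵥ f)
    have hΦ : ∀ x, Φ x = ∑ b, x b • (w b *ᵥ f) := by
      intro x
      simp [Φ]
    let Φ' : (ι → ℂ) →ₗ[ℂ] LinearMap.range (Matrix.toLin' (F μ)) :=
      Φ.codRestrict _ (fun x => ⟨Φ x, by rw [Matrix.toLin'_apply]; exact hF _ (by rw [hΦ]; exact heig x)⟩)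
    have hinj : Function.Injective Φ' := by
      rw [injective_iff_map_eq_zero]
      intro x hx
      have h1 : Φ x = 0 := congrArg Subtype.val hx
      funext a
      have h2 := U.comb_vec x a hf
      rw [← hΦ, h1, Matrix.mulVec_zero] at h2
      exact (smul_eq_zero.1 h2.symm).resolve_right hf0
    have h1 := LinearMap.finrank_le_finrank_of_injective hinj
    rw [Module.finrank_fintype_fun_eq_card] at h1
    exact h1

/-- `c` is a scalar -/
theorem scalar_of (hc : e * c = c) (hc' : c * e = c)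
    (hl : ∀ a b, (w a)ᴴ * l * w b = (if a = b then c else 0) + t a b • e) (D : SD l F Λ) {b s : ℕ}
    (hN : Fintype.card ι = b + 2 * s) (hb : 3 * s ^ 2 * e.rank < 2 * b) (hr : 2 ≤ e.rank) (hs : 1 ≤ s)
    (h0 : (F 0).rank = b * e.rank) (hF : ∀ μ : ℝ, μ ≠ 0 → (F μ).rank ≤ s * e.rank) : ∃ γ : ℂ, c = γ • e := by
  classical
  have hb0 : 0 < b := by omega
  have hι : Nonempty ι := by
    rw [← Fintype.card_pos_iff]
    omega
  have hrk : Module.finrank ℂ (LinearMap.range (Matrix.toLin' e)) = e.rank := rfl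
  obtain ⟨f, γ, hγ⟩ := exists_eigbasis (cW e c hc) (cW_diag U hc hl D)
  have hcard : Fintype.card (Fin (Module.finrank ℂ (LinearMap.range (Matrix.toLin' e)))) = e.rank := by
    rw [Fintype.card_fin, hrk]
  have hV : Module.finrank ℂ (ι → ℂ) = Fintype.card ι := Module.finrank_fintype_fun_eq_card ℂ
  have h1 := num_gal (N := Fintype.card ι) (b := b) (s := s)
    (fun j => Module.finrank ℂ (LinearMap.ker (Matrix.toLin' (Matrix.of t) + γ j • LinearMap.id))) γ hN
    (by rw [hcard]; exact hb) (by rw [hcard]; exact hr) hs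
    (by
      rw [hcard, ← h0]
      exact D.rank_ker.trans (ker_bound U hc hl f γ hγ))
    (by
      intro i j hij
      have h2 : LinearMap.ker (Matrix.toLin' (Matrix.of t) + γ i • LinearMap.id) ⊓
          LinearMap.ker (Matrix.toLin' (Matrix.of t) + γ j • LinearMap.id) = ⊥ := by
        rw [eq_bot_iff]
        rintro x ⟨hx1, hx2⟩
        have hx1' := LinearMap.mem_ker.1 hx1
        have hx2' := LinearMap.mem_ker.1 hx2
        rw [LinearMap.add_apply, LinearMap.smul_apply, LinearMap.id_apply] at hx1' hx2'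
        have h3 : (γ i - γ j) • x = 0 := by
          rw [sub_smul]
          calc γ i • x - γ j • x = (Matrix.toLin' (Matrix.of t) x + γ i • x) -
                (Matrix.toLin' (Matrix.of t) x + γ j • x) := by abel
            _ = 0 := by rw [hx1', hx2', sub_zero]
        rw [Submodule.mem_bot]
        exact (smul_eq_zero.1 h3).resolve_left (sub_ne_zero.2 hij)
      have h3 := Submodule.finrank_sup_add_finrank_inf_eq
        (LinearMap.ker (Matrix.toLin' (Matrix.of t) + γ i • LinearMap.id))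
        (LinearMap.ker (Matrix.toLin' (Matrix.of t) + γ j • LinearMap.id))
      rw [h2, finrank_bot, add_zero] at h3
      rw [← h3, ← hV]
      exact Submodule.finrank_le _)
    (by
      intro j
      rw [← hV]
      exact Submodule.finrank_le _)
  rcases h1 with h1 | ⟨i, j, hg, hij⟩
  · -- all eigenvalues are equal
    have hne : Nonempty (Fin (Module.finrank ℂ (LinearMap.range (Matrix.toLin' e)))) := by
      rw [← Fintype.card_pos_iff, hcard]
      omega
    obtain ⟨j0⟩ := hne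
    refine ⟨γ j0, ?_⟩
    have h2 : cW e c hc = γ j0 • LinearMap.id := by
      apply f.ext
      intro j
      rw [hγ, h1 j j0, LinearMap.smul_apply, LinearMap.id_apply]
    apply Matrix.toLin'.injective
    apply LinearMap.ext
    intro v
    have h3 := congrArg (fun g => ((g ⟨Matrix.toLin' e v, ⟨v, rfl⟩⟩ : LinearMap.range (Matrix.toLin' e)) : n → ℂ)) h2
    simp only [cW_coe, LinearMap.smul_apply, LinearMap.id_apply, Submodule.coe_smul, Matrix.toLin'_apply] at h3
    rw [Matrix.toLin'_apply, Matrix.toLin'_apply, Matrix.smul_mulVec, ← h3, Matrix.mulVec_mulVec, hc']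
  · -- t is a scalar
    exfalso
    have h2 : LinearMap.ker (Matrix.toLin' (Matrix.of t) + γ i • LinearMap.id) = ⊤ := by
      apply Submodule.eq_top_of_finrank_eq
      rw [hV]
      exact hg
    have h3 : ∀ x, Matrix.of t *ᵥ x = -γ i • x := by
      intro x
      have h4 : x ∈ LinearMap.ker (Matrix.toLin' (Matrix.of t) + γ i • LinearMap.id) := by
        rw [h2]
        exact Submodule.mem_top
      rw [LinearMap.mem_ker, LinearMap.add_apply, LinearMap.smul_apply, LinearMap.id_apply,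
        Matrix.toLin'_apply] at h4
      rw [neg_smul]
      exact eq_neg_of_add_eq_zero_left h4
    obtain ⟨μ, hμ, h5⟩ := scal_case U hl D hij h3 (U.mem_range.1 (f j).2)
      (fun h => f.ne_zero j (Subtype.ext h)) (by
        have := congrArg Subtype.val (hγ j)
        rwa [cW_coe, Submodule.coe_smul] at this)
    have h6 := h5.trans (hF μ hμ)
    rw [hN] at h6
    have h7 : s * e.rank ≤ s ^ 2 * e.rank := Nat.mul_le_mul_right _ (by nlinarith)
    have h8 : 3 * s ^ 2 * e.rank = 3 * (s ^ 2 * e.rank) := by ring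
    rw [h8] at hb
    omega

end count

end MH
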