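import Pool.Agent.Helper21.MH.Bound

/-!
Tools for the sharp bound in level two: orthonormal bases of spaces of matrices, the adjoint action,
the Casimir operator of an ideal.
-/

open Matrix

namespace MH
variable {n : Type*} [Fintype n] [DecidableEq n]

/-! ### the form -/

omit [DecidableEq n] in
theorem hs_add_left (x x' y : Matrix n n ℂ) : hs (x + x') y = hs x y + hs x' y := by
  unfold hs
  rw [Matrix.conjTranspose_add, add_mul, Matrix.trace_add]

omit [DecidableEq n] in
theorem hs_smul_left (c : ℂ) (x y : Matrix n n ℂ) : hs (c • x) y = star c * hs x y := by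
  unfold hs
  rw [Matrix.conjTranspose_smul, smul_mul_assoc, Matrix.trace_smul, smul_eq_mul]

omit [DecidableEq n] in
theorem hs_zero_right (x : Matrix n n ℂ) : hs x 0 = 0 := by
  unfold hs
  simp

omit [DecidableEq n] in
theorem hs_zero_left (x : Matrix n n ℂ) : hs 0 x = 0 := by
  unfold hs
  simp

omit [DecidableEq n] in
theorem hs_neg_right (x y : Matrix n n ℂ) : hs x (-y) = -hs x y := by
  unfold hs
  rw [mul_neg, Matrix.trace_neg]

omit [DecidableEq n] in
theorem hs_neg_left (x y : Matrix n n ℂ) : hs (-x) y = -hs x y := by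
  unfold hs
  rw [Matrix.conjTranspose_neg, neg_mul, Matrix.trace_neg]

omit [DecidableEq n] in
theorem hs_sub_right (x y y' : Matrix n n ℂ) : hs x (y - y') = hs x y - hs x y' := by
  rw [sub_eq_add_neg, hs_add_right, hs_neg_right, sub_eq_add_neg]

omit [DecidableEq n] in
theorem hs_sub_left (x x' y : Matrix n n ℂ) : hs (x - x') y = hs x y - hs x' y := by
  rw [sub_eq_add_neg, hs_add_left, hs_neg_left, sub_eq_add_neg]

omit [DecidableEq n] in
theorem hs_sum_left {κ : Type*} (s : Finset κ) (x : κ → Matrix n n ℂ) (y : Matrix n n ℂ) :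
    hs (∑ a ∈ s, x a) y = ∑ a ∈ s, hs (x a) y := by
  unfold hs
  rw [Matrix.conjTranspose_sum, Finset.sum_mul, Matrix.trace_sum]

omit [DecidableEq n] in
theorem hs_star_right (a b : Matrix n n ℂ) : hs a bᴴ = hs b aᴴ := by
  unfold hs
  rw [Matrix.trace_mul_comm]

omit [DecidableEq n] in
theorem hs_star_star (a b : Matrix n n ℂ) : hs aᴴ bᴴ = hs b a := by
  rw [hs_star_right, Matrix.conjTranspose_conjTranspose]

omit [DecidableEq n] in
theorem nrm_zero : nrm (0 : Matrix n n ℂ) = 0 := by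
  unfold nrm hs
  simp

omit [DecidableEq n] in
theorem nrm_sub (x y : Matrix n n ℂ) : nrm (x - y) = nrm x + nrm y - 2 * (hs x y).re := by
  unfold nrm
  rw [hs_sub_left, hs_sub_right, hs_sub_right, ← hs_conj x y]
  simp only [Complex.sub_re, Complex.star_def, Complex.conj_re]
  ring

omit [DecidableEq n] in
theorem nrm_add (x y : Matrix n n ℂ) : nrm (x + y) = nrm x + nrm y + 2 * (hs x y).re := by
  unfold nrm
  rw [hs_add_left, hs_add_right, hs_add_right, ← hs_conj x y]
  simp only [Complex.add_re, Complex.star_def, Complex.conj_re]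
  ring

omit [DecidableEq n] in
theorem hs_symm0 {x y : Matrix n n ℂ} (h : hs x y = 0) : hs y x = 0 := by
  rw [← hs_conj, h, star_zero]

/-! ### orthonormal bases -/

section onb

variable {ι κ : Type*} [Fintype ι] [DecidableEq ι] [Fintype κ] [DecidableEq κ]
variable {S T : Submodule ℂ (Matrix n n ℂ)} {z : ι → Matrix n n ℂ} {y : κ → Matrix n n ℂ}

omit [DecidableEq n] in
theorem ONB.nrm_one (hz : ONB S z) (a : ι) : nrm (z a) = 1 := by
  have h1 := hz.orth a a
  rw [if_pos rfl, hs_self] at h1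
  exact_mod_cast h1

omit [DecidableEq n] in
theorem ONB.expand (hz : ONB S z) {x : Matrix n n ℂ} (hx : x ∈ S) (u : Matrix n n ℂ) :
    hs u x = ∑ a, hs (z a) x * hs u (z a) := by
  conv_lhs => rw [hz.exp x hx]
  rw [hs_sum_right]
  exact Finset.sum_congr rfl fun a _ => hs_smul_right _ _ _

omit [DecidableEq n] in
theorem ONB.parseval (hz : ONB S z) {x : Matrix n n ℂ} (hx : x ∈ S) :
    nrm x = ∑ a, ‖hs (z a) x‖ ^ 2 := by
  have h1 := hz.expand hx x
  rw [hs_self] at h1
  have h2 : ((nrm x : ℝ) : ℂ) = ((∑ a, ‖hs (z a) x‖ ^ 2 : ℝ) : ℂ) := by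
    rw [h1, Complex.ofReal_sum]
    refine Finset.sum_congr rfl fun a _ => ?_
    rw [← hs_conj (z a) x, Complex.star_def, Complex.mul_conj, Complex.normSq_eq_norm_sq]
  exact_mod_cast h2

omit [DecidableEq n] in
theorem ONB.bessel (hz : ONB S z) (x : Matrix n n ℂ) :
    ∑ a, ‖hs (z a) x‖ ^ 2 ≤ nrm x := by
  set p : Matrix n n ℂ := ∑ a, hs (z a) x • z a with hp
  have hpS : p ∈ S := S.sum_mem fun a _ => S.smul_mem _ (hz.mem a)
  have h1 : ∀ a, hs (z a) p = hs (z a) x := by
    intro a
    rw [hp, hs_sum_right]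
    simp_rw [hs_smul_right, hz.orth]
    simp
  have h2 : hs p (x - p) = 0 := by
    have h3 : ∀ a, hs (z a) (x - p) = 0 := fun a => by rw [hs_sub_right, h1, sub_self]
    rw [hp, hs_sum_left, ← hp]
    refine Finset.sum_eq_zero fun a _ => ?_
    rw [hs_smul_left, h3, mul_zero]
  have h3 : nrm x = nrm p + nrm (x - p) := by
    have h4 := nrm_add p (x - p)
    rw [h2, Complex.zero_re, mul_zero, add_zero] at h4
    rw [← h4]
    congr 1
    abel
  have h4 := hz.parseval hpS
  simp_rw [h1] at h4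
  rw [← h4, h3]
  have := nrm_nonneg (x - p)
  linarith

omit [DecidableEq n] in
/-- sums over an orthonormal basis do not depend on the basis -/
theorem ONB.indep (hz : ONB S z) (hy : ONB S y) (F G : Matrix n n ℂ →ₗ[ℂ] Matrix n n ℂ) :
    ∑ a, hs (F (z a)) (G (z a)) = ∑ b, hs (F (y b)) (G (y b)) := by
  have h1 : ∀ a, hs (F (z a)) (G (z a)) = ∑ b, hs (y b) (z a) * hs (F (z a)) (G (y b)) := by
    intro a
    have h2 : G (z a) = ∑ b, hs (y b) (z a) • G (y b) := by
      conv_lhs => rw [hy.exp (z a) (hz.mem a)]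
      rw [map_sum]
      exact Finset.sum_congr rfl fun b _ => map_smul _ _ _
    rw [h2, hs_sum_right]
    exact Finset.sum_congr rfl fun b _ => hs_smul_right _ _ _
  simp_rw [h1]
  rw [Finset.sum_comm]
  refine Finset.sum_congr rfl fun b _ => ?_
  have h2 : F (y b) = ∑ a, hs (z a) (y b) • F (z a) := by
    conv_lhs => rw [hz.exp (y b) (hy.mem b)]
    rw [map_sum]
    exact Finset.sum_congr rfl fun a _ => map_smul _ _ _
  rw [h2, hs_sum_left]
  refine Finset.sum_congr rfl fun a _ => ?_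
  rw [hs_smul_left, hs_conj]

omit [DecidableEq n] in
theorem ONB.indep_nrm (hz : ONB S z) (hy : ONB S y) (F : Matrix n n ℂ →ₗ[ℂ] Matrix n n ℂ) :
    ∑ a, nrm (F (z a)) = ∑ b, nrm (F (y b)) := by
  have h1 := hz.indep hy F F
  simp_rw [hs_self] at h1
  exact_mod_cast h1

omit [DecidableEq n] in
/-- the union of two orthonormal bases -/
theorem ONB.union (hz : ONB S z) (hy : ONB T y) {R : Submodule ℂ (Matrix n n ℂ)}
    (hS : S ≤ R) (hT : T ≤ R) (ho : ∀ x ∈ S, ∀ u ∈ T, hs x u = 0)
    (hR : ∀ x ∈ R, ∃ a ∈ S, ∃ b ∈ T, x = a + b) : ONB R (Sum.elim z y) := by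
  refine ONB.of_span ?_ ?_ ?_
  · rintro (a | a) (b | b)
    · simp only [Sum.elim_inl, Sum.inl.injEq]
      exact hz.orth a b
    · simpa using ho _ (hz.mem a) _ (hy.mem b)
    · simpa using hs_symm0 (ho _ (hz.mem b) _ (hy.mem a))
    · simp only [Sum.elim_inr, Sum.inr.injEq]
      exact hy.orth a b
  · rintro (a | a)
    · exact hS (hz.mem a)
    · exact hT (hy.mem a)
  · intro x hx
    obtain ⟨a, ha, b, hb, e⟩ := hR x hx
    refine ⟨Sum.elim (fun i => hs (z i) a) (fun i => hs (y i) b), ?_⟩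
    rw [Fintype.sum_sum_type]
    simp only [Sum.elim_inl, Sum.elim_inr]
    rw [← hz.exp a ha, ← hy.exp b hb, e]

omit [DecidableEq n] in
theorem ONB.mono (hz : ONB S z) (hy : ONB T y) (hST : S ≤ T) (F : Matrix n n ℂ →ₗ[ℂ] Matrix n n ℂ) :
    ∑ a, nrm (F (z a)) ≤ ∑ b, nrm (F (y b)) := by
  let R : Submodule ℂ (Matrix n n ℂ) :=
    { carrier := {x | x ∈ T ∧ ∀ a, hs (z a) x = 0}
      add_mem' := fun {a b} ha hb => ⟨T.add_mem ha.1 hb.1, fun i => by rw [hs_add_right, ha.2, hb.2, add_zero]⟩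
      zero_mem' := ⟨T.zero_mem, fun i => hs_zero_right _⟩
      smul_mem' := fun c a ha => ⟨T.smul_mem c ha.1, fun i => by rw [hs_smul_right, ha.2, mul_zero]⟩ }
  obtain ⟨u, hu⟩ := exists_onb R
  have h1 : ONB T (Sum.elim z u) := by
    refine hz.union hu hST (fun x hx => hx.1) ?_ ?_
    · intro x hx v hv
      rw [hz.exp x hx, hs_sum_left]
      refine Finset.sum_eq_zero fun a _ => ?_
      rw [hs_smul_left, hv.2, mul_zero]
    · intro x hx
      have hp : (∑ a, hs (z a) x • z a) ∈ S := S.sum_mem fun a _ => S.smul_mem _ (hz.mem a)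
      refine ⟨_, hp, x - ∑ a, hs (z a) x • z a, ⟨T.sub_mem hx (hST hp), fun b => ?_⟩, by abel⟩
      rw [hs_sub_right, hs_sum_right]
      simp_rw [hs_smul_right, hz.orth]
      simp
  rw [← h1.indep_nrm hy, Fintype.sum_sum_type]
  simp only [Sum.elim_inl, Sum.elim_inr]
  have := Finset.sum_nonneg fun a (_ : a ∈ Finset.univ) => nrm_nonneg (F (u a))
  linarith

omit [DecidableEq n] in
theorem ONB.star' (hz : ONB S z) (h1 : ∀ x ∈ S, xᴴ ∈ T) (h2 : ∀ x ∈ T, xᴴ ∈ S) : ONB T (fun a => (z a)ᴴ) := by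
  refine ONB.of_span ?_ (fun a => h1 _ (hz.mem a)) ?_
  · intro a b
    rw [hs_star_star, hz.orth]
    simp only [eq_comm]
  · intro x hx
    refine ⟨fun a => star (hs (z a) xᴴ), ?_⟩
    have h3 := congrArg Matrix.conjTranspose (hz.exp _ (h2 x hx))
    rw [Matrix.conjTranspose_conjTranspose, Matrix.conjTranspose_sum] at h3
    simp_rw [Matrix.conjTranspose_smul] at h3
    exact h3

/-- matrix units -/
theorem onb_units : ONB (⊤ : Submodule ℂ (Matrix n n ℂ)) (fun p : n × n => Matrix.single p.1 p.2 (1 : ℂ)) := by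
  have h0 : ∀ (p : n × n) (x : Matrix n n ℂ), hs (Matrix.single p.1 p.2 (1 : ℂ)) x = x p.1 p.2 := by
    intro p x
    rw [hs_eq, Finset.sum_eq_single p.1, Finset.sum_eq_single p.2]
    · simp
    · intro j _ hj
      have : Matrix.single p.1 p.2 (1 : ℂ) p.1 j = 0 := by
        rw [Matrix.single_apply, if_neg]
        exact fun h => hj h.2.symm
      rw [this, star_zero, zero_mul]
    · intro h
      exact absurd (Finset.mem_univ _) h
    · intro i _ hi
      refine Finset.sum_eq_zero fun j _ => ?_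
      have : Matrix.single p.1 p.2 (1 : ℂ) i j = 0 := by
        rw [Matrix.single_apply, if_neg]
        exact fun h => hi h.1.symm
      rw [this, star_zero, zero_mul]
    · intro h
      exact absurd (Finset.mem_univ _) h
  refine ONB.of_span ?_ (fun _ => Submodule.mem_top) ?_
  · intro p q
    rw [h0, Matrix.single_apply]
    by_cases h : p = q
    · subst h
      simp
    · rw [if_neg h, if_neg]
      rintro ⟨h1, h2⟩
      exact h (Prod.ext h1.symm h2.symm)
  · intro x _
    refine ⟨fun p => x p.1 p.2, ?_⟩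
    rw [Fintype.sum_prod_type]
    conv_lhs => rw [Matrix.matrix_eq_sum_single x]
    refine Finset.sum_congr rfl fun i _ => Finset.sum_congr rfl fun j _ => ?_
    rw [Matrix.smul_single, smul_eq_mul, mul_one]

end onb

/-! ### a bound for the adjoint action on the matrices on the range of a projection -/

theorem gl_bound {P a : Matrix n n ℂ} (hPP : P * P = P) (hPs : Pᴴ = P) (haP : P * a = a)
    {ι : Type*} [Fintype ι] [DecidableEq ι] {S : Submodule ℂ (Matrix n n ℂ)} {z : ι → Matrix n n ℂ} (hz : ONB S z) :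
    ∑ j, nrm (a * z j * P - P * z j * a) ≤ 2 * P.rank * nrm a - 2 * ‖a.trace‖ ^ 2 := by
  let F : Matrix n n ℂ →ₗ[ℂ] Matrix n n ℂ :=
    { toFun := fun x => a * x * P - P * x * a
      map_add' := fun x y => by noncomm_ring
      map_smul' := fun c x => by
        simp only [mul_smul_comm, smul_mul_assoc, smul_sub, RingHom.id_apply] }
  have h1 := hz.mono onb_units le_top F
  refine le_trans h1 ?_
  have e1 : ∀ (A B : Matrix n n ℂ) (i j k l : n), (A * Matrix.single i j (1 : ℂ) * B) k l = A k i * B j l := by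
    intro A B i j k l
    rw [Matrix.mul_apply, Finset.sum_eq_single j]
    · rw [Matrix.mul_single_apply_same, mul_one]
    · intro j' _ hj'
      rw [Matrix.mul_single_apply_of_ne _ _ _ _ _ hj', zero_mul]
    · intro h
      exact absurd (Finset.mem_univ _) h
  have hnP : nrm P = P.rank := by
    unfold nrm hs
    rw [hPs, hPP, trace_eq_rank hPP, Complex.natCast_re]
  have n1 : ∀ A B : Matrix n n ℂ, ∑ p : n × n, nrm (A * Matrix.single p.1 p.2 (1 : ℂ) * B) = nrm A * nrm B := by
    intro A B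
    simp_rw [nrm_eq, e1]
    rw [Fintype.sum_prod_type]
    simp_rw [norm_mul, mul_pow, ← Finset.sum_mul_sum]
    congr 1
    exact Finset.sum_comm
  have n2 : ∑ p : n × n, hs (a * Matrix.single p.1 p.2 (1 : ℂ) * P) (P * Matrix.single p.1 p.2 (1 : ℂ) * a) =
      hs a P * hs P a := by
    simp_rw [hs_eq, e1, star_mul']
    rw [Fintype.sum_prod_type]
    have e2 : ∀ i j k l : n, star (a k i) * star (P j l) * (P k i * a j l) = (star (a k i) * P k i) * (star (P j l) * a j l) := by
      intro i j k l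
      ring
    simp_rw [e2, ← Finset.sum_mul_sum]
    congr 1
    exact Finset.sum_comm
  have h2 : ∑ b : n × n, nrm (F (Matrix.single b.1 b.2 (1 : ℂ))) =
      nrm a * nrm P + nrm P * nrm a - 2 * (hs a P * hs P a).re := by
    have h3 : ∀ b : n × n, nrm (F (Matrix.single b.1 b.2 (1 : ℂ))) = nrm (a * Matrix.single b.1 b.2 (1 : ℂ) * P) +
        nrm (P * Matrix.single b.1 b.2 (1 : ℂ) * a) -
        2 * (hs (a * Matrix.single b.1 b.2 (1 : ℂ) * P) (P * Matrix.single b.1 b.2 (1 : ℂ) * a)).re :=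
      fun b => nrm_sub _ _
    simp_rw [h3]
    rw [Finset.sum_sub_distrib, Finset.sum_add_distrib, n1, n1, ← Finset.mul_sum, ← Complex.re_sum, n2]
  rw [h2, hnP]
  have h4 : hs P a = a.trace := by
    unfold hs
    rw [hPs, haP]
  have h5 : (hs a P * hs P a).re = ‖a.trace‖ ^ 2 := by
    rw [← hs_conj P a, h4, Complex.star_def, mul_comm, Complex.mul_conj, Complex.ofReal_re, Complex.normSq_eq_norm_sq]
  rw [h5]
  linarith

/-! ### the adjoint action -/

/-- the bracket -/
def ad (x : Matrix n n ℂ) : Matrix n n ℂ →ₗ[ℂ] Matrix n n ℂ where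
  toFun y := x * y - y * x
  map_add' a b := by
    rw [mul_add, add_mul]
    abel
  map_smul' c a := by
    simp only [mul_smul_comm, smul_mul_assoc, smul_sub, RingHom.id_apply]

theorem ad_apply (x y : Matrix n n ℂ) : ad x y = x * y - y * x := rfl

theorem ad_anti (x y : Matrix n n ℂ) : ad x y = -ad y x := by
  rw [ad_apply, ad_apply]
  abel

theorem ad_star (x y : Matrix n n ℂ) : (ad x y)ᴴ = -ad xᴴ yᴴ := by
  rw [ad_apply, ad_apply, Matrix.conjTranspose_sub, Matrix.conjTranspose_mul, Matrix.conjTranspose_mul]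
  abel

theorem hs_ad (x z y : Matrix n n ℂ) : hs x (ad z y) = hs (ad zᴴ x) y := by
  unfold hs
  rw [ad_apply, ad_apply, Matrix.conjTranspose_sub, Matrix.conjTranspose_mul, Matrix.conjTranspose_mul,
    Matrix.conjTranspose_conjTranspose, mul_sub, sub_mul, Matrix.trace_sub, Matrix.trace_sub, mul_assoc, mul_assoc,
    Matrix.trace_mul_comm z]
  simp only [mul_assoc]

theorem nrm_ad_comm (x y : Matrix n n ℂ) : nrm (ad x y) = nrm (ad y x) := by
  rw [ad_anti, nrm_neg]

theorem nrm_ad_star (x y : Matrix n n ℂ) : nrm (ad xᴴ yᴴ) = nrm (ad x y) := by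
  rw [← nrm_neg, ← ad_star, nrm_star]

end MH
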