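import Mathlib

/-!
Automorphisms of the field of complex numbers: the fixed field is the field of rational numbers, and Galois
descent for vectors.
-/

open MvPolynomial

namespace MH

private noncomputable def ext21 {R : Type} [Field R] [Algebra R ℂ] {ι : Type} {v : ι → ℂ} (hv : IsTranscendenceBasis R v)
    (e : MvPolynomial ι R ≃+* MvPolynomial ι R) : ℂ ≃+* ℂ :=
  letI := IsAlgClosed.isAlgClosure_of_transcendence_basis v hv
  IsAlgClosure.equivOfEquiv (S := Algebra.adjoin R (Set.range v)) (R := Algebra.adjoin R (Set.range v)) ℂ ℂ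
    (hv.1.aevalEquiv.symm.toRingEquiv.trans (e.trans hv.1.aevalEquiv.toRingEquiv))

private theorem ext21_aeval {R : Type} [Field R] [Algebra R ℂ] {ι : Type} {v : ι → ℂ} (hv : IsTranscendenceBasis R v)
    (e : MvPolynomial ι R ≃+* MvPolynomial ι R) (p : MvPolynomial ι R) :
    ext21 hv e (aeval v p) = aeval v (e p) := by
  have h0 := IsAlgClosed.isAlgClosure_of_transcendence_basis v hv
  have h1 : aeval v p = algebraMap (Algebra.adjoin R (Set.range v)) ℂ (hv.1.aevalEquiv p) :=
    (hv.1.algebraMap_aevalEquiv p).symm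
  have h2 : aeval v (e p) = algebraMap (Algebra.adjoin R (Set.range v)) ℂ (hv.1.aevalEquiv (e p)) :=
    (hv.1.algebraMap_aevalEquiv (e p)).symm
  rw [h1, h2]
  unfold ext21
  rw [IsAlgClosure.equivOfEquiv_algebraMap]
  congr 1
  simp

/-- The fixed field of the automorphisms of the complex numbers is the field of rational numbers. -/
theorem exists_aut_ne {x : ℂ} (hx : ∀ q : ℚ, (q : ℂ) ≠ x) : ∃ σ : ℂ ≃+* ℂ, σ x ≠ x := by
  by_cases hal : IsAlgebraic ℚ x
  · have hxA : x ∈ algebraicClosure ℚ ℂ := by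
      rw [mem_algebraicClosure_iff]
      exact hal
    have h1 : (⟨x, hxA⟩ : algebraicClosure ℚ ℂ) ∉ Set.range (algebraMap ℚ (algebraicClosure ℚ ℂ)) := by
      rintro ⟨q, hq⟩
      apply hx q
      have := congrArg Subtype.val hq
      simpa using this
    have hA : IsAlgClosure ℚ (algebraicClosure ℚ ℂ) := algebraicClosure.isAlgClosure _ _
    have hG : IsGalois ℚ (algebraicClosure ℚ ℂ) := IsAlgClosure.isGalois _ _
    rw [InfiniteGalois.mem_range_algebraMap_iff_fixed] at h1
    push Not at h1
    obtain ⟨σ, hσ⟩ := h1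
    obtain ⟨ι, v, hv⟩ := exists_isTranscendenceBasis' (algebraicClosure ℚ ℂ) ℂ
    refine ⟨ext21 hv (mapEquiv ι σ.toRingEquiv), ?_⟩
    have h2 : aeval v (C (⟨x, hxA⟩ : algebraicClosure ℚ ℂ)) = x := by
      rw [aeval_C]
      rfl
    intro h3
    rw [← h2, ext21_aeval, mapEquiv_apply, map_C, aeval_C, aeval_C] at h3
    apply hσ
    exact Subtype.ext h3
  · have h1 : AlgebraicIndepOn ℚ id ({x} : Set ℂ) := by
      have : AlgebraicIndependent ℚ (fun i : ({x} : Set ℂ) => (i : ℂ)) := by
        rw [algebraicIndependent_unique_type_iff]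
        exact hal
      exact this
    obtain ⟨t, ht, hv⟩ := exists_isTranscendenceBasis_superset h1
    classical
    let i0 : t := ⟨x, ht rfl⟩
    let f : MvPolynomial t ℚ →ₐ[ℚ] MvPolynomial t ℚ := aeval (fun i => if i = i0 then X i + 1 else X i)
    let g : MvPolynomial t ℚ →ₐ[ℚ] MvPolynomial t ℚ := aeval (fun i => if i = i0 then X i - 1 else X i)
    have hfg : f.comp g = AlgHom.id ℚ _ := by
      ext i : 1
      by_cases hi : i = i0
      · simp [f, g, hi]
      · simp [f, g, hi]
    have hgf : g.comp f = AlgHom.id ℚ _ := by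
      ext i : 1
      by_cases hi : i = i0
      · simp [f, g, hi]
      · simp [f, g, hi]
    refine ⟨ext21 hv (AlgEquiv.ofAlgHom f g hfg hgf).toRingEquiv, ?_⟩
    have h2 : aeval (fun i : t => (i : ℂ)) (X i0 : MvPolynomial t ℚ) = x := by
      rw [aeval_X]
    intro h3
    have h4 := ext21_aeval hv (AlgEquiv.ofAlgHom f g hfg hgf).toRingEquiv (X i0)
    have h5 : (AlgEquiv.ofAlgHom f g hfg hgf).toRingEquiv (X i0) = X i0 + 1 := by
      change f (X i0) = _
      simp [f]
    rw [h5] at h4
    have h6 : aeval (fun i : t => (i : ℂ)) (X i0 + 1 : MvPolynomial t ℚ) = x + 1 := by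
      rw [map_add, h2, map_one]
    rw [h6] at h4
    rw [h2] at h4
    rw [h3] at h4
    have : (1 : ℂ) = 0 := by linear_combination -h4
    exact one_ne_zero this

end MH
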