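import Pool.Agent.Helper21.MH.Cnt

/-!
The counting part under the weaker hypothesis `s ^ 2 r < b`.
-/

set_option linter.unusedSectionVars false

open Matrix

namespace MH

variable {n : Type*} [Fintype n] [DecidableEq n]

theorem num_int2 {N b s r ρ κ G : ℤ} (g1 : b * r ≤ κ * G + ρ * (N - G)) (g2 : κ + ρ = r) (g3 : N = b + 2 * s)
    (g4 : s ^ 2 * r < b) (g5 : 2 ≤ r) (g6 : 1 ≤ s) (g7 : 1 ≤ ρ) (g8 : G + 1 ≤ N) (g9 : b ≤ G) : False := by
  subst g3
  have e0 : κ = r - ρ := by linarith
  subst e0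
  have g1' : b * r ≤ (r - 2 * ρ) * G + ρ * (b + 2 * s) := by linarith
  have hs2 : 1 ≤ s ^ 2 := by nlinarith only [g6]
  have hbpos : 0 < b := by nlinarith only [g4, hs2, g5]
  rcases le_or_gt (2 * ρ) r with hcase | hcase
  · have e2 : (r - 2 * ρ) * G ≤ (r - 2 * ρ) * (b + 2 * s - 1) :=
      mul_le_mul_of_nonneg_left (by linarith) (by linarith)
    have e3 : (b + 2 * s - 2) * ρ ≤ (2 * s - 1) * r := by linarith
    have e4 : (b + 2 * s - 2) * 1 ≤ (b + 2 * s - 2) * ρ := mul_le_mul_of_nonneg_left g7 (by linarith)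
    have e5 : b + 2 * s - 2 ≤ (2 * s - 1) * r := by linarith
    have e8 : 0 ≤ s ^ 2 - (2 * s - 1) := by nlinarith only [sq_nonneg (s - 1)]
    have e7 : 0 ≤ (s ^ 2 - (2 * s - 1)) * r := mul_nonneg e8 (by linarith)
    linarith
  · have e2 : (r - 2 * ρ) * G ≤ (r - 2 * ρ) * b := mul_le_mul_of_nonpos_left g9 (by linarith)
    have e3 : ρ * (2 * b) ≤ ρ * (b + 2 * s) := by linarith
    have e4 : 2 * b ≤ b + 2 * s := le_of_mul_le_mul_left e3 (by linarith)
    have e5 : s ^ 2 * 2 ≤ s ^ 2 * r := mul_le_mul_of_nonneg_left g5 (by linarith)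
    nlinarith only [e4, e5, g4, hs2, g6]

theorem num_gal2 {J : Type*} [Fintype J] (g : J → ℕ) (γ : J → ℂ) {N b s : ℕ} (hN : N = b + 2 * s)
    (hb : s ^ 2 * Fintype.card J < b) (hr : 2 ≤ Fintype.card J) (hs : 1 ≤ s)
    (hsum : b * Fintype.card J ≤ ∑ j, g j) (hdiff : ∀ i j, γ i ≠ γ j → g i + g j ≤ N) (hle : ∀ j, g j ≤ N) :
    (∀ i j, γ i = γ j) ∨ ∃ i j, g i = N ∧ γ j ≠ γ i := by
  classical
  have hne : (Finset.univ : Finset J).Nonempty := by
    rw [Finset.univ_nonempty_iff, ← Fintype.card_pos_iff]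
    omega
  obtain ⟨i, -, hi⟩ := Finset.exists_max_image Finset.univ g hne
  by_cases hall : ∀ j, γ j = γ i
  · exact Or.inl fun a b => (hall a).trans (hall b).symm
  push Not at hall
  obtain ⟨j, hj⟩ := hall
  by_cases hG : g i = N
  · exact Or.inr ⟨i, j, hG, hj⟩
  exfalso
  have hG' : g i + 1 ≤ N := by
    have := hle i
    omega
  set ρ := (Finset.univ.filter (fun k => γ k ≠ γ i)).card with hρ
  set r := Fintype.card J with hrdef
  have hρ1 : 1 ≤ ρ := Finset.card_pos.2 ⟨j, Finset.mem_filter.2 ⟨Finset.mem_univ _, hj⟩⟩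
  have hρr : (Finset.univ.filter (fun k => γ k = γ i)).card + ρ = r := by
    rw [hρ, hrdef, ← Finset.card_univ]
    exact Finset.card_filter_add_card_filter_not _
  set κ := (Finset.univ.filter (fun k => γ k = γ i)).card with hκ
  have h1 : ∑ k, g k ≤ κ * g i + ρ * (N - g i) := by
    rw [← Finset.sum_filter_add_sum_filter_not Finset.univ (fun k => γ k = γ i)]
    apply Nat.add_le_add
    · rw [hκ, ← smul_eq_mul]
      exact Finset.sum_le_card_nsmul _ _ _ fun k _ => hi k (Finset.mem_univ _)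
    · rw [hρ, ← smul_eq_mul]
      refine Finset.sum_le_card_nsmul _ _ _ fun k hk => ?_
      have h2 := hdiff k i (Finset.mem_filter.1 hk).2
      omega
  have h2 : b ≤ g i := by
    have h3 : ∑ k, g k ≤ r * g i := by
      rw [hrdef, ← Finset.card_univ, ← smul_eq_mul]
      exact Finset.sum_le_card_nsmul _ _ _ fun k _ => hi k (Finset.mem_univ _)
    have h4 : b * r ≤ g i * r := by
      rw [mul_comm (g i)]
      exact hsum.trans h3
    exact Nat.le_of_mul_le_mul_right h4 (by omega)
  refine num_int2 (N := N) (b := b) (s := s) (r := r) (ρ := ρ) (κ := κ) (G := g i) ?_ (by exact_mod_cast hρr)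
    (by exact_mod_cast hN) (by exact_mod_cast hb) (by exact_mod_cast hr) (by exact_mod_cast hs)
    (by exact_mod_cast hρ1) (by exact_mod_cast hG') (by exact_mod_cast h2)
  have h3 := hsum.trans h1
  have h4 : ((N - g i : ℕ) : ℤ) = N - g i := by rw [Nat.cast_sub (by omega)]
  rw [← h4]
  exact_mod_cast h3



variable {ι : Type*} [Fintype ι] [DecidableEq ι] {e : Matrix n n ℂ} {w : ι → Matrix n n ℂ}

section count

variable (U : MU e w) {l c : Matrix n n ℂ} {t : ι → ι → ℂ} {F : ℝ → Matrix n n ℂ} {Λ : Finset ℝ}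
include U

/-- `c` is a scalar -/
theorem scalar_of2 (hc : e * c = c) (hc' : c * e = c)
    (hl : ∀ a b, (w a)ᴴ * l * w b = (if a = b then c else 0) + t a b • e) (D : SD l F Λ) {b s : ℕ}
    (hN : Fintype.card ι = b + 2 * s) (hb : s ^ 2 * e.rank < b) (hr : 2 ≤ e.rank) (hs : 1 ≤ s)
    (h0 : (F 0).rank = b * e.rank) (hF : ∀ μ : ℝ, μ ≠ 0 → (F μ).rank ≤ s * e.rank) : ∃ γ : ℂ, c = γ • e := by
  classical
  have hb0 : 0 < b := by omega
  have hι : Nonempty ι := by
    rw [← Fintype.card_pos_iff]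
    omega
  have hrk : Module.finrank ℂ (LinearMap.range (Matrix.toLin' e)) = e.rank := rfl
  obtain ⟨f, γ, hγ⟩ := exists_eigbasis (cW e c hc) (cW_diag U hc hl D)
  have hcard : Fintype.card (Fin (Module.finrank ℂ (LinearMap.range (Matrix.toLin' e)))) = e.rank := by
    rw [Fintype.card_fin, hrk]
  have hV : Module.finrank ℂ (ι → ℂ) = Fintype.card ι := Module.finrank_fintype_fun_eq_card ℂ
  have h1 := num_gal2 (N := Fintype.card ι) (b := b) (s := s)
    (fun j => Module.finrank ℂ (LinearMap.ker (Matrix.toLin' (Matrix.of t) + γ j • LinearMap.id))) γ hN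
    (by rw [hcard]; exact hb) (by rw [hcard]; exact hr) hs
    (by
      rw [hcard, ← h0]
      exact D.rank_ker.trans (ker_bound U hc hl f γ hγ))
    (by
      intro i j hij
      have h2 : LinearMap.ker (Matrix.toLin' (Matrix.of t) + γ i • LinearMap.id) ⊓
          LinearMap.ker (Matrix.toLin' (Matrix.of t) + γ j • LinearMap.id) = ⊥ := by
        rw [eq_bot_iff]
        rintro x ⟨hx1, hx2⟩
        have hx1' := LinearMap.mem_ker.1 hx1
        have hx2' := LinearMap.mem_ker.1 hx2
        rw [LinearMap.add_apply, LinearMap.smul_apply, LinearMap.id_apply] at hx1' hx2'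
        have h3 : (γ i - γ j) • x = 0 := by
          rw [sub_smul]
          calc γ i • x - γ j • x = (Matrix.toLin' (Matrix.of t) x + γ i • x) -
                (Matrix.toLin' (Matrix.of t) x + γ j • x) := by abel
            _ = 0 := by rw [hx1', hx2', sub_zero]
        rw [Submodule.mem_bot]
        exact (smul_eq_zero.1 h3).resolve_left (sub_ne_zero.2 hij)
      have h3 := Submodule.finrank_sup_add_finrank_inf_eq
        (LinearMap.ker (Matrix.toLin' (Matrix.of t) + γ i • LinearMap.id))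
        (LinearMap.ker (Matrix.toLin' (Matrix.of t) + γ j • LinearMap.id))
      rw [h2, finrank_bot, add_zero] at h3
      rw [← h3, ← hV]
      exact Submodule.finrank_le _)
    (by
      intro j
      rw [← hV]
      exact Submodule.finrank_le _)
  rcases h1 with h1 | ⟨i, j, hg, hij⟩
  · -- all eigenvalues are equal
    have hne : Nonempty (Fin (Module.finrank ℂ (LinearMap.range (Matrix.toLin' e)))) := by
      rw [← Fintype.card_pos_iff, hcard]
      omega
    obtain ⟨j0⟩ := hne
    refine ⟨γ j0, ?_⟩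
    have h2 : cW e c hc = γ j0 • LinearMap.id := by
      apply f.ext
      intro j
      rw [hγ, h1 j j0, LinearMap.smul_apply, LinearMap.id_apply]
    apply Matrix.toLin'.injective
    apply LinearMap.ext
    intro v
    have h3 := congrArg (fun g => ((g ⟨Matrix.toLin' e v, ⟨v, rfl⟩⟩ : LinearMap.range (Matrix.toLin' e)) : n → ℂ)) h2
    simp only [cW_coe, LinearMap.smul_apply, LinearMap.id_apply, Submodule.coe_smul, Matrix.toLin'_apply] at h3
    rw [Matrix.toLin'_apply, Matrix.toLin'_apply, Matrix.smul_mulVec, ← h3, Matrix.mulVec_mulVec, hc']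
  · -- t is a scalar
    exfalso
    have h2 : LinearMap.ker (Matrix.toLin' (Matrix.of t) + γ i • LinearMap.id) = ⊤ := by
      apply Submodule.eq_top_of_finrank_eq
      rw [hV]
      exact hg
    have h3 : ∀ x, Matrix.of t *ᵥ x = -γ i • x := by
      intro x
      have h4 : x ∈ LinearMap.ker (Matrix.toLin' (Matrix.of t) + γ i • LinearMap.id) := by
        rw [h2]
        exact Submodule.mem_top
      rw [LinearMap.mem_ker, LinearMap.add_apply, LinearMap.smul_apply, LinearMap.id_apply,
        Matrix.toLin'_apply] at h4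
      rw [neg_smul]
      exact eq_neg_of_add_eq_zero_left h4
    obtain ⟨μ, hμ, h5⟩ := scal_case U hl D hij h3 (U.mem_range.1 (f j).2)
      (fun h => f.ne_zero j (Subtype.ext h)) (by
        have := congrArg Subtype.val (hγ j)
        rwa [cW_coe, Submodule.coe_smul] at this)
    have h6 := h5.trans (hF μ hμ)
    rw [hN] at h6
    have h7 : s * e.rank ≤ s ^ 2 * e.rank := Nat.mul_le_mul_right _ (by nlinarith)
    omega

end count

end MH
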