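import Pool.Agent.Helper21.MH.Ten

/-!
Polarised rational Hodge structures of even weight, Hodge tensors, the Mumford-Tate group as the group fixing
all Hodge tensors; the Lie algebra killing all Hodge tensors and its rationality.
-/

set_option linter.unusedSectionVars false

open Matrix

namespace MH

section slots

variable {R n : Type*} [CommRing R] [Fintype n] [DecidableEq n]

/-- `g` acts on the first `a` slots, the transpose of `g'` on the last `b` slots -/
def slot (a b : ℕ) (g g' : Matrix n n R) : Fin a ⊕ Fin b → Matrix n n R :=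
  Sum.elim (fun _ => g) (fun _ => g'ᵀ)

/-- the action of the Lie algebra on the slots -/
def lslot (a b : ℕ) (X : Matrix n n R) : Fin a ⊕ Fin b → Matrix n n R :=
  Sum.elim (fun _ => X) (fun _ => -Xᵀ)

omit [Fintype n] [DecidableEq n] in
theorem lslot_add (a b : ℕ) (X Y : Matrix n n R) : lslot a b (X + Y) = lslot a b X + lslot a b Y := by
  funext k
  rcases k with k | k
  · rfl
  · simp only [lslot, Sum.elim_inr, Pi.add_apply, Matrix.transpose_add, neg_add]

omit [Fintype n] [DecidableEq n] in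
theorem lslot_smul (a b : ℕ) (c : R) (X : Matrix n n R) : lslot a b (c • X) = c • lslot a b X := by
  funext k
  rcases k with k | k
  · rfl
  · simp only [lslot, Sum.elim_inr, Pi.smul_apply, Matrix.transpose_smul, smul_neg]

/-- the action of the Lie algebra on tensors, as a linear map in the matrix -/
def dL (a b : ℕ) (t : (Fin a ⊕ Fin b → n) → R) : Matrix n n R →ₗ[R] ((Fin a ⊕ Fin b → n) → R) where
  toFun X := dact (lslot a b X) t
  map_add' X Y := by rw [lslot_add, dact_add_left]
  map_smul' c X := by rw [lslot_smul, dact_smul_left]; rfl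

theorem dL_apply (a b : ℕ) (t : (Fin a ⊕ Fin b → n) → R) (X : Matrix n n R) :
    dL a b t X = dact (lslot a b X) t := rfl

theorem dL_bracket (a b : ℕ) (t : (Fin a ⊕ Fin b → n) → R) (X Y : Matrix n n R) :
    dL a b t (X * Y - Y * X) = dact (lslot a b X) (dL a b t Y) - dact (lslot a b Y) (dL a b t X) := by
  rw [dL_apply, dL_apply, dL_apply, dact_bracket]
  congr 1
  funext k
  rcases k with k | k
  · rfl
  · simp only [lslot, Sum.elim_inr, Matrix.transpose_sub, Matrix.transpose_mul, neg_mul_neg]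
    abel

theorem dL_conj (a b : ℕ) (t : (Fin a ⊕ Fin b → n) → R) (X g g' : Matrix n n R) (h1 : g * g' = 1)
    (ht : actF (slot a b g' g) t = t) : dL a b t (g * X * g') = actF (slot a b g g') (dL a b t X) := by
  rw [dL_apply, dL_apply]
  have h3 := dact_conj (slot a b g g') (slot a b g' g) (by
    rintro (k | k)
    · exact h1
    · simp only [slot, Sum.elim_inr]
      rw [← Matrix.transpose_mul, h1, Matrix.transpose_one]) (lslot a b X) t
  rw [ht] at h3
  rw [← h3]
  congr 1
  funext k
  rcases k with k | k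
  · rfl
  · simp only [lslot, slot, Sum.elim_inr, Matrix.transpose_mul, mul_neg, neg_mul, mul_assoc]

theorem dL_expand (a b : ℕ) (t : (Fin a ⊕ Fin b → n) → R) (X : Matrix n n R) (i : Fin a ⊕ Fin b → n) :
    dL a b t X i = ∑ x, ∑ y, X x y * dL a b t (Matrix.single x y 1) i := by
  conv_lhs => rw [Matrix.matrix_eq_sum_single X]
  rw [map_sum, Finset.sum_apply]
  refine Finset.sum_congr rfl fun x _ => ?_
  rw [map_sum, Finset.sum_apply]
  refine Finset.sum_congr rfl fun y _ => ?_
  have h1 : Matrix.single x y (X x y) = X x y • Matrix.single x y (1 : R) := by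
    rw [Matrix.smul_single, smul_eq_mul, mul_one]
  rw [h1, map_smul, Pi.smul_apply, smul_eq_mul]

end slots

variable {n : Type*} [Fintype n] [DecidableEq n]

/-- the complex matrix of a rational matrix -/
noncomputable def toC (A : Matrix n n ℚ) : Matrix n n ℂ := A.map (algebraMap ℚ ℂ)

/-- the complex tensor of a rational tensor -/
noncomputable def tC {ι : Type*} (t : ι → ℚ) : ι → ℂ := fun i => algebraMap ℚ ℂ (t i)

/-- A polarised rational Hodge structure of weight `2 m` on `ℚ ^ n`: `P p` is the projection of `ℂ ^ n` onto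
`H^{p, 2 m - p}` along the other summands, `Q` is the matrix of the polarisation. -/
structure IsHS (m : ℤ) (Q : Matrix n n ℚ) (S : Finset ℤ) (P : ℤ → Matrix n n ℂ) : Prop where
  mul : ∀ p q, P p * P q = if p = q then P p else 0
  supp : ∀ p, p ∉ S → P p = 0
  sum : ∑ p ∈ S, P p = 1
  conj : ∀ p, (P p).map (starRingEnd ℂ) = P (2 * m - p)
  symm : Qᵀ = Q
  orth : ∀ p q, p + q ≠ 2 * m → (P p)ᵀ * toC Q * P q = 0
  pos : ∀ p (v : n → ℂ), P p *ᵥ v = v → v ≠ 0 → 0 < (-1 : ℝ) ^ (p - m) * (v ⬝ᵥ (toC Q *ᵥ star v)).re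

/-- the cocharacter `z ↦ z ^ p` on `H^{p,q}` -/
noncomputable def cochar (S : Finset ℤ) (P : ℤ → Matrix n n ℂ) (z : ℂ) : Matrix n n ℂ := ∑ p ∈ S, z ^ p • P p

/-- a rational tensor of type `(a, b)` that is a Hodge tensor: fixed by the cocharacter -/
def IsHodgeTensor (S : Finset ℤ) (P : ℤ → Matrix n n ℂ) (a b : ℕ) (t : (Fin a ⊕ Fin b → n) → ℚ) : Prop :=
  ∀ z : ℂ, z ≠ 0 → actF (slot a b (cochar S P z) (cochar S P z⁻¹)) (tC t) = tC t

/-- orthogonal idempotents indexed by integers -/
structure Idm (S : Finset ℤ) (P : ℤ → Matrix n n ℂ) : Prop where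
  mul : ∀ p q, P p * P q = if p = q then P p else 0
  sum : ∑ p ∈ S, P p = 1

/-- invariance of a tensor under a torus -/
theorem Idm.inv_iff {S : Finset ℤ} {P : ℤ → Matrix n n ℂ} (hP : Idm S P) (a b : ℕ) (t : (Fin a ⊕ Fin b → n) → ℂ) :
    (∀ z : ℂ, z ≠ 0 → actF (slot a b (∑ p ∈ S, z ^ p • P p) (∑ p ∈ S, z⁻¹ ^ p • P p)) t = t) ↔
      dL a b t (∑ p ∈ S, (p : ℂ) • P p) = 0 := by
  classical
  set S' : Fin a ⊕ Fin b → Finset ℤ := Sum.elim (fun _ => S) (fun _ => S.image (fun p => -p)) with hS'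
  set P' : Fin a ⊕ Fin b → ℤ → Matrix n n ℂ := Sum.elim (fun _ => P) (fun _ p => (P (-p))ᵀ) with hP'
  have hinj : ∀ x ∈ S, ∀ y ∈ S, -x = -y → x = y := fun x _ y _ h => by omega
  have hI : Idem S' P' := by
    refine ⟨?_, ?_⟩
    · rintro (k | k) p q
      · exact hP.mul p q
      · simp only [hP', Sum.elim_inr]
        rw [← Matrix.transpose_mul, hP.mul]
        by_cases h1 : p = q
        · rw [if_pos (by omega), if_pos h1, h1]
        · rw [if_neg (by omega), if_neg h1, Matrix.transpose_zero]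
    · rintro (k | k)
      · exact hP.sum
      · simp only [hP', hS', Sum.elim_inr]
        rw [Finset.sum_image hinj]
        simp only [neg_neg]
        rw [← Matrix.transpose_sum, hP.sum, Matrix.transpose_one]
  have e1 : ∀ z : ℂ, (fun k => ∑ p ∈ S' k, z ^ p • P' k p) =
      slot a b (∑ p ∈ S, z ^ p • P p) (∑ p ∈ S, z⁻¹ ^ p • P p) := by
    intro z
    funext k
    rcases k with k | k
    · rfl
    · simp only [hP', hS', Sum.elim_inr, slot]
      rw [Finset.sum_image hinj, Matrix.transpose_sum]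
      refine Finset.sum_congr rfl fun p _ => ?_
      rw [neg_neg, Matrix.transpose_smul, _root_.inv_zpow']
  have e2 : (fun k => ∑ p ∈ S' k, (p : ℂ) • P' k p) = lslot a b (∑ p ∈ S, (p : ℂ) • P p) := by
    funext k
    rcases k with k | k
    · rfl
    · simp only [hP', hS', Sum.elim_inr, lslot]
      rw [Finset.sum_image hinj, Matrix.transpose_sum, ← Finset.sum_neg_distrib]
      refine Finset.sum_congr rfl fun p _ => ?_
      rw [neg_neg, Matrix.transpose_smul, Int.cast_neg, neg_smul]
  have h1 := hI.torus_iff t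
  simp only [e1] at h1
  rw [e2] at h1
  exact h1

/-! ### rationality -/

/-- apply a `ℚ`-linear form to all entries -/
noncomputable def mapQ (π : ℂ →ₗ[ℚ] ℚ) (X : Matrix n n ℂ) : Matrix n n ℚ := X.map π

theorem mapQ_mul_left (π : ℂ →ₗ[ℚ] ℚ) (A : Matrix n n ℚ) (X : Matrix n n ℂ) :
    mapQ π (toC A * X) = A * mapQ π X := by
  ext i j
  simp only [mapQ, toC, Matrix.map_apply, Matrix.mul_apply, map_sum]
  refine Finset.sum_congr rfl fun k _ => ?_
  rw [← Algebra.smul_def, map_smul, smul_eq_mul]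

theorem mapQ_mul_right (π : ℂ →ₗ[ℚ] ℚ) (A : Matrix n n ℚ) (X : Matrix n n ℂ) :
    mapQ π (X * toC A) = mapQ π X * A := by
  ext i j
  simp only [mapQ, toC, Matrix.map_apply, Matrix.mul_apply, map_sum]
  refine Finset.sum_congr rfl fun k _ => ?_
  rw [mul_comm, ← Algebra.smul_def, map_smul, smul_eq_mul, mul_comm]

theorem mapQ_add (π : ℂ →ₗ[ℚ] ℚ) (X Y : Matrix n n ℂ) : mapQ π (X + Y) = mapQ π X + mapQ π Y := by
  ext i j
  simp [mapQ]

theorem mapQ_zero (π : ℂ →ₗ[ℚ] ℚ) : mapQ π (0 : Matrix n n ℂ) = 0 := by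
  ext i j
  simp [mapQ]

theorem mapQ_transpose (π : ℂ →ₗ[ℚ] ℚ) (X : Matrix n n ℂ) : mapQ π Xᵀ = (mapQ π X)ᵀ := rfl

theorem toC_mul (A B : Matrix n n ℚ) : toC (A * B) = toC A * toC B := by
  unfold toC
  exact Matrix.map_mul

theorem toC_add (A B : Matrix n n ℚ) : toC (A + B) = toC A + toC B := by
  unfold toC
  exact Matrix.map_add _ (map_add _) A B

theorem toC_zero : toC (0 : Matrix n n ℚ) = 0 := by
  unfold toC
  exact Matrix.map_zero _ (map_zero _)

theorem toC_transpose (A : Matrix n n ℚ) : toC Aᵀ = (toC A)ᵀ := rfl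

/-- every complex matrix is a combination of the rational matrices `mapQ π X` -/
theorem exists_combination (X : Matrix n n ℂ) : ∃ (ι : Type) (s : Finset ι) (c : ι → ℂ) (π : ι → ℂ →ₗ[ℚ] ℚ),
    X = ∑ k ∈ s, c k • toC (mapQ (π k) X) := by
  classical
  let b := Module.Basis.ofVectorSpace ℚ ℂ
  refine ⟨Module.Basis.ofVectorSpaceIndex ℚ ℂ, Finset.univ.biUnion fun i : n => Finset.univ.biUnion fun j : n =>
    (b.repr (X i j)).support, fun k => b k, fun k => b.coord k, ?_⟩
  ext i j
  rw [Matrix.sum_apply]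
  have h1 : X i j = ∑ k ∈ (b.repr (X i j)).support, b.repr (X i j) k • b k := (b.linearCombination_repr (X i j)).symm
  conv_lhs => rw [h1]
  have h2 : (b.repr (X i j)).support ⊆ Finset.univ.biUnion fun i : n => Finset.univ.biUnion fun j : n =>
      (b.repr (X i j)).support := by
    intro k hk
    exact Finset.mem_biUnion.2 ⟨i, Finset.mem_univ i, Finset.mem_biUnion.2 ⟨j, Finset.mem_univ j, hk⟩⟩
  rw [Finset.sum_subset h2]
  · refine Finset.sum_congr rfl fun k _ => ?_
    simp only [Matrix.smul_apply, toC, mapQ, Matrix.map_apply, smul_eq_mul, Module.Basis.coord_apply]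
    rw [Algebra.smul_def, mul_comm]
  · intro k _ hk
    rw [Finsupp.notMem_support_iff.1 hk, zero_smul]

theorem dL_mapQ (a b : ℕ) (t : (Fin a ⊕ Fin b → n) → ℚ) {X : Matrix n n ℂ} (h : dL a b (tC t) X = 0)
    (π : ℂ →ₗ[ℚ] ℚ) : dL a b (tC t) (toC (mapQ π X)) = 0 := by
  have h0 : ∀ (A : Matrix n n ℚ) (i : Fin a ⊕ Fin b → n),
      dL a b (tC t) (toC A) i = algebraMap ℚ ℂ (dL a b t A i) := by
    intro A i
    rw [dL_apply, dL_apply, ← dact_map]
    congr 1
    funext k
    rcases k with k | k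
    · rfl
    · simp only [lslot, Sum.elim_inr, toC]
      ext x y
      simp
  funext i
  have h1 := congrFun h i
  rw [dL_expand] at h1
  have h2 : ∀ x y, dL a b (tC t) (Matrix.single x y (1 : ℂ)) i = algebraMap ℚ ℂ (dL a b t (Matrix.single x y 1) i) := by
    intro x y
    rw [← h0]
    have h3 : toC (Matrix.single x y (1 : ℚ)) = Matrix.single x y (1 : ℂ) := by
      ext u v
      simp only [toC, Matrix.map_apply, Matrix.single_apply]
      split_ifs <;> simp
    rw [h3]
  simp_rw [h2] at h1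
  have h3 := congrArg π h1
  rw [map_sum] at h3
  simp_rw [map_sum] at h3
  rw [h0, dL_expand, Pi.zero_apply, map_eq_zero]
  rw [Pi.zero_apply, map_zero] at h3
  rw [← h3]
  refine Finset.sum_congr rfl fun x _ => Finset.sum_congr rfl fun y _ => ?_
  rw [mul_comm (X x y), ← Algebra.smul_def, map_smul, smul_eq_mul, mul_comm]
  rfl

end MH
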