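import Pool.Agent.Helper21.MH.Lev4

/-!
The sharp bound in level two: if `h` has only the eigenvalues `m, 0, -m`, the positive part has dimension
`s ≥ 2` and the elements of `L` living on the kernel of `h` span at most a line, then the kernel of `h` has
dimension at most `s ^ 2`.
-/

open Matrix

namespace MH
variable {n : Type*} [Fintype n] [DecidableEq n]
variable {h : Matrix n n ℂ} {E : ℝ → Matrix n n ℂ} {Λ : Finset ℝ}
  {τ : Matrix n n ℂ →ₗ[ℂ] Matrix n n ℂ} {L J : Submodule ℂ (Matrix n n ℂ)} {m : ℝ}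

namespace Dat

/-- the part of degree zero orthogonal to `h` -/
def L0w (J : Submodule ℂ (Matrix n n ℂ)) (h : Matrix n n ℂ) (L : Submodule ℂ (Matrix n n ℂ)) :
    Submodule ℂ (Matrix n n ℂ) where
  carrier := {w | w ∈ J ⊓ Ld L h 0 ∧ hs h w = 0}
  add_mem' := fun {a b} ha hb => ⟨Submodule.add_mem _ ha.1 hb.1, by rw [hs_add_right, ha.2, hb.2, add_zero]⟩
  zero_mem' := ⟨Submodule.zero_mem _, hs_zero_right _⟩
  smul_mem' := fun c a ha => ⟨Submodule.smul_mem _ _ ha.1, by rw [hs_smul_right, ha.2, mul_zero]⟩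

theorem onb_zero (D : Dat τ L h E Λ) (hh : h ∈ J) (h0 : h ≠ 0) {ι : Type*} [Fintype ι] [DecidableEq ι]
    {w : ι → Matrix n n ℂ} (hw : ONB (L0w J h L) w) : ∃ r : ℝ, r ^ 2 * nrm h = 1 ∧
      ONB (J ⊓ Ld L h 0) (Sum.elim (fun _ : Unit => (r : ℂ) • h) w) := by
  have hpos : 0 < nrm h := lt_of_le_of_ne (nrm_nonneg h) fun h1 => h0 (nrm_eq_zero h1.symm)
  set r : ℝ := (Real.sqrt (nrm h))⁻¹ with hr
  have hr2 : r ^ 2 * nrm h = 1 := by
    rw [hr, inv_pow, Real.sq_sqrt hpos.le, inv_mul_cancel₀ hpos.ne']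
  have hd0 : h ∈ Ld L h 0 := ⟨D.mem, by simp⟩
  refine ⟨r, hr2, ?_⟩
  have h1 : ONB (ℂ ∙ h) (fun _ : Unit => (r : ℂ) • h) := by
    refine ONB.of_span ?_ ?_ ?_
    · intro a b
      rw [if_pos (Subsingleton.elim a b), hs_smul_left, hs_smul_right, hs_self, Complex.star_def, Complex.conj_ofReal]
      have : ((r ^ 2 * nrm h : ℝ) : ℂ) = 1 := by rw [hr2]; norm_num
      rw [← this]
      push_cast
      ring
    · intro _
      exact Submodule.smul_mem _ _ (Submodule.mem_span_singleton_self h)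
    · intro x hx
      obtain ⟨c, rfl⟩ := Submodule.mem_span_singleton.1 hx
      have hr0 : (r : ℂ) ≠ 0 := by
        intro h2
        have h3 : r = 0 := by exact_mod_cast h2
        rw [h3] at hr2
        simp at hr2
      refine ⟨fun _ => c * (r : ℂ)⁻¹, ?_⟩
      simp only [Finset.univ_unique, Finset.sum_singleton, smul_smul]
      rw [mul_assoc, inv_mul_cancel₀ hr0, mul_one]
  refine h1.union hw ?_ (fun x hx => hx.1) ?_ ?_
  · rw [Submodule.span_singleton_le_iff_mem]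
    exact ⟨hh, hd0⟩
  · intro x hx y hy
    obtain ⟨c, rfl⟩ := Submodule.mem_span_singleton.1 hx
    rw [hs_smul_left, hy.2, mul_zero]
  · intro x hx
    set t : ℂ := hs h x / nrm h with ht
    refine ⟨t • h, Submodule.smul_mem _ _ (Submodule.mem_span_singleton_self h), x - t • h, ⟨?_, ?_⟩, by abel⟩
    · exact Submodule.sub_mem _ hx (Submodule.smul_mem _ _ ⟨hh, hd0⟩)
    · have hn : (nrm h : ℂ) ≠ 0 := by exact_mod_cast hpos.ne'
      rw [hs_sub_right, hs_smul_right, hs_self, ht, div_mul_cancel₀ _ hn, sub_self]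

/-- the bound for an ideal with scalar Casimir operator that contains `h` -/
theorem lev2 (D : Dat τ L h E Λ) (hK : Module.finrank ℂ (KK L E) ≤ 1) (hs2 : 2 ≤ (Pp E Λ).rank) (hm : 0 < m)
    (hlev : ∀ ν, ν ≠ m → ν ≠ 0 → ν ≠ -m → E ν = 0) (hJ : IsI L J) (hh : h ∈ J) {c : ℝ}
    (hc : ∀ (κ : Type) (_ : Fintype κ) (_ : DecidableEq κ) (w : κ → Matrix n n ℂ), ONB J w → ∀ y ∈ J,
      c * nrm y = ∑ b, nrm (ad y (w b))) : (E 0).rank ≤ (Pp E Λ).rank ^ 2 := by
  classical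
  have S := D.spec
  have hP0 : Pp E Λ ≠ 0 := by
    intro h1
    rw [h1, Matrix.rank_zero] at hs2
    omega
  have h0 : h ≠ 0 := D.h_ne98 hP0
  obtain ⟨N1, hN1, x1, hx1⟩ : ∃ N : ℕ, Module.finrank ℂ (Ld L h m) = N ∧ ∃ x : Fin N → Matrix n n ℂ, ONB (Ld L h m) x :=
    ⟨_, rfl, exists_onb _⟩
  obtain ⟨N2, hN2, x2, hx2⟩ : ∃ N : ℕ, Module.finrank ℂ (Ld L h (2 * m)) = N ∧ ∃ x : Fin N → Matrix n n ℂ,
      ONB (Ld L h (2 * m)) x := ⟨_, rfl, exists_onb _⟩
  obtain ⟨d', hd', w', hw'⟩ : ∃ N : ℕ, Module.finrank ℂ (L0w J h L) = N ∧ ∃ x : Fin N → Matrix n n ℂ,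
      ONB (L0w J h L) x := ⟨_, rfl, exists_onb _⟩
  obtain ⟨r, hr, hw⟩ := D.onb_zero hh h0 hw'
  obtain ⟨w, hwdef⟩ : ∃ w : Unit ⊕ Fin d' → Matrix n n ℂ, w = Sum.elim (fun _ : Unit => (r : ℂ) • h) w' := ⟨_, rfl⟩
  rw [← hwdef] at hw
  have hz := D.onb_J hm hlev hJ hh hx1 hx2 hw
  have hc' : ∀ y ∈ J, c * nrm y = ∑ i, nrm (ad y (Sum.elim x1 x2 i)) + ∑ i, nrm (ad y (Sum.elim x1 x2 i)ᴴ) +
      ∑ j, nrm (ad y (w j)) := by
    intro y hy
    rw [hc _ inferInstance inferInstance _ hz y hy, Fintype.sum_sum_type, Fintype.sum_sum_type]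
    rfl
  obtain ⟨s, hsdef⟩ : ∃ s : ℕ, s = (Pp E Λ).rank := ⟨_, rfl⟩
  rw [← hsdef] at hs2 ⊢
  have hs0 : s ≠ 0 := by omega
  have hsR : (s : ℝ) ≠ 0 := by exact_mod_cast hs0
  have hcv := D.lev_c hm hlev (by rw [← hsdef]; exact hs0) hh hx1 hx2 hw hc'
  rw [← hsdef] at hcv
  obtain ⟨rel1, rel2⟩ := D.lev_rel hJ hm hx1 hx2 hw hh hc'
  rw [Fintype.card_fin, Fintype.card_fin] at hcv rel1
  rw [Fintype.card_fin, Fintype.card_fin] at rel2
  have hcd : Fintype.card (Unit ⊕ Fin d') = d' + 1 := by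
    rw [Fintype.card_sum, Fintype.card_unit, Fintype.card_fin, add_comm]
  rw [hcd] at rel1 rel2
  have hfin0 : Module.finrank ℂ (J ⊓ Ld L h 0 : Submodule ℂ (Matrix n n ℂ)) = d' + 1 := by
    rw [hw.finrank, hcd]
  set B : ℝ := ∑ j, nrm (Pp E Λ * w' j) with hB
  have hPm : Pp E Λ = E m := D.lev_P hm hlev
  have hPP : E m * E m = E m := by rw [S.mul, if_pos rfl]
  have hnh := D.lev_nrm_h hm hlev
  obtain ⟨hnPh, htPh⟩ := D.lev_nrm_Ph hm hlev
  rw [← hsdef] at hnh hnPh htPh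
  have hrm : 2 * (r ^ 2 * m ^ 2) * s = 1 := by
    rw [hnh] at hr
    linarith
  have hnPh1 : nrm (E m * ((r : ℂ) • h)) = 1 / 2 := by
    rw [mul_smul_comm, nrm_smul, hnPh, Complex.norm_real, Real.norm_eq_abs, sq_abs]
    linarith
  have hkeep : (E 0).rank ≤ N1 * s := by
    rw [← hN1, hsdef]
    exact D.rank_zero_le2 hP0 hlev hm
  refine num_sharp (s := s) (b := (E 0).rank) (k := Module.finrank ℂ (KK L E)) (N₁ := N1) (N₂ := N2) (d := d' + 1)
    (B := B) (S := ∑ j, ∑ l, nrm (ad (w j) (w l))) hK hs2 ?_ ?_ ?_ ?_ ?_ ?_ ?_ ?_ ?_ ?_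
  · -- the trace of the Casimir element
    have hT := hz.trace_ideal hJ.br D.st D.irr (P := E m) hPP (S.star m) (s := s) (by rw [trace_eq_rank hPP, hsdef, hPm])
    rw [D.card_eq, Fintype.sum_sum_type, Fintype.sum_sum_type] at hT
    simp only [Sum.elim_inl, Sum.elim_inr] at hT
    have e1 : ∑ i, nrm (E m * Sum.elim x1 x2 i) = N1 / 2 + N2 := by
      rw [Fintype.sum_sum_type]
      simp only [Sum.elim_inl, Sum.elim_inr]
      rw [Finset.sum_congr rfl fun i _ => (D.lev_nrm1 hm hlev (hx1.mem i)).1,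
        Finset.sum_congr rfl fun i _ => (D.lev_nrm2 hm hlev (hx2.mem i)).1]
      simp only [hx1.nrm_one, hx2.nrm_one, Finset.sum_const, Finset.card_univ, nsmul_eq_mul, Fintype.card_fin]
      ring
    have e2 : ∑ i, nrm (E m * (Sum.elim x1 x2 i)ᴴ) = 0 := by
      refine Finset.sum_eq_zero ?_
      rintro (i | i) _
      · simp only [Sum.elim_inl]
        rw [(D.lev_nrm1 hm hlev (hx1.mem i)).2, nrm_zero]
      · simp only [Sum.elim_inr]
        rw [(D.lev_nrm2 hm hlev (hx2.mem i)).2, nrm_zero]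
    have e3 : ∑ j, nrm (E m * w j) = 1 / 2 + B := by
      rw [Fintype.sum_sum_type, hwdef, hB]
      simp only [Sum.elim_inl, Sum.elim_inr, Finset.univ_unique, Finset.sum_singleton]
      rw [hnPh1, hPm]
    rw [e1, e2, e3] at hT
    have hcard : (Fintype.card (((Fin N1 ⊕ Fin N2) ⊕ (Fin N1 ⊕ Fin N2)) ⊕ (Unit ⊕ Fin d')) : ℝ) =
        2 * N1 + 2 * N2 + (d' + 1) := by
      simp only [Fintype.card_sum, Fintype.card_fin, Fintype.card_unit]
      push_cast
      ring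
    rw [hcard] at hT
    push_cast at hT ⊢
    rw [← hsdef] at hT
    nlinarith
  · rw [← hfin0, hsdef]
    refine le_trans (Submodule.finrank_mono ?_) D.finrank_ze
    exact fun x hx => D.Ld0_ze hx.2
  · exact hkeep
  · exact Finset.sum_nonneg fun j _ => nrm_nonneg _
  · -- the trace inequality
    have h1 : ∀ j, ∑ l, nrm (ad (w j) (w l)) ≤ 2 * s * nrm (E m * w j) - 2 * ‖(E m * w j).trace‖ ^ 2 := by
      intro j
      rw [hsdef]
      exact D.lev_trace hK hm hlev hJ hw (hw.mem j)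
    have h2 := Finset.sum_le_sum fun j (_ : j ∈ Finset.univ) => h1 j
    refine h2.trans ?_
    rw [Finset.sum_sub_distrib, ← Finset.mul_sum, ← Finset.mul_sum, Fintype.sum_sum_type, Fintype.sum_sum_type, hwdef]
    simp only [Sum.elim_inl, Sum.elim_inr, Finset.univ_unique, Finset.sum_singleton]
    have h3 : ‖(E m * ((r : ℂ) • h)).trace‖ ^ 2 = r ^ 2 * m ^ 2 * s * s := by
      rw [mul_smul_comm, Matrix.trace_smul, htPh, smul_eq_mul, norm_mul, norm_mul, Complex.norm_real, Complex.norm_real,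
        Complex.norm_natCast, Real.norm_eq_abs, Real.norm_eq_abs, mul_pow, mul_pow, sq_abs, sq_abs]
      ring
    have h4 : 0 ≤ ∑ j, ‖(E m * w' j).trace‖ ^ 2 := Finset.sum_nonneg fun j _ => by positivity
    rw [hnPh1, h3, hB, hPm]
    have h5 : r ^ 2 * m ^ 2 * s * s = s / 2 := by
      have : r ^ 2 * m ^ 2 * s * s = (2 * (r ^ 2 * m ^ 2) * s) * s / 2 := by ring
      rw [this, hrm, one_mul]
    rw [h5]
    linarith
  · rw [← hcv]
    push_cast at rel1 ⊢
    exact rel1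
  · intro h2
    rw [← rel2 h2, hcv, h2]
    push_cast
    ring
  · exact Finset.sum_nonneg fun j _ => Finset.sum_nonneg fun l _ => nrm_nonneg _
  · -- the commutative case
    intro hS0
    have z1 : ∀ j l, ad (w j) (w l) = 0 := by
      intro j l
      have h1 := (Finset.sum_eq_zero_iff_of_nonneg fun j _ =>
        Finset.sum_nonneg fun l _ => nrm_nonneg (ad (w j) (w l))).1 hS0 j (Finset.mem_univ j)
      have h2 := (Finset.sum_eq_zero_iff_of_nonneg fun l _ => nrm_nonneg (ad (w j) (w l))).1 h1 l (Finset.mem_univ l)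
      exact nrm_eq_zero h2
    have z2 : ∀ x ∈ J ⊓ Ld L h 0, ∀ y ∈ J ⊓ Ld L h 0, x * y = y * x := by
      intro x hx y hy
      have h1 : ad x y = 0 := by
        rw [hw.exp x hx, ad_sum_left]
        refine Finset.sum_eq_zero fun j _ => ?_
        rw [hw.exp y hy, map_sum]
        simp_rw [map_smul, z1, smul_zero]
        simp
      exact sub_eq_zero.1 h1
    have hst0 : ∀ a ∈ J ⊓ Ld L h 0, aᴴ ∈ J ⊓ Ld L h 0 := by
      intro a ha
      refine ⟨hJ.st _ ha.1, ?_⟩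
      have := D.Ld_star ha.2
      rwa [neg_zero] at this
    have hcomm : ∀ a ∈ J ⊓ Ld L h 0, E m * a = a * E m := fun a ha => D.Ld0_comm ha.2 m
    let A : Submodule ℂ (Matrix n n ℂ) := (J ⊓ Ld L h 0).map (LinearMap.mulLeft ℂ (E m))
    have hA : Module.finrank ℂ A ≤ (E m).rank := by
      refine comm_finrank hPP (S.star m) A ?_ ?_ ?_
      · rintro x hx
        obtain ⟨a, ha, rfl⟩ := Submodule.mem_map.1 hx
        rw [LinearMap.mulLeft_apply]
        refine ⟨by rw [← mul_assoc, hPP], ?_⟩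
        rw [hcomm a ha, mul_assoc, hPP]
      · rintro x hx
        obtain ⟨a, ha, rfl⟩ := Submodule.mem_map.1 hx
        refine Submodule.mem_map.2 ⟨aᴴ, hst0 a ha, ?_⟩
        rw [LinearMap.mulLeft_apply, LinearMap.mulLeft_apply, Matrix.conjTranspose_mul, S.star, hcomm _ (hst0 a ha)]
      · rintro x hx y hy
        obtain ⟨a, ha, rfl⟩ := Submodule.mem_map.1 hx
        obtain ⟨b, hb, rfl⟩ := Submodule.mem_map.1 hy
        rw [LinearMap.mulLeft_apply, LinearMap.mulLeft_apply]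
        have e1 : ∀ a ∈ J ⊓ Ld L h 0, ∀ b, E m * a * (E m * b) = E m * (a * b) := by
          intro a ha b
          rw [hcomm a ha, mul_assoc a, ← mul_assoc (E m) (E m), hPP, ← mul_assoc, ← hcomm a ha, mul_assoc]
        rw [e1 a ha, e1 b hb, z2 a ha b hb]
    let f : (J ⊓ Ld L h 0 : Submodule ℂ (Matrix n n ℂ)) →ₗ[ℂ] Matrix n n ℂ :=
      (LinearMap.mulLeft ℂ (E m)).comp (J ⊓ Ld L h 0).subtype
    have h1 := f.finrank_range_add_finrank_ker
    have h2 : LinearMap.range f = A := by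
      rw [LinearMap.range_comp, Submodule.range_subtype]
    have h3 : Module.finrank ℂ (LinearMap.ker f) ≤ Module.finrank ℂ (KK L E) := by
      have h4 : Module.finrank ℂ ((LinearMap.ker f).map (J ⊓ Ld L h 0).subtype) = Module.finrank ℂ (LinearMap.ker f) :=
        LinearEquiv.finrank_eq (Submodule.equivMapOfInjective _ (Submodule.subtype_injective _) _).symm
      rw [← h4]
      refine Submodule.finrank_mono ?_
      rintro y ⟨x, hx, rfl⟩
      rw [SetLike.mem_coe, LinearMap.mem_ker] at hx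
      exact D.mem_KK_of (D.Ld0_ze x.2.2) (by rw [hPm]; exact hx)
    rw [h2, hfin0] at h1
    rw [hsdef, hPm]
    omega
  · intro hB0
    have h1 : L0w J h L ≤ KK L E := by
      intro y hy
      rw [hw'.exp y hy]
      refine (KK L E).sum_mem fun j _ => (KK L E).smul_mem _ ?_
      have h1 : nrm (Pp E Λ * w' j) = 0 :=
        (Finset.sum_eq_zero_iff_of_nonneg fun j _ => nrm_nonneg (Pp E Λ * w' j)).1 hB0 j (Finset.mem_univ j)
      exact D.mem_KK_of (D.Ld0_ze (hw'.mem j).1.2) (nrm_eq_zero h1)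
    have h2 := Submodule.finrank_mono h1
    omega

/-- **The sharp bound in level two.** -/
theorem bound2 (D : Dat τ L h E Λ) (hK : Module.finrank ℂ (KK L E) ≤ 1) (hs2 : 2 ≤ (Pp E Λ).rank) (hm : 0 < m)
    (hlev : ∀ ν, ν ≠ m → ν ≠ 0 → ν ≠ -m → E ν = 0) : (E 0).rank ≤ (Pp E Λ).rank ^ 2 := by
  classical
  have hP0 : Pp E Λ ≠ 0 := by
    intro h1
    rw [h1, Matrix.rank_zero] at hs2
    omega
  obtain ⟨J, hJ, hy, hmin⟩ := D.exists_J (D.h_ne98 hP0)
  by_cases hh : h ∈ J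
  · obtain ⟨z, hz⟩ := exists_onb J
    have hbrJ : ∀ x ∈ J, ∀ y ∈ J, x * y - y * x ∈ J := fun x hx y hy => hJ.br x (hJ.le hx) y hy
    obtain ⟨c, hc⟩ := D.scal_J hJ hy hmin (cas z) (fun y hy => cas_mem hz hJ.st hbrJ hy)
      (fun x hx y hy => hz.cas_comm (fun u hu => hJ.br x hx u hu) (fun u hu => hJ.br _ (D.st x hx) u hu) y)
      (fun y _ => (cas_star z y).symm) (fun x _ y _ => cas_sa z x y)
    refine D.lev2 hK hs2 hm hlev hJ hh (c := c.re / 2) ?_
    intro κ i1 i2 w hw y hy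
    exact hz.cas_scalar hJ.st hc hw hy
  · have h1 := D.two_ideals hm hlev hJ hy hh
    rw [h1, sq]
    exact Nat.mul_le_mul_right _ hs2

end Dat

end MH
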