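import Pool.Agent.Helper21.MH.Main3
import Pool.Agent.Helper21.MH.Hodge2
import Pool.Agent.Helper21.MH.Lev
import Pool.Agent.Helper98.MH.Sml

/-!
Polarised rational Hodge structures of even weight with a dominating middle Hodge number: the Mumford-Tate
group contains the special orthogonal group of the polarisation. Sharp form for three Hodge numbers.
-/

set_option linter.unusedSectionVars false

open Matrix

namespace MH

variable {n : Type*} [Fintype n] [DecidableEq n]

section hodge

variable {m : ℤ} {Q : Matrix n n ℚ} {S : Finset ℤ} {P : ℤ → Matrix n n ℂ}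

/-- all matrices that are skew for the polarisation kill all Hodge tensors -/
theorem so_kills3 (H : IsHS m Q S P)
    (hEnd : ∀ A : Matrix n n ℚ, (∀ p, toC A * P p = P p * toC A) → ∃ c : ℚ, A = c • (1 : Matrix n n ℚ))
    (hs : 2 ≤ ∑ p ∈ S.filter (fun p => m < p), (P p).rank)
    (hb : (∃ c : ℤ, (∀ p, p ≠ m + c → p ≠ m → p ≠ m - c → P p = 0) ∧
        (∑ p ∈ S.filter (fun p => m < p), (P p).rank) ^ 2 < (P m).rank) ∨
      3 * (∑ p ∈ S.filter (fun p => m < p), (P p).rank) ^ 2 < 2 * (P m).rank)
    {X : Matrix n n ℂ} (hX : Xᵀ * toC Q + toC Q * X = 0) : X ∈ LH Q S P := by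
  classical
  obtain ⟨B, Bi, Qi, h1, h2, h3, h4, hM⟩ := H.exists_basis
  have D := dat_of H hEnd h1 h2 h3 h4 hM
  have hPP : ∀ p, P p * P p = P p := fun p => by rw [H.mul, if_pos rfl]
  have r1 : ∀ p : ℤ, (EE m S P B Bi ((p - m : ℤ) : ℝ)).rank = (P p).rank := fun p => by
    rw [EE_int H, rank_cj h1 h2 (hPP p)]
  have r0 : (EE m S P B Bi 0).rank = (P m).rank := by
    have := r1 m
    rwa [sub_self, Int.cast_zero] at this
  have rP : (Pp (EE m S P B Bi) (LamS m S)).rank = ∑ p ∈ S.filter (fun p => m < p), (P p).rank := by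
    have e1 : Pp (EE m S P B Bi) (LamS m S) * Pp (EE m S P B Bi) (LamS m S) = Pp (EE m S P B Bi) (LamS m S) :=
      D.spec.sum_mul_sum _
    have e2 := trace_eq_rank e1
    have e3 : Pp (EE m S P B Bi) (LamS m S) = ∑ p ∈ S.filter (fun p => m < p), cj B Bi (P p) := by
      unfold Pp LamS
      rw [Finset.sum_filter, Finset.sum_image (cast_inj m), Finset.sum_filter]
      refine Finset.sum_congr rfl fun p _ => ?_
      rw [EE_int H]
      have e4 : (0 : ℝ) < ((p - m : ℤ) : ℝ) ↔ m < p := by
        rw [← Int.cast_zero, Int.cast_lt]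
        omega
      simp only [e4]
    rw [e3, Matrix.trace_sum] at e2
    have e5 : ∀ p, (cj B Bi (P p)).trace = ((P p).rank : ℂ) := by
      intro p
      rw [trace_eq_rank (by rw [cj_mul h2, hPP]), rank_cj h1 h2 (hPP p)]
    simp_rw [e5] at e2
    rw [e3]
    exact_mod_cast e2.symm
  have hx : tau B Bi (toC Q) Qi (cj B Bi X) = -cj B Bi X := by
    rw [tau_apply, cj_cj h2, mul_assoc, eq_neg_of_add_eq_zero_left hX, mul_neg, ← mul_assoc, h4, one_mul, cj_neg]
  have hb1 : (Pp (EE m S P B Bi) (LamS m S)).rank ^ 2 < (EE m S P B Bi 0).rank := by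
    rw [rP, r0]
    rcases hb with ⟨c, -, hb⟩ | hb
    · exact hb
    · omega
  have hs1 : 2 ≤ (Pp (EE m S P B Bi) (LamS m S)).rank := by
    rw [rP]
    exact hs
  have hTP : TP (tau B Bi (toC Q) Qi) (LB Q S P B Bi) (EE m S P B Bi) := by
    rcases hb with ⟨c, hc, -⟩ | hb
    · -- the three Hodge numbers are in the degrees m + c, m, m - c
      have hc0 : c ≠ 0 := by
        rintro rfl
        have e1 : ∑ p ∈ S.filter (fun p => m < p), (P p).rank = 0 := by
          refine Finset.sum_eq_zero fun p hp => ?_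
          have := (Finset.mem_filter.1 hp).2
          rw [hc p (by omega) (by omega) (by omega), Matrix.rank_zero]
        omega
      obtain ⟨d, hd, hdP⟩ : ∃ d : ℤ, 0 < d ∧ ∀ p, p ≠ m + d → p ≠ m → p ≠ m - d → P p = 0 := by
        rcases lt_or_gt_of_ne hc0 with h | h
        · exact ⟨-c, by omega, fun p h1 h2 h3 => hc p (by omega) h2 (by omega)⟩
        · exact ⟨c, h, hc⟩
      have hd' : (0 : ℝ) < (d : ℝ) := by exact_mod_cast hd
      have hlev : ∀ ν : ℝ, ν ≠ (d : ℝ) → ν ≠ 0 → ν ≠ -(d : ℝ) → EE m S P B Bi ν = 0 := by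
        intro ν n1 n2 n3
        by_cases hν : ∃ p ∈ S, ((p - m : ℤ) : ℝ) = ν
        · obtain ⟨p, hp, rfl⟩ := hν
          rw [EE_int H, hdP p, cj_zero]
          · rintro rfl
            apply n1
            push_cast
            ring
          · rintro rfl
            apply n2
            simp
          · rintro rfl
            apply n3
            push_cast
            ring
        · push Not at hν
          exact EE_other B Bi hν
      refine D.units2 (G := Biᵀ * toC Q * Bi) (Gi := B * Qi * Bᵀ) ?_ ?_ ?_ hd' hlev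
        (fun hK => D.bound2 hK hs1 hd' hlev) hs1 hb1
      · have e1 : Bᵀ * Biᵀ = 1 := by rw [← Matrix.transpose_mul, h2, Matrix.transpose_one]
        calc B * Qi * Bᵀ * (Biᵀ * toC Q * Bi) = B * Qi * (Bᵀ * Biᵀ) * toC Q * Bi := by simp only [mul_assoc]
          _ = B * (Qi * toC Q) * Bi := by rw [e1, mul_one]; simp only [mul_assoc]
          _ = 1 := by rw [h4, mul_one, h1]
      · rw [Matrix.transpose_mul, Matrix.transpose_mul, Matrix.transpose_transpose, H.Q_symm, mul_assoc]
      · intro x
        rw [tau_apply]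
        unfold cj
        rw [Matrix.transpose_mul, Matrix.transpose_mul]
        simp only [mul_assoc]
    · exact D.units hs1 (by rw [rP, r0]; exact hb)
  have hmem : cj B Bi X ∈ LB Q S P B Bi := by
    refine D.main_core hs1 hb1 hTP ?_ hx
    · intro T hT
      have hdes := descent (h₀ := ∑ p ∈ S, ((p - m : ℤ) : ℂ) • P p) (T := cj Bi B T) (by
        intro A hA
        refine hEnd A ?_
        exact comm_of_comm H hA) (by
        intro σ
        have h5 := hT (cj B Bi ((∑ p ∈ S, ((p - m : ℤ) : ℂ) • P p).map σ))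
          (by
            rw [mem_LB, cj_cj h2]
            exact LH_aut σ H.h0_mem)
          (EE m S (fun p => (P p).map σ) B Bi) (sd_aut H h1 h2 σ) (by
            intro μ
            by_cases hμ : ∃ p ∈ S, ((p - m : ℤ) : ℝ) = μ
            · obtain ⟨p, hp, rfl⟩ := hμ
              have e1 : EE m S (fun p => (P p).map σ) B Bi ((p - m : ℤ) : ℝ) = cj B Bi ((P p).map σ) := by
                unfold EE
                rw [Finset.sum_eq_single p]
                · intro q hq hqp
                  exfalso
                  apply hqp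
                  have h1 : ((q - m : ℤ) : ℝ) = ((p - m : ℤ) : ℝ) := (Finset.mem_filter.1 hq).2
                  have h2 : q - m = p - m := by exact_mod_cast h1
                  omega
                · intro h
                  exact (h (Finset.mem_filter.2 ⟨hp, rfl⟩)).elim
              have e2 : (P p).map σ * (P p).map σ = (P p).map σ := by
                have := congrArg (fun Y : Matrix n n ℂ => Y.map (σ : ℂ →+* ℂ)) (hPP p)
                rw [Matrix.map_mul] at this
                exact this
              rw [e1, r1, rank_cj h1 h2 e2, rank_aut σ (hPP p)]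
            · push Not at hμ
              rw [EE_other B Bi hμ, EE_other B Bi hμ])
        have h6 := congrArg (cj Bi B) h5
        rw [← cj_mul h1, ← cj_mul h1, cj_cj h2] at h6
        exact h6)
      obtain ⟨c, hc⟩ := hdes
      refine ⟨c, ?_⟩
      have h8 := congrArg (cj B Bi) hc
      rw [cj_cj h1, cj_smul, cj_one h1] at h8
      exact h8
  rw [mem_LB, cj_cj h2] at hmem
  exact hmem

/-- The special orthogonal group of the polarisation lies in the Mumford-Tate group. -/
theorem so_le_MT3 (H : IsHS m Q S P)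
    (hEnd : ∀ A : Matrix n n ℚ, (∀ p, toC A * P p = P p * toC A) → ∃ c : ℚ, A = c • (1 : Matrix n n ℚ))
    (hs : 2 ≤ ∑ p ∈ S.filter (fun p => m < p), (P p).rank)
    (hb : (∃ c : ℤ, (∀ p, p ≠ m + c → p ≠ m → p ≠ m - c → P p = 0) ∧
        (∑ p ∈ S.filter (fun p => m < p), (P p).rank) ^ 2 < (P m).rank) ∨
      3 * (∑ p ∈ S.filter (fun p => m < p), (P p).rank) ^ 2 < 2 * (P m).rank)
    {g : GL n ℂ} (h1 : (g : Matrix n n ℂ)ᵀ * toC Q * (g : Matrix n n ℂ) = toC Q)
    (h2 : (g : Matrix n n ℂ).det = 1) : g ∈ MT S P :=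
  so_le_MT_of H (fun _ hX => so_kills3 H hEnd hs hb hX) h1 h2

end hodge

end MH
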