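import Pool.Agent.Helper21.MH.HS
import Pool.Agent.Helper98.MH.Basic

/-!
The Lie algebra of the matrices that are skew for the polarisation and kill all Hodge tensors: closed under
brackets, complex conjugation, conjugation by the Weil operator, rational, contains `∑ (p - m) P p`, and its
commutant consists of scalars if the Hodge structure has only rational endomorphisms.
-/

set_option linter.unusedSectionVars false

open Matrix

namespace MH

variable {n : Type*} [Fintype n] [DecidableEq n]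

/-- the matrices that are skew for `Q` and kill all Hodge tensors -/
noncomputable def LH (Q : Matrix n n ℚ) (S : Finset ℤ) (P : ℤ → Matrix n n ℂ) : Submodule ℂ (Matrix n n ℂ) where
  carrier := {X | Xᵀ * toC Q + toC Q * X = 0 ∧ ∀ a b t, IsHodgeTensor S P a b t → dL a b (tC t) X = 0}
  add_mem' := by
    rintro X Y ⟨h1, h2⟩ ⟨h3, h4⟩
    refine ⟨?_, fun a b t ht => by rw [map_add, h2 a b t ht, h4 a b t ht, add_zero]⟩
    rw [Matrix.transpose_add, add_mul, mul_add]
    calc Xᵀ * toC Q + Yᵀ * toC Q + (toC Q * X + toC Q * Y)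
        = (Xᵀ * toC Q + toC Q * X) + (Yᵀ * toC Q + toC Q * Y) := by abel
      _ = 0 := by rw [h1, h3, add_zero]
  zero_mem' := ⟨by simp, fun a b t _ => map_zero _⟩
  smul_mem' := by
    rintro c X ⟨h1, h2⟩
    refine ⟨?_, fun a b t ht => by rw [map_smul, h2 a b t ht, smul_zero]⟩
    rw [Matrix.transpose_smul, smul_mul_assoc, mul_smul_comm, ← smul_add, h1, smul_zero]

variable {m : ℤ} {Q : Matrix n n ℚ} {S : Finset ℤ} {P : ℤ → Matrix n n ℂ}

theorem LH_br {X Y : Matrix n n ℂ} (hX : X ∈ LH Q S P) (hY : Y ∈ LH Q S P) : X * Y - Y * X ∈ LH Q S P := by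
  obtain ⟨h1, h2⟩ := hX
  obtain ⟨h3, h4⟩ := hY
  refine ⟨?_, fun a b t ht => ?_⟩
  · have e1 : Xᵀ * toC Q = -(toC Q * X) := eq_neg_of_add_eq_zero_left h1
    have e2 : Yᵀ * toC Q = -(toC Q * Y) := eq_neg_of_add_eq_zero_left h3
    rw [Matrix.transpose_sub, Matrix.transpose_mul, Matrix.transpose_mul, sub_mul, mul_assoc, mul_assoc, e1, e2,
      mul_neg, mul_neg, ← mul_assoc, ← mul_assoc, e1, e2]
    noncomm_ring
  · rw [dL_bracket, h2 a b t ht, h4 a b t ht, dact_zero, dact_zero, sub_zero]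

theorem tC_conj {ι : Type*} (t : ι → ℚ) (i : ι) : starRingEnd ℂ (tC t i) = tC t i := by
  simp [tC]

theorem toC_conj (A : Matrix n n ℚ) : (toC A).map (starRingEnd ℂ) = toC A := by
  ext i j
  simp [toC]

theorem dL_conjC {a b : ℕ} {t : (Fin a ⊕ Fin b → n) → ℚ} {X : Matrix n n ℂ} (h : dL a b (tC t) X = 0) :
    dL a b (tC t) (X.map (starRingEnd ℂ)) = 0 := by
  rw [dL_apply] at h ⊢
  funext i
  have h1 := dact_map (starRingEnd ℂ) (lslot a b X) (tC t) i
  rw [h, Pi.zero_apply, map_zero] at h1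
  rw [Pi.zero_apply, ← h1]
  have e1 : (fun j => starRingEnd ℂ (tC t j)) = tC t := funext fun j => tC_conj t j
  rw [e1]
  congr 1
  funext k
  rcases k with k | k
  · rfl
  · simp only [lslot, Sum.elim_inr]
    ext x y
    simp

theorem LH_conj {X : Matrix n n ℂ} (hX : X ∈ LH Q S P) : X.map (starRingEnd ℂ) ∈ LH Q S P := by
  obtain ⟨h1, h2⟩ := hX
  refine ⟨?_, fun a b t ht => dL_conjC (h2 a b t ht)⟩
  have h3 := congrArg (fun Y : Matrix n n ℂ => Y.map (starRingEnd ℂ)) h1
  rw [Matrix.map_add _ (map_add _), Matrix.map_mul, Matrix.map_mul, toC_conj, Matrix.map_zero _ (map_zero _)] at h3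
  exact h3

theorem LH_mapQ {X : Matrix n n ℂ} (hX : X ∈ LH Q S P) (π : ℂ →ₗ[ℚ] ℚ) : toC (mapQ π X) ∈ LH Q S P := by
  obtain ⟨h1, h2⟩ := hX
  refine ⟨?_, fun a b t ht => dL_mapQ a b t (h2 a b t ht) π⟩
  have h3 := congrArg (mapQ π) h1
  rw [mapQ_add, mapQ_mul_right, mapQ_mul_left, mapQ_transpose, mapQ_zero] at h3
  rw [← toC_transpose, ← toC_mul, ← toC_mul, ← toC_add, h3, toC_zero]

namespace IsHS

variable (H : IsHS m Q S P)
include H

theorem idm : Idm S P := ⟨H.mul, H.sum⟩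

/-- two matrices that agree on all the pieces are equal -/
theorem ext_right {X Y : Matrix n n ℂ} (h : ∀ p ∈ S, X * P p = Y * P p) : X = Y := by
  have h1 : X = X * ∑ p ∈ S, P p := by rw [H.sum, mul_one]
  have h2 : Y = Y * ∑ p ∈ S, P p := by rw [H.sum, mul_one]
  rw [h1, h2, Finset.mul_sum, Finset.mul_sum]
  exact Finset.sum_congr rfl h

theorem sum_mul_P (c : ℤ → ℂ) (q : ℤ) : (∑ p ∈ S, c p • P p) * P q = c q • P q := by
  rw [Finset.sum_mul]
  by_cases hq : q ∈ S
  · rw [Finset.sum_eq_single q]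
    · rw [smul_mul_assoc, H.mul, if_pos rfl]
    · intro p _ hp
      rw [smul_mul_assoc, H.mul, if_neg hp, smul_zero]
    · intro h
      exact absurd hq h
  · rw [H.supp q hq]
    simp

theorem P_mul_sum (c : ℤ → ℂ) (q : ℤ) : P q * (∑ p ∈ S, c p • P p) = c q • P q := by
  rw [Finset.mul_sum]
  by_cases hq : q ∈ S
  · rw [Finset.sum_eq_single q]
    · rw [mul_smul_comm, H.mul, if_pos rfl]
    · intro p _ hp
      rw [mul_smul_comm, H.mul, if_neg (Ne.symm hp), smul_zero]
    · intro h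
      exact absurd hq h
  · rw [H.supp q hq]
    simp

theorem P_ne (p : ℤ) (hp : 2 * m - p ∉ S) : P p = 0 := by
  have h1 := H.conj (2 * m - p)
  rw [H.supp _ hp, sub_sub_cancel, Matrix.map_zero _ (map_zero _)] at h1
  exact h1.symm

theorem reflect (c : ℤ → ℂ) : ∑ p ∈ S, c p • P (2 * m - p) = ∑ p ∈ S, c (2 * m - p) • P p := by
  refine H.ext_right fun q hq => ?_
  rw [H.sum_mul_P, Finset.sum_mul]
  by_cases h1 : 2 * m - q ∈ S
  · rw [Finset.sum_eq_single (2 * m - q)]
    · rw [sub_sub_cancel, smul_mul_assoc, H.mul, if_pos rfl]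
    · intro p _ hp
      rw [smul_mul_assoc, H.mul, if_neg, smul_zero]
      intro h2
      exact hp (by omega)
    · intro h
      exact absurd h1 h
  · rw [H.P_ne q h1]
    simp

theorem transpose_mul_Q (p : ℤ) : (P p)ᵀ * toC Q = toC Q * P (2 * m - p) := by
  have h1 : (P p)ᵀ * toC Q = (P p)ᵀ * toC Q * P (2 * m - p) := by
    refine H.ext_right fun q _ => ?_
    rw [mul_assoc _ (P (2 * m - p)), H.mul]
    by_cases h2 : 2 * m - p = q
    · rw [if_pos h2, h2]
    · rw [if_neg h2, mul_zero, H.orth p q (by omega)]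
  have h3 : toC Q * P (2 * m - p) = (P p)ᵀ * toC Q * P (2 * m - p) := by
    have h4 : (∑ q ∈ S, P q)ᵀ * (toC Q * P (2 * m - p)) = toC Q * P (2 * m - p) := by
      rw [H.sum, Matrix.transpose_one, one_mul]
    rw [← h4, Matrix.transpose_sum, Finset.sum_mul]
    by_cases hp : p ∈ S
    · rw [Finset.sum_eq_single p]
      · rw [← mul_assoc]
      · intro q _ hq
        rw [← mul_assoc, H.orth q (2 * m - p) (by omega)]
      · intro h
        exact absurd hp h
    · rw [H.supp p hp]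
      have h5 : P (2 * m - p) = 0 := by
        apply H.P_ne
        rw [sub_sub_cancel]
        exact hp
      rw [h5]
      simp
  rw [h3, ← h1]

theorem sum_transpose_mul_Q (c : ℤ → ℂ) : (∑ p ∈ S, c p • P p)ᵀ * toC Q = toC Q * ∑ p ∈ S, c (2 * m - p) • P p := by
  rw [← H.reflect, Matrix.transpose_sum, Finset.sum_mul, Finset.mul_sum]
  refine Finset.sum_congr rfl fun p _ => ?_
  rw [Matrix.transpose_smul, smul_mul_assoc, H.transpose_mul_Q, mul_smul_comm]

theorem sum_conj (c : ℤ → ℂ) : (∑ p ∈ S, c p • P p).map (starRingEnd ℂ) =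
    ∑ p ∈ S, starRingEnd ℂ (c (2 * m - p)) • P p := by
  rw [← H.reflect (fun p => starRingEnd ℂ (c p))]
  ext i j
  simp only [Matrix.map_apply, Matrix.sum_apply, Matrix.smul_apply, smul_eq_mul, map_sum, map_mul]
  refine Finset.sum_congr rfl fun p _ => ?_
  rw [← H.conj p, Matrix.map_apply]

/-- the element `∑ (p - m) P p` -/
theorem h0_mem : (∑ p ∈ S, ((p - m : ℤ) : ℂ) • P p) ∈ LH Q S P := by
  refine ⟨?_, fun a b t ht => ?_⟩
  · rw [H.sum_transpose_mul_Q (fun p => ((p - m : ℤ) : ℂ)), ← mul_add, ← Finset.sum_add_distrib, Finset.sum_eq_zero,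
      mul_zero]
    intro p _
    rw [← add_smul]
    have : (((2 * m - p - m : ℤ) : ℂ)) + ((p - m : ℤ) : ℂ) = 0 := by push_cast; ring
    rw [this, zero_smul]
  · have h1 : dL a b (tC t) (∑ p ∈ S, (p : ℂ) • P p) = 0 := (H.idm.inv_iff a b (tC t)).1 ht
    have h2 := dL_conjC h1
    rw [H.sum_conj (fun p => (p : ℂ))] at h2
    have e1 : ∑ p ∈ S, starRingEnd ℂ (((2 * m - p : ℤ) : ℂ)) • P p =
        (2 * m : ℂ) • (1 : Matrix n n ℂ) - ∑ p ∈ S, (p : ℂ) • P p := by
      rw [← H.sum, Finset.smul_sum, ← Finset.sum_sub_distrib]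
      refine Finset.sum_congr rfl fun p _ => ?_
      rw [← sub_smul, map_intCast]
      congr 1
      push_cast
      ring
    rw [e1, map_sub, h1, sub_zero, map_smul] at h2
    have e2 : ∑ p ∈ S, ((p - m : ℤ) : ℂ) • P p = ∑ p ∈ S, (p : ℂ) • P p - (m : ℂ) • (1 : Matrix n n ℂ) := by
      rw [← H.sum, Finset.smul_sum, ← Finset.sum_sub_distrib]
      refine Finset.sum_congr rfl fun p _ => ?_
      rw [← sub_smul]
      congr 1
      simp
    rw [e2, map_sub, h1, zero_sub, map_smul, neg_eq_zero]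
    have e3 : (m : ℂ) • dL a b (tC t) 1 = (2 : ℂ)⁻¹ • ((2 * m : ℂ) • dL a b (tC t) 1) := by
      rw [smul_smul]
      congr 1
      field_simp
    rw [e3, h2, smul_zero]

/-- the Weil operator up to sign -/
theorem weil_mul : (∑ p ∈ S, ((-1 : ℂ) ^ p) • P p) * (∑ p ∈ S, ((-1 : ℂ) ^ p) • P p) = 1 := by
  refine H.ext_right fun q _ => ?_
  rw [mul_assoc, H.sum_mul_P (fun p => (-1 : ℂ) ^ p), mul_smul_comm, H.sum_mul_P (fun p => (-1 : ℂ) ^ p), smul_smul,
    ← mul_zpow, neg_mul_neg, one_mul, _root_.one_zpow, one_smul, one_mul]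

theorem weil_Q : (∑ p ∈ S, ((-1 : ℂ) ^ p) • P p)ᵀ * toC Q = toC Q * ∑ p ∈ S, ((-1 : ℂ) ^ p) • P p := by
  rw [H.sum_transpose_mul_Q (fun p => (-1 : ℂ) ^ p)]
  congr 1
  refine Finset.sum_congr rfl fun p _ => ?_
  congr 1
  have h1 : ∀ k : ℤ, (-1 : ℂ) ^ k * (-1) ^ k = 1 := fun k => by
    rw [← mul_zpow, neg_mul_neg, one_mul, _root_.one_zpow]
  rw [zpow_sub₀ (by norm_num), two_mul, zpow_add₀ (by norm_num), h1 m, one_div]
  exact inv_eq_of_mul_eq_one_left (h1 p)

theorem LH_weil {X : Matrix n n ℂ} (hX : X ∈ LH Q S P) :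
    (∑ p ∈ S, ((-1 : ℂ) ^ p) • P p) * X * (∑ p ∈ S, ((-1 : ℂ) ^ p) • P p) ∈ LH Q S P := by
  set C := ∑ p ∈ S, ((-1 : ℂ) ^ p) • P p with hC
  have hCC : C * C = 1 := H.weil_mul
  have hCQ : Cᵀ * toC Q = toC Q * C := H.weil_Q
  obtain ⟨h1, h2⟩ := hX
  refine ⟨?_, fun a b t ht => ?_⟩
  · have e1 : Xᵀ * toC Q = -(toC Q * X) := eq_neg_of_add_eq_zero_left h1
    have e2 : (C * X * C)ᵀ * toC Q = -(toC Q * (C * X * C)) := by
      rw [Matrix.transpose_mul, Matrix.transpose_mul, mul_assoc, mul_assoc, hCQ, ← mul_assoc Xᵀ, e1, neg_mul, mul_neg,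
        ← mul_assoc Cᵀ, ← mul_assoc Cᵀ, hCQ]
      simp only [mul_assoc]
    rw [e2, neg_add_cancel]
  · have h3 := ht (-1) (by norm_num)
    have h4 : cochar S P (-1) = C := rfl
    have h5 : cochar S P (-1)⁻¹ = C := by
      rw [hC]
      unfold cochar
      norm_num
    rw [h4, h5] at h3
    rw [dL_conj a b (tC t) X C C hCC h3, h2 a b t ht, actF_zero]

/-- the commutant -/
theorem LH_irr (hEnd : ∀ A : Matrix n n ℚ, (∀ p, toC A * P p = P p * toC A) → ∃ c : ℚ, A = c • (1 : Matrix n n ℚ))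
    {T : Matrix n n ℂ} (hT : ∀ x ∈ LH Q S P, T * x = x * T) : ∃ c : ℂ, T = c • (1 : Matrix n n ℂ) := by
  -- rational pieces commute with L
  have h1 : ∀ π : ℂ →ₗ[ℚ] ℚ, ∀ x ∈ LH Q S P, toC (mapQ π T) * x = x * toC (mapQ π T) := by
    intro π x hx
    obtain ⟨ι, s, c, ρ, hρ⟩ := exists_combination x
    rw [hρ, Finset.mul_sum, Finset.sum_mul]
    refine Finset.sum_congr rfl fun k _ => ?_
    rw [mul_smul_comm, smul_mul_assoc]
    congr 1
    have h2 := hT _ (LH_mapQ hx (ρ k))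
    have h3 := congrArg (mapQ π) h2
    rw [mapQ_mul_right, mapQ_mul_left] at h3
    rw [← toC_mul, ← toC_mul, h3]
  have h2 : ∀ π : ℂ →ₗ[ℚ] ℚ, ∃ c : ℚ, mapQ π T = c • (1 : Matrix n n ℚ) := by
    intro π
    refine hEnd _ fun p => ?_
    set A := toC (mapQ π T) with hA
    have h3 := h1 π _ H.h0_mem
    have hoff : ∀ p q, p ≠ q → P p * A * P q = 0 := by
      intro p q hpq
      have e1 : P p * (A * ∑ p ∈ S, ((p - m : ℤ) : ℂ) • P p) * P q = ((q - m : ℤ) : ℂ) • (P p * A * P q) := by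
        rw [← mul_assoc, mul_assoc (P p * A), H.sum_mul_P (fun p => ((p - m : ℤ) : ℂ)), mul_smul_comm]
      have e2 : P p * ((∑ p ∈ S, ((p - m : ℤ) : ℂ) • P p) * A) * P q = ((p - m : ℤ) : ℂ) • (P p * A * P q) := by
        rw [← mul_assoc, H.P_mul_sum (fun p => ((p - m : ℤ) : ℂ)), smul_mul_assoc, smul_mul_assoc]
      rw [h3, e2] at e1
      have e3 : (((p - m : ℤ) : ℂ) - ((q - m : ℤ) : ℂ)) • (P p * A * P q) = 0 := by
        rw [sub_smul, e1, sub_self]
      rcases smul_eq_zero.1 e3 with e4 | e4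
      · exfalso
        apply hpq
        have e5 : (((p - q : ℤ)) : ℂ) = 0 := by
          rw [← e4]
          push_cast
          ring
        have e6 : p - q = 0 := by exact_mod_cast e5
        omega
      · exact e4
    have l1 : A * P p = P p * A * P p := by
      have e1 : A * P p = (∑ q ∈ S, P q) * (A * P p) := by rw [H.sum, one_mul]
      rw [e1, Finset.sum_mul]
      by_cases hp : p ∈ S
      · rw [Finset.sum_eq_single p]
        · rw [mul_assoc]
        · intro q _ hq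
          rw [← mul_assoc, hoff q p hq]
        · intro h
          exact absurd hp h
      · rw [H.supp p hp]
        simp
    have l2 : P p * A = P p * A * P p := by
      have e1 : P p * A = P p * A * ∑ q ∈ S, P q := by rw [H.sum, mul_one]
      conv_lhs => rw [e1]
      rw [Finset.mul_sum]
      by_cases hp : p ∈ S
      · rw [Finset.sum_eq_single p]
        · intro q _ hq
          rw [hoff p q (Ne.symm hq)]
        · intro h
          exact absurd hp h
      · rw [H.supp p hp]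
        simp
    exact l1.trans l2.symm
  choose c hc using h2
  obtain ⟨ι, s, d, ρ, hρ⟩ := exists_combination T
  refine ⟨∑ k ∈ s, d k * (c (ρ k) : ℂ), ?_⟩
  conv_lhs => rw [hρ]
  rw [Finset.sum_smul]
  refine Finset.sum_congr rfl fun k _ => ?_
  rw [hc, mul_smul]
  congr 1
  ext i j
  by_cases hij : i = j
  · simp [toC, hij]
  · simp [toC, hij]

end IsHS

end MH
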