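import Pool.Agent.Helper21.MH.Lev0

/-!
The Casimir operator of an ideal.
-/

open Matrix

namespace MH
variable {n : Type*} [Fintype n] [DecidableEq n]

theorem ad_add_left (u v w : Matrix n n ℂ) : ad (u + v) w = ad u w + ad v w := by
  rw [ad_anti, map_add, neg_add, ← ad_anti, ← ad_anti]

theorem ad_neg_left (u w : Matrix n n ℂ) : ad (-u) w = -ad u w := by
  rw [ad_anti, map_neg, neg_neg, ad_anti u, neg_neg]

theorem ad_smul_left (c : ℂ) (u w : Matrix n n ℂ) : ad (c • u) w = c • ad u w := by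
  rw [ad_anti, map_smul, ad_anti u, smul_neg]

theorem ad_sum_left {κ : Type*} (s : Finset κ) (c : κ → ℂ) (u : κ → Matrix n n ℂ) (w : Matrix n n ℂ) :
    ad (∑ b ∈ s, c b • u b) w = ∑ b ∈ s, c b • ad (u b) w := by
  rw [ad_anti, map_sum, ← Finset.sum_neg_distrib]
  refine Finset.sum_congr rfl fun b _ => ?_
  rw [map_smul, ad_anti (u b), smul_neg]

theorem ad_jacobi (x u w : Matrix n n ℂ) : ad x (ad u w) = ad (ad x u) w + ad u (ad x w) := by
  simp only [ad_apply]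
  noncomm_ring

section cas

variable {ι κ : Type*} [Fintype ι] [DecidableEq ι] [Fintype κ] [DecidableEq κ]
variable {J L : Submodule ℂ (Matrix n n ℂ)} {z : ι → Matrix n n ℂ}

theorem ONB.balance {M : Type*} [AddCommGroup M] [Module ℂ M] (hz : ONB J z) {x : Matrix n n ℂ}
    (h1 : ∀ y ∈ J, ad x y ∈ J) (h2 : ∀ y ∈ J, ad xᴴ y ∈ J) (B : Matrix n n ℂ → Matrix n n ℂ → M)
    (hB1 : ∀ (c : ι → ℂ) (v : Matrix n n ℂ), B (∑ b, c b • z b) v = ∑ b, c b • B (z b) v)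
    (hB2 : ∀ (c : ι → ℂ) (v : Matrix n n ℂ), B v (∑ b, c b • z b) = ∑ b, star (c b) • B v (z b)) :
    ∑ a, B (ad x (z a)) (z a) = ∑ a, B (z a) (ad xᴴ (z a)) := by
  have e1 : ∀ a, B (ad x (z a)) (z a) = ∑ b, hs (z b) (ad x (z a)) • B (z b) (z a) := by
    intro a
    conv_lhs => rw [hz.exp _ (h1 _ (hz.mem a))]
    rw [hB1]
  have e2 : ∀ b, B (z b) (ad xᴴ (z b)) = ∑ a, hs (z b) (ad x (z a)) • B (z b) (z a) := by
    intro b
    conv_lhs => rw [hz.exp _ (h2 _ (hz.mem b))]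
    rw [hB2]
    refine Finset.sum_congr rfl fun a _ => ?_
    rw [hs_conj, hs_ad (z b)]
  simp_rw [e1, e2]
  exact Finset.sum_comm

theorem ONB.casimir_ideal (hz : ONB J z) {x : Matrix n n ℂ} (h1 : ∀ y ∈ J, ad x y ∈ J) (h2 : ∀ y ∈ J, ad xᴴ y ∈ J) :
    (∑ a, z a * (z a)ᴴ) * x = x * ∑ a, z a * (z a)ᴴ := by
  have h3 := hz.balance h1 h2 (fun u v => u * vᴴ)
    (fun c v => by rw [Finset.sum_mul]; exact Finset.sum_congr rfl fun b _ => smul_mul_assoc _ _ _)
    (fun c v => by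
      rw [Matrix.conjTranspose_sum, Finset.mul_sum]
      exact Finset.sum_congr rfl fun b _ => by rw [Matrix.conjTranspose_smul, mul_smul_comm])
  have h4 : x * (∑ a, z a * (z a)ᴴ) - (∑ a, z a * (z a)ᴴ) * x =
      ∑ a, (ad x (z a) * (z a)ᴴ - z a * (ad xᴴ (z a))ᴴ) := by
    rw [Finset.mul_sum, Finset.sum_mul, ← Finset.sum_sub_distrib]
    refine Finset.sum_congr rfl fun a _ => ?_
    rw [ad_star, Matrix.conjTranspose_conjTranspose, ad_apply, ad_apply]
    noncomm_ring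
  rw [Finset.sum_sub_distrib] at h4
  have h5 : ∑ a, ad x (z a) * (z a)ᴴ = ∑ a, z a * (ad xᴴ (z a))ᴴ := h3
  rw [h5, sub_self] at h4
  exact (sub_eq_zero.1 h4).symm

theorem ONB.trace_ideal (hz : ONB J z) (hJ : ∀ x ∈ L, ∀ y ∈ J, x * y - y * x ∈ J) (st : ∀ x ∈ L, xᴴ ∈ L)
    (irr : ∀ T : Matrix n n ℂ, (∀ x ∈ L, T * x = x * T) → ∃ c : ℂ, T = c • (1 : Matrix n n ℂ))
    {P : Matrix n n ℂ} (h1 : P * P = P) (h2 : Pᴴ = P) {s : ℕ} (h3 : P.trace = s) :
    (Fintype.card n : ℝ) * ∑ a, nrm (P * z a) = Fintype.card ι * s := by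
  obtain ⟨c, hc⟩ := irr _ fun y hy => hz.casimir_ideal (fun u hu => hJ y hy u hu) (fun u hu => hJ _ (st y hy) u hu)
  have e1 : c * Fintype.card n = Fintype.card ι := by
    have h4 := congrArg Matrix.trace hc
    rw [Matrix.trace_sum, Matrix.trace_smul, Matrix.trace_one, smul_eq_mul] at h4
    rw [← h4]
    have h5 : ∀ a, (z a * (z a)ᴴ).trace = 1 := by
      intro a
      rw [Matrix.trace_mul_comm]
      have := hz.orth a a
      rw [if_pos rfl] at this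
      exact this
    simp_rw [h5]
    simp
  have e2 : c * s = ((∑ a, nrm (P * z a) : ℝ) : ℂ) := by
    rw [Complex.ofReal_sum]
    simp_rw [nrm_proj h1 h2]
    rw [← Matrix.trace_sum, ← Finset.mul_sum, hc, mul_smul_comm, mul_one, Matrix.trace_smul, h3, smul_eq_mul]
  have e3 : ((((Fintype.card n : ℝ) * ∑ a, nrm (P * z a) : ℝ)) : ℂ) = ((Fintype.card ι * s : ℝ) : ℂ) := by
    rw [Complex.ofReal_mul, ← e2, Complex.ofReal_mul]
    simp only [Complex.ofReal_natCast]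
    rw [← e1]
    ring
  exact_mod_cast e3

omit [DecidableEq ι] in
/-- the Casimir operator -/
noncomputable def cas (z : ι → Matrix n n ℂ) : Matrix n n ℂ →ₗ[ℂ] Matrix n n ℂ :=
  ∑ a, ((ad (z a)).comp (ad (z a)ᴴ) + (ad (z a)ᴴ).comp (ad (z a)))

omit [DecidableEq ι] in
theorem cas_apply (z : ι → Matrix n n ℂ) (y : Matrix n n ℂ) :
    cas z y = ∑ a, (ad (z a) (ad (z a)ᴴ y) + ad (z a)ᴴ (ad (z a) y)) := by
  unfold cas
  rw [LinearMap.sum_apply]
  rfl

omit [DecidableEq ι] in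
theorem cas_star (z : ι → Matrix n n ℂ) (y : Matrix n n ℂ) : (cas z y)ᴴ = cas z yᴴ := by
  rw [cas_apply, cas_apply, Matrix.conjTranspose_sum]
  refine Finset.sum_congr rfl fun a _ => ?_
  rw [Matrix.conjTranspose_add, ad_star, ad_star, ad_star, ad_star, Matrix.conjTranspose_conjTranspose, map_neg,
    map_neg, neg_neg, neg_neg, add_comm]

omit [DecidableEq ι] in
theorem cas_sa (z : ι → Matrix n n ℂ) (x y : Matrix n n ℂ) : hs x (cas z y) = hs (cas z x) y := by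
  rw [cas_apply, cas_apply, hs_sum_right, hs_sum_left]
  refine Finset.sum_congr rfl fun a _ => ?_
  rw [hs_add_right, hs_add_left, hs_ad, hs_ad, hs_ad, hs_ad, Matrix.conjTranspose_conjTranspose]

omit [DecidableEq ι] in
theorem cas_self (z : ι → Matrix n n ℂ) (y : Matrix n n ℂ) :
    hs y (cas z y) = ((∑ a, (nrm (ad (z a)ᴴ y) + nrm (ad (z a) y)) : ℝ) : ℂ) := by
  rw [cas_apply, hs_sum_right, Complex.ofReal_sum]
  refine Finset.sum_congr rfl fun a _ => ?_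
  rw [hs_add_right, hs_ad, hs_ad y, Matrix.conjTranspose_conjTranspose, hs_self, hs_self, Complex.ofReal_add]

theorem cas_mem (hz : ONB J z) (hst : ∀ x ∈ J, xᴴ ∈ J) (hbr : ∀ x ∈ J, ∀ y ∈ J, x * y - y * x ∈ J)
    {y : Matrix n n ℂ} (hy : y ∈ J) : cas z y ∈ J := by
  rw [cas_apply]
  refine J.sum_mem fun a _ => J.add_mem ?_ ?_
  · exact hbr _ (hz.mem a) _ (hbr _ (hst _ (hz.mem a)) _ hy)
  · exact hbr _ (hst _ (hz.mem a)) _ (hbr _ (hz.mem a) _ hy)

theorem ONB.cas_comm (hz : ONB J z) {x : Matrix n n ℂ} (h1 : ∀ y ∈ J, ad x y ∈ J) (h2 : ∀ y ∈ J, ad xᴴ y ∈ J)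
    (y : Matrix n n ℂ) : cas z (ad x y) = ad x (cas z y) := by
  have b1 := hz.balance h1 h2 (fun u v => ad u (ad vᴴ y))
    (fun c v => by rw [ad_sum_left])
    (fun c v => by
      rw [Matrix.conjTranspose_sum]
      simp_rw [Matrix.conjTranspose_smul]
      rw [ad_sum_left, map_sum]
      exact Finset.sum_congr rfl fun b _ => by rw [map_smul])
  have b2 := hz.balance h1 h2 (fun u v => ad vᴴ (ad u y))
    (fun c v => by
      rw [ad_sum_left, map_sum]
      exact Finset.sum_congr rfl fun b _ => by rw [map_smul])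
    (fun c v => by
      rw [Matrix.conjTranspose_sum]
      simp_rw [Matrix.conjTranspose_smul]
      rw [ad_sum_left])
  have e : ad x (cas z y) - cas z (ad x y) = ∑ a, ((ad (ad x (z a)) (ad (z a)ᴴ y) - ad (z a) (ad (ad xᴴ (z a))ᴴ y)) +
      (ad (z a)ᴴ (ad (ad x (z a)) y) - ad (ad xᴴ (z a))ᴴ (ad (z a) y))) := by
    rw [cas_apply, cas_apply, map_sum, ← Finset.sum_sub_distrib]
    refine Finset.sum_congr rfl fun a _ => ?_
    rw [map_add, ad_jacobi x (z a) (ad (z a)ᴴ y), ad_jacobi x (z a)ᴴ (ad (z a) y), ad_jacobi x (z a) y,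
      ad_jacobi x (z a)ᴴ y, ad_star, Matrix.conjTranspose_conjTranspose, ad_neg_left, ad_neg_left, map_neg, map_add, map_add]
    abel
  rw [Finset.sum_add_distrib, Finset.sum_sub_distrib, Finset.sum_sub_distrib] at e
  have b1' : ∑ a, ad (ad x (z a)) (ad (z a)ᴴ y) = ∑ a, ad (z a) (ad (ad xᴴ (z a))ᴴ y) := b1
  have b2' : ∑ a, ad (z a)ᴴ (ad (ad x (z a)) y) = ∑ a, ad (ad xᴴ (z a))ᴴ (ad (z a) y) := b2
  rw [b1', b2', sub_self, sub_self, add_zero] at e
  exact (sub_eq_zero.1 e).symm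

/-- a scalar Casimir operator -/
theorem ONB.cas_scalar (hz : ONB J z) (hst : ∀ x ∈ J, xᴴ ∈ J) {c : ℂ} (hc : ∀ y ∈ J, cas z y = c • y)
    {w : κ → Matrix n n ℂ} (hw : ONB J w) {y : Matrix n n ℂ} (hy : y ∈ J) :
    c.re / 2 * nrm y = ∑ b, nrm (ad y (w b)) := by
  have h1 := cas_self z y
  rw [hc y hy, hs_smul_right, hs_self] at h1
  have h2 := congrArg Complex.re h1
  rw [Complex.re_mul_ofReal, Complex.ofReal_re, Finset.sum_add_distrib] at h2
  have h3 : ∑ a, nrm (ad (z a)ᴴ y) = ∑ b, nrm (ad y (w b)) := by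
    simp_rw [nrm_ad_comm _ y]
    exact (hz.star' hst hst).indep_nrm hw (ad y)
  have h4 : ∑ a, nrm (ad (z a) y) = ∑ b, nrm (ad y (w b)) := by
    simp_rw [nrm_ad_comm _ y]
    exact hz.indep_nrm hw (ad y)
  rw [h3, h4] at h2
  linarith

end cas

end MH
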