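import Pool.Agent.Helper21.MH.Lev1
import Pool.Agent.Helper98.MH.Idl
import Pool.Agent.Helper2.MH.Com
import Pool.Agent.Helper2.MH.Num

/-!
The sharp bound in level two: the eigenvalues of `h` are `m, 0, -m`.
-/

open Matrix

namespace MH
variable {n : Type*} [Fintype n] [DecidableEq n]
variable {h : Matrix n n ℂ} {E : ℝ → Matrix n n ℂ} {Λ : Finset ℝ}
  {τ : Matrix n n ℂ →ₗ[ℂ] Matrix n n ℂ} {L : Submodule ℂ (Matrix n n ℂ)} {m : ℝ}

namespace Dat

section lev

theorem lev_P (D : Dat τ L h E Λ) (hm : 0 < m) (hlev : ∀ ν, ν ≠ m → ν ≠ 0 → ν ≠ -m → E ν = 0) :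
    Pp E Λ = E m := by
  unfold Pp
  by_cases h1 : m ∈ Λ
  · rw [Finset.sum_eq_single m]
    · intro ν hν hne
      have := (Finset.mem_filter.1 hν).2
      exact hlev ν hne this.ne' (by linarith)
    · intro h2
      exact absurd (Finset.mem_filter.2 ⟨h1, hm⟩) h2
  · rw [D.spec.supp m h1]
    refine Finset.sum_eq_zero fun ν hν => ?_
    have := (Finset.mem_filter.1 hν).2
    by_cases h2 : ν = m
    · rw [h2, D.spec.supp m h1]
    · exact hlev ν h2 this.ne' (by linarith)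

theorem lev_Q (D : Dat τ L h E Λ) (hm : 0 < m) (hlev : ∀ ν, ν ≠ m → ν ≠ 0 → ν ≠ -m → E ν = 0) :
    Qn E Λ = E (-m) := by
  rw [← D.tauP, D.lev_P hm hlev, D.tauE]

theorem lev_one (D : Dat τ L h E Λ) (hm : 0 < m) (hlev : ∀ ν, ν ≠ m → ν ≠ 0 → ν ≠ -m → E ν = 0) :
    E m + E 0 + E (-m) = 1 := by
  rw [← D.lev_P hm hlev, ← D.lev_Q hm hlev, D.spec.one_eq]

/-- orthogonality of degrees -/
theorem hs_Ld (D : Dat τ L h E Λ) {μ ν : ℝ} (hne : μ ≠ ν) {x y : Matrix n n ℂ} (hx : x ∈ Ld L h μ)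
    (hy : y ∈ Ld L h ν) : hs x y = 0 := by
  have h1 : (ν : ℂ) * hs x y = (μ : ℂ) * hs x y := by
    have h2 : hs x (ad h y) = hs (ad h x) y := by rw [hs_ad, D.spec.hh]
    rw [ad_apply, ad_apply, hx.2, hy.2, hs_smul_right, hs_smul_left] at h2
    rw [h2, Complex.star_def, Complex.conj_ofReal]
  have h2 : ((ν : ℂ) - μ) * hs x y = 0 := by rw [sub_mul, h1, sub_self]
  rcases mul_eq_zero.1 h2 with h3 | h3
  · exfalso
    apply hne
    have h4 : (ν : ℂ) = μ := sub_eq_zero.1 h3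
    exact_mod_cast h4.symm
  · exact h3

theorem Ld_star (D : Dat τ L h E Λ) {ν : ℝ} {x : Matrix n n ℂ} (hx : x ∈ Ld L h ν) : xᴴ ∈ Ld L h (-ν) := by
  refine ⟨D.st _ hx.1, ?_⟩
  have h1 := congrArg Matrix.conjTranspose hx.2
  rw [Matrix.conjTranspose_sub, Matrix.conjTranspose_mul, Matrix.conjTranspose_mul, D.spec.hh,
    Matrix.conjTranspose_smul, Complex.star_def, Complex.conj_ofReal] at h1
  rw [Complex.ofReal_neg, neg_smul, ← h1]
  abel

theorem Ld_star' (D : Dat τ L h E Λ) {ν : ℝ} {x : Matrix n n ℂ} (hx : x ∈ Ld L h (-ν)) : xᴴ ∈ Ld L h ν := by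
  have := D.Ld_star hx
  rwa [neg_neg] at this

/-- decomposition into five degrees -/
theorem lev_dec (D : Dat τ L h E Λ) (hm : 0 < m) (hlev : ∀ ν, ν ≠ m → ν ≠ 0 → ν ≠ -m → E ν = 0)
    (y : Matrix n n ℂ) : y = cmp E Λ m y + cmp E Λ (2 * m) y + (cmp E Λ (-m) y + cmp E Λ (-(2 * m)) y) +
      cmp E Λ 0 y := by
  have S := D.spec
  apply S.ext
  intro μ μ'
  simp only [mul_add, add_mul, S.block_cmp]
  by_cases h1 : E μ = 0
  · simp [h1]
  by_cases h2 : E μ' = 0
  · simp [h2]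
  have g1 : μ = m ∨ μ = 0 ∨ μ = -m := by
    by_contra hc
    push Not at hc
    exact h1 (hlev μ hc.1 hc.2.1 hc.2.2)
  have g2 : μ' = m ∨ μ' = 0 ∨ μ' = -m := by
    by_contra hc
    push Not at hc
    exact h2 (hlev μ' hc.1 hc.2.1 hc.2.2)
  have g3 : μ - μ' = m ∨ μ - μ' = 2 * m ∨ μ - μ' = -m ∨ μ - μ' = -(2 * m) ∨ μ - μ' = 0 := by
    rcases g1 with rfl | rfl | rfl <;> rcases g2 with rfl | rfl | rfl
    · right; right; right; right; ring
    · left; ring
    · right; left; ring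
    · right; right; left; ring
    · right; right; right; right; ring
    · left; ring
    · right; right; right; left; ring
    · right; right; left; ring
    · right; right; right; right; ring
  rcases g3 with g | g | g | g | g
  · rw [if_pos g, if_neg (by intro h; linarith), if_neg (by intro h; linarith), if_neg (by intro h; linarith),
      if_neg (by intro h; linarith)]
    simp
  · rw [if_neg (by intro h; linarith), if_pos g, if_neg (by intro h; linarith), if_neg (by intro h; linarith),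
      if_neg (by intro h; linarith)]
    simp
  · rw [if_neg (by intro h; linarith), if_neg (by intro h; linarith), if_pos g, if_neg (by intro h; linarith),
      if_neg (by intro h; linarith)]
    simp
  · rw [if_neg (by intro h; linarith), if_neg (by intro h; linarith), if_neg (by intro h; linarith), if_pos g,
      if_neg (by intro h; linarith)]
    simp
  · rw [if_neg (by intro h; linarith), if_neg (by intro h; linarith), if_neg (by intro h; linarith),
      if_neg (by intro h; linarith), if_pos g]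
    simp

/-- vanishing of rows -/
theorem lev_row (D : Dat τ L h E Λ) (hm : 0 < m) (hlev : ∀ ν, ν ≠ m → ν ≠ 0 → ν ≠ -m → E ν = 0)
    {ν μ : ℝ} {x : Matrix n n ℂ} (hx : x ∈ Ld L h ν) (h1 : μ - m ≠ ν) (h2 : μ ≠ ν) (h3 : μ + m ≠ ν) :
    E μ * x = 0 := by
  have h4 : E μ * x = E μ * x * (E m + E 0 + E (-m)) := by rw [D.lev_one hm hlev, mul_one]
  rw [h4, mul_add, mul_add, D.Ld_block hx h1, D.Ld_block hx (by rwa [sub_zero]), D.Ld_block hx (by rwa [sub_neg_eq_add]),
    add_zero, add_zero]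

/-- vanishing of columns -/
theorem lev_col (D : Dat τ L h E Λ) (hm : 0 < m) (hlev : ∀ ν, ν ≠ m → ν ≠ 0 → ν ≠ -m → E ν = 0)
    {ν μ : ℝ} {x : Matrix n n ℂ} (hx : x ∈ Ld L h ν) (h1 : m - μ ≠ ν) (h2 : -μ ≠ ν) (h3 : -m - μ ≠ ν) :
    x * E μ = 0 := by
  have h4 : x * E μ = (E m + E 0 + E (-m)) * (x * E μ) := by rw [D.lev_one hm hlev, one_mul]
  rw [h4, add_mul, add_mul, ← mul_assoc, ← mul_assoc, ← mul_assoc, D.Ld_block hx h1,
    D.Ld_block hx (by rwa [zero_sub]), D.Ld_block hx h3, add_zero, add_zero]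

theorem lev_nrm (D : Dat τ L h E Λ) (hm : 0 < m) (hlev : ∀ ν, ν ≠ m → ν ≠ 0 → ν ≠ -m → E ν = 0)
    (x : Matrix n n ℂ) : nrm x = nrm (E m * x) + nrm (E 0 * x) + nrm (E (-m) * x) := by
  have S := D.spec
  have hE : ∀ μ, E μ * E μ = E μ := fun μ => by rw [S.mul, if_pos rfl]
  exact nrm_left (hE m) (S.star m) (hE 0) (S.star 0) (hE (-m)) (S.star (-m)) (D.lev_one hm hlev) x

theorem lev_nrm1 (D : Dat τ L h E Λ) (hm : 0 < m) (hlev : ∀ ν, ν ≠ m → ν ≠ 0 → ν ≠ -m → E ν = 0)
    {x : Matrix n n ℂ} (hx : x ∈ Ld L h m) : nrm (E m * x) = nrm x / 2 ∧ E m * xᴴ = 0 := by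
  have S := D.spec
  have h1 := D.lev_nrm hm hlev x
  have h2 : E (-m) * x = 0 := D.lev_row hm hlev hx (by intro h; linarith) (by intro h; linarith) (by intro h; linarith)
  have h3 : x * E m = 0 := D.lev_col hm hlev hx (by intro h; linarith) (by intro h; linarith) (by intro h; linarith)
  have h4 : E 0 * x = E 0 * x * E (-m) := by
    have h5 : E 0 * x = E 0 * x * (E m + E 0 + E (-m)) := by rw [D.lev_one hm hlev, mul_one]
    conv_lhs => rw [h5]
    rw [mul_add, mul_add, D.Ld_block hx (by intro h; linarith), D.Ld_block hx (by intro h; linarith), zero_add, zero_add]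
  have h6 : E m * x = E m * x * E 0 := by
    have h5 : E m * x = E m * x * (E m + E 0 + E (-m)) := by rw [D.lev_one hm hlev, mul_one]
    conv_lhs => rw [h5]
    rw [mul_add, mul_add, D.Ld_block hx (μ := m) (μ' := m) (by intro h; linarith),
      D.Ld_block hx (μ := m) (μ' := -m) (by intro h; linarith), zero_add, add_zero]
  have h7 : nrm (E 0 * x) = nrm (E m * x) := by
    rw [h4, h6, ← D.nrm_tau (E m * x * E 0), D.tau_block _ _ hx.1, nrm_neg, neg_zero]
  rw [h2, nrm_zero, h7] at h1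
  refine ⟨by linarith, ?_⟩
  have h8 := congrArg Matrix.conjTranspose h3
  rwa [Matrix.conjTranspose_mul, S.star, Matrix.conjTranspose_zero] at h8

theorem lev_nrm2 (D : Dat τ L h E Λ) (hm : 0 < m) (hlev : ∀ ν, ν ≠ m → ν ≠ 0 → ν ≠ -m → E ν = 0)
    {x : Matrix n n ℂ} (hx : x ∈ Ld L h (2 * m)) : nrm (E m * x) = nrm x ∧ E m * xᴴ = 0 := by
  have S := D.spec
  have h1 := D.lev_nrm hm hlev x
  have h2 : E (-m) * x = 0 := D.lev_row hm hlev hx (by intro h; linarith) (by intro h; linarith) (by intro h; linarith)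
  have h0 : E 0 * x = 0 := D.lev_row hm hlev hx (by intro h; linarith) (by intro h; linarith) (by intro h; linarith)
  have h3 : x * E m = 0 := D.lev_col hm hlev hx (by intro h; linarith) (by intro h; linarith) (by intro h; linarith)
  rw [h2, h0, nrm_zero] at h1
  refine ⟨by linarith, ?_⟩
  have h8 := congrArg Matrix.conjTranspose h3
  rwa [Matrix.conjTranspose_mul, S.star, Matrix.conjTranspose_zero] at h8

/-- degree zero commutes with the projections -/
theorem Ld0_comm (D : Dat τ L h E Λ) {x : Matrix n n ℂ} (hx : x ∈ Ld L h 0) (μ : ℝ) : E μ * x = x * E μ := by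
  have h1 := D.Ld_mul_E hx μ
  have h2 := D.Ld_mul_E (D.Ld_star hx) μ
  rw [add_zero] at h1
  rw [neg_zero, add_zero] at h2
  have h3 := congrArg Matrix.conjTranspose h2
  rw [Matrix.conjTranspose_mul, Matrix.conjTranspose_mul, Matrix.conjTranspose_mul, D.spec.star,
    Matrix.conjTranspose_conjTranspose, ← mul_assoc] at h3
  exact h3.trans h1.symm

theorem lev_h (D : Dat τ L h E Λ) (hm : 0 < m) (hlev : ∀ ν, ν ≠ m → ν ≠ 0 → ν ≠ -m → E ν = 0) :
    h = (m : ℂ) • E m - (m : ℂ) • E (-m) := by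
  have S := D.spec
  have h1 : h = h * (E m + E 0 + E (-m)) := by rw [D.lev_one hm hlev, mul_one]
  rw [mul_add, mul_add, S.h_mul, S.h_mul, S.h_mul] at h1
  rw [h1]
  simp [sub_eq_add_neg]

theorem lev_trQ (D : Dat τ L h E Λ) : (E (-m)).trace = (E m).trace := by
  rw [← D.tauE, D.inv.tr]

theorem lev_nrm_h (D : Dat τ L h E Λ) (hm : 0 < m) (hlev : ∀ ν, ν ≠ m → ν ≠ 0 → ν ≠ -m → E ν = 0) :
    nrm h = 2 * m ^ 2 * (Pp E Λ).rank := by
  have S := D.spec
  have hE : ∀ μ, E μ * E μ = E μ := fun μ => by rw [S.mul, if_pos rfl]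
  have h1 : hs h h = ((2 * m ^ 2 * (Pp E Λ).rank : ℝ) : ℂ) := by
    unfold hs
    rw [S.hh]
    have h2 : h * h = ((m : ℂ) ^ 2) • E m + ((m : ℂ) ^ 2) • E (-m) := by
      conv_lhs => rw [D.lev_h hm hlev]
      rw [sub_mul, mul_sub, mul_sub, smul_mul_smul_comm, smul_mul_smul_comm, smul_mul_smul_comm, smul_mul_smul_comm,
        hE, hE, S.mul, S.mul, if_neg (by linarith), if_neg (by linarith), smul_zero, sq]
      abel
    rw [h2, Matrix.trace_add, Matrix.trace_smul, Matrix.trace_smul, D.lev_trQ, trace_eq_rank (hE m),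
      D.lev_P hm hlev]
    push_cast
    simp only [smul_eq_mul]
    ring
  rw [hs_self] at h1
  exact_mod_cast h1

theorem lev_nrm_Ph (D : Dat τ L h E Λ) (hm : 0 < m) (hlev : ∀ ν, ν ≠ m → ν ≠ 0 → ν ≠ -m → E ν = 0) :
    nrm (E m * h) = m ^ 2 * (Pp E Λ).rank ∧ (E m * h).trace = m * (Pp E Λ).rank := by
  have S := D.spec
  have hE : ∀ μ, E μ * E μ = E μ := fun μ => by rw [S.mul, if_pos rfl]
  constructor
  · rw [S.mul_h, nrm_smul, Complex.norm_real, Real.norm_eq_abs, sq_abs, D.lev_P hm hlev]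
    congr 1
    unfold nrm hs
    rw [S.star, hE, trace_eq_rank (hE m), Complex.natCast_re]
  · rw [S.mul_h, Matrix.trace_smul, trace_eq_rank (hE m), D.lev_P hm hlev, smul_eq_mul]

end lev

end Dat

end MH
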