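import Pool.Agent.Helper21.MH.Lev2

/-!
The sharp bound in level two: the adapted basis and the two relations from the Casimir operator.
-/

open Matrix

namespace MH
variable {n : Type*} [Fintype n] [DecidableEq n]
variable {h : Matrix n n ℂ} {E : ℝ → Matrix n n ℂ} {Λ : Finset ℝ}
  {τ : Matrix n n ℂ →ₗ[ℂ] Matrix n n ℂ} {L J : Submodule ℂ (Matrix n n ℂ)} {m : ℝ}
variable {ι₁ ι₂ κ : Type*} [Fintype ι₁] [DecidableEq ι₁] [Fintype ι₂] [DecidableEq ι₂] [Fintype κ] [DecidableEq κ]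
  {x1 : ι₁ → Matrix n n ℂ} {x2 : ι₂ → Matrix n n ℂ} {w : κ → Matrix n n ℂ}

namespace Dat

theorem Ld_le_J (_D : Dat τ L h E Λ) (hJ : IsI L J) (hh : h ∈ J) {ν : ℝ} (hν : ν ≠ 0) : Ld L h ν ≤ J := by
  intro x hx
  have h1 : h * x - x * h ∈ J := by
    have := hJ.br x hx.1 h hh
    rw [← neg_sub]
    exact J.neg_mem this
  rw [hx.2] at h1
  have h2 := J.smul_mem ((ν : ℂ)⁻¹) h1
  rwa [smul_smul, inv_mul_cancel₀ (by exact_mod_cast hν), one_smul] at h2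

theorem onb_up (D : Dat τ L h E Λ) (hm : 0 < m) (hx1 : ONB (Ld L h m) x1) (hx2 : ONB (Ld L h (2 * m)) x2) :
    ONB (Ld L h m ⊔ Ld L h (2 * m)) (Sum.elim x1 x2) := by
  refine hx1.union hx2 le_sup_left le_sup_right ?_ ?_
  · intro a ha b hb
    exact D.hs_Ld (by intro h; linarith) ha hb
  · intro a ha
    obtain ⟨b, hb, c, hc, e⟩ := Submodule.mem_sup.1 ha
    exact ⟨b, hb, c, hc, e.symm⟩

theorem onb_do (D : Dat τ L h E Λ) (hm : 0 < m) (hx1 : ONB (Ld L h m) x1) (hx2 : ONB (Ld L h (2 * m)) x2) :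
    ONB (Ld L h (-m) ⊔ Ld L h (-(2 * m))) (fun i => (Sum.elim x1 x2 i)ᴴ) := by
  refine (D.onb_up hm hx1 hx2).star' ?_ ?_
  · intro a ha
    obtain ⟨b, hb, c, hc, rfl⟩ := Submodule.mem_sup.1 ha
    rw [Matrix.conjTranspose_add]
    exact Submodule.add_mem_sup (D.Ld_star hb) (D.Ld_star hc)
  · intro a ha
    obtain ⟨b, hb, c, hc, rfl⟩ := Submodule.mem_sup.1 ha
    rw [Matrix.conjTranspose_add]
    exact Submodule.add_mem_sup (D.Ld_star' hb) (D.Ld_star' hc)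

theorem onb_J (D : Dat τ L h E Λ) (hm : 0 < m) (hlev : ∀ ν, ν ≠ m → ν ≠ 0 → ν ≠ -m → E ν = 0) (hJ : IsI L J)
    (hh : h ∈ J) (hx1 : ONB (Ld L h m) x1) (hx2 : ONB (Ld L h (2 * m)) x2) (hw : ONB (J ⊓ Ld L h 0) w) :
    ONB J (Sum.elim (Sum.elim (Sum.elim x1 x2) (fun i => (Sum.elim x1 x2 i)ᴴ)) w) := by
  have l1 : Ld L h m ≤ J := D.Ld_le_J hJ hh hm.ne'
  have l2 : Ld L h (2 * m) ≤ J := D.Ld_le_J hJ hh (by intro h; linarith)
  have l3 : Ld L h (-m) ≤ J := D.Ld_le_J hJ hh (by intro h; linarith)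
  have l4 : Ld L h (-(2 * m)) ≤ J := D.Ld_le_J hJ hh (by intro h; linarith)
  have h1 : ONB ((Ld L h m ⊔ Ld L h (2 * m)) ⊔ (Ld L h (-m) ⊔ Ld L h (-(2 * m))))
      (Sum.elim (Sum.elim x1 x2) (fun i => (Sum.elim x1 x2 i)ᴴ)) := by
    refine (D.onb_up hm hx1 hx2).union (D.onb_do hm hx1 hx2) le_sup_left le_sup_right ?_ ?_
    · intro a ha b hb
      obtain ⟨a1, ha1, a2, ha2, rfl⟩ := Submodule.mem_sup.1 ha
      obtain ⟨b1, hb1, b2, hb2, rfl⟩ := Submodule.mem_sup.1 hb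
      rw [hs_add_left, hs_add_right, hs_add_right, D.hs_Ld (by intro h; linarith) ha1 hb1,
        D.hs_Ld (by intro h; linarith) ha1 hb2, D.hs_Ld (by intro h; linarith) ha2 hb1,
        D.hs_Ld (by intro h; linarith) ha2 hb2]
      simp
    · intro a ha
      obtain ⟨b, hb, c, hc, e⟩ := Submodule.mem_sup.1 ha
      exact ⟨b, hb, c, hc, e.symm⟩
  refine h1.union hw (sup_le (sup_le l1 l2) (sup_le l3 l4)) inf_le_left ?_ ?_
  · intro a ha b hb
    obtain ⟨a1, ha1, a2, ha2, rfl⟩ := Submodule.mem_sup.1 ha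
    obtain ⟨a3, ha3, a4, ha4, rfl⟩ := Submodule.mem_sup.1 ha1
    obtain ⟨a5, ha5, a6, ha6, rfl⟩ := Submodule.mem_sup.1 ha2
    rw [hs_add_left, hs_add_left, hs_add_left, D.hs_Ld (by intro h; linarith) ha3 hb.2,
      D.hs_Ld (by intro h; linarith) ha4 hb.2, D.hs_Ld (by intro h; linarith) ha5 hb.2,
      D.hs_Ld (by intro h; linarith) ha6 hb.2]
    simp
  · intro y hy
    have hyL := hJ.le hy
    have e := D.lev_dec hm hlev y
    have m1 := D.cmp_mem_Ld hyL m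
    have m2 := D.cmp_mem_Ld hyL (2 * m)
    have m3 := D.cmp_mem_Ld hyL (-m)
    have m4 := D.cmp_mem_Ld hyL (-(2 * m))
    refine ⟨_, Submodule.add_mem_sup (Submodule.add_mem_sup m1 m2) (Submodule.add_mem_sup m3 m4), cmp E Λ 0 y,
      ⟨?_, D.cmp_mem_Ld hyL 0⟩, e⟩
    have e2 : cmp E Λ 0 y = y - (cmp E Λ m y + cmp E Λ (2 * m) y + (cmp E Λ (-m) y + cmp E Λ (-(2 * m)) y)) :=
      (sub_eq_iff_eq_add'.2 e).symm
    rw [e2]
    exact J.sub_mem hy (J.add_mem (J.add_mem (l1 m1) (l2 m2)) (J.add_mem (l3 m3) (l4 m4)))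

/-- the Casimir scalar -/
theorem lev_c (D : Dat τ L h E Λ) (hm : 0 < m) (hlev : ∀ ν, ν ≠ m → ν ≠ 0 → ν ≠ -m → E ν = 0)
    (hs0 : (Pp E Λ).rank ≠ 0) (hh : h ∈ J) (hx1 : ONB (Ld L h m) x1) (hx2 : ONB (Ld L h (2 * m)) x2)
    (hw : ONB (J ⊓ Ld L h 0) w) {c : ℝ}
    (hc : ∀ y ∈ J, c * nrm y = ∑ i, nrm (ad y (Sum.elim x1 x2 i)) + ∑ i, nrm (ad y (Sum.elim x1 x2 i)ᴴ) +
      ∑ j, nrm (ad y (w j))) :
    c = (Fintype.card ι₁ + 4 * Fintype.card ι₂) / (Pp E Λ).rank := by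
  have e := hc h hh
  have k1 : ∀ i, nrm (ad h (x1 i)) = m ^ 2 := by
    intro i
    rw [ad_apply, (hx1.mem i).2, nrm_smul, hx1.nrm_one, Complex.norm_real, Real.norm_eq_abs, sq_abs, mul_one]
  have k2 : ∀ i, nrm (ad h (x2 i)) = 4 * m ^ 2 := by
    intro i
    rw [ad_apply, (hx2.mem i).2, nrm_smul, hx2.nrm_one, Complex.norm_real, Real.norm_eq_abs, sq_abs]
    ring
  have k3 : ∀ x, nrm (ad h xᴴ) = nrm (ad h x) := by
    intro x
    conv_lhs => rw [← D.spec.hh]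
    exact nrm_ad_star _ _
  have k4 : ∀ j, nrm (ad h (w j)) = 0 := by
    intro j
    rw [ad_apply, (hw.mem j).2.2]
    simp [nrm_zero]
  simp_rw [k3, k4] at e
  rw [Fintype.sum_sum_type] at e
  simp only [Sum.elim_inl, Sum.elim_inr, k1, k2, Finset.sum_const, Finset.card_univ, nsmul_eq_mul] at e
  rw [D.lev_nrm_h hm hlev] at e
  have hs1 : ((Pp E Λ).rank : ℝ) ≠ 0 := by exact_mod_cast hs0
  rw [eq_div_iff hs1]
  have hm2 : (2 * m ^ 2 : ℝ) ≠ 0 := by positivity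
  apply mul_left_cancel₀ hm2
  linarith

/-- the two relations -/
theorem lev_rel (D : Dat τ L h E Λ) (hJ : IsI L J) (hm : 0 < m)
    (hx1 : ONB (Ld L h m) x1) (hx2 : ONB (Ld L h (2 * m)) x2)
    (hw : ONB (J ⊓ Ld L h 0) w) (hh : h ∈ J) {c : ℝ}
    (hc : ∀ y ∈ J, c * nrm y = ∑ i, nrm (ad y (Sum.elim x1 x2 i)) + ∑ i, nrm (ad y (Sum.elim x1 x2 i)ᴴ) +
      ∑ j, nrm (ad y (w j))) :
    c * (Fintype.card κ - Fintype.card ι₁ - Fintype.card ι₂) ≤ ∑ j, ∑ l, nrm (ad (w j) (w l)) ∧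
    (Fintype.card ι₂ = 0 → c * (Fintype.card κ - Fintype.card ι₁) = ∑ j, ∑ l, nrm (ad (w j) (w l))) := by
  have l1 : Ld L h m ≤ J := D.Ld_le_J hJ hh hm.ne'
  have l2 : Ld L h (2 * m) ≤ J := D.Ld_le_J hJ hh (by intro h; linarith)
  have hx := D.onb_up hm hx1 hx2
  set x : ι₁ ⊕ ι₂ → Matrix n n ℂ := Sum.elim x1 x2 with hxdef
  have hxJ : ∀ i, x i ∈ J := fun i => (sup_le l1 l2) (hx.mem i)
  have hws : ONB (J ⊓ Ld L h 0) (fun j => (w j)ᴴ) := by
    refine hw.star' ?_ ?_ <;>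
    · intro a ha
      refine ⟨hJ.st _ ha.1, ?_⟩
      have := D.Ld_star ha.2
      rwa [neg_zero] at this
  set A : ℝ := ∑ i, ∑ j, nrm (ad (x i) (w j)) with hA
  have hA' : ∑ i, ∑ j, nrm (ad (x i) (w j)ᴴ) = A :=
    Finset.sum_congr rfl fun i _ => hws.indep_nrm hw (ad (x i))
  -- the sum over `w`
  have e1 : c * Fintype.card κ = 2 * A + ∑ j, ∑ l, nrm (ad (w j) (w l)) := by
    have e2 : ∑ j, c * nrm (w j) = ∑ j, (∑ i, nrm (ad (w j) (x i)) + ∑ i, nrm (ad (w j) (x i)ᴴ) +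
      ∑ l, nrm (ad (w j) (w l))) := Finset.sum_congr rfl fun j _ => hc _ (hw.mem j).1
    simp_rw [hw.nrm_one] at e2
    rw [Finset.sum_add_distrib, Finset.sum_add_distrib] at e2
    have e3 : ∑ j, ∑ i, nrm (ad (w j) (x i)) = A := by
      rw [Finset.sum_comm, hA]
      exact Finset.sum_congr rfl fun i _ => Finset.sum_congr rfl fun j _ => nrm_ad_comm _ _
    have e4 : ∑ j, ∑ i, nrm (ad (w j) (x i)ᴴ) = A := by
      rw [Finset.sum_comm, ← hA']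
      refine Finset.sum_congr rfl fun i _ => Finset.sum_congr rfl fun j _ => ?_
      rw [nrm_ad_comm, ← nrm_ad_star, Matrix.conjTranspose_conjTranspose]
    rw [e3, e4] at e2
    simp only [mul_one, Finset.sum_const, Finset.card_univ, nsmul_eq_mul] at e2
    linarith
  -- the sum over `x`
  have e5 : c * (Fintype.card ι₁ + Fintype.card ι₂) = (∑ i, ∑ l, nrm (ad (x i) (x l))) +
      (∑ i, ∑ l, nrm (ad (x i) (x l)ᴴ)) + A := by
    have e2 : ∑ i, c * nrm (x i) = ∑ i, (∑ l, nrm (ad (x i) (x l)) + ∑ l, nrm (ad (x i) (x l)ᴴ) +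
      ∑ j, nrm (ad (x i) (w j))) := Finset.sum_congr rfl fun i _ => hc _ (hxJ i)
    simp_rw [hx.nrm_one] at e2
    rw [Finset.sum_add_distrib, Finset.sum_add_distrib] at e2
    simp only [mul_one, Finset.sum_const, Finset.card_univ, nsmul_eq_mul, Fintype.card_sum, Nat.cast_add] at e2
    linarith
  have k1 : ∀ i l j, ‖hs (w j) (ad (x i) (x l)ᴴ)‖ ^ 2 = ‖hs (x l) (ad (x i) (w j)ᴴ)‖ ^ 2 := by
    intro i l j
    rw [hs_ad, hs_star_right, ad_star, Matrix.conjTranspose_conjTranspose, hs_neg_right, norm_neg]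
  have k2 : ∀ i j, ad (x i) (w j)ᴴ ∈ Ld L h m ⊔ Ld L h (2 * m) := by
    intro i j
    have hw0 : (w j)ᴴ ∈ Ld L h 0 := by
      have := D.Ld_star (hw.mem j).2
      rwa [neg_zero] at this
    obtain ⟨a, ha, b, hb, e⟩ := Submodule.mem_sup.1 (hx.mem i)
    rw [← e, ad_add_left]
    refine Submodule.add_mem_sup ?_ ?_
    · have := Dat.Ld_bracket D.br ha hw0
      rwa [add_zero] at this
    · have := Dat.Ld_bracket D.br hb hw0
      rwa [add_zero] at this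
  have k3 : ∀ i, ∑ l, ∑ j, ‖hs (w j) (ad (x i) (x l)ᴴ)‖ ^ 2 = ∑ j, nrm (ad (x i) (w j)ᴴ) := by
    intro i
    simp_rw [k1]
    rw [Finset.sum_comm]
    exact Finset.sum_congr rfl fun j _ => (hx.parseval (k2 i j)).symm
  have hβ : A ≤ ∑ i, ∑ l, nrm (ad (x i) (x l)ᴴ) := by
    rw [← hA']
    refine Finset.sum_le_sum fun i _ => ?_
    rw [← k3]
    exact Finset.sum_le_sum fun l _ => hw.bessel _
  have hγ : 0 ≤ ∑ i, ∑ l, nrm (ad (x i) (x l)) :=
    Finset.sum_nonneg fun i _ => Finset.sum_nonneg fun l _ => nrm_nonneg _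
  constructor
  · nlinarith
  · intro h0
    have hem : IsEmpty ι₂ := Fintype.card_eq_zero_iff.1 h0
    have hxm : ∀ i, x i ∈ Ld L h m := by
      rintro (i | i)
      · exact hx1.mem i
      · exact hem.elim i
    have h2m : ∀ y ∈ Ld L h (2 * m), y = 0 := by
      intro y hy
      rw [hx2.exp y hy]
      exact Finset.sum_eq_zero fun i _ => hem.elim i
    have hγ0 : ∑ i, ∑ l, nrm (ad (x i) (x l)) = 0 := by
      refine Finset.sum_eq_zero fun i _ => Finset.sum_eq_zero fun l _ => ?_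
      have h1 := Dat.Ld_bracket D.br (hxm i) (hxm l)
      rw [← two_mul] at h1
      rw [ad_apply, h2m _ h1, nrm_zero]
    have hβ0 : ∑ i, ∑ l, nrm (ad (x i) (x l)ᴴ) = A := by
      rw [← hA']
      refine Finset.sum_congr rfl fun i _ => ?_
      rw [← k3]
      refine Finset.sum_congr rfl fun l _ => ?_
      refine hw.parseval ⟨?_, ?_⟩
      · exact hJ.br _ (hJ.le (hxJ i)) _ (hJ.st _ (hxJ l))
      · have h1 := Dat.Ld_bracket D.br (hxm i) (D.Ld_star (hxm l))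
        rwa [add_neg_cancel] at h1
    rw [hγ0, hβ0, h0] at e5
    push_cast at e5
    linarith

end Dat

end MH
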