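import Pool.Agent.Helper21.MH.Lev3

/-!
The sharp bound in level two.
-/

open Matrix

namespace MH
variable {n : Type*} [Fintype n] [DecidableEq n]
variable {h : Matrix n n ℂ} {E : ℝ → Matrix n n ℂ} {Λ : Finset ℝ}
  {τ : Matrix n n ℂ →ₗ[ℂ] Matrix n n ℂ} {L J : Submodule ℂ (Matrix n n ℂ)} {m : ℝ}

omit [DecidableEq n] in
theorem ONB.finrank {ι : Type*} [Fintype ι] [DecidableEq ι] {S : Submodule ℂ (Matrix n n ℂ)} {z : ι → Matrix n n ℂ}
    (hz : ONB S z) : Module.finrank ℂ S = Fintype.card ι := by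
  obtain ⟨y, hy⟩ := exists_onb S
  have h1 := hz.indep_nrm hy LinearMap.id
  simp only [LinearMap.id_apply, hz.nrm_one, hy.nrm_one, Finset.sum_const, Finset.card_univ, nsmul_eq_mul,
    mul_one, Fintype.card_fin] at h1
  exact_mod_cast h1.symm

namespace Dat

theorem Ld0_ze (D : Dat τ L h E Λ) {x : Matrix n n ℂ} (hx : x ∈ Ld L h 0) : x ∈ Lze L E :=
  ⟨hx.1, fun _ _ h1 => D.Ld_block hx (sub_ne_zero.2 h1)⟩

/-- `KK` is central in degree zero -/
theorem KK_kill (D : Dat τ L h E Λ) (hK : Module.finrank ℂ (KK L E) ≤ 1) {v k : Matrix n n ℂ}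
    (hv : v ∈ Ld L h 0) (hk : k ∈ KK L E) : ad v k = 0 := by
  obtain ⟨⟨k0, hk0⟩, hall⟩ := finrank_le_one_iff.1 hK
  have hall' : ∀ y ∈ KK L E, ∃ c : ℂ, y = c • k0 := by
    intro y hy
    obtain ⟨c, hc⟩ := hall ⟨y, hy⟩
    exact ⟨c, (congrArg Subtype.val hc).symm⟩
  have h0 : ad v k0 = 0 := by
    obtain ⟨t, ht⟩ := hall' _ (D.KK_bracket hv hk0)
    obtain ⟨c, hc⟩ := hall' _ (D.KK_star hk0)
    have h1 : hs k0 (ad v k0) = 0 := by
      unfold hs
      rw [ad_apply, hc, mul_sub, smul_mul_assoc, smul_mul_assoc, ← smul_sub, Matrix.trace_smul, Matrix.trace_sub,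
        ← mul_assoc k0 v, ← mul_assoc k0 k0, Matrix.trace_mul_comm (k0 * v) k0, mul_assoc k0 k0 v, sub_self, smul_zero]
    rw [ad_apply, ht, hs_smul_right, hs_self] at h1
    rw [ad_apply, ht]
    rcases mul_eq_zero.1 h1 with h2 | h2
    · rw [h2, zero_smul]
    · have h3 : nrm k0 = 0 := by exact_mod_cast h2
      rw [nrm_eq_zero h3, smul_zero]
  obtain ⟨c, hc⟩ := hall' k hk
  rw [hc, map_smul, h0, smul_zero]

/-- the trace inequality -/
theorem lev_trace (D : Dat τ L h E Λ) (hK : Module.finrank ℂ (KK L E) ≤ 1) (hm : 0 < m)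
    (hlev : ∀ ν, ν ≠ m → ν ≠ 0 → ν ≠ -m → E ν = 0) (hJ : IsI L J)
    {κ : Type*} [Fintype κ] [DecidableEq κ] {w : κ → Matrix n n ℂ} (hw : ONB (J ⊓ Ld L h 0) w)
    {v : Matrix n n ℂ} (hv : v ∈ J ⊓ Ld L h 0) :
    ∑ a, nrm (ad v (w a)) ≤ 2 * (Pp E Λ).rank * nrm (E m * v) - 2 * ‖(E m * v).trace‖ ^ 2 := by
  have S := D.spec
  rw [D.lev_P hm hlev]
  set P := E m with hP
  have hPP : P * P = P := by rw [hP, S.mul, if_pos rfl]
  have hPs : Pᴴ = P := S.star m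
  have hbr0 : ∀ a ∈ J ⊓ Ld L h 0, ∀ b ∈ J ⊓ Ld L h 0, ad a b ∈ J ⊓ Ld L h 0 := by
    intro a ha b hb
    refine ⟨hJ.br _ ha.2.1 _ hb.1, ?_⟩
    have := Dat.Ld_bracket D.br ha.2 hb.2
    rwa [add_zero] at this
  have hst0 : ∀ a ∈ J ⊓ Ld L h 0, aᴴ ∈ J ⊓ Ld L h 0 := by
    intro a ha
    refine ⟨hJ.st _ ha.1, ?_⟩
    have := D.Ld_star ha.2
    rwa [neg_zero] at this
  have hcomm : ∀ a ∈ J ⊓ Ld L h 0, P * a = a * P := fun a ha => D.Ld0_comm ha.2 m
  have hPad : ∀ a ∈ J ⊓ Ld L h 0, ∀ b ∈ J ⊓ Ld L h 0, P * ad a b = ad (P * a) (P * b) := by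
    intro a ha b hb
    rw [ad_apply, ad_apply]
    have e1 : P * a * (P * b) = P * (a * b) := by
      rw [hcomm a ha, mul_assoc a P, ← mul_assoc P P, hPP, ← mul_assoc, ← hcomm a ha, mul_assoc]
    have e2 : P * b * (P * a) = P * (b * a) := by
      rw [hcomm b hb, mul_assoc b P, ← mul_assoc P P, hPP, ← mul_assoc, ← hcomm b hb, mul_assoc]
    rw [e1, e2, mul_sub]
  let A : Submodule ℂ (Matrix n n ℂ) := (J ⊓ Ld L h 0).map (LinearMap.mulLeft ℂ P)
  obtain ⟨u, hu⟩ := exists_onb A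
  have hlift : ∀ j, ∃ y ∈ J ⊓ Ld L h 0, P * y = u j := by
    intro j
    obtain ⟨y, hy, e⟩ := Submodule.mem_map.1 (hu.mem j)
    exact ⟨y, hy, e⟩
  choose g hg hgu using hlift
  have hexp : ∀ y ∈ J ⊓ Ld L h 0, ad v y = ∑ j, hs (u j) (P * y) • ad v (g j) := by
    intro y hy
    have h1 : P * y = ∑ j, hs (u j) (P * y) • u j := hu.exp _ (Submodule.mem_map.2 ⟨y, hy, rfl⟩)
    set y' := ∑ j, hs (u j) (P * y) • g j with hy'
    have h2 : y' ∈ J ⊓ Ld L h 0 := Submodule.sum_mem _ fun j _ => Submodule.smul_mem _ _ (hg j)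
    have h3 : P * (y - y') = 0 := by
      rw [mul_sub, hy', Finset.mul_sum]
      simp_rw [mul_smul_comm, hgu]
      rw [← h1, sub_self]
    have h4 : y - y' ∈ KK L E :=
      D.mem_KK_of (D.Ld0_ze ((Ld L h 0).sub_mem hy.2 h2.2)) (by rw [D.lev_P hm hlev]; exact h3)
    have h5 := D.KK_kill hK hv.2 h4
    rw [map_sub, sub_eq_zero] at h5
    rw [h5, hy', map_sum]
    exact Finset.sum_congr rfl fun j _ => map_smul _ _ _
  have hvs := hst0 v hv
  have hPvs : (P * v)ᴴ = P * vᴴ := by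
    rw [Matrix.conjTranspose_mul, hPs, hcomm _ hvs]
  have key : ((∑ a, nrm (ad v (w a)) : ℝ) : ℂ) = ((∑ j, nrm (ad (P * v) (u j)) : ℝ) : ℂ) := by
    rw [Complex.ofReal_sum, Complex.ofReal_sum]
    have e1 : ∀ a, ((nrm (ad v (w a)) : ℝ) : ℂ) = ∑ j, hs (u j) (P * w a) * hs (w a) (ad vᴴ (ad v (g j))) := by
      intro a
      have e0 : ∀ X : Matrix n n ℂ, hs X (ad v (w a)) = ∑ j, hs (u j) (P * w a) * hs X (ad v (g j)) := by
        intro X
        rw [hexp (w a) (hw.mem a), hs_sum_right]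
        exact Finset.sum_congr rfl fun j _ => hs_smul_right _ _ _
      rw [← hs_self, e0]
      refine Finset.sum_congr rfl fun j _ => ?_
      rw [hs_ad (w a), Matrix.conjTranspose_conjTranspose]
    simp_rw [e1]
    rw [Finset.sum_comm]
    refine Finset.sum_congr rfl fun j _ => ?_
    have h1 : ad vᴴ (ad v (g j)) ∈ J ⊓ Ld L h 0 := hbr0 _ hvs _ (hbr0 _ hv _ (hg j))
    have e2 : P * ad vᴴ (ad v (g j)) = ∑ a, hs (w a) (ad vᴴ (ad v (g j))) • (P * w a) := by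
      conv_lhs => rw [hw.exp _ h1]
      rw [Finset.mul_sum]
      exact Finset.sum_congr rfl fun a _ => mul_smul_comm _ _ _
    have e3 : hs (u j) (P * ad vᴴ (ad v (g j))) = ∑ a, hs (u j) (P * w a) * hs (w a) (ad vᴴ (ad v (g j))) := by
      rw [e2, hs_sum_right]
      exact Finset.sum_congr rfl fun a _ => by rw [hs_smul_right, mul_comm]
    rw [← e3, hPad _ hvs _ (hbr0 _ hv _ (hg j)), hPad _ hv _ (hg j), hgu, ← hPvs, hs_ad,
      Matrix.conjTranspose_conjTranspose, hs_self]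
  have key2 : ∑ a, nrm (ad v (w a)) = ∑ j, nrm (ad (P * v) (u j)) := by exact_mod_cast key
  have h1 := gl_bound (P := P) (a := P * v) hPP hPs (by rw [← mul_assoc, hPP]) hu
  have h2 : ∀ j, P * v * u j * P - P * u j * (P * v) = ad (P * v) (u j) := by
    intro j
    have e1 : P * u j = u j := by rw [← hgu, ← mul_assoc, hPP]
    have e2 : u j * P = u j := by rw [← hgu, hcomm _ (hg j), mul_assoc, hPP]
    rw [ad_apply, mul_assoc (P * v), e1, e2]
  simp_rw [h2] at h1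
  rw [key2]
  exact h1

end Dat

end MH
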