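import Pool.Agent.Helper21.MH.Lev

/-!
The sharp bound in all levels: the adapted basis of an ideal that contains `h`, and the relations from the
Casimir operator.
-/

open Matrix

namespace MH
variable {n : Type*} [Fintype n] [DecidableEq n]
variable {h : Matrix n n ℂ} {E : ℝ → Matrix n n ℂ} {Λ : Finset ℝ}
  {τ : Matrix n n ℂ →ₗ[ℂ] Matrix n n ℂ} {L J : Submodule ℂ (Matrix n n ℂ)}
variable {ι κ : Type*} [Fintype ι] [DecidableEq ι] [Fintype κ] [DecidableEq κ]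
  {x : ι → Matrix n n ℂ} {w : κ → Matrix n n ℂ}

namespace Dat

theorem ze_Ld0 (D : Dat τ L h E Λ) {y : Matrix n n ℂ} (hy : y ∈ Lze L E) : y ∈ Ld L h 0 :=
  D.Ld_of_block hy.1 fun μ μ' h1 => hy.2 μ μ' fun h2 => h1 (by rw [h2, sub_self])

theorem up_le_J (D : Dat τ L h E Λ) (hJ : IsI L J) (hh : h ∈ J) : Lup L E ≤ J := by
  classical
  intro y hy
  have S := D.spec
  rw [S.sum_cmp y]
  refine J.sum_mem fun ν _ => ?_
  by_cases hν : 0 < ν
  · exact D.Ld_le_J hJ hh hν.ne' (D.cmp_mem_Ld hy.1 ν)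
  · have h1 : cmp E Λ ν y = 0 := by
      apply S.ext
      intro μ μ'
      rw [S.block_cmp, mul_zero, zero_mul]
      split_ifs with h2
      · exact hy.2 μ μ' fun h3 => hν (by linarith)
      · rfl
    rw [h1]
    exact J.zero_mem

theorem do_le_J (D : Dat τ L h E Λ) (hJ : IsI L J) (hh : h ∈ J) : Ldo L E ≤ J := by
  intro y hy
  have h1 := hJ.st _ (D.up_le_J hJ hh (D.star_do hy))
  rwa [Matrix.conjTranspose_conjTranspose] at h1

theorem hs_up_do (D : Dat τ L h E Λ) {a b : Matrix n n ℂ} (ha : a ∈ Lup L E) (hb : b ∈ Ldo L E) : hs a b = 0 :=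
  D.spec.hs_zero ha.2 hb.2 fun _ _ h1 => by have := h1.1; have := h1.2; linarith

theorem hs_up_ze (D : Dat τ L h E Λ) {a b : Matrix n n ℂ} (ha : a ∈ Lup L E) (hb : b ∈ Ld L h 0) : hs a b = 0 :=
  D.spec.hs_zero ha.2 (D.Ld0_ze hb).2 fun _ _ h1 => by have := h1.1; have := h1.2; linarith

theorem hs_do_ze (D : Dat τ L h E Λ) {a b : Matrix n n ℂ} (ha : a ∈ Ldo L E) (hb : b ∈ Ld L h 0) : hs a b = 0 :=
  D.spec.hs_zero ha.2 (D.Ld0_ze hb).2 fun _ _ h1 => by have := h1.1; have := h1.2; linarith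

theorem onb_J3 (D : Dat τ L h E Λ) (hJ : IsI L J) (hh : h ∈ J) (hx : ONB (Lup L E) x)
    (hw : ONB (J ⊓ Ld L h 0) w) : ONB J (Sum.elim (Sum.elim x (fun i => (x i)ᴴ)) w) := by
  have lu := D.up_le_J hJ hh
  have ld := D.do_le_J hJ hh
  have hd : ONB (Ldo L E) (fun i => (x i)ᴴ) := hx.star' (fun _ ha => D.star_up ha) (fun _ ha => D.star_do ha)
  have h1 : ONB (Lup L E ⊔ Ldo L E) (Sum.elim x (fun i => (x i)ᴴ)) := by
    refine hx.union hd le_sup_left le_sup_right (fun a ha b hb => D.hs_up_do ha hb) ?_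
    intro a ha
    obtain ⟨b, hb, c, hc, e⟩ := Submodule.mem_sup.1 ha
    exact ⟨b, hb, c, hc, e.symm⟩
  refine h1.union hw (sup_le lu ld) inf_le_left ?_ ?_
  · intro a ha b hb
    obtain ⟨a1, ha1, a2, ha2, rfl⟩ := Submodule.mem_sup.1 ha
    rw [hs_add_left, D.hs_up_ze ha1 hb.2, D.hs_do_ze ha2 hb.2, add_zero]
  · intro y hy
    obtain ⟨u, hu, z, hz, d, hd, e⟩ := D.split (hJ.le hy)
    refine ⟨u + d, Submodule.add_mem_sup hu hd, z, ⟨?_, D.ze_Ld0 hz⟩, by rw [e]; abel⟩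
    have e2 : z = y - (u + d) := by rw [e]; abel
    rw [e2]
    exact J.sub_mem hy (J.add_mem (lu hu) (ld hd))

/-- brackets with elements of degree zero -/
theorem up_br0 (D : Dat τ L h E Λ) {a b : Matrix n n ℂ} (ha : a ∈ Lup L E) (hb : b ∈ Ld L h 0) :
    ad a b ∈ Lup L E := by
  refine ⟨D.br _ ha.1 _ hb.1, fun μ ν h1 => ?_⟩
  have c1 := D.Ld0_comm hb μ
  have c2 := D.Ld0_comm hb ν
  have e0 := ha.2 μ ν h1
  rw [ad_apply, mul_sub, sub_mul]
  have e1 : E μ * (a * b) * E ν = E μ * a * E ν * b := by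
    rw [← mul_assoc, mul_assoc _ b, ← c2, ← mul_assoc]
  have e2 : E μ * (b * a) * E ν = b * (E μ * a * E ν) := by
    rw [← mul_assoc, c1]
    simp only [mul_assoc]
  rw [e1, e2, e0, zero_mul, mul_zero, sub_zero]

/-- the relation from the sums over degree zero and over the raising elements -/
theorem rel3 (D : Dat τ L h E Λ) (hJ : IsI L J) (hh : h ∈ J) (hx : ONB (Lup L E) x)
    (hw : ONB (J ⊓ Ld L h 0) w) {c : ℝ}
    (hc : ∀ y ∈ J, c * nrm y = ∑ i, nrm (ad y (x i)) + ∑ i, nrm (ad y (x i)ᴴ) + ∑ j, nrm (ad y (w j))) :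
    c * (Fintype.card κ - Fintype.card ι) ≤ ∑ j, ∑ l, nrm (ad (w j) (w l)) := by
  have hxJ : ∀ i, x i ∈ J := fun i => D.up_le_J hJ hh (hx.mem i)
  have hws : ONB (J ⊓ Ld L h 0) (fun j => (w j)ᴴ) := by
    refine hw.star' ?_ ?_ <;>
    · intro a ha
      refine ⟨hJ.st _ ha.1, ?_⟩
      have := D.Ld_star ha.2
      rwa [neg_zero] at this
  set A : ℝ := ∑ i, ∑ j, nrm (ad (x i) (w j)) with hA
  have hA' : ∑ i, ∑ j, nrm (ad (x i) (w j)ᴴ) = A :=
    Finset.sum_congr rfl fun i _ => hws.indep_nrm hw (ad (x i))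
  -- the sum over `w`
  have e1 : c * Fintype.card κ = 2 * A + ∑ j, ∑ l, nrm (ad (w j) (w l)) := by
    have e2 : ∑ j, c * nrm (w j) = ∑ j, (∑ i, nrm (ad (w j) (x i)) + ∑ i, nrm (ad (w j) (x i)ᴴ) +
      ∑ l, nrm (ad (w j) (w l))) := Finset.sum_congr rfl fun j _ => hc _ (hw.mem j).1
    simp_rw [hw.nrm_one] at e2
    rw [Finset.sum_add_distrib, Finset.sum_add_distrib] at e2
    have e3 : ∑ j, ∑ i, nrm (ad (w j) (x i)) = A := by
      rw [Finset.sum_comm, hA]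
      exact Finset.sum_congr rfl fun i _ => Finset.sum_congr rfl fun j _ => nrm_ad_comm _ _
    have e4 : ∑ j, ∑ i, nrm (ad (w j) (x i)ᴴ) = A := by
      rw [Finset.sum_comm, ← hA']
      refine Finset.sum_congr rfl fun i _ => Finset.sum_congr rfl fun j _ => ?_
      rw [nrm_ad_comm, ← nrm_ad_star, Matrix.conjTranspose_conjTranspose]
    rw [e3, e4] at e2
    simp only [mul_one, Finset.sum_const, Finset.card_univ, nsmul_eq_mul] at e2
    linarith
  -- the sum over `x`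
  have e5 : c * Fintype.card ι = (∑ i, ∑ l, nrm (ad (x i) (x l))) +
      (∑ i, ∑ l, nrm (ad (x i) (x l)ᴴ)) + A := by
    have e2 : ∑ i, c * nrm (x i) = ∑ i, (∑ l, nrm (ad (x i) (x l)) + ∑ l, nrm (ad (x i) (x l)ᴴ) +
      ∑ j, nrm (ad (x i) (w j))) := Finset.sum_congr rfl fun i _ => hc _ (hxJ i)
    simp_rw [hx.nrm_one] at e2
    rw [Finset.sum_add_distrib, Finset.sum_add_distrib] at e2
    simp only [mul_one, Finset.sum_const, Finset.card_univ, nsmul_eq_mul] at e2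
    linarith
  have k1 : ∀ i l j, ‖hs (w j) (ad (x i) (x l)ᴴ)‖ ^ 2 = ‖hs (x l) (ad (x i) (w j)ᴴ)‖ ^ 2 := by
    intro i l j
    rw [hs_ad, hs_star_right, ad_star, Matrix.conjTranspose_conjTranspose, hs_neg_right, norm_neg]
  have k2 : ∀ i j, ad (x i) (w j)ᴴ ∈ Lup L E := by
    intro i j
    exact D.up_br0 (hx.mem i) (hws.mem j).2
  have k3 : ∀ i, ∑ l, ∑ j, ‖hs (w j) (ad (x i) (x l)ᴴ)‖ ^ 2 = ∑ j, nrm (ad (x i) (w j)ᴴ) := by
    intro i
    simp_rw [k1]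
    rw [Finset.sum_comm]
    exact Finset.sum_congr rfl fun j _ => (hx.parseval (k2 i j)).symm
  have hβ : A ≤ ∑ i, ∑ l, nrm (ad (x i) (x l)ᴴ) := by
    rw [← hA']
    refine Finset.sum_le_sum fun i _ => ?_
    rw [← k3]
    exact Finset.sum_le_sum fun l _ => hw.bessel _
  have hγ : 0 ≤ ∑ i, ∑ l, nrm (ad (x i) (x l)) :=
    Finset.sum_nonneg fun i _ => Finset.sum_nonneg fun l _ => nrm_nonneg _
  nlinarith

end Dat

end MH
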