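import Pool.Agent.Helper21.MH.Mul1

/-!
The sharp bound in all levels: norms of blocks, the lower bound for the Casimir scalar, the trace inequality.
-/

open Matrix

namespace MH
variable {n : Type*} [Fintype n] [DecidableEq n]
variable {h : Matrix n n ℂ} {E : ℝ → Matrix n n ℂ} {Λ : Finset ℝ}
  {τ : Matrix n n ℂ →ₗ[ℂ] Matrix n n ℂ} {L J : Submodule ℂ (Matrix n n ℂ)}
variable {ι κ : Type*} [Fintype ι] [DecidableEq ι] [Fintype κ] [DecidableEq κ]
  {x : ι → Matrix n n ℂ} {w : κ → Matrix n n ℂ}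

theorem nrm_mul_proj_le {P : Matrix n n ℂ} (h1 : P * P = P) (h2 : Pᴴ = P) (y : Matrix n n ℂ) :
    nrm (y * P) ≤ nrm y := by
  have e1 : (1 - P) * (1 - P) = 1 - P := by
    rw [sub_mul, mul_sub, mul_sub, h1]
    simp
  have e2 : (1 - P)ᴴ = 1 - P := by rw [Matrix.conjTranspose_sub, Matrix.conjTranspose_one, h2]
  have h3 := nrm_right h1 h2 e1 e2 (Q := 0) (mul_zero _) Matrix.conjTranspose_zero (by rw [add_zero]; abel) y
  have h4 := nrm_nonneg (y * (1 - P))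
  rw [mul_zero, nrm_zero] at h3
  linarith

theorem nrm_proj_mul_le {P : Matrix n n ℂ} (h1 : P * P = P) (h2 : Pᴴ = P) (y : Matrix n n ℂ) :
    nrm (P * y) ≤ nrm y := by
  have h3 := nrm_mul_proj_le h1 h2 yᴴ
  rwa [← nrm_star, Matrix.conjTranspose_mul, Matrix.conjTranspose_conjTranspose, h2, nrm_star] at h3

omit [DecidableEq n] in
theorem nrm_mul_star (P y : Matrix n n ℂ) (h2 : Pᴴ = P) : nrm (P * yᴴ) = nrm (y * P) := by
  rw [← nrm_star, Matrix.conjTranspose_mul, Matrix.conjTranspose_conjTranspose, h2]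

theorem Spec.PQ (S : Spec h E Λ) : Pp E Λ * Qn E Λ = 0 := by
  unfold Pp Qn
  rw [Finset.sum_mul]
  refine Finset.sum_eq_zero fun μ hμ => ?_
  rw [Finset.mul_sum]
  refine Finset.sum_eq_zero fun ν hν => ?_
  rw [S.mul, if_neg]
  have h1 := (Finset.mem_filter.1 hμ).2
  have h2 := (Finset.mem_filter.1 hν).2
  linarith

theorem Spec.P_mul (S : Spec h E Λ) {μ : ℝ} (hμ : μ ∈ Λ.filter (fun μ => 0 < μ)) : Pp E Λ * E μ = E μ := by
  unfold Pp
  rw [Finset.sum_mul, Finset.sum_eq_single μ]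
  · rw [S.mul, if_pos rfl]
  · intro ν _ hν
    rw [S.mul, if_neg hν]
  · intro h'
    exact absurd hμ h'

theorem Spec.mul_P (S : Spec h E Λ) {μ : ℝ} (hμ : μ ∈ Λ.filter (fun μ => 0 < μ)) : E μ * Pp E Λ = E μ := by
  have h1 := congrArg Matrix.conjTranspose (S.P_mul hμ)
  rwa [Matrix.conjTranspose_mul, S.star, show (Pp E Λ)ᴴ = Pp E Λ from S.sum_star _] at h1

theorem Spec.nrm_sum (S : Spec h E Λ) (A : Finset ℝ) (y : Matrix n n ℂ) :
    nrm ((∑ μ ∈ A, E μ) * y) = ∑ μ ∈ A, nrm (E μ * y) := by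
  have h1 : ((nrm ((∑ μ ∈ A, E μ) * y) : ℝ) : ℂ) = ((∑ μ ∈ A, nrm (E μ * y) : ℝ) : ℂ) := by
    rw [nrm_proj (S.sum_mul_sum A) (S.sum_star A), Complex.ofReal_sum, Finset.sum_mul, Matrix.trace_sum]
    refine Finset.sum_congr rfl fun μ _ => ?_
    rw [nrm_proj (by rw [S.mul, if_pos rfl]) (S.star μ)]
  exact_mod_cast h1

namespace Dat

/-- the blocks of a raising element -/
theorem up_blocks (D : Dat τ L h E Λ) {x : Matrix n n ℂ} (hx : x ∈ Lup L E) :
    nrm x = 2 * nrm (Pp E Λ * x * Pp E Λ) + 2 * nrm (Pp E Λ * x * E 0) + nrm (Pp E Λ * x * Qn E Λ) ∧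
    nrm (Pp E Λ * x) = nrm (Pp E Λ * x * Pp E Λ) + nrm (Pp E Λ * x * E 0) + nrm (Pp E Λ * x * Qn E Λ) ∧
    nrm (Pp E Λ * xᴴ) = nrm (Pp E Λ * x * Pp E Λ) ∧ nrm (Qn E Λ * x) = nrm (Pp E Λ * xᴴ) ∧
    nrm (Qn E Λ * xᴴ) = nrm (Pp E Λ * x) := by
  have S := D.spec
  set P := Pp E Λ with hP
  set Q := Qn E Λ with hQ
  have hPP : P * P = P := S.sum_mul_sum _
  have hPs : Pᴴ = P := S.sum_star _
  have hQQ : Q * Q = Q := S.sum_mul_sum _
  have hQs : Qᴴ = Q := S.sum_star _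
  have hZZ : E 0 * E 0 = E 0 := by rw [S.mul, if_pos rfl]
  have hZs : (E 0)ᴴ = E 0 := S.star 0
  have h1 : P + E 0 + Q = 1 := S.one_eq
  have L1 := nrm_left hPP hPs hZZ hZs hQQ hQs h1
  have R1 := nrm_right hPP hPs hZZ hZs hQQ hQs h1
  have e0 : E 0 = ∑ μ ∈ ({0} : Finset ℝ), E μ := by rw [Finset.sum_singleton]
  have z1 : E 0 * x * P = 0 := by
    rw [e0, hP]
    unfold Pp
    refine hx.2.sum_zero fun μ hμ ν hν => ?_
    have := (Finset.mem_filter.1 hν).2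
    rw [Finset.mem_singleton.1 hμ]
    exact not_lt.2 this.le
  have z2 : E 0 * x * E 0 = 0 := hx.2 0 0 (lt_irrefl _)
  have z3 : Q * x * P = 0 := by
    rw [hQ, hP]
    unfold Pp Qn
    refine hx.2.sum_zero fun μ hμ ν hν => ?_
    have h2 := (Finset.mem_filter.1 hν).2
    have h3 := (Finset.mem_filter.1 hμ).2
    exact not_lt.2 (h3.trans h2).le
  have z4 : Q * x * E 0 = 0 := by
    rw [hQ, e0]
    unfold Qn
    refine hx.2.sum_zero fun μ hμ ν hν => ?_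
    have h3 := (Finset.mem_filter.1 hμ).2
    rw [Finset.mem_singleton.1 hν]
    exact not_lt.2 h3.le
  have a1 := L1 x
  have a2 := R1 (P * x)
  have a3 := R1 (E 0 * x)
  have a4 := R1 (Q * x)
  rw [z1, z2] at a3
  rw [z3, z4] at a4
  rw [nrm_zero] at a3 a4
  have a5 : nrm (P * xᴴ) = nrm (P * x * P) := by
    have b1 : nrm (P * xᴴ) = nrm (x * P) := nrm_mul_star _ _ hPs
    have b2 : x * P = P * x * P := by
      have b3 : x * P = (P + E 0 + Q) * (x * P) := by rw [h1, one_mul]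
      rw [b3, add_mul, add_mul, ← mul_assoc, ← mul_assoc, ← mul_assoc, z1, z3, add_zero, add_zero]
    rw [b1]
    exact congrArg nrm b2
  have t1 : nrm (Q * x * Q) = nrm (P * x * P) := by
    rw [← D.nrm_tau (P * x * P), D.inv.mul, D.inv.mul, D.sk x hx.1, D.tauP, ← hQ, neg_mul, mul_neg, nrm_neg,
      mul_assoc]
  have t2 : nrm (E 0 * x * Q) = nrm (P * x * E 0) := by
    rw [← D.nrm_tau (P * x * E 0), D.inv.mul, D.inv.mul, D.sk x hx.1, D.tauP, D.tauZ, ← hQ, neg_mul, mul_neg,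
      nrm_neg, mul_assoc]
  have t3 : nrm (Q * x) = nrm (P * xᴴ) := by
    rw [← D.nrm_tau (Q * x), D.inv.mul, D.sk x hx.1, D.tauQ, neg_mul, nrm_neg, nrm_mul_star _ _ hPs]
  have t4 : nrm (Q * xᴴ) = nrm (P * x) := by
    rw [nrm_mul_star _ _ hQs, ← D.nrm_tau (x * Q), D.inv.mul, D.sk x hx.1, D.tauQ, mul_neg, nrm_neg]
  rw [t1] at a4
  rw [t2] at a3
  exact ⟨by linarith, a2, a5, t3, t4⟩

theorem up_alpha (D : Dat τ L h E Λ) {x : Matrix n n ℂ} (hx : x ∈ Lup L E) :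
    hs (Pp E Λ - Qn E Λ) (ad x xᴴ) = ((2 * (nrm (Pp E Λ * x) - nrm (Pp E Λ * xᴴ)) : ℝ) : ℂ) := by
  have S := D.spec
  obtain ⟨-, -, -, t3, t4⟩ := D.up_blocks hx
  have hPP : Pp E Λ * Pp E Λ = Pp E Λ := S.sum_mul_sum _
  have hPs : (Pp E Λ)ᴴ = Pp E Λ := S.sum_star _
  have hQQ : Qn E Λ * Qn E Λ = Qn E Λ := S.sum_mul_sum _
  have hQs : (Qn E Λ)ᴴ = Qn E Λ := S.sum_star _
  have e1 := nrm_proj hPP hPs x
  have e2 := nrm_proj hPP hPs xᴴ
  have e3 := nrm_proj hQQ hQs x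
  have e4 := nrm_proj hQQ hQs xᴴ
  rw [Matrix.conjTranspose_conjTranspose] at e2 e4
  rw [t3] at e3
  rw [t4] at e4
  unfold hs
  rw [Matrix.conjTranspose_sub, hPs, hQs, ad_apply, sub_mul, mul_sub, mul_sub, Matrix.trace_sub, Matrix.trace_sub,
    Matrix.trace_sub, ← e1, ← e2, ← e3, ← e4]
  push_cast
  ring

theorem nrm_PQ (D : Dat τ L h E Λ) : nrm (Pp E Λ - Qn E Λ) = 2 * (Pp E Λ).rank := by
  have S := D.spec
  have hPP : Pp E Λ * Pp E Λ = Pp E Λ := S.sum_mul_sum _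
  have hPs : (Pp E Λ)ᴴ = Pp E Λ := S.sum_star _
  have hQQ : Qn E Λ * Qn E Λ = Qn E Λ := S.sum_mul_sum _
  have hQs : (Qn E Λ)ᴴ = Qn E Λ := S.sum_star _
  have e1 : nrm (Pp E Λ) = (Pp E Λ).rank := by
    unfold nrm hs
    rw [hPs, hPP, trace_eq_rank hPP, Complex.natCast_re]
  have e2 : nrm (Qn E Λ) = (Pp E Λ).rank := by
    unfold nrm hs
    rw [hQs, hQQ, D.rank_Q, trace_eq_rank hPP, Complex.natCast_re]
  have e3 : hs (Pp E Λ) (Qn E Λ) = 0 := by
    unfold hs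
    rw [hPs, S.PQ, Matrix.trace_zero]
  rw [nrm_sub, e1, e2, e3, Complex.zero_re]
  ring

/-- the lower bound for the Casimir scalar -/
theorem rel6 (D : Dat τ L h E Λ) (hJ : IsI L J) (hh : h ∈ J) (hx : ONB (Lup L E) x)
    (hw : ONB (J ⊓ Ld L h 0) w) {c : ℝ} (hc0 : 0 ≤ c)
    (hc : ∀ y ∈ J, c * nrm y = ∑ i, nrm (ad y (x i)) + ∑ i, nrm (ad y (x i)ᴴ) + ∑ j, nrm (ad y (w j))) :
    (∑ i, 2 * (nrm (Pp E Λ * x i) - nrm (Pp E Λ * (x i)ᴴ))) ^ 2 ≤ c * (Pp E Λ).rank * Fintype.card ι := by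
  have hz := D.onb_J3 hJ hh hx hw
  set z := Sum.elim (Sum.elim x (fun i => (x i)ᴴ)) w with hzdef
  have hd : ONB (Ldo L E) (fun i => (x i)ᴴ) := hx.star' (fun _ ha => D.star_up ha) (fun _ ha => D.star_do ha)
  set G := Pp E Λ - Qn E Λ with hG
  set y : Matrix n n ℂ := ∑ a, hs (z a) G • z a with hy
  have hyJ : y ∈ J := J.sum_mem fun a _ => J.smul_mem _ (hz.mem a)
  have h1 : ∀ a, hs (z a) y = hs (z a) G := by
    intro a
    rw [hy, hs_sum_right]
    simp_rw [hs_smul_right, hz.orth]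
    simp
  have h2 : ∀ v ∈ J, hs y v = hs G v := by
    intro v hv
    rw [hz.expand hv G, hy, hs_sum_left]
    refine Finset.sum_congr rfl fun a _ => ?_
    rw [hs_smul_left, hs_conj, mul_comm]
  have h3 : nrm y ≤ 2 * (Pp E Λ).rank := by
    rw [hz.parseval hyJ, ← D.nrm_PQ]
    simp_rw [h1]
    exact hz.bessel G
  set α : ι → ℝ := fun i => 2 * (nrm (Pp E Λ * x i) - nrm (Pp E Λ * (x i)ᴴ)) with hα
  have hbr : ∀ i, ad (x i) (x i)ᴴ ∈ J := fun i =>
    hJ.br _ (hx.mem i).1 _ (hJ.st _ (D.up_le_J hJ hh (hx.mem i)))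
  have h4 : ∀ i, hs y (ad (x i) (x i)ᴴ) = (α i : ℂ) := by
    intro i
    rw [h2 _ (hbr i), hG, D.up_alpha (hx.mem i)]
  have h5 : ∀ i, α i ^ 2 ≤ nrm (ad y (x i)) := by
    intro i
    have e1 : hs (x i) (ad y (x i)) = hs (ad (x i) (x i)ᴴ) y := by
      rw [ad_anti y (x i), hs_neg_right, hs_ad, ad_anti (x i)ᴴ (x i), hs_neg_left, neg_neg]
    have e2 : ‖hs (x i) (ad y (x i))‖ ^ 2 = α i ^ 2 := by
      rw [e1, ← hs_conj, h4, norm_star, Complex.norm_real, Real.norm_eq_abs, sq_abs]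
    rw [← e2]
    refine le_trans ?_ (hx.bessel (ad y (x i)))
    exact Finset.single_le_sum (f := fun a => ‖hs (x a) (ad y (x i))‖ ^ 2) (fun a _ => by positivity)
      (Finset.mem_univ i)
  have h6 : ∀ i, α i ^ 2 ≤ nrm (ad y (x i)ᴴ) := by
    intro i
    have e1 : hs (x i)ᴴ (ad y (x i)ᴴ) = -hs (ad (x i) (x i)ᴴ) y := by
      rw [ad_anti y (x i)ᴴ, hs_neg_right, hs_ad, Matrix.conjTranspose_conjTranspose]
    have e2 : ‖hs (x i)ᴴ (ad y (x i)ᴴ)‖ ^ 2 = α i ^ 2 := by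
      rw [e1, norm_neg, ← hs_conj, h4, norm_star, Complex.norm_real, Real.norm_eq_abs, sq_abs]
    rw [← e2]
    refine le_trans ?_ (hd.bessel (ad y (x i)ᴴ))
    exact Finset.single_le_sum (f := fun a => ‖hs (x a)ᴴ (ad y (x i)ᴴ)‖ ^ 2) (fun a _ => by positivity)
      (Finset.mem_univ i)
  have h7 : 2 * ∑ i, α i ^ 2 ≤ c * nrm y := by
    rw [hc y hyJ]
    have e1 := Finset.sum_le_sum fun i (_ : i ∈ Finset.univ) => h5 i
    have e2 := Finset.sum_le_sum fun i (_ : i ∈ Finset.univ) => h6 i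
    have e3 : 0 ≤ ∑ j, nrm (ad y (w j)) := Finset.sum_nonneg fun j _ => nrm_nonneg _
    linarith
  have h8 : c * nrm y ≤ c * (2 * (Pp E Λ).rank) := mul_le_mul_of_nonneg_left h3 hc0
  have h9 : (∑ i, α i) ^ 2 ≤ Fintype.card ι * ∑ i, α i ^ 2 := by
    have := sq_sum_le_card_mul_sum_sq (s := (Finset.univ : Finset ι)) (f := α)
    rwa [Finset.card_univ] at this
  refine h9.trans ?_
  have h10 : (Fintype.card ι : ℝ) * ∑ i, α i ^ 2 ≤ Fintype.card ι * (c * (Pp E Λ).rank) := by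
    apply mul_le_mul_of_nonneg_left _ (Nat.cast_nonneg _)
    linarith
  linarith

/-- the inner blocks -/
theorem up_R (D : Dat τ L h E Λ) {a : ℝ} (ha : a ∈ Λ.filter (fun μ => 0 < μ)) {x : Matrix n n ℂ}
    (hx : x ∈ Lup L E) :
    nrm (Pp E Λ * x * Pp E Λ) ≤ nrm ((∑ μ ∈ (Λ.filter (fun μ => 0 < μ)).erase a, E μ) * x) +
      nrm ((∑ μ ∈ (Λ.filter (fun μ => 0 < μ)).erase a, E μ) * xᴴ) := by
  have S := D.spec
  set R := ∑ μ ∈ (Λ.filter (fun μ => 0 < μ)).erase a, E μ with hR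
  have hRR : R * R = R := S.sum_mul_sum _
  have hRs : Rᴴ = R := S.sum_star _
  have hEE : E a * E a = E a := by rw [S.mul, if_pos rfl]
  have hPP : Pp E Λ * Pp E Λ = Pp E Λ := S.sum_mul_sum _
  have hPs : (Pp E Λ)ᴴ = Pp E Λ := S.sum_star _
  have hsum : E a + R = Pp E Λ := by
    unfold Pp
    rw [hR]
    exact Finset.add_sum_erase _ _ ha
  have e1 : nrm (Pp E Λ * x * Pp E Λ) = nrm (E a * x * Pp E Λ) + nrm (R * x * Pp E Λ) := by
    rw [mul_assoc, mul_assoc, mul_assoc]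
    unfold Pp
    rw [S.nrm_sum, ← Finset.add_sum_erase _ _ ha, hR, S.nrm_sum]
  have e2 : E a * x * Pp E Λ = E a * (x * R) := by
    rw [← hsum, mul_add, hx.2 a a (lt_irrefl _), zero_add, mul_assoc]
  rw [e1, e2]
  have e3 := nrm_proj_mul_le hEE (S.star a) (x * R)
  have e4 := nrm_mul_proj_le hPP hPs (R * x)
  rw [nrm_mul_star R x hRs]
  linarith

theorem P_comm (D : Dat τ L h E Λ) {y : Matrix n n ℂ} (hy : y ∈ Ld L h 0) : Pp E Λ * y = y * Pp E Λ := by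
  unfold Pp
  rw [Finset.sum_mul, Finset.mul_sum]
  exact Finset.sum_congr rfl fun μ _ => D.Ld0_comm hy μ

/-- the trace inequality -/
theorem trace3 (D : Dat τ L h E Λ) (hK : Module.finrank ℂ (KK L E) ≤ 1) (hJ : IsI L J)
    (hw : ONB (J ⊓ Ld L h 0) w) {F : ℕ} (hF : ∀ μ ∈ Λ.filter (fun μ => 0 < μ), (E μ).rank ≤ F)
    {v : Matrix n n ℂ} (hv : v ∈ J ⊓ Ld L h 0) :
    ∑ a, nrm (ad v (w a)) ≤ 2 * F * nrm (Pp E Λ * v) -
      2 * ∑ μ ∈ Λ.filter (fun μ => 0 < μ), ‖(E μ * v).trace‖ ^ 2 := by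
  have S := D.spec
  set P := Pp E Λ with hP
  have hPP : P * P = P := S.sum_mul_sum _
  have hPs : Pᴴ = P := S.sum_star _
  have hbr0 : ∀ a ∈ J ⊓ Ld L h 0, ∀ b ∈ J ⊓ Ld L h 0, ad a b ∈ J ⊓ Ld L h 0 := by
    intro a ha b hb
    refine ⟨hJ.br _ ha.2.1 _ hb.1, ?_⟩
    have := Dat.Ld_bracket D.br ha.2 hb.2
    rwa [add_zero] at this
  have hst0 : ∀ a ∈ J ⊓ Ld L h 0, aᴴ ∈ J ⊓ Ld L h 0 := by
    intro a ha
    refine ⟨hJ.st _ ha.1, ?_⟩
    have := D.Ld_star ha.2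
    rwa [neg_zero] at this
  have hcomm : ∀ a ∈ J ⊓ Ld L h 0, P * a = a * P := fun a ha => D.P_comm ha.2
  have hPad : ∀ a ∈ J ⊓ Ld L h 0, ∀ b ∈ J ⊓ Ld L h 0, P * ad a b = ad (P * a) (P * b) := by
    intro a ha b hb
    rw [ad_apply, ad_apply]
    have e1 : P * a * (P * b) = P * (a * b) := by
      rw [hcomm a ha, mul_assoc a P, ← mul_assoc P P, hPP, ← mul_assoc, ← hcomm a ha, mul_assoc]
    have e2 : P * b * (P * a) = P * (b * a) := by
      rw [hcomm b hb, mul_assoc b P, ← mul_assoc P P, hPP, ← mul_assoc, ← hcomm b hb, mul_assoc]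
    rw [e1, e2, mul_sub]
  let A : Submodule ℂ (Matrix n n ℂ) := (J ⊓ Ld L h 0).map (LinearMap.mulLeft ℂ P)
  obtain ⟨u, hu⟩ := exists_onb A
  have hlift : ∀ j, ∃ y ∈ J ⊓ Ld L h 0, P * y = u j := by
    intro j
    obtain ⟨y, hy, e⟩ := Submodule.mem_map.1 (hu.mem j)
    exact ⟨y, hy, e⟩
  choose g hg hgu using hlift
  have hexp : ∀ y ∈ J ⊓ Ld L h 0, ad v y = ∑ j, hs (u j) (P * y) • ad v (g j) := by
    intro y hy
    have h1 : P * y = ∑ j, hs (u j) (P * y) • u j := hu.exp _ (Submodule.mem_map.2 ⟨y, hy, rfl⟩)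
    set y' := ∑ j, hs (u j) (P * y) • g j with hy'
    have h2 : y' ∈ J ⊓ Ld L h 0 := Submodule.sum_mem _ fun j _ => Submodule.smul_mem _ _ (hg j)
    have h3 : P * (y - y') = 0 := by
      rw [mul_sub, hy', Finset.mul_sum]
      simp_rw [mul_smul_comm, hgu]
      rw [← h1, sub_self]
    have h4 : y - y' ∈ KK L E :=
      D.mem_KK_of (D.Ld0_ze ((Ld L h 0).sub_mem hy.2 h2.2)) h3
    have h5 := D.KK_kill hK hv.2 h4
    rw [map_sub, sub_eq_zero] at h5
    rw [h5, hy', map_sum]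
    exact Finset.sum_congr rfl fun j _ => map_smul _ _ _
  have hvs := hst0 v hv
  have hPvs : (P * v)ᴴ = P * vᴴ := by
    rw [Matrix.conjTranspose_mul, hPs, hcomm _ hvs]
  have key : ((∑ a, nrm (ad v (w a)) : ℝ) : ℂ) = ((∑ j, nrm (ad (P * v) (u j)) : ℝ) : ℂ) := by
    rw [Complex.ofReal_sum, Complex.ofReal_sum]
    have e1 : ∀ a, ((nrm (ad v (w a)) : ℝ) : ℂ) = ∑ j, hs (u j) (P * w a) * hs (w a) (ad vᴴ (ad v (g j))) := by
      intro a
      have e0 : ∀ X : Matrix n n ℂ, hs X (ad v (w a)) = ∑ j, hs (u j) (P * w a) * hs X (ad v (g j)) := by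
        intro X
        rw [hexp (w a) (hw.mem a), hs_sum_right]
        exact Finset.sum_congr rfl fun j _ => hs_smul_right _ _ _
      rw [← hs_self, e0]
      refine Finset.sum_congr rfl fun j _ => ?_
      rw [hs_ad (w a), Matrix.conjTranspose_conjTranspose]
    simp_rw [e1]
    rw [Finset.sum_comm]
    refine Finset.sum_congr rfl fun j _ => ?_
    have h1 : ad vᴴ (ad v (g j)) ∈ J ⊓ Ld L h 0 := hbr0 _ hvs _ (hbr0 _ hv _ (hg j))
    have e2 : P * ad vᴴ (ad v (g j)) = ∑ a, hs (w a) (ad vᴴ (ad v (g j))) • (P * w a) := by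
      conv_lhs => rw [hw.exp _ h1]
      rw [Finset.mul_sum]
      exact Finset.sum_congr rfl fun a _ => mul_smul_comm _ _ _
    have e3 : hs (u j) (P * ad vᴴ (ad v (g j))) = ∑ a, hs (u j) (P * w a) * hs (w a) (ad vᴴ (ad v (g j))) := by
      rw [e2, hs_sum_right]
      exact Finset.sum_congr rfl fun a _ => by rw [hs_smul_right, mul_comm]
    rw [← e3, hPad _ hvs _ (hbr0 _ hv _ (hg j)), hPad _ hv _ (hg j), hgu, ← hPvs, hs_ad,
      Matrix.conjTranspose_conjTranspose, hs_self]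
  have key2 : ∑ a, nrm (ad v (w a)) = ∑ j, nrm (ad (P * v) (u j)) := by exact_mod_cast key
  rw [key2]
  -- split into the levels
  have hPu : ∀ j, P * u j = u j := fun j => by rw [← hgu, ← mul_assoc, hPP]
  have huP : ∀ j, u j * P = u j := fun j => by rw [← hgu, hcomm _ (hg j), mul_assoc, hPP]
  have hsplit : ∀ j, nrm (ad (P * v) (u j)) =
      ∑ μ ∈ Λ.filter (fun μ => 0 < μ), nrm (E μ * v * u j * E μ - E μ * u j * (E μ * v)) := by
    intro j
    have e1 : ad (P * v) (u j) = P * ad (P * v) (u j) := by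
      have a1 : P * (P * v * u j) = P * v * u j := by rw [← mul_assoc, ← mul_assoc, hPP]
      have a2 : P * (u j * (P * v)) = u j * (P * v) := by rw [← mul_assoc, hPu]
      rw [ad_apply, mul_sub, a1, a2]
    rw [e1]
    conv_lhs => rw [hP]
    unfold Pp
    rw [S.nrm_sum]
    refine Finset.sum_congr rfl fun μ hμ => ?_
    have cv := D.Ld0_comm hv.2 μ
    have cu : E μ * u j = u j * E μ := by
      have cg := D.Ld0_comm (hg j).2 μ
      have c1 := S.mul_P hμ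
      have c2 := S.P_mul hμ
      rw [← hP] at c1 c2
      rw [← hgu, ← mul_assoc, c1, cg, ← c2, ← mul_assoc, ← hcomm _ (hg j), c2]
    have hEE : E μ * E μ = E μ := by rw [S.mul, if_pos rfl]
    have f1 : E μ * (P * v * u j) = E μ * v * u j * E μ := by
      have c1 := S.mul_P hμ
      rw [← hP] at c1
      calc E μ * (P * v * u j) = E μ * P * v * u j := by simp only [mul_assoc]
        _ = E μ * v * u j := by rw [c1]
        _ = E μ * (E μ * v) * u j := by rw [← mul_assoc, hEE]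
        _ = E μ * (v * E μ) * u j := by rw [← cv]
        _ = E μ * v * (E μ * u j) := by simp only [mul_assoc]
        _ = E μ * v * u j * E μ := by rw [cu]; simp only [mul_assoc]
    have f2 : E μ * (u j * (P * v)) = E μ * u j * (E μ * v) := by
      calc E μ * (u j * (P * v)) = E μ * (u j * P) * v := by simp only [mul_assoc]
        _ = E μ * u j * v := by rw [huP]
        _ = E μ * (E μ * u j) * v := by rw [← mul_assoc (E μ) (E μ), hEE]
        _ = E μ * (u j * E μ) * v := by rw [← cu]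
        _ = E μ * u j * (E μ * v) := by simp only [mul_assoc]
    rw [ad_apply, mul_sub]
    have f1' : E μ * (P * v * u j) = E μ * v * u j * E μ := f1
    exact congrArg nrm (congrArg₂ (· - ·) f1' f2)
  simp_rw [hsplit]
  rw [Finset.sum_comm]
  have hb : ∀ μ ∈ Λ.filter (fun μ => 0 < μ), ∑ j, nrm (E μ * v * u j * E μ - E μ * u j * (E μ * v)) ≤
      2 * F * nrm (E μ * v) - 2 * ‖(E μ * v).trace‖ ^ 2 := by
    intro μ hμ
    have hEE : E μ * E μ = E μ := by rw [S.mul, if_pos rfl]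
    have h1 := gl_bound (P := E μ) (a := E μ * v) hEE (S.star μ) (by rw [← mul_assoc, hEE]) hu
    refine h1.trans ?_
    have h2 : ((E μ).rank : ℝ) ≤ F := by exact_mod_cast hF μ hμ
    have h3 := nrm_nonneg (E μ * v)
    nlinarith
  refine (Finset.sum_le_sum hb).trans ?_
  rw [Finset.sum_sub_distrib, ← Finset.mul_sum, ← Finset.mul_sum, ← S.nrm_sum]
  exact le_refl _

end Dat

end MH
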