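import Pool.Agent.Helper21.MH.Hodge2

/-!
Weight different from zero: the Mumford-Tate group contains the scalars.
-/

set_option linter.unusedSectionVars false

open Matrix

namespace MH

variable {n : Type*} [Fintype n] [DecidableEq n]
variable {m : ℤ} {Q : Matrix n n ℚ} {S : Finset ℤ} {P : ℤ → Matrix n n ℂ}

theorem IsHS.sum_mul_sum (H : IsHS m Q S P) (c d : ℤ → ℂ) :
    (∑ p ∈ S, c p • P p) * (∑ p ∈ S, d p • P p) = ∑ p ∈ S, (c p * d p) • P p := by
  refine H.ext_right fun q _ => ?_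
  rw [mul_assoc, H.sum_mul_P d, mul_smul_comm, H.sum_mul_P c, H.sum_mul_P (fun p => c p * d p), smul_smul, mul_comm]

theorem cochar_mem (H : IsHS m Q S P) {z : ℂ} (hz : z ≠ 0) : cochar S P z ∈ MTm S P := by
  refine ⟨cochar S P z⁻¹, ?_, fun a b t ht => ht z hz⟩
  unfold cochar
  rw [H.sum_mul_sum (fun p => z ^ p) (fun p => z⁻¹ ^ p), ← H.sum]
  refine Finset.sum_congr rfl fun p _ => ?_
  rw [← mul_zpow, mul_inv_cancel₀ hz, _root_.one_zpow, one_smul]

theorem cochar_conj (H : IsHS m Q S P) (z : ℂ) :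
    (cochar S P z).map (starRingEnd ℂ) = ∑ p ∈ S, (starRingEnd ℂ z) ^ (2 * m - p) • P p := by
  have h1 : (cochar S P z).map (starRingEnd ℂ) = ∑ p ∈ S, (starRingEnd ℂ z) ^ p • P (2 * m - p) := by
    unfold cochar
    have h2 : ∀ p, P (2 * m - p) = (P p).map (starRingEnd ℂ) := fun p => (H.conj p).symm
    simp_rw [h2]
    ext i j
    simp [Matrix.sum_apply]
  rw [h1, H.reflect (fun p => (starRingEnd ℂ z) ^ p)]

theorem cochar_conj_mem (H : IsHS m Q S P) {z : ℂ} (hz : z ≠ 0) :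
    (∑ p ∈ S, z ^ (2 * m - p) • P p) ∈ MTm S P := by
  set w := starRingEnd ℂ z with hw
  have hw0 : w ≠ 0 := by
    intro h
    apply hz
    have := congrArg (starRingEnd ℂ) h
    rwa [hw, Complex.conj_conj, map_zero] at this
  have e1 : (∑ p ∈ S, z ^ (2 * m - p) • P p) = (cochar S P w).map (starRingEnd ℂ) := by
    rw [cochar_conj H, hw, Complex.conj_conj]
  have e2 : (∑ p ∈ S, z⁻¹ ^ (2 * m - p) • P p) = (cochar S P w⁻¹).map (starRingEnd ℂ) := by
    rw [cochar_conj H, hw, map_inv₀, Complex.conj_conj]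
  refine ⟨∑ p ∈ S, z⁻¹ ^ (2 * m - p) • P p, ?_, fun a b t ht => ?_⟩
  · rw [H.sum_mul_sum (fun p => z ^ (2 * m - p)) (fun p => z⁻¹ ^ (2 * m - p)), ← H.sum]
    refine Finset.sum_congr rfl fun p _ => ?_
    rw [← mul_zpow, mul_inv_cancel₀ hz, _root_.one_zpow, one_smul]
  · rw [e1, e2]
    funext i
    have h1 := actF_map (starRingEnd ℂ) (slot a b (cochar S P w) (cochar S P w⁻¹)) (tC t) i
    rw [ht w hw0, tC_conj] at h1
    have e3 : (fun j => starRingEnd ℂ (tC t j)) = tC t := funext fun j => tC_conj t j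
    have e4 : slot a b ((cochar S P w).map (starRingEnd ℂ)) ((cochar S P w⁻¹).map (starRingEnd ℂ)) =
        fun k => (slot a b (cochar S P w) (cochar S P w⁻¹) k).map (starRingEnd ℂ) := by
      funext k
      rcases k with k | k
      · rfl
      · rfl
    rw [e4]
    rw [e3] at h1
    exact h1

theorem scal_mem (H : IsHS m Q S P) (hm : m ≠ 0) {w : ℂ} (hw : w ≠ 0) : w • (1 : Matrix n n ℂ) ∈ MTm S P := by
  have hk : 0 < (2 * m).natAbs := by omega
  obtain ⟨z, hz⟩ := IsAlgClosed.exists_pow_nat_eq w hk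
  have hz0 : z ≠ 0 := by
    rintro rfl
    rw [zero_pow (by omega)] at hz
    exact hw hz.symm
  have key : ∀ y : ℂ, y ≠ 0 → (y ^ (2 * m)) • (1 : Matrix n n ℂ) ∈ MTm S P := by
    intro y hy
    have h1 := (MTm S P).mul_mem (cochar_mem H hy) (cochar_conj_mem H hy)
    have h2 : cochar S P y * (∑ p ∈ S, y ^ (2 * m - p) • P p) = (y ^ (2 * m)) • (1 : Matrix n n ℂ) := by
      unfold cochar
      rw [H.sum_mul_sum (fun p => y ^ p) (fun p => y ^ (2 * m - p)), ← H.sum, Finset.smul_sum]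
      refine Finset.sum_congr rfl fun p _ => ?_
      rw [← zpow_add₀ hy]
      congr 2
      ring
    rwa [h2] at h1
  rcases Int.natAbs_eq (2 * m) with h | h
  · have h1 := key z hz0
    rw [h, zpow_natCast, hz] at h1
    exact h1
  · have h1 := key z⁻¹ (inv_ne_zero hz0)
    rw [h, _root_.zpow_neg, _root_.inv_zpow, inv_inv, zpow_natCast, hz] at h1
    exact h1

/-- The Mumford-Tate group contains the products of isometries of determinant one with scalars. -/
theorem zso_le_MT (H : IsHS m Q S P)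
    (hSO : ∀ g : GL n ℂ, (g : Matrix n n ℂ)ᵀ * toC Q * (g : Matrix n n ℂ) = toC Q → (g : Matrix n n ℂ).det = 1 →
      g ∈ MT S P) {g : GL n ℂ} {z : ℂ} (hm : m = 0 → z = 1)
    (hg : (g : Matrix n n ℂ)ᵀ * toC Q * (g : Matrix n n ℂ) = z ^ 2 • toC Q)
    (hdet : (g : Matrix n n ℂ).det = z ^ Fintype.card n) : g ∈ MT S P := by
  by_cases hm0 : m = 0
  · rw [hm hm0, one_pow, one_smul] at hg
    rw [hm hm0, one_pow] at hdet
    exact hSO g hg hdet
  rcases isEmpty_or_nonempty n with hn | hn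
  · have h1 : g = 1 := by
      apply Units.ext
      ext i
      exact hn.elim i
    rw [h1]
    exact (MT S P).one_mem
  have hz0 : z ≠ 0 := by
    rintro rfl
    have h1 : (g : Matrix n n ℂ) * ((g⁻¹ : GL n ℂ) : Matrix n n ℂ) = 1 := by
      rw [← Units.val_mul, mul_inv_cancel, Units.val_one]
    have h2 := congrArg Matrix.det h1
    rw [Matrix.det_mul, hdet, zero_pow Fintype.card_ne_zero, zero_mul, Matrix.det_one] at h2
    exact zero_ne_one h2
  have hsc : ∀ w : ℂ, w ≠ 0 → ∀ f : GL n ℂ, ∃ f' : GL n ℂ, (f' : Matrix n n ℂ) = w • (f : Matrix n n ℂ) := by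
    intro w hw f
    refine ⟨⟨w • (f : Matrix n n ℂ), w⁻¹ • ((f⁻¹ : GL n ℂ) : Matrix n n ℂ), ?_, ?_⟩, rfl⟩
    · rw [smul_mul_smul_comm, mul_inv_cancel₀ hw, one_smul, ← Units.val_mul, mul_inv_cancel, Units.val_one]
    · rw [smul_mul_smul_comm, inv_mul_cancel₀ hw, one_smul, ← Units.val_mul, inv_mul_cancel, Units.val_one]
  obtain ⟨g₀, hg₀⟩ := hsc z⁻¹ (inv_ne_zero hz0) g
  have h1 : (g₀ : Matrix n n ℂ)ᵀ * toC Q * (g₀ : Matrix n n ℂ) = toC Q := by
    rw [hg₀, Matrix.transpose_smul, smul_mul_assoc, smul_mul_assoc, mul_smul_comm, smul_smul, hg, smul_smul]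
    have : z⁻¹ * z⁻¹ * z ^ 2 = 1 := by field_simp
    rw [this, one_smul]
  have h2 : (g₀ : Matrix n n ℂ).det = 1 := by
    rw [hg₀, Matrix.det_smul, hdet, ← mul_pow, inv_mul_cancel₀ hz0, one_pow]
  have h3 := hSO g₀ h1 h2
  obtain ⟨z₁, hz₁⟩ := hsc z hz0 1
  have h4 : z₁ ∈ MT S P := by
    apply mem_MT_of
    rw [hz₁, Units.val_one]
    exact scal_mem H hm0 hz0
  have h5 : g = z₁ * g₀ := by
    apply Units.ext
    rw [Units.val_mul, hz₁, hg₀, Units.val_one, smul_mul_smul_comm, mul_inv_cancel₀ hz0, one_smul, one_mul]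
  rw [h5]
  exact (MT S P).mul_mem h4 h3

end MH
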