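import Pool.Agent.Helper98.MH.CD

/-!
Products of two reflections are hyperbolic torus elements (or products of two such).
-/

set_option linter.unusedSectionVars false

open Matrix

namespace MH

variable {n : Type*} [Fintype n] [DecidableEq n]

/-- the torus element of a hyperbolic pair -/
noncomputable def hyp (Q : Matrix n n ℂ) (e f : n → ℂ) (z : ℂ) : Matrix n n ℂ :=
  1 + (z - 1) • vecMulVec e (Q *ᵥ f) + (z⁻¹ - 1) • vecMulVec f (Q *ᵥ e)

theorem vmv_mul (u v w x : n → ℂ) : vecMulVec u v * vecMulVec w x = (v ⬝ᵥ w) • vecMulVec u x := by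
  ext i j
  simp only [Matrix.mul_apply, vecMulVec_apply, Matrix.smul_apply, smul_eq_mul, dotProduct, Finset.sum_mul]
  refine Finset.sum_congr rfl fun k _ => by ring

theorem dot_symm {Q : Matrix n n ℂ} (hs : Qᵀ = Q) (u v : n → ℂ) : u ⬝ᵥ (Q *ᵥ v) = v ⬝ᵥ (Q *ᵥ u) := by
  rw [Matrix.dotProduct_mulVec, ← Matrix.mulVec_transpose, hs, dotProduct_comm]

/-- two reflections whose plane is nondegenerate -/
theorem two_refl {Q : Matrix n n ℂ} (hs : Qᵀ = Q) {u v : n → ℂ} (ha : u ⬝ᵥ (Q *ᵥ u) ≠ 0) (hb : v ⬝ᵥ (Q *ᵥ v) ≠ 0)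
    (hd : (u ⬝ᵥ (Q *ᵥ v)) ^ 2 - (u ⬝ᵥ (Q *ᵥ u)) * (v ⬝ᵥ (Q *ᵥ v)) ≠ 0) :
    ∃ (e f : n → ℂ) (z : ℂ), e ⬝ᵥ (Q *ᵥ e) = 0 ∧ f ⬝ᵥ (Q *ᵥ f) = 0 ∧ e ⬝ᵥ (Q *ᵥ f) = 1 ∧ z ≠ 0 ∧
      refl Q u * refl Q v = hyp Q e f z := by
  obtain ⟨r, hr⟩ := IsAlgClosed.exists_eq_mul_self ((u ⬝ᵥ (Q *ᵥ v)) ^ 2 - (u ⬝ᵥ (Q *ᵥ u)) * (v ⬝ᵥ (Q *ᵥ v)))
  have hvu : v ⬝ᵥ (Q *ᵥ u) = u ⬝ᵥ (Q *ᵥ v) := dot_symm hs v u
  set a := u ⬝ᵥ (Q *ᵥ u) with hadef
  set b := v ⬝ᵥ (Q *ᵥ v) with hbdef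
  set c := u ⬝ᵥ (Q *ᵥ v) with hcdef
  have hr0 : r ≠ 0 := by
    rintro rfl
    exact hd (by rw [hr]; ring)
  have hab : (c + r) * (c - r) = a * b := by linear_combination hr
  have h1 : c + r ≠ 0 := fun h => mul_ne_zero ha hb (by rw [← hab, h, zero_mul])
  have h2 : c - r ≠ 0 := fun h => mul_ne_zero ha hb (by rw [← hab, h, mul_zero])
  have haeq : a = (c + r) * (c - r) / b := by rw [hab]; field_simp
  have dl : ∀ (x y : n → ℂ) (s : ℂ), (x - s • y) ⬝ᵥ (Q *ᵥ (x - s • y)) =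
      x ⬝ᵥ (Q *ᵥ x) - s * (x ⬝ᵥ (Q *ᵥ y)) - s * (y ⬝ᵥ (Q *ᵥ x)) + s * s * (y ⬝ᵥ (Q *ᵥ y)) := by
    intro x y s
    rw [Matrix.mulVec_sub, Matrix.mulVec_smul, sub_dotProduct, dotProduct_sub, dotProduct_sub, smul_dotProduct,
      smul_dotProduct, dotProduct_smul, dotProduct_smul]
    simp only [smul_eq_mul]
    ring
  refine ⟨u - ((c + r) / b) • v, (-b / (2 * r ^ 2)) • (u - ((c - r) / b) • v), (c - r) / (c + r), ?_, ?_, ?_,
    div_ne_zero h2 h1, ?_⟩
  · rw [dl, hvu, ← hadef, ← hbdef, haeq]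
    field_simp
    ring
  · rw [Matrix.mulVec_smul, smul_dotProduct, dotProduct_smul, dl, hvu, ← hadef, ← hbdef, haeq]
    simp only [smul_eq_mul]
    field_simp
    ring
  · rw [Matrix.mulVec_smul, dotProduct_smul, Matrix.mulVec_sub, Matrix.mulVec_smul, sub_dotProduct, dotProduct_sub,
      dotProduct_sub, smul_dotProduct, smul_dotProduct, dotProduct_smul, dotProduct_smul, hvu, ← hadef, ← hbdef, haeq]
    simp only [smul_eq_mul]
    field_simp
    ring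
  · unfold refl hyp
    have e1 : (1 - (2 / a) • vecMulVec u (Q *ᵥ u)) * (1 - (2 / b) • vecMulVec v (Q *ᵥ v)) =
        1 - (2 / a) • vecMulVec u (Q *ᵥ u) - (2 / b) • vecMulVec v (Q *ᵥ v) +
          (4 * c / (a * b)) • vecMulVec u (Q *ᵥ v) := by
      rw [sub_mul, mul_sub, mul_sub, mul_one, one_mul, mul_one, smul_mul_assoc, mul_smul_comm, vmv_mul,
        dotProduct_comm (Q *ᵥ u) v, hvu, smul_smul, smul_smul]
      have e2 : 2 / a * (2 / b) * c = 4 * c / (a * b) := by field_simp; ring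

      rw [e2]
      abel
    rw [← hadef, ← hbdef, e1]
    ext i j
    simp only [Matrix.add_apply, Matrix.sub_apply, Matrix.smul_apply, vecMulVec_apply, smul_eq_mul,
      Matrix.mulVec_smul, Matrix.mulVec_sub, Pi.sub_apply, Pi.smul_apply]
    rw [haeq]
    field_simp
    ring


theorem refl_self {Q : Matrix n n ℂ} {u : n → ℂ} (ha : u ⬝ᵥ (Q *ᵥ u) ≠ 0) : refl Q u * refl Q u = 1 := by
  unfold refl
  rw [sub_mul, one_mul, mul_sub, mul_one, smul_mul_assoc, mul_smul_comm, vmv_mul, dotProduct_comm (Q *ᵥ u) u,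
    smul_smul, smul_smul]
  have e2 : 2 / (u ⬝ᵥ (Q *ᵥ u)) * (2 / (u ⬝ᵥ (Q *ᵥ u))) * (u ⬝ᵥ (Q *ᵥ u)) =
      2 / (u ⬝ᵥ (Q *ᵥ u)) + 2 / (u ⬝ᵥ (Q *ᵥ u)) := by field_simp; ring
  rw [e2, add_smul]
  abel

/-- a product of two reflections lies in every submonoid that contains the hyperbolic torus elements -/
theorem pair_mem {Q : Matrix n n ℂ} (hs : Qᵀ = Q) (hdet : Q.det ≠ 0) {M : Submonoid (Matrix n n ℂ)}
    (hM : ∀ (e f : n → ℂ) (z : ℂ), e ⬝ᵥ (Q *ᵥ e) = 0 → f ⬝ᵥ (Q *ᵥ f) = 0 → e ⬝ᵥ (Q *ᵥ f) = 1 → z ≠ 0 →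
      hyp Q e f z ∈ M) {u v : n → ℂ} (ha : u ⬝ᵥ (Q *ᵥ u) ≠ 0) (hb : v ⬝ᵥ (Q *ᵥ v) ≠ 0) :
    refl Q u * refl Q v ∈ M := by
  have good : ∀ {u v : n → ℂ}, u ⬝ᵥ (Q *ᵥ u) ≠ 0 → v ⬝ᵥ (Q *ᵥ v) ≠ 0 →
      (u ⬝ᵥ (Q *ᵥ v)) ^ 2 - (u ⬝ᵥ (Q *ᵥ u)) * (v ⬝ᵥ (Q *ᵥ v)) ≠ 0 → refl Q u * refl Q v ∈ M := by
    intro u v ha hb hd
    obtain ⟨e, f, z, h1, h2, h3, h4, h5⟩ := two_refl hs ha hb hd
    rw [h5]
    exact hM e f z h1 h2 h3 h4
  by_cases hd : (u ⬝ᵥ (Q *ᵥ v)) ^ 2 - (u ⬝ᵥ (Q *ᵥ u)) * (v ⬝ᵥ (Q *ᵥ v)) ≠ 0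
  · exact good ha hb hd
  push Not at hd
  by_cases hy : ∃ y : n → ℂ, u ⬝ᵥ (Q *ᵥ y) = 0 ∧ y ⬝ᵥ (Q *ᵥ y) ≠ 0
  · obtain ⟨y, hy1, hy2⟩ := hy
    -- w = y + s u
    have huv : u ⬝ᵥ (Q *ᵥ v) ≠ 0 := by
      intro h
      rw [h] at hd
      apply mul_ne_zero ha hb
      linear_combination -hd
    have hww : ∀ s : ℂ, (y + s • u) ⬝ᵥ (Q *ᵥ (y + s • u)) = y ⬝ᵥ (Q *ᵥ y) + s ^ 2 * (u ⬝ᵥ (Q *ᵥ u)) := by
      intro s
      rw [Matrix.mulVec_add, Matrix.mulVec_smul, add_dotProduct, dotProduct_add, dotProduct_add, smul_dotProduct,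
        smul_dotProduct, dotProduct_smul, dotProduct_smul, hy1, dot_symm hs y u, hy1]
      simp only [smul_eq_mul]
      ring
    have huw : ∀ s : ℂ, u ⬝ᵥ (Q *ᵥ (y + s • u)) = s * (u ⬝ᵥ (Q *ᵥ u)) := by
      intro s
      rw [Matrix.mulVec_add, Matrix.mulVec_smul, dotProduct_add, dotProduct_smul, hy1, zero_add, smul_eq_mul]
    have hwv : ∀ s : ℂ, (y + s • u) ⬝ᵥ (Q *ᵥ v) = y ⬝ᵥ (Q *ᵥ v) + s * (u ⬝ᵥ (Q *ᵥ v)) := by
      intro s
      rw [add_dotProduct, smul_dotProduct, smul_eq_mul]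
    set a := u ⬝ᵥ (Q *ᵥ u)
    set b := v ⬝ᵥ (Q *ᵥ v)
    set c := u ⬝ᵥ (Q *ᵥ v)
    set d := y ⬝ᵥ (Q *ᵥ y)
    set g := y ⬝ᵥ (Q *ᵥ v)
    -- the polynomial in s
    have hpoly : ∃ s : ℂ, d + s ^ 2 * a ≠ 0 ∧ (g + s * c) ^ 2 - (d + s ^ 2 * a) * b ≠ 0 := by
      -- second condition: g^2 - d b + 2 g c s ≠ 0
      have hlin : ∀ s : ℂ, (g + s * c) ^ 2 - (d + s ^ 2 * a) * b = (g ^ 2 - d * b) + 2 * g * c * s := by
        intro s
        linear_combination (s ^ 2) * hd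
      by_contra hcon
      push Not at hcon
      have hroot : (Polynomial.C d + Polynomial.X ^ 2 * Polynomial.C a) *
          (Polynomial.C (g ^ 2 - d * b) + Polynomial.C (2 * g * c) * Polynomial.X) = 0 := by
        apply Polynomial.funext
        intro s
        rw [Polynomial.eval_mul, Polynomial.eval_zero]
        simp only [Polynomial.eval_add, Polynomial.eval_mul, Polynomial.eval_C, Polynomial.eval_X, Polynomial.eval_pow]
        by_cases h1 : d + s ^ 2 * a = 0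
        · rw [h1, zero_mul]
        · have h2 := hcon s h1
          rw [hlin] at h2
          rw [h2, mul_zero]
      rcases mul_eq_zero.1 hroot with h1 | h1
      · have h2 := congrArg (Polynomial.eval 0) h1
        simp at h2
        exact hy2 h2
      · have h2 := congrArg (Polynomial.eval 0) h1
        have h3 := congrArg (Polynomial.eval 1) h1
        simp only [Polynomial.eval_add, Polynomial.eval_mul, Polynomial.eval_C, Polynomial.eval_X,
          Polynomial.eval_zero, mul_one, mul_zero, add_zero] at h2 h3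
        rw [h2, zero_add] at h3
        have h4 : g = 0 := by
          by_contra hg
          exact mul_ne_zero (mul_ne_zero two_ne_zero hg) huv h3
        rw [h4] at h2
        have h5 : d * b = 0 := by linear_combination -h2
        exact (mul_ne_zero hy2 hb) h5
    obtain ⟨s, hs1, hs2⟩ := hpoly
    have g1 : refl Q u * refl Q (y + s • u) ∈ M := by
      apply good ha
      · rw [hww]
        exact hs1
      · rw [hww, huw]
        intro h
        apply mul_ne_zero ha hy2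
        linear_combination -h
    have g2 : refl Q (y + s • u) * refl Q v ∈ M := by
      apply good _ hb
      · rw [hwv, hww]
        exact hs2
      · rw [hww]
        exact hs1
    have e1 : refl Q u * refl Q v = (refl Q u * refl Q (y + s • u)) * (refl Q (y + s • u) * refl Q v) := by
      have h1 : refl Q (y + s • u) * refl Q (y + s • u) = 1 := refl_self (by rw [hww]; exact hs1)
      calc refl Q u * refl Q v = refl Q u * (refl Q (y + s • u) * refl Q (y + s • u)) * refl Q v := by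
            rw [h1, mul_one]
        _ = _ := by simp only [mul_assoc]
    rw [e1]
    exact M.mul_mem g1 g2
  · push Not at hy
    -- the orthogonal complement of u is zero
    have hperp : ∀ y : n → ℂ, u ⬝ᵥ (Q *ᵥ y) = 0 → y = 0 := by
      intro y h1
      have h2 : ∀ x : n → ℂ, x ⬝ᵥ (Q *ᵥ y) = 0 := by
        intro x
        set k := (u ⬝ᵥ (Q *ᵥ x)) / (u ⬝ᵥ (Q *ᵥ u)) with hk
        have h3 : u ⬝ᵥ (Q *ᵥ (x - k • u)) = 0 := by
          rw [Matrix.mulVec_sub, Matrix.mulVec_smul, dotProduct_sub, dotProduct_smul, smul_eq_mul, hk]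
          field_simp
          ring
        have h4 := hy _ h3
        have h5 := hy _ h1
        have h6 : u ⬝ᵥ (Q *ᵥ ((x - k • u) + y)) = 0 := by
          rw [Matrix.mulVec_add, dotProduct_add, h3, h1, add_zero]
        have h7 := hy _ h6
        rw [Matrix.mulVec_add, add_dotProduct, dotProduct_add, dotProduct_add, h4, h5,
          dot_symm hs y (x - k • u)] at h7
        have h8 : (x - k • u) ⬝ᵥ (Q *ᵥ y) = 0 := by linear_combination h7 / 2
        rw [sub_dotProduct, smul_dotProduct, h1, smul_zero, sub_zero] at h8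
        exact h8
      have h3 : Q *ᵥ y = 0 := by
        funext i
        have := h2 (Pi.single i 1)
        rw [single_dotProduct, one_mul] at this
        exact this
      exact Matrix.eq_zero_of_mulVec_eq_zero hdet h3
    set k := (u ⬝ᵥ (Q *ᵥ v)) / (u ⬝ᵥ (Q *ᵥ u)) with hk
    have h1 : v - k • u = 0 := by
      apply hperp
      rw [Matrix.mulVec_sub, Matrix.mulVec_smul, dotProduct_sub, dotProduct_smul, smul_eq_mul, hk]
      field_simp
      ring
    have h2 : v = k • u := sub_eq_zero.1 h1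
    have hk0 : k ≠ 0 := by
      intro h
      rw [h, zero_smul] at h2
      apply hb
      rw [h2]
      simp
    have h3 : refl Q v = refl Q u := by
      unfold refl
      rw [h2, Matrix.mulVec_smul, smul_dotProduct, dotProduct_smul, Matrix.smul_vecMulVec, Matrix.vecMulVec_smul,
        smul_smul, smul_smul]
      congr 2
      simp only [smul_eq_mul]
      field_simp
    rw [h3, refl_self ha]
    exact M.one_mem

end MH
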