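import Mathlib

/-!
Tensors as functions on multi-indices: matrices acting on the slots, the Lie algebra action, the
equivalence `torus_iff` between invariance under a torus and under its derivative.
-/

open Matrix

namespace MH

section general

variable {R κ n : Type*} [CommRing R] [Fintype κ] [DecidableEq κ] [Fintype n] [DecidableEq n]

/-- the matrix `A k` acts on the slot `k` -/
def actF (A : κ → Matrix n n R) (t : (κ → n) → R) : (κ → n) → R :=
  fun i => ∑ j : κ → n, (∏ k, A k (i k) (j k)) * t j

omit [DecidableEq n] in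
theorem actF_add (A : κ → Matrix n n R) (t u : (κ → n) → R) : actF A (t + u) = actF A t + actF A u := by
  funext i
  simp only [actF, Pi.add_apply, mul_add, Finset.sum_add_distrib]

omit [DecidableEq n] in
theorem actF_smul (A : κ → Matrix n n R) (c : R) (t : (κ → n) → R) : actF A (c • t) = c • actF A t := by
  funext i
  simp only [actF, Pi.smul_apply, smul_eq_mul, Finset.mul_sum]
  exact Finset.sum_congr rfl fun j _ => by ring

omit [DecidableEq n] in
theorem actF_zero (A : κ → Matrix n n R) : actF A 0 = 0 := by
  funext i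
  simp [actF]

omit [DecidableEq n] in
theorem actF_sum {ι : Type*} (s : Finset ι) (A : κ → Matrix n n R) (t : ι → (κ → n) → R) :
    actF A (∑ x ∈ s, t x) = ∑ x ∈ s, actF A (t x) := by
  classical
  induction s using Finset.induction_on with
  | empty => simp [actF_zero]
  | insert a s ha ih => rw [Finset.sum_insert ha, Finset.sum_insert ha, actF_add, ih]

theorem actF_one (t : (κ → n) → R) : actF (fun _ => (1 : Matrix n n R)) t = t := by
  funext i
  unfold actF
  rw [Finset.sum_eq_single i]
  · simp
  · intro j _ hj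
    obtain ⟨k, hk⟩ := Function.ne_iff.1 hj
    rw [Finset.prod_eq_zero (Finset.mem_univ k), zero_mul]
    exact Matrix.one_apply_ne (Ne.symm hk)
  · intro h
    exact absurd (Finset.mem_univ i) h

omit [DecidableEq n] in
theorem actF_mul (A B : κ → Matrix n n R) (t : (κ → n) → R) :
    actF A (actF B t) = actF (fun k => A k * B k) t := by
  funext i
  unfold actF
  simp_rw [Finset.mul_sum]
  rw [Finset.sum_comm]
  refine Finset.sum_congr rfl fun l _ => ?_
  have h1 : ∏ k, (A k * B k) (i k) (l k) = ∑ j : κ → n, ∏ k, (A k (i k) (j k) * B k (j k) (l k)) := by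
    simp_rw [Matrix.mul_apply]
    rw [Finset.prod_univ_sum, Fintype.piFinset_univ]
  rw [h1, Finset.sum_mul]
  refine Finset.sum_congr rfl fun j _ => ?_
  rw [Finset.prod_mul_distrib]
  ring

omit [DecidableEq n] in
theorem actF_scal (c : κ → R) (A : κ → Matrix n n R) (t : (κ → n) → R) :
    actF (fun k => c k • A k) t = (∏ k, c k) • actF A t := by
  funext i
  simp only [actF, Pi.smul_apply, smul_eq_mul, Matrix.smul_apply, Finset.prod_mul_distrib, Finset.mul_sum]
  exact Finset.sum_congr rfl fun j _ => by ring

omit [DecidableEq n] in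
theorem actF_expand (S : κ → Finset ℤ) (M : κ → ℤ → Matrix n n R) (t : (κ → n) → R) :
    actF (fun k => ∑ p ∈ S k, M k p) t = ∑ φ ∈ Fintype.piFinset S, actF (fun k => M k (φ k)) t := by
  funext i
  simp only [actF, Finset.sum_apply, Matrix.sum_apply]
  rw [Finset.sum_comm]
  refine Finset.sum_congr rfl fun j _ => ?_
  rw [Finset.prod_univ_sum, Finset.sum_mul]

omit [DecidableEq n] in
theorem actF_upd (A : κ → Matrix n n R) (k : κ) (X : Matrix n n R) (t : (κ → n) → R) (i : κ → n) :
    actF (Function.update A k X) t i =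
      ∑ j : κ → n, X (i k) (j k) * ((∏ l ∈ Finset.univ \ {k}, A l (i l) (j l)) * t j) := by
  unfold actF
  refine Finset.sum_congr rfl fun j _ => ?_
  have h1 : ∀ l, (Function.update A k X) l (i l) (j l) =
      Function.update (fun l => A l (i l) (j l)) k (X (i k) (j k)) l := by
    intro l
    by_cases h : l = k
    · subst h
      simp
    · simp [Function.update_of_ne h]
  simp_rw [h1]
  rw [Finset.prod_update_of_mem (Finset.mem_univ k), mul_assoc]

omit [DecidableEq n] in
theorem actF_upd_add (A : κ → Matrix n n R) (k : κ) (X Y : Matrix n n R) (t : (κ → n) → R) :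
    actF (Function.update A k (X + Y)) t =
      actF (Function.update A k X) t + actF (Function.update A k Y) t := by
  funext i
  rw [Pi.add_apply, actF_upd, actF_upd, actF_upd, ← Finset.sum_add_distrib]
  exact Finset.sum_congr rfl fun j _ => by rw [Matrix.add_apply]; ring

omit [DecidableEq n] in
theorem actF_upd_smul (A : κ → Matrix n n R) (k : κ) (c : R) (X : Matrix n n R) (t : (κ → n) → R) :
    actF (Function.update A k (c • X)) t = c • actF (Function.update A k X) t := by
  funext i
  rw [Pi.smul_apply, actF_upd, actF_upd, smul_eq_mul, Finset.mul_sum]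
  exact Finset.sum_congr rfl fun j _ => by rw [Matrix.smul_apply, smul_eq_mul]; ring

/-- the action of the Lie algebra, `X k` acts on the slot `k` -/
def dact (X : κ → Matrix n n R) (t : (κ → n) → R) : (κ → n) → R :=
  ∑ k, actF (Function.update (fun _ => 1) k (X k)) t

theorem dact_add_left (X Y : κ → Matrix n n R) (t : (κ → n) → R) :
    dact (X + Y) t = dact X t + dact Y t := by
  unfold dact
  rw [← Finset.sum_add_distrib]
  exact Finset.sum_congr rfl fun k _ => by rw [Pi.add_apply, actF_upd_add]

theorem dact_smul_left (c : R) (X : κ → Matrix n n R) (t : (κ → n) → R) :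
    dact (c • X) t = c • dact X t := by
  unfold dact
  rw [Finset.smul_sum]
  exact Finset.sum_congr rfl fun k _ => by rw [Pi.smul_apply, actF_upd_smul]

theorem dact_zero (X : κ → Matrix n n R) : dact X 0 = 0 := by
  unfold dact
  exact Finset.sum_eq_zero fun k _ => actF_zero _

theorem dact_sum {ι : Type*} (s : Finset ι) (X : κ → Matrix n n R) (t : ι → (κ → n) → R) :
    dact X (∑ x ∈ s, t x) = ∑ x ∈ s, dact X (t x) := by
  unfold dact
  simp_rw [actF_sum]
  exact Finset.sum_comm

theorem dact_sub_left (X Y : κ → Matrix n n R) (t : (κ → n) → R) :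
    dact (X - Y) t = dact X t - dact Y t := by
  have h1 := dact_add_left X ((-1 : R) • Y) t
  rw [dact_smul_left] at h1
  rw [sub_eq_add_neg, sub_eq_add_neg, ← neg_one_smul R Y, h1, neg_one_smul]

/-- the bracket -/
theorem dact_bracket (X Y : κ → Matrix n n R) (t : (κ → n) → R) :
    dact X (dact Y t) - dact Y (dact X t) = dact (fun k => X k * Y k - Y k * X k) t := by
  have e : ∀ X Y : κ → Matrix n n R, dact X (dact Y t) = ∑ k, ∑ l,
      actF (fun x => Function.update (fun _ => (1 : Matrix n n R)) k (X k) x *
        Function.update (fun _ => (1 : Matrix n n R)) l (Y l) x) t := by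
    intro X Y
    unfold dact
    refine Finset.sum_congr rfl fun k _ => ?_
    rw [actF_sum]
    exact Finset.sum_congr rfl fun l _ => actF_mul _ _ _
  have hoff : ∀ k l, k ≠ l →
      (fun x => Function.update (fun _ => (1 : Matrix n n R)) k (X k) x *
        Function.update (fun _ => (1 : Matrix n n R)) l (Y l) x) =
      (fun x => Function.update (fun _ => (1 : Matrix n n R)) l (Y l) x *
        Function.update (fun _ => (1 : Matrix n n R)) k (X k) x) := by
    intro k l hkl
    funext x
    by_cases h1 : x = k
    · subst h1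
      simp [Function.update_of_ne hkl]
    · simp [Function.update_of_ne h1]
  have hdiag : ∀ (X Y : κ → Matrix n n R) (k : κ),
      (fun x => Function.update (fun _ => (1 : Matrix n n R)) k (X k) x *
        Function.update (fun _ => (1 : Matrix n n R)) k (Y k) x) =
      Function.update (fun _ => (1 : Matrix n n R)) k (X k * Y k) := by
    intro X Y k
    funext x
    by_cases h1 : x = k
    · subst h1
      simp
    · simp [Function.update_of_ne h1]
  rw [e X Y, e Y X]
  have h2 : ∑ k, ∑ l, actF (fun x => Function.update (fun _ => (1 : Matrix n n R)) k (Y k) x *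
        Function.update (fun _ => (1 : Matrix n n R)) l (X l) x) t =
      ∑ k, ∑ l, actF (fun x => Function.update (fun _ => (1 : Matrix n n R)) l (Y l) x *
        Function.update (fun _ => (1 : Matrix n n R)) k (X k) x) t := Finset.sum_comm
  rw [h2, ← Finset.sum_sub_distrib]
  unfold dact
  refine Finset.sum_congr rfl fun k _ => ?_
  rw [← Finset.sum_sub_distrib, Finset.sum_eq_single k]
  · change _ = actF (Function.update (fun _ => (1 : Matrix n n R)) k (X k * Y k - Y k * X k)) t
    rw [hdiag, hdiag, sub_eq_add_neg (X k * Y k), ← neg_one_smul R (Y k * X k), actF_upd_add, actF_upd_smul,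
      neg_one_smul, ← sub_eq_add_neg]
  · intro l _ hl
    rw [hoff k l (Ne.symm hl), sub_self]
  · intro h
    exact absurd (Finset.mem_univ k) h

/-- conjugation -/
theorem dact_conj (g g' : κ → Matrix n n R) (hg : ∀ k, g k * g' k = 1) (X : κ → Matrix n n R)
    (t : (κ → n) → R) : dact (fun k => g k * X k * g' k) t = actF g (dact X (actF g' t)) := by
  unfold dact
  rw [actF_sum]
  refine Finset.sum_congr rfl fun k _ => ?_
  rw [actF_mul, actF_mul]
  congr 1
  funext x
  by_cases h1 : x = k
  · subst h1
    simp [mul_assoc]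
  · simp [Function.update_of_ne h1, hg]

omit [DecidableEq n] in
/-- change of rings -/
theorem actF_map {R' : Type*} [CommRing R'] (f : R →+* R') (A : κ → Matrix n n R) (t : (κ → n) → R)
    (i : κ → n) : actF (fun k => (A k).map f) (fun j => f (t j)) i = f (actF A t i) := by
  simp [actF, map_sum, map_mul, map_prod]

theorem dact_map {R' : Type*} [CommRing R'] (f : R →+* R') (X : κ → Matrix n n R) (t : (κ → n) → R)
    (i : κ → n) : dact (fun k => (X k).map f) (fun j => f (t j)) i = f (dact X t i) := by
  unfold dact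
  rw [Finset.sum_apply, Finset.sum_apply, map_sum]
  refine Finset.sum_congr rfl fun k _ => ?_
  rw [← actF_map]
  congr 1
  funext x
  by_cases h1 : x = k
  · subst h1
    simp
  · simp [Function.update_of_ne h1]

end general

/-! ### tori -/

section torus

variable {κ n : Type*} [Fintype κ] [DecidableEq κ] [Fintype n] [DecidableEq n]

/-- orthogonal idempotents for each slot -/
structure Idem (S : κ → Finset ℤ) (P : κ → ℤ → Matrix n n ℂ) : Prop where
  mul : ∀ k p q, P k p * P k q = if p = q then P k p else 0
  sum : ∀ k, ∑ p ∈ S k, P k p = 1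

theorem Idem.torus_iff {S : κ → Finset ℤ} {P : κ → ℤ → Matrix n n ℂ} (hP : Idem S P)
    (t : (κ → n) → ℂ) :
    (∀ z : ℂ, z ≠ 0 → actF (fun k => ∑ p ∈ S k, z ^ p • P k p) t = t) ↔
      dact (fun k => ∑ p ∈ S k, (p : ℂ) • P k p) t = 0 := by
  have hexp : t = ∑ φ ∈ Fintype.piFinset S, actF (fun k => P k (φ k)) t := by
    conv_lhs => rw [← actF_one t]
    rw [← actF_expand]
    congr 1
    funext k
    exact (hP.sum k).symm
  have hl : ∀ (c : ℤ → ℂ) (k : κ) (q : ℤ), q ∈ S k → (∑ p ∈ S k, c p • P k p) * P k q = c q • P k q := by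
    intro c k q hq
    rw [Finset.sum_mul, Finset.sum_eq_single q]
    · rw [smul_mul_assoc, hP.mul, if_pos rfl]
    · intro p _ hp
      rw [smul_mul_assoc, hP.mul, if_neg hp, smul_zero]
    · intro h
      exact absurd hq h
  have hr : ∀ (c : ℤ → ℂ) (k : κ) (q : ℤ), q ∈ S k → P k q * (∑ p ∈ S k, c p • P k p) = c q • P k q := by
    intro c k q hq
    rw [Finset.mul_sum, Finset.sum_eq_single q]
    · rw [mul_smul_comm, hP.mul, if_pos rfl]
    · intro p _ hp
      rw [mul_smul_comm, hP.mul, if_neg (Ne.symm hp), smul_zero]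
    · intro h
      exact absurd hq h
  have hz : ∀ (z : ℂ), z ≠ 0 → ∀ (φ : κ → ℤ), ∏ k, z ^ (φ k) = z ^ (∑ k, φ k) := by
    intro z hz φ
    classical
    induction (Finset.univ : Finset κ) using Finset.induction_on with
    | empty => simp
    | insert a s ha ih => rw [Finset.prod_insert ha, Finset.sum_insert ha, ih, zpow_add₀ hz]
  -- the derivative on a component
  have hd1 : ∀ φ ∈ Fintype.piFinset S, dact (fun k => ∑ p ∈ S k, (p : ℂ) • P k p)
      (actF (fun k => P k (φ k)) t) = ((∑ k, φ k : ℤ) : ℂ) • actF (fun k => P k (φ k)) t := by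
    intro φ hφ
    have hφ' := Fintype.mem_piFinset.1 hφ
    unfold dact
    rw [Int.cast_sum, Finset.sum_smul]
    refine Finset.sum_congr rfl fun k _ => ?_
    rw [actF_mul]
    have e : (fun x => Function.update (fun _ => (1 : Matrix n n ℂ)) k (∑ p ∈ S k, (p : ℂ) • P k p) x * P x (φ x)) =
        fun x => (Function.update (fun _ => (1 : ℂ)) k ((φ k : ℤ) : ℂ)) x • P x (φ x) := by
      funext x
      by_cases h1 : x = k
      · subst h1
        simp only [Function.update_self]
        exact hl (fun p => (p : ℂ)) x (φ x) (hφ' x)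
      · simp [Function.update_of_ne h1]
    rw [e, actF_scal, Finset.prod_update_of_mem (Finset.mem_univ k)]
    simp
  have hd2 : ∀ φ ∈ Fintype.piFinset S, actF (fun k => P k (φ k)) (dact (fun k => ∑ p ∈ S k, (p : ℂ) • P k p) t) =
      ((∑ k, φ k : ℤ) : ℂ) • actF (fun k => P k (φ k)) t := by
    intro φ hφ
    have hφ' := Fintype.mem_piFinset.1 hφ
    unfold dact
    rw [Int.cast_sum, Finset.sum_smul, actF_sum]
    refine Finset.sum_congr rfl fun k _ => ?_
    rw [actF_mul]
    have e : (fun x => P x (φ x) * Function.update (fun _ => (1 : Matrix n n ℂ)) k (∑ p ∈ S k, (p : ℂ) • P k p) x) =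
        fun x => (Function.update (fun _ => (1 : ℂ)) k ((φ k : ℤ) : ℂ)) x • P x (φ x) := by
      funext x
      by_cases h1 : x = k
      · subst h1
        simp only [Function.update_self]
        exact hr (fun p => (p : ℂ)) x (φ x) (hφ' x)
      · simp [Function.update_of_ne h1]
    rw [e, actF_scal, Finset.prod_update_of_mem (Finset.mem_univ k)]
    simp
  have ha1 : ∀ z : ℂ, z ≠ 0 → ∀ φ ∈ Fintype.piFinset S,
      actF (fun k => P k (φ k)) (actF (fun k => ∑ p ∈ S k, z ^ p • P k p) t) =
        z ^ (∑ k, φ k) • actF (fun k => P k (φ k)) t := by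
    intro z h0 φ hφ
    have hφ' := Fintype.mem_piFinset.1 hφ
    rw [actF_mul]
    have e : (fun x => P x (φ x) * ∑ p ∈ S x, z ^ p • P x p) = fun x => z ^ (φ x) • P x (φ x) := by
      funext x
      exact hr (fun p => z ^ p) x (φ x) (hφ' x)
    rw [e, actF_scal, hz z h0]
  constructor
  · intro h
    conv_lhs => rw [hexp]
    rw [dact_sum]
    refine Finset.sum_eq_zero fun φ hφ => ?_
    rw [hd1 φ hφ]
    by_cases h0 : (∑ k, φ k) = 0
    · rw [h0, Int.cast_zero, zero_smul]
    · have h1 := ha1 2 two_ne_zero φ hφ
      rw [h 2 two_ne_zero] at h1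
      have h2 : ((2 : ℂ) ^ (∑ k, φ k) - 1) • actF (fun k => P k (φ k)) t = 0 := by
        rw [sub_smul, ← h1, one_smul, sub_self]
      rcases smul_eq_zero.1 h2 with h3 | h3
      · exfalso
        have h4 : (2 : ℂ) ^ (∑ k, φ k) = 1 := sub_eq_zero.1 h3
        have h5 : (2 : ℝ) ^ (∑ k, φ k) = 1 := by
          have h7 := congrArg norm h4
          rw [norm_zpow, norm_one, Complex.norm_ofNat] at h7
          exact h7
        have h6 := (zpow_right_injective₀ (a := (2 : ℝ)) (by norm_num) (by norm_num)) (h5.trans (zpow_zero 2).symm)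
        exact h0 h6
      · rw [h3, smul_zero]
  · intro h z h0
    have h1 : ∀ φ ∈ Fintype.piFinset S, z ^ (∑ k, φ k) • actF (fun k => P k (φ k)) t =
        actF (fun k => P k (φ k)) t := by
      intro φ hφ
      have h2 := hd2 φ hφ
      rw [h, actF_zero] at h2
      rcases smul_eq_zero.1 h2.symm with h3 | h3
      · have h4 : (∑ k, φ k) = 0 := by exact_mod_cast h3
        rw [h4, zpow_zero, one_smul]
      · rw [h3, smul_zero]
    rw [actF_expand]
    conv_rhs => rw [hexp]
    refine Finset.sum_congr rfl fun φ hφ => ?_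
    rw [← h1 φ hφ, ← hz z h0, ← actF_scal]

end torus

end MH
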